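import Pool.Agent.H82.TO.Lbp
import Pool.Agent.H88.TS.Asm
import Mathlib.NumberTheory.Harmonic.Bounds

/-! # [H82 TO LO] Lower bounds for `j = 1, 2`: first moment minus pairs -/

namespace Pool.Agent.H82.TO

open Finset MvPolynomial Pool.Agent.H8.AA Pool.Agent.H88.A2 Pool.Agent.H88.TS

/-- the points -/
def pts (X : ℕ) : Finset (ℕ × ℕ) := ((Icc 1 X) ×ˢ (range X)).filter (fun p => p.2 < p.1)

theorem mem_pts {X : ℕ} {p : ℕ × ℕ} (hp : p ∈ pts X) : 1 ≤ p.1 ∧ p.1 ≤ X ∧ p.2 < p.1 := by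
  unfold pts at hp
  rw [mem_filter, mem_product, mem_Icc] at hp
  exact ⟨hp.1.1.1, hp.1.1.2, hp.2⟩

theorem card_pts (X : ℕ) : (pts X).card ≤ X ^ 2 := by
  unfold pts
  refine (card_filter_le _ _).trans ?_
  rw [card_product, Nat.card_Icc, card_range]
  have : X + 1 - 1 = X := by omega
  rw [this, sq]

theorem sum_pts (X : ℕ) (a : ℕ → ℝ) : ∑ p ∈ pts X, a p.1 = ∑ x ∈ Icc 1 X, (x : ℝ) * a x := by
  unfold pts
  rw [sum_filter, sum_product]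
  refine sum_congr rfl fun x hx => ?_
  have hx' := mem_Icc.1 hx
  simp only
  rw [← sum_filter, sum_const, nsmul_eq_mul]
  have h1 : (range X).filter (fun y => y < x) = range x := by
    ext y
    rw [mem_filter, mem_range, mem_range]
    constructor
    · exact fun h => h.2
    · exact fun h => ⟨by omega, h⟩
  rw [h1, card_range]

/-- first moment minus pairs -/
theorem mom (j : ℕ) (hj : 1 ≤ j) : ∃ Cp : ℝ, 0 ≤ Cp ∧ ∀ (H : ℕ), 1 ≤ H → ∀ (G : MvPolynomial (Fin 2) ℤ) (X : ℕ) (a : ℕ → ℝ),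
    (∀ p ∈ pts X, a p.1 ≤ (((box j H).filter fun c => ev j (co c) (p.1 : ℤ) (p.2 : ℤ) = - eval ![(p.1 : ℤ), (p.2 : ℤ)] G).card : ℝ)) →
    ∑ x ∈ Icc 1 X, (x : ℝ) * a x - (X : ℝ) ^ 4 * (Cp * (2 * (H : ℝ) + 1) ^ (Fintype.card (Ix j) - 2)) ≤
    (Set.ncard {L : MvPolynomial (Fin 2) ℤ | L.totalDegree ≤ j ∧ (∀ m, |L.coeff m| ≤ (H : ℤ)) ∧
      ∃ P : Fin 2 → ℤ, eval P (G + L) = 0} : ℝ) := by
  classical
  obtain ⟨Cp, hCp, hp⟩ := pairs j hj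
  refine ⟨Cp, hCp, ?_⟩
  intro H hH G X a ha
  obtain ⟨z, hz⟩ : ∃ z : (Ix j → ℤ) → ℕ × ℕ → Prop, z = fun c p =>
    ev j (co c) (p.1 : ℤ) (p.2 : ℤ) = - eval ![(p.1 : ℤ), (p.2 : ℤ)] G := ⟨_, rfl⟩
  have hb := (Pool.Agent.H15.SC.bonf (box j H) (pts X) z (Cp * (2 * (H : ℝ) + 1) ^ (Fintype.card (Ix j) - 2)) (by positivity) (by
    intro P _ Q _ hPQ
    refine hp H hH ((P.1 : ℤ), (P.2 : ℤ)) ((Q.1 : ℤ), (Q.2 : ℤ)) (- eval ![(P.1 : ℤ), (P.2 : ℤ)] G) (- eval ![(Q.1 : ℤ), (Q.2 : ℤ)] G) ?_ _ ?_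
    · intro h
      apply hPQ
      have h1 := congrArg Prod.fst h
      have h2 := congrArg Prod.snd h
      simp only at h1 h2
      exact Prod.ext (by exact_mod_cast h1) (by exact_mod_cast h2)
    · intro c hc
      rw [mem_filter, mem_box, hz] at hc
      exact ⟨hc.1, hc.2.1, hc.2.2⟩)).1
  have h1 := (abs_le.1 hb).1
  have h2 : ∑ x ∈ Icc 1 X, (x : ℝ) * a x ≤ ∑ P ∈ pts X, (((box j H).filter fun c => z c P).card : ℝ) := by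
    rw [← sum_pts]
    refine sum_le_sum fun p hp' => ?_
    have e : ((box j H).filter fun c => z c p) =
        ((box j H).filter fun c => ev j (co c) (p.1 : ℤ) (p.2 : ℤ) = - eval ![(p.1 : ℤ), (p.2 : ℤ)] G) := by
      ext c
      rw [mem_filter, mem_filter, hz]
    rw [e]
    exact ha p hp'
  have h3 : ((pts X).card : ℝ) ^ 2 ≤ (X : ℝ) ^ 4 := by
    have h4 : ((pts X).card : ℝ) ≤ (X : ℝ) ^ 2 := by exact_mod_cast card_pts X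
    calc ((pts X).card : ℝ) ^ 2 ≤ ((X : ℝ) ^ 2) ^ 2 := pow_le_pow_left₀ (by positivity) h4 2
      _ = _ := by ring
  have h5 : ((pts X).card : ℝ) ^ 2 * (Cp * (2 * (H : ℝ) + 1) ^ (Fintype.card (Ix j) - 2)) ≤
      (X : ℝ) ^ 4 * (Cp * (2 * (H : ℝ) + 1) ^ (Fintype.card (Ix j) - 2)) :=
    mul_le_mul_of_nonneg_right h3 (by positivity)
  have h6 : (((box j H).filter fun c => ∃ P ∈ pts X, z c P).card : ℝ) ≤
      (Set.ncard {L : MvPolynomial (Fin 2) ℤ | L.totalDegree ≤ j ∧ (∀ m, |L.coeff m| ≤ (H : ℤ)) ∧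
        ∃ P : Fin 2 → ℤ, eval P (G + L) = 0} : ℝ) := by
    rw [pol_set j H (fun L => ∃ P : Fin 2 → ℤ, eval P (G + L) = 0)]
    have h7 : (((box j H).filter fun c => ∃ P ∈ pts X, z c P : Finset (Ix j → ℤ)) : Set (Ix j → ℤ)) ⊆
        {c : Ix j → ℤ | c ∈ box j H ∧ ∃ P : Fin 2 → ℤ, eval P (G + pol c) = 0} := by
      intro c hc
      rw [mem_coe, mem_filter] at hc
      obtain ⟨hc1, p, _, hc3⟩ := hc
      refine ⟨hc1, ![(p.1 : ℤ), (p.2 : ℤ)], ?_⟩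
      rw [hz] at hc3
      have h8 := ar_ev (Pool.Agent.H88.A2.pol_deg c) ![(p.1 : ℤ), (p.2 : ℤ)]
      rw [ar_pol] at h8
      rw [map_add, ← h8]
      have h9 : ev j (co c) (![(p.1 : ℤ), (p.2 : ℤ)] 0) (![(p.1 : ℤ), (p.2 : ℤ)] 1) = ev j (co c) (p.1 : ℤ) (p.2 : ℤ) := rfl
      rw [h9, hc3]
      ring
    have h8 : {c : Ix j → ℤ | c ∈ box j H ∧ ∃ P : Fin 2 → ℤ, eval P (G + pol c) = 0}.Finite :=
      (box j H).finite_toSet.subset fun c hc => hc.1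
    have h9 := Set.ncard_le_ncard h7 h8
    rw [Set.ncard_coe_finset] at h9
    exact_mod_cast h9
  linarith

/-- `j = 1` -/
theorem lo1 (n : ℕ) (hn : 4 ≤ n) (G : MvPolynomial (Fin 2) ℤ) (hG : G.totalDegree ≤ n) : ∃ c : ℝ, 0 < c ∧ ∃ H0 : ℕ, ∀ H : ℕ, H0 ≤ H →
    c * (H : ℝ) ^ (2 + 1 / ((n - 1 : ℕ) : ℝ)) ≤
    (Set.ncard {L : MvPolynomial (Fin 2) ℤ | L.totalDegree ≤ 1 ∧ (∀ m, |L.coeff m| ≤ (H : ℤ)) ∧
      ∃ P : Fin 2 → ℤ, eval P (G + L) = 0} : ℝ) := by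
  obtain ⟨Cp, hCp, hm⟩ := mom 1 (le_refl _)
  obtain ⟨D, hD, hval⟩ := val_le hG
  obtain ⟨δ, hδ⟩ : ∃ δ : ℝ, δ = 1 / (192 * Cp + 8 * D + 16) := ⟨_, rfl⟩
  have hδ0 : 0 < δ := by rw [hδ]; positivity
  have hden : δ * (192 * Cp + 8 * D + 16) = 1 := by
    rw [hδ, one_div, inv_mul_cancel₀ (by positivity)]
  have hδ1 : δ ≤ 1 := by
    rw [hδ, div_le_one (by positivity)]
    linarith
  have hδC : 192 * Cp * δ ≤ 1 := by nlinarith
  have hδD : 8 * D * δ ≤ 1 := by nlinarith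
  have hδ16 : 16 * δ ≤ 1 := by nlinarith
  refine ⟨δ / 128, by positivity, ⌈(1 / δ) ^ (n - 1)⌉₊ + 1, ?_⟩
  intro H hHH
  have hH : 1 ≤ H := by omega
  have hH' : (1 : ℝ) ≤ (H : ℝ) := by exact_mod_cast hH
  have hH0 : (0 : ℝ) < (H : ℝ) := by linarith
  have hnr : (0 : ℝ) < ((n - 1 : ℕ) : ℝ) := by exact_mod_cast (by omega : 0 < n - 1)
  obtain ⟨S, hS⟩ : ∃ S : ℝ, S = (H : ℝ) ^ (1 / ((n - 1 : ℕ) : ℝ)) := ⟨_, rfl⟩
  have hS1 : 1 ≤ S := by rw [hS]; exact Real.one_le_rpow hH' (by positivity)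
  have hS0 : 0 < S := by linarith
  have hSH : S ^ (n - 1) = H := by
    rw [hS, ← Real.rpow_natCast, ← Real.rpow_mul hH0.le, one_div, inv_mul_cancel₀ hnr.ne', Real.rpow_one]
  have hpow : (H : ℝ) ^ (2 + 1 / ((n - 1 : ℕ) : ℝ)) = (H : ℝ) ^ 2 * S := by
    rw [Real.rpow_add hH0, hS]
    norm_num
  have hSle : S ≤ H := by
    rw [← hSH]
    exact le_self_pow₀ hS1 (by omega)
  have hS3 : S ^ 3 ≤ H := by
    rw [← hSH]
    exact pow_le_pow_right₀ hS1 (by omega)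
  have hδS : 1 ≤ δ * S := by
    by_contra hcon
    push Not at hcon
    have h1 : S < 1 / δ := by rw [lt_div_iff₀ hδ0]; linarith
    have h2 : S ^ (n - 1) < (1 / δ) ^ (n - 1) := pow_lt_pow_left₀ h1 hS0.le (by omega)
    rw [hSH] at h2
    have h3 : (1 / δ) ^ (n - 1) ≤ (⌈(1 / δ) ^ (n - 1)⌉₊ : ℝ) := Nat.le_ceil _
    have h4 : ((⌈(1 / δ) ^ (n - 1)⌉₊ + 1 : ℕ) : ℝ) ≤ (H : ℝ) := by exact_mod_cast hHH
    push_cast at h4
    linarith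
  obtain ⟨X, hX⟩ : ∃ X : ℕ, X = ⌊δ * S⌋₊ := ⟨_, rfl⟩
  have hXle : (X : ℝ) ≤ δ * S := by rw [hX]; exact Nat.floor_le (by positivity)
  have hX1 : 1 ≤ X := by rw [hX]; exact Nat.floor_pos.2 hδS
  have hXge : δ * S / 2 ≤ X := by
    have h1 : δ * S < (X : ℝ) + 1 := by rw [hX]; exact Nat.lt_floor_add_one _
    have h2 : (1 : ℝ) ≤ X := by exact_mod_cast hX1
    linarith
  have h1 := hm H hH G X (fun x => (H : ℝ) ^ 2 / (32 * x)) (by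
    intro p hp
    obtain ⟨hp1, hp2, hp3⟩ := mem_pts hp
    have hpr : (1 : ℝ) ≤ p.1 := by exact_mod_cast hp1
    have hpX : (p.1 : ℝ) ≤ δ * S := le_trans (by exact_mod_cast hp2) hXle
    have h16 : 16 * (p.1 : ℝ) ≤ H := by nlinarith
    have hv := hval ![(p.1 : ℤ), (p.2 : ℤ)] (p.1 : ℝ) hpr (by simp) (by
      simp only [Matrix.cons_val_one, Matrix.cons_val_fin_one, Int.cast_natCast, Nat.abs_cast]
      exact_mod_cast hp3.le)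
    have hN : 8 * |((- eval ![(p.1 : ℤ), (p.2 : ℤ)] G : ℤ) : ℝ)| ≤ H * p.1 := by
      push_cast
      rw [abs_neg]
      have e1 : (p.1 : ℝ) ^ n = (p.1 : ℝ) ^ (n - 1) * p.1 := by
        rw [← pow_succ]
        congr 1
        omega
      have e2 : (p.1 : ℝ) ^ (n - 1) ≤ δ * H := by
        calc (p.1 : ℝ) ^ (n - 1) ≤ (δ * S) ^ (n - 1) := pow_le_pow_left₀ (by positivity) hpX _
          _ = δ ^ (n - 1) * H := by rw [mul_pow, hSH]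
          _ ≤ δ * H := by
              have : δ ^ (n - 1) ≤ δ := pow_le_of_le_one hδ0.le hδ1 (by omega)
              gcongr
      calc 8 * |((eval ![(p.1 : ℤ), (p.2 : ℤ)] G : ℤ) : ℝ)| ≤ 8 * (D * (p.1 : ℝ) ^ n) := by gcongr
        _ = 8 * D * ((p.1 : ℝ) ^ (n - 1) * p.1) := by rw [e1]; ring
        _ ≤ 8 * D * ((δ * H) * p.1) := by gcongr
        _ = (8 * D * δ) * (H * p.1) := by ring
        _ ≤ 1 * (H * p.1) := by gcongr
        _ = _ := one_mul _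
    have h2 := lb1 H (p.1 : ℤ) (p.2 : ℤ) (- eval ![(p.1 : ℤ), (p.2 : ℤ)] G) (by exact_mod_cast hp1) (by
      rw [Nat.abs_cast]
      exact_mod_cast hp3.le) (by exact_mod_cast h16) (by exact_mod_cast hN)
    simp only [Int.cast_natCast] at h2
    exact h2)
  rw [card_ix, show (1 + 1) * (1 + 2) / 2 - 2 = 1 from rfl, pow_one] at h1
  have h2 : ∑ x ∈ Icc 1 X, (x : ℝ) * ((H : ℝ) ^ 2 / (32 * x)) = X * ((H : ℝ) ^ 2 / 32) := by
    have h3 : ∀ x ∈ Icc 1 X, (x : ℝ) * ((H : ℝ) ^ 2 / (32 * x)) = (H : ℝ) ^ 2 / 32 := by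
      intro x hx
      have hx' : (x : ℝ) ≠ 0 := by
        have := (mem_Icc.1 hx).1
        exact_mod_cast (by omega : x ≠ 0)
      field_simp
    rw [sum_congr rfl h3, sum_const, Nat.card_Icc, nsmul_eq_mul]
    simp
  rw [h2] at h1
  have h3 : (X : ℝ) ^ 4 * (Cp * (2 * (H : ℝ) + 1)) ≤ X * ((H : ℝ) ^ 2 / 64) := by
    have e1 : (X : ℝ) ^ 3 ≤ δ * H := by
      calc (X : ℝ) ^ 3 ≤ (δ * S) ^ 3 := pow_le_pow_left₀ (by positivity) hXle 3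
        _ = δ ^ 3 * S ^ 3 := mul_pow _ _ _
        _ ≤ δ * H := by
            have : δ ^ 3 ≤ δ := pow_le_of_le_one hδ0.le hδ1 (by omega)
            gcongr
    calc (X : ℝ) ^ 4 * (Cp * (2 * (H : ℝ) + 1)) ≤ (X : ℝ) ^ 4 * (Cp * (3 * H)) := by
          have : 2 * (H : ℝ) + 1 ≤ 3 * H := by linarith
          gcongr
      _ = X * ((X : ℝ) ^ 3 * (3 * Cp * H)) := by ring
      _ ≤ X * ((δ * H) * (3 * Cp * H)) := by gcongr
      _ = X * ((192 * Cp * δ) * ((H : ℝ) ^ 2 / 64)) := by ring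
      _ ≤ X * (1 * ((H : ℝ) ^ 2 / 64)) := by gcongr
      _ = _ := by ring
  rw [hpow]
  have h4 : δ * S / 2 * ((H : ℝ) ^ 2 / 64) ≤ X * ((H : ℝ) ^ 2 / 64) := by gcongr
  have h5 : δ / 128 * ((H : ℝ) ^ 2 * S) = δ * S / 2 * ((H : ℝ) ^ 2 / 64) := by ring
  rw [h5]
  linarith

/-- `j = 2` -/
theorem lo2 (n : ℕ) (hn : 4 ≤ n) (G : MvPolynomial (Fin 2) ℤ) (hG : G.totalDegree ≤ n) : ∃ c : ℝ, 0 < c ∧ ∃ H0 : ℕ, ∀ H : ℕ, H0 ≤ H →
    c * ((H : ℝ) ^ 5 * Real.log H) ≤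
    (Set.ncard {L : MvPolynomial (Fin 2) ℤ | L.totalDegree ≤ 2 ∧ (∀ m, |L.coeff m| ≤ (H : ℤ)) ∧
      ∃ P : Fin 2 → ℤ, eval P (G + L) = 0} : ℝ) := by
  obtain ⟨Cp, hCp, hm⟩ := mom 2 (by norm_num)
  obtain ⟨D, hD, hval⟩ := val_le hG
  have hn0 : (4 : ℝ) ≤ n := by exact_mod_cast hn
  obtain ⟨η, hη⟩ : ∃ η : ℝ, η = 1 / (4 * n) := ⟨_, rfl⟩
  have hη0 : 0 < η := by rw [hη]; positivity
  have hη16 : 16 * η ≤ 1 := by
    rw [hη, mul_one_div, div_le_one (by positivity)]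
    linarith
  have hηn : η * n = 1 / 4 := by
    rw [hη]
    field_simp
  -- the constant
  obtain ⟨κ, hκ⟩ : ∃ κ : ℝ, κ = 1 / 4 ^ 9 := ⟨_, rfl⟩
  have hκ0 : 0 < κ := by rw [hκ]; positivity
  obtain ⟨Q, hQ⟩ : ∃ Q : ℝ, Q = 16 + 8 * D + 2 * (81 * Cp) / (κ * η) := ⟨_, rfl⟩
  have hQ0 : 0 < Q := by rw [hQ]; positivity
  refine ⟨κ * η / 2, by positivity, ⌈Q ^ 2⌉₊ + 3, ?_⟩
  intro H hHH
  have hH : 1 ≤ H := by omega
  have hH' : (1 : ℝ) ≤ (H : ℝ) := by exact_mod_cast hH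
  have hH0 : (0 : ℝ) < (H : ℝ) := by linarith
  have hQH : Q ^ 2 ≤ H := by
    have h3 : Q ^ 2 ≤ (⌈Q ^ 2⌉₊ : ℝ) := Nat.le_ceil _
    have h4 : ((⌈Q ^ 2⌉₊ + 3 : ℕ) : ℝ) ≤ (H : ℝ) := by exact_mod_cast hHH
    push_cast at h4
    linarith
  have hH3 : (3 : ℝ) ≤ H := by exact_mod_cast (by omega : 3 ≤ H)
  have hs0 : 0 < √(H : ℝ) := Real.sqrt_pos.2 hH0
  have hss : √(H : ℝ) * √(H : ℝ) = H := Real.mul_self_sqrt hH0.le
  have hQs : Q ≤ √(H : ℝ) := by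
    rw [← Real.sqrt_sq hQ0.le]
    exact Real.sqrt_le_sqrt hQH
  -- H^(1/4) <= sqrt H
  obtain ⟨r, hr⟩ : ∃ r : ℝ, r = (H : ℝ) ^ (1 / 4 : ℝ) := ⟨_, rfl⟩
  have hr1 : 1 ≤ r := by rw [hr]; exact Real.one_le_rpow hH' (by norm_num)
  have hrr : r ^ 2 = √(H : ℝ) := by
    rw [hr, ← Real.rpow_natCast, ← Real.rpow_mul hH0.le, Real.sqrt_eq_rpow]
    norm_num
  have hr4 : r ≤ √(H : ℝ) := by rw [← hrr]; nlinarith
  obtain ⟨Y, hY⟩ : ∃ Y : ℝ, Y = (H : ℝ) ^ η := ⟨_, rfl⟩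
  have hY1 : 1 ≤ Y := by rw [hY]; exact Real.one_le_rpow hH' hη0.le
  have hYn : Y ^ n = r := by
    rw [hY, hr, ← Real.rpow_natCast, ← Real.rpow_mul hH0.le, hηn]
  have hYr : Y ≤ r := by
    rw [← hYn]
    exact le_self_pow₀ hY1 (by omega)
  have hY4 : Y ^ 4 ≤ r := by
    rw [← hYn]
    exact pow_le_pow_right₀ hY1 hn
  obtain ⟨X, hX⟩ : ∃ X : ℕ, X = ⌊Y⌋₊ := ⟨_, rfl⟩
  have hXle : (X : ℝ) ≤ Y := by rw [hX]; exact Nat.floor_le (by linarith)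
  have hXlt : Y < ((X + 1 : ℕ) : ℝ) := by
    rw [hX]
    push_cast
    exact Nat.lt_floor_add_one _
  have h1 := hm H hH G X (fun x => (H : ℝ) ^ 5 / (4 ^ 9 * (x : ℝ) ^ 2)) (by
    intro p hp
    obtain ⟨hp1, hp2, hp3⟩ := mem_pts hp
    have hpr : (1 : ℝ) ≤ p.1 := by exact_mod_cast hp1
    have hpX : (p.1 : ℝ) ≤ Y := le_trans (by exact_mod_cast hp2) hXle
    have h16 : 16 * (p.1 : ℝ) ≤ H := by
      have h17 : 16 ≤ √(H : ℝ) := by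
        refine le_trans ?_ hQs
        rw [hQ]
        have : 0 ≤ 2 * (81 * Cp) / (κ * η) := by positivity
        linarith
      calc 16 * (p.1 : ℝ) ≤ √H * √H := mul_le_mul h17 (hpX.trans (hYr.trans hr4)) (by positivity) hs0.le
        _ = H := hss
    have hv := hval ![(p.1 : ℤ), (p.2 : ℤ)] (p.1 : ℝ) hpr (by simp) (by
      simp only [Matrix.cons_val_one, Matrix.cons_val_fin_one, Int.cast_natCast, Nat.abs_cast]
      exact_mod_cast hp3.le)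
    have hN : 8 * |((- eval ![(p.1 : ℤ), (p.2 : ℤ)] G : ℤ) : ℝ)| ≤ H * (p.1 : ℝ) ^ 2 := by
      push_cast
      rw [abs_neg]
      have e1 : (p.1 : ℝ) ^ n ≤ √H := by
        calc (p.1 : ℝ) ^ n ≤ Y ^ n := pow_le_pow_left₀ (by positivity) hpX _
          _ = r := hYn
          _ ≤ _ := hr4
      have e2 : 8 * D ≤ √(H : ℝ) := by
        refine le_trans ?_ hQs
        rw [hQ]
        have : 0 ≤ 2 * (81 * Cp) / (κ * η) := by positivity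
        linarith
      calc 8 * |((eval ![(p.1 : ℤ), (p.2 : ℤ)] G : ℤ) : ℝ)| ≤ 8 * (D * (p.1 : ℝ) ^ n) := by gcongr
        _ = (8 * D) * (p.1 : ℝ) ^ n := by ring
        _ ≤ √H * √H := mul_le_mul e2 e1 (by positivity) hs0.le
        _ = H := hss
        _ ≤ H * (p.1 : ℝ) ^ 2 := by
            have : (1 : ℝ) ≤ (p.1 : ℝ) ^ 2 := one_le_pow₀ hpr
            nlinarith
    have h2 := lb2 H (p.1 : ℤ) (p.2 : ℤ) (- eval ![(p.1 : ℤ), (p.2 : ℤ)] G) (by exact_mod_cast hp1) (by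
      rw [Nat.abs_cast]
      exact_mod_cast hp3.le) (by exact_mod_cast h16) (by exact_mod_cast hN)
    simp only [Int.cast_natCast] at h2
    exact h2)
  rw [card_ix, show (2 + 1) * (2 + 2) / 2 - 2 = 4 from rfl] at h1
  have h2 : κ * (H : ℝ) ^ 5 * (η * Real.log H) ≤ ∑ x ∈ Icc 1 X, (x : ℝ) * ((H : ℝ) ^ 5 / (4 ^ 9 * (x : ℝ) ^ 2)) := by
    have h3 : ∀ x ∈ Icc 1 X, (x : ℝ) * ((H : ℝ) ^ 5 / (4 ^ 9 * (x : ℝ) ^ 2)) = κ * (H : ℝ) ^ 5 * (x : ℝ)⁻¹ := by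
      intro x hx
      have hx' : (x : ℝ) ≠ 0 := by
        have := (mem_Icc.1 hx).1
        exact_mod_cast (by omega : x ≠ 0)
      rw [hκ]
      field_simp
    rw [sum_congr rfl h3, ← mul_sum]
    refine mul_le_mul_of_nonneg_left ?_ (by positivity)
    have h4 := log_add_one_le_harmonic X
    have h5 : ((harmonic X : ℚ) : ℝ) = ∑ x ∈ Icc 1 X, (x : ℝ)⁻¹ := by
      rw [harmonic_eq_sum_Icc]
      push_cast
      rfl
    rw [h5] at h4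
    refine le_trans ?_ h4
    have h6 : η * Real.log H = Real.log Y := by rw [hY, Real.log_rpow hH0]
    rw [h6]
    exact Real.log_le_log (by linarith) hXlt.le
  have h3 : (X : ℝ) ^ 4 * (Cp * (2 * (H : ℝ) + 1) ^ 4) ≤ κ * (H : ℝ) ^ 5 * (η * Real.log H) / 2 := by
    have e1 : (X : ℝ) ^ 4 ≤ √H := (pow_le_pow_left₀ (by positivity) hXle 4).trans (hY4.trans hr4)
    have e2 : 2 * (81 * Cp) ≤ κ * η * √(H : ℝ) := by
      have h4 : 2 * (81 * Cp) / (κ * η) ≤ √(H : ℝ) := by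
        refine le_trans ?_ hQs
        rw [hQ]
        linarith
      rw [div_le_iff₀ (by positivity)] at h4
      linarith
    have e3 : 1 ≤ Real.log H := by
      rw [Real.le_log_iff_exp_le hH0]
      exact (Real.exp_one_lt_d9.le.trans (by norm_num)).trans hH3
    have e4 : (2 * (H : ℝ) + 1) ^ 4 ≤ 81 * (H : ℝ) ^ 4 := by
      calc (2 * (H : ℝ) + 1) ^ 4 ≤ (3 * H) ^ 4 := pow_le_pow_left₀ (by positivity) (by linarith) 4
        _ = _ := by ring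
    calc (X : ℝ) ^ 4 * (Cp * (2 * (H : ℝ) + 1) ^ 4) ≤ √H * (Cp * (81 * (H : ℝ) ^ 4)) := by gcongr
      _ = √H * (H : ℝ) ^ 4 * (2 * (81 * Cp)) / 2 := by ring
      _ ≤ √H * (H : ℝ) ^ 4 * (κ * η * √(H : ℝ)) / 2 := by gcongr
      _ = κ * ((√H * √H) * (H : ℝ) ^ 4) * (η * 1) / 2 := by ring
      _ = κ * (H : ℝ) ^ 5 * (η * 1) / 2 := by rw [hss]; ring
      _ ≤ κ * (H : ℝ) ^ 5 * (η * Real.log H) / 2 := by gcongr
  have h4 : κ * η / 2 * ((H : ℝ) ^ 5 * Real.log H) = κ * (H : ℝ) ^ 5 * (η * Real.log H) / 2 := by ring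
  rw [h4]
  linarith

end Pool.Agent.H82.TO
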