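import Pool.Agent.H82.TO.As3

/-! # [H82 TO AS4] The asymptotic formula, `j = 2` -/

namespace Pool.Agent.H82.TO

open Finset MvPolynomial Pool.Agent.H8.AA Pool.Agent.H88.A2 Pool.Agent.H82.A3 Pool.Agent.H88.TS

theorem zer_iff {j : ℕ} (G : MvPolynomial (Fin 2) ℤ) (c : Ix j → ℤ) (P : Fin 2 → ℤ) :
    eval P (G + pol c) = 0 ↔ ev j (co c) (P 0) (P 1) = - eval ![P 0, P 1] G := by
  have h3 := ar_ev (Pool.Agent.H88.A2.pol_deg c) P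
  rw [ar_pol] at h3
  have hvec : ![P 0, P 1] = P := by
    funext i
    fin_cases i <;> rfl
  rw [h3, hvec, map_add]
  constructor
  · intro h
    linarith
  · intro h
    rw [h]
    ring

/-- upper bound by the first moment and the bad vectors -/
theorem cnt_up (j : ℕ) (G : MvPolynomial (Fin 2) ℤ) (H : ℕ) (R : ℝ) (hR : 0 ≤ R) :
    (cnt j G H : ℝ) ≤ ∑ P ∈ bp ⌊R⌋₊, (An j H P.1 P.2 (- eval ![P.1, P.2] G) : ℝ) + (bad j G H R : ℝ) := by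
  classical
  obtain ⟨Z, hZ⟩ : ∃ Z : Finset (Ix j → ℤ), Z = (box j H).filter fun c =>
    (∃ P : Fin 2 → ℤ, eval P (G + pol c) = 0) ∧ ¬ One G (pol c) R := ⟨_, rfl⟩
  obtain ⟨Z', hZ'⟩ : ∃ Z' : Finset (Ix j → ℤ), Z' = (box j H).filter fun c => ∃ P : Fin 2 → ℤ, eval P (G + pol c) = 0 := ⟨_, rfl⟩
  rw [bad_fin j G H R Z (fun c => by rw [hZ, Finset.mem_filter])]
  unfold cnt
  rw [ncard_filter j H (fun L => ∃ P : Fin 2 → ℤ, eval P (G + L) = 0) Z' (fun c => by rw [hZ', Finset.mem_filter])]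
  have hsub : Z' ⊆ ((bp ⌊R⌋₊).biUnion fun P => (box j H).filter fun c => ev j (co c) P.1 P.2 = - eval ![P.1, P.2] G) ∪ Z := by
    intro c hc
    rw [hZ', Finset.mem_filter] at hc
    rw [mem_union]
    by_cases h1 : One G (pol c) R
    · left
      obtain ⟨P, hP, hPR, _⟩ := h1
      rw [mem_biUnion]
      refine ⟨(P 0, P 1), ?_, ?_⟩
      · have key : ∀ i, |P i| ≤ ((⌊R⌋₊ : ℕ) : ℤ) := by
          intro i
          have h2 : (((P i).natAbs : ℕ) : ℝ) ≤ R := by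
            rw [Nat.cast_natAbs, Int.cast_abs]
            exact hPR i
          have h3 := Nat.le_floor h2
          rw [Int.abs_eq_natAbs]
          exact_mod_cast h3
        rw [mem_bp]
        exact ⟨key 0, key 1⟩
      · rw [mem_filter]
        exact ⟨hc.1, (zer_iff G c P).1 hP⟩
    · right
      rw [hZ, mem_filter]
      exact ⟨hc.1, hc.2, h1⟩
  have h1 := card_le_card hsub
  have h2 := card_union_le ((bp ⌊R⌋₊).biUnion fun P => (box j H).filter fun c => ev j (co c) P.1 P.2 = - eval ![P.1, P.2] G) Z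
  have h3 : ((bp ⌊R⌋₊).biUnion fun P => (box j H).filter fun c => ev j (co c) P.1 P.2 = - eval ![P.1, P.2] G).card ≤
      ∑ P ∈ bp ⌊R⌋₊, An j H P.1 P.2 (- eval ![P.1, P.2] G) := card_biUnion_le
  exact_mod_cast h1.trans (h2.trans (Nat.add_le_add_right h3 _))

/-- lower bound by the first moment and the pairs -/
theorem cnt_lo (j : ℕ) (G : MvPolynomial (Fin 2) ℤ) (H R : ℕ) (r : ℤ × ℤ → ℤ × ℤ → ℝ)
    (hr : ∀ P ∈ bp R, ∀ Q ∈ bp R, P ≠ Q → ∀ T : Finset (Ix j → ℤ), (∀ c ∈ T, (∀ p, |c p| ≤ (H : ℤ)) ∧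
      ev j (co c) P.1 P.2 = - eval ![P.1, P.2] G ∧ ev j (co c) Q.1 Q.2 = - eval ![Q.1, Q.2] G) → (T.card : ℝ) ≤ r P Q) :
    ∑ P ∈ bp R, (An j H P.1 P.2 (- eval ![P.1, P.2] G) : ℝ) - ∑ P ∈ bp R, ∑ Q ∈ (bp R).erase P, r P Q ≤ (cnt j G H : ℝ) := by
  classical
  obtain ⟨z, hz⟩ : ∃ z : (Ix j → ℤ) → ℤ × ℤ → Prop, z = fun c P => ev j (co c) P.1 P.2 = - eval ![P.1, P.2] G := ⟨_, rfl⟩
  have hzi : ∀ c P, z c P ↔ ev j (co c) P.1 P.2 = - eval ![P.1, P.2] G := fun c P => by rw [hz]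
  have h1 := bonf2 (box j H) (bp R) z r (by
    intro P hP Q hQ hPQ
    refine hr P hP Q hQ hPQ _ ?_
    intro c hc
    rw [mem_filter, mem_box, hzi, hzi] at hc
    exact ⟨hc.1, hc.2.1, hc.2.2⟩)
  have h2 : (((box j H).filter fun c => ∃ P ∈ bp R, z c P).card : ℝ) ≤ (cnt j G H : ℝ) := by
    unfold cnt
    obtain ⟨Z', hZ'⟩ : ∃ Z' : Finset (Ix j → ℤ), Z' = (box j H).filter fun c => ∃ P : Fin 2 → ℤ, eval P (G + pol c) = 0 := ⟨_, rfl⟩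
    rw [ncard_filter j H (fun L => ∃ P : Fin 2 → ℤ, eval P (G + L) = 0) Z' (fun c => by rw [hZ', Finset.mem_filter])]
    have h3 : ((box j H).filter fun c => ∃ P ∈ bp R, z c P) ⊆ Z' := by
      intro c hc
      rw [mem_filter] at hc
      obtain ⟨hc1, P, _, hP⟩ := hc
      rw [hzi] at hP
      rw [hZ', mem_filter]
      exact ⟨hc1, ![P.1, P.2], (zer_iff G c ![P.1, P.2]).2 hP⟩
    exact_mod_cast card_le_card h3
  have h3 : ∀ P : ℤ × ℤ, (An j H P.1 P.2 (- eval ![P.1, P.2] G) : ℝ) = (((box j H).filter fun c => z c P).card : ℝ) := by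
    intro P
    unfold An
    congr 2
    ext c
    rw [mem_filter, mem_filter, hzi]
  simp only [h3]
  linarith

/-- sum over the pairs, `j = 2` -/
theorem pairs2s (C : ℝ) (hC : 0 ≤ C) (H R : ℕ) (hH : 1 ≤ H) (hR : 1 ≤ R) :
    ∑ P ∈ bp R, ∑ Q ∈ (bp R).erase P, C * (2 * (H : ℝ) + 1) ^ 3 * (1 + 2 * H * (wt P.1 Q.1 * wt P.2 Q.2)) ≤
      C * 27 * 1250 * (H : ℝ) ^ 3 * ((R : ℝ) ^ 4 + H * (R : ℝ) ^ 2) := by
  classical
  have hH' : (1 : ℝ) ≤ H := by exact_mod_cast hH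
  have hR' : (1 : ℝ) ≤ R := by exact_mod_cast hR
  have hnn : ∀ P Q : ℤ × ℤ, 0 ≤ C * (2 * (H : ℝ) + 1) ^ 3 * (1 + 2 * H * (wt P.1 Q.1 * wt P.2 Q.2)) := by
    intro P Q
    have hw1 := wt_pos P.1 Q.1
    have hw2 := wt_pos P.2 Q.2
    positivity
  have h2 : ∑ P ∈ bp R, ∑ Q ∈ (bp R).erase P, C * (2 * (H : ℝ) + 1) ^ 3 * (1 + 2 * H * (wt P.1 Q.1 * wt P.2 Q.2)) ≤
      ∑ P ∈ bp R, ∑ Q ∈ bp R, C * (2 * (H : ℝ) + 1) ^ 3 * (1 + 2 * H * (wt P.1 Q.1 * wt P.2 Q.2)) :=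
    sum_le_sum fun P _ => sum_le_sum_of_subset_of_nonneg (erase_subset _ _) fun Q _ _ => hnn P Q
  refine h2.trans ?_
  have h3 : ∑ P ∈ bp R, ∑ Q ∈ bp R, C * (2 * (H : ℝ) + 1) ^ 3 * (1 + 2 * H * (wt P.1 Q.1 * wt P.2 Q.2)) =
      C * (2 * (H : ℝ) + 1) ^ 3 * (((bp R).card : ℝ) ^ 2 + 2 * H * ∑ P ∈ bp R, ∑ Q ∈ bp R, wt P.1 Q.1 * wt P.2 Q.2) := by
    simp only [← mul_sum, sum_add_distrib, sum_const, nsmul_eq_mul, mul_one]
    ring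
  rw [h3]
  have h4 : ∑ P ∈ bp R, ∑ Q ∈ bp R, wt P.1 Q.1 * wt P.2 Q.2 =
      (∑ x ∈ Icc (-(R : ℤ)) R, ∑ x' ∈ Icc (-(R : ℤ)) R, wt x x') * (∑ x ∈ Icc (-(R : ℤ)) R, ∑ x' ∈ Icc (-(R : ℤ)) R, wt x x') := by
    unfold bp
    rw [sum_product, sum_mul_sum]
    refine sum_congr rfl fun a _ => sum_congr rfl fun b _ => ?_
    rw [sum_product, sum_mul_sum]
  have h5 := sum_wt R hR
  have h50 : 0 ≤ ∑ x ∈ Icc (-(R : ℤ)) R, ∑ x' ∈ Icc (-(R : ℤ)) R, wt x x' :=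
    sum_nonneg fun x _ => sum_nonneg fun x' _ => (wt_pos x x').le
  have h6 : ∑ P ∈ bp R, ∑ Q ∈ bp R, wt P.1 Q.1 * wt P.2 Q.2 ≤ 625 * (R : ℝ) ^ 2 := by
    rw [h4]
    calc _ ≤ (25 * (R : ℝ)) * (25 * R) := mul_le_mul h5 h5 h50 (by positivity)
      _ = _ := by ring
  have h7 : ((bp R).card : ℝ) ^ 2 ≤ 81 * (R : ℝ) ^ 4 := by
    rw [card_bp]
    push_cast
    have h8 : 2 * (R : ℝ) + 1 ≤ 3 * R := by linarith
    calc ((2 * (R : ℝ) + 1) ^ 2) ^ 2 ≤ ((3 * (R : ℝ)) ^ 2) ^ 2 := by gcongr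
      _ = _ := by ring
  have h8 : (2 * (H : ℝ) + 1) ^ 3 ≤ 27 * (H : ℝ) ^ 3 := by
    have h9 : 2 * (H : ℝ) + 1 ≤ 3 * H := by linarith
    calc (2 * (H : ℝ) + 1) ^ 3 ≤ (3 * (H : ℝ)) ^ 3 := by gcongr
      _ = _ := by ring
  have h60 : 0 ≤ ∑ P ∈ bp R, ∑ Q ∈ bp R, wt P.1 Q.1 * wt P.2 Q.2 :=
    sum_nonneg fun P _ => sum_nonneg fun Q _ => (mul_pos (wt_pos _ _) (wt_pos _ _)).le
  calc C * (2 * (H : ℝ) + 1) ^ 3 * (((bp R).card : ℝ) ^ 2 + 2 * H * ∑ P ∈ bp R, ∑ Q ∈ bp R, wt P.1 Q.1 * wt P.2 Q.2)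
      ≤ C * (27 * (H : ℝ) ^ 3) * (81 * (R : ℝ) ^ 4 + 2 * H * (625 * (R : ℝ) ^ 2)) := by gcongr
    _ ≤ C * (27 * (H : ℝ) ^ 3) * (1250 * ((R : ℝ) ^ 4 + H * (R : ℝ) ^ 2)) := by
      have h9 : 0 ≤ (R : ℝ) ^ 4 := by positivity
      refine mul_le_mul_of_nonneg_left ?_ (by positivity)
      linarith
    _ = _ := by ring

/-- two-sided bounds -/
theorem two2 (n : ℕ) (G : MvPolynomial (Fin 2) ℤ) (h : Hyp0 n 2 G) (ε : ℝ) (hε : 0 < ε) (hε1 : ε ≤ 1 / 2) :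
    ∃ C : ℝ, 0 ≤ C ∧ ∀ (H : ℕ) (S : ℝ), 1 ≤ H → 1 ≤ S → S ^ (n - 2) = H →
      ((cnt 2 G H : ℝ) ≤ 128 * Jc * (1 + ε) ^ 3 * (H : ℝ) ^ 5 * Real.log S + C * (H : ℝ) ^ 5) ∧
      128 * Jc * (1 - ε) ^ 3 * (H : ℝ) ^ 5 * Real.log S - C * (H : ℝ) ^ 5 ≤ (cnt 2 G H : ℝ) := by
  classical
  have hn := h.hn
  obtain ⟨ε₁, C1, he0, he1, hC1, hmid⟩ := mid2 n hn G h.deg ε hε hε1
  obtain ⟨Cu, hCu, hu⟩ := uniq2 n G h
  obtain ⟨Cd, hCd, hd⟩ := dig 2 (by norm_num)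
  obtain ⟨Cp, hCp, hp⟩ := pair2
  refine ⟨C1 + Cu + 108 * Cd * (9 * Cu ^ 2 / ε₁ ^ 2) + Cp * 27 * 1250 * 2, by positivity, ?_⟩
  intro H S hH hS hSH
  have hH' : (1 : ℝ) ≤ (H : ℝ) := by exact_mod_cast hH
  have hH0 : (0 : ℝ) < (H : ℝ) := by linarith
  have hS0 : 0 < S := by linarith
  have hS2 : S ^ 2 ≤ H := by
    rw [← hSH]
    exact pow_le_pow_right₀ hS (by omega)
  have hSle : S ≤ H := by nlinarith
  have hnr : (0 : ℝ) < ((n - 2 : ℕ) : ℝ) := by exact_mod_cast (by omega : 0 < n - 2)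
  have hSeq : (H : ℝ) ^ (1 / ((n - 2 : ℕ) : ℝ)) = S := by
    rw [← hSH, ← Real.rpow_natCast, ← Real.rpow_mul hS0.le, mul_one_div, div_self hnr.ne', Real.rpow_one]
  obtain ⟨hup, hlo⟩ := hmid H S hH hS hSH
  obtain ⟨R, hR⟩ : ∃ R : ℕ, R = ⌊ε₁ * S⌋₊ := ⟨_, rfl⟩
  have hRS : (R : ℝ) ≤ ε₁ * S := by rw [hR]; exact Nat.floor_le (by positivity)
  have hRS' : ε₁ * S < (R : ℝ) + 1 := by rw [hR]; exact Nat.lt_floor_add_one _
  rw [← hR] at hup hlo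
  have hH5 : (0 : ℝ) ≤ (H : ℝ) ^ 5 := by positivity
  constructor
  · have h1 := cnt_up 2 G H (Cu * S) (by positivity)
    have h2 := hu H hH
    rw [hSeq] at h2
    obtain ⟨R2, hR2⟩ : ∃ R2 : ℕ, R2 = ⌊Cu * S⌋₊ := ⟨_, rfl⟩
    have hRS2 : (R2 : ℝ) ≤ Cu * S := by rw [hR2]; exact Nat.floor_le (by positivity)
    rw [← hR2] at h1
    have hCS : 1 ≤ Cu * S := by nlinarith
    obtain ⟨a, ha⟩ : ∃ a : ℤ × ℤ → ℝ, a = fun P => (An 2 H P.1 P.2 (- eval ![P.1, P.2] G) : ℝ) := ⟨_, rfl⟩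
    have ha0 : ∀ P, 0 ≤ a P := by
      intro P
      rw [ha]
      positivity
    have e1 : ∑ P ∈ bp R2, (An 2 H P.1 P.2 (- eval ![P.1, P.2] G) : ℝ) ≤ ∑ P ∈ bp R, a P + ∑ P ∈ (bp R2) \ (bp R), a P := by
      have e2 : ∑ P ∈ bp R2, (An 2 H P.1 P.2 (- eval ![P.1, P.2] G) : ℝ) = ∑ P ∈ bp R2, a P := by rw [ha]
      rw [e2, ← sum_inter_add_sum_sdiff (bp R2) (bp R) a]
      have e3 : ∑ P ∈ bp R2 ∩ bp R, a P ≤ ∑ P ∈ bp R, a P :=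
        sum_le_sum_of_subset_of_nonneg inter_subset_right fun P _ _ => ha0 P
      linarith
    have e2 : ∑ P ∈ (bp R2) \ (bp R), a P ≤ 108 * Cd * (9 * Cu ^ 2 / ε₁ ^ 2) * (H : ℝ) ^ 5 := by
      have e3 : ∀ P ∈ (bp R2) \ (bp R), a P ≤ 108 * Cd * ((H : ℝ) / (ε₁ * S)) ^ 2 * (H : ℝ) ^ 3 := by
        intro P hP
        rw [mem_sdiff] at hP
        have hne : P.1 ≠ 0 ∨ P.2 ≠ 0 := by
          by_contra hcon
          push Not at hcon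
          apply hP.2
          rw [mem_bp, hcon.1, hcon.2, abs_zero]
          exact ⟨by positivity, by positivity⟩
        have h3 := hd H hH P.1 P.2 (- eval ![P.1, P.2] G) hne ((box 2 H).filter fun c => ev 2 (co c) P.1 P.2 = - eval ![P.1, P.2] G) (by
          intro c hc
          rw [mem_filter, mem_box] at hc
          exact hc)
        rw [card_ix, show (2 + 1) * (2 + 2) / 2 - (2 + 1) = 3 from rfl] at h3
        have h4 : ε₁ * S ≤ max |(P.1 : ℝ)| |(P.2 : ℝ)| := by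
          by_contra hcon
          push Not at hcon
          apply hP.2
          have h5 := max_lt_iff.1 hcon
          have h6 : |(P.1 : ℝ)| < (R : ℝ) + 1 := h5.1.trans hRS'
          have h7 : |(P.2 : ℝ)| < (R : ℝ) + 1 := h5.2.trans hRS'
          have h8 : |P.1| < (R : ℤ) + 1 := by exact_mod_cast h6
          have h9 : |P.2| < (R : ℤ) + 1 := by exact_mod_cast h7
          rw [mem_bp]
          constructor <;> omega
        have h5 : (H : ℝ) / max |(P.1 : ℝ)| |(P.2 : ℝ)| + 1 ≤ 2 * (H / (ε₁ * S)) := by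
          have h6 : (H : ℝ) / max |(P.1 : ℝ)| |(P.2 : ℝ)| ≤ H / (ε₁ * S) := by gcongr
          have h7 : 1 ≤ (H : ℝ) / (ε₁ * S) := by
            rw [le_div_iff₀ (by positivity)]
            nlinarith
          linarith
        have h6 : (2 * (H : ℝ) + 1) ^ 3 ≤ 27 * (H : ℝ) ^ 3 := by
          calc (2 * (H : ℝ) + 1) ^ 3 ≤ (3 * (H : ℝ)) ^ 3 := pow_le_pow_left₀ (by positivity) (by linarith) 3
            _ = _ := by ring
        have h7 : 0 ≤ (H : ℝ) / max |(P.1 : ℝ)| |(P.2 : ℝ)| + 1 := by positivity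
        rw [ha]
        refine h3.trans ?_
        calc Cd * ((H : ℝ) / max |(P.1 : ℝ)| |(P.2 : ℝ)| + 1) ^ 2 * (2 * (H : ℝ) + 1) ^ 3
            ≤ Cd * (2 * (H / (ε₁ * S))) ^ 2 * (27 * (H : ℝ) ^ 3) := by gcongr
          _ = _ := by ring
      have e4 := sum_le_card_nsmul _ _ _ e3
      rw [nsmul_eq_mul] at e4
      refine e4.trans ?_
      have e5 : ((((bp R2) \ (bp R)).card : ℕ) : ℝ) ≤ 9 * Cu ^ 2 * S ^ 2 := by
        have e6 := card_le_card (sdiff_subset (s := bp R2) (t := bp R))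
        rw [card_bp] at e6
        have e7 : ((((bp R2) \ (bp R)).card : ℕ) : ℝ) ≤ (2 * (R2 : ℝ) + 1) ^ 2 := by exact_mod_cast e6
        calc ((((bp R2) \ (bp R)).card : ℕ) : ℝ) ≤ (2 * (R2 : ℝ) + 1) ^ 2 := e7
          _ ≤ (3 * (Cu * S)) ^ 2 := pow_le_pow_left₀ (by positivity) (by linarith) 2
          _ = _ := by ring
      calc ((((bp R2) \ (bp R)).card : ℕ) : ℝ) * (108 * Cd * ((H : ℝ) / (ε₁ * S)) ^ 2 * (H : ℝ) ^ 3)
          ≤ (9 * Cu ^ 2 * S ^ 2) * (108 * Cd * ((H : ℝ) / (ε₁ * S)) ^ 2 * (H : ℝ) ^ 3) := mul_le_mul_of_nonneg_right e5 (by positivity)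
        _ = _ := by
          field_simp
    have e3 : ∑ P ∈ bp R, a P ≤ 128 * Jc * (1 + ε) ^ 3 * (H : ℝ) ^ 5 * Real.log S + C1 * (H : ℝ) ^ 5 := by
      rw [ha]
      exact hup
    have e4 : 0 ≤ Cp * 27 * 1250 * 2 * (H : ℝ) ^ 5 := by positivity
    linarith
  · rcases Nat.eq_zero_or_pos R with hR0 | hR0
    · have h1 := cnt_lo 2 G H R (fun _ _ => 0) (by
        intro P hP Q hQ hPQ
        rw [hR0, mem_bp] at hP hQ
        exfalso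
        apply hPQ
        simp only [Nat.cast_zero] at hP hQ
        have a1 := abs_nonpos_iff.1 hP.1
        have a2 := abs_nonpos_iff.1 hP.2
        have a3 := abs_nonpos_iff.1 hQ.1
        have a4 := abs_nonpos_iff.1 hQ.2
        exact Prod.ext (by rw [a1, a3]) (by rw [a2, a4]))
      simp only [sum_const_zero, sub_zero] at h1
      have e4 : 0 ≤ (Cu + 108 * Cd * (9 * Cu ^ 2 / ε₁ ^ 2) + Cp * 27 * 1250 * 2) * (H : ℝ) ^ 5 := by positivity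
      linarith
    · have h1 := cnt_lo 2 G H R (fun P Q => Cp * (2 * (H : ℝ) + 1) ^ 3 * (1 + 2 * H * (wt P.1 Q.1 * wt P.2 Q.2))) (by
        intro P _ Q _ hPQ T hT
        exact hp H hH P Q _ _ hPQ T hT)
      have h2 := pairs2s Cp hCp H R hH hR0
      have h3 : (R : ℝ) ≤ S := hRS.trans (by nlinarith)
      have h4 : (R : ℝ) ^ 4 + H * (R : ℝ) ^ 2 ≤ 2 * (H : ℝ) ^ 2 := by
        have h5 : (R : ℝ) ^ 2 ≤ H := (pow_le_pow_left₀ (by positivity) h3 2).trans hS2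
        calc (R : ℝ) ^ 4 + H * (R : ℝ) ^ 2 = ((R : ℝ) ^ 2) ^ 2 + H * (R : ℝ) ^ 2 := by ring
          _ ≤ (H : ℝ) ^ 2 + H * H := by gcongr
          _ = _ := by ring
      have h5 : Cp * 27 * 1250 * (H : ℝ) ^ 3 * ((R : ℝ) ^ 4 + H * (R : ℝ) ^ 2) ≤ Cp * 27 * 1250 * (H : ℝ) ^ 3 * (2 * (H : ℝ) ^ 2) :=
        mul_le_mul_of_nonneg_left h4 (by positivity)
      have h6 : Cp * 27 * 1250 * (H : ℝ) ^ 3 * (2 * (H : ℝ) ^ 2) = Cp * 27 * 1250 * 2 * (H : ℝ) ^ 5 := by ring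
      have e4 : 0 ≤ (Cu + 108 * Cd * (9 * Cu ^ 2 / ε₁ ^ 2)) * (H : ℝ) ^ 5 := by positivity
      linarith

end Pool.Agent.H82.TO
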