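import Pool.Agent.H82.TO.As2
import Mathlib.NumberTheory.Harmonic.Bounds

/-! # [H82 TO AS3] Sums over the points of a box; the first moment, `j = 2` -/

namespace Pool.Agent.H82.TO

open Finset MvPolynomial Pool.Agent.H8.AA Pool.Agent.H88.A2 Pool.Agent.H82.A3 Pool.Agent.H88.TS

theorem sum_sym (R : ℕ) (F : ℕ → ℝ) : ∑ x ∈ Icc (-(R : ℤ)) R, F x.natAbs = F 0 + 2 * ∑ m ∈ Icc 1 R, F m := by
  induction R with
  | zero => simp
  | succ R ih =>
    have h1 : Icc (-((R + 1 : ℕ) : ℤ)) ((R + 1 : ℕ) : ℤ) = insert (-((R + 1 : ℕ) : ℤ)) (insert ((R + 1 : ℕ) : ℤ) (Icc (-(R : ℤ)) R)) := by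
      ext x
      simp only [mem_insert, mem_Icc]
      push_cast
      omega
    rw [h1, sum_insert, sum_insert, ih, Finset.sum_Icc_succ_top (by omega)]
    · rw [Int.natAbs_neg, Int.natAbs_natCast]
      ring
    · rw [mem_Icc]
      push_cast
      omega
    · simp only [mem_insert, mem_Icc]
      push_cast
      omega

theorem sum_sq (R : ℕ) (F : ℕ → ℕ → ℝ) (hF : ∀ m k, m < k → F m k = 0) (h0 : F 0 0 = 0) :
    ∑ P ∈ bp R, F P.1.natAbs P.2.natAbs = 2 * ∑ m ∈ Icc 1 R, (F m 0 + 2 * ∑ k ∈ Icc 1 m, F m k) := by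
  unfold bp
  rw [sum_product]
  have h1 : ∀ x : ℤ, ∑ y ∈ Icc (-(R : ℤ)) R, F x.natAbs y.natAbs = F x.natAbs 0 + 2 * ∑ k ∈ Icc 1 R, F x.natAbs k :=
    fun x => sum_sym R (F x.natAbs)
  simp only [h1]
  rw [sum_sym R (fun m => F m 0 + 2 * ∑ k ∈ Icc 1 R, F m k)]
  have h2 : F 0 0 + 2 * ∑ k ∈ Icc 1 R, F 0 k = 0 := by
    rw [h0, sum_eq_zero fun k hk => hF 0 k (by have := mem_Icc.1 hk; omega)]
    ring
  rw [h2, zero_add]
  congr 1
  refine sum_congr rfl fun m hm => ?_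
  congr 2
  symm
  refine sum_subset (Icc_subset_Icc_right (mem_Icc.1 hm).2) ?_
  intro k hk hk'
  refine hF m k ?_
  rw [mem_Icc] at hk hk'
  omega

theorem sum_sq' (R : ℕ) (F : ℕ → ℕ → ℝ) (hF : ∀ m k, m < k → F m k = 0) (h0 : F 0 0 = 0) :
    ∑ P ∈ bp R, F P.2.natAbs P.1.natAbs = 2 * ∑ m ∈ Icc 1 R, (F m 0 + 2 * ∑ k ∈ Icc 1 m, F m k) := by
  rw [← sum_sq R F hF h0]
  unfold bp
  rw [sum_product, sum_product, sum_comm]

theorem up_m (ε H m l J Q : ℝ) (hε : 0 ≤ ε) (hε1 : ε ≤ 1) (hH : 1 ≤ H) (hm : 1 ≤ m) (hmH : m ^ 2 ≤ 2 * ε * H)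
    (hl0 : 0 ≤ l) (hl : l ≤ (1 + ε) * H + 1) (hJ0 : 0 ≤ J) (hJ : J ≤ 2)
    (hQ : Q ≤ 4 * l ^ 2 * m * J + (2 * m * (4 * l + 1) + (2 * l + 1) ^ 2 + 8 * l ^ 2)) :
    (2 * H / m ^ 2 + 1) * (2 * H + 1) ^ 2 * Q ≤ 32 * J * (1 + ε) ^ 3 * H ^ 5 * (1 / m) + 4356 * (H ^ 5 * (1 / m ^ 2) + H ^ 4 * (1 / m)) := by
  have hm0 : 0 < m := by linarith
  have hH0 : 0 < H := by linarith
  have hl3 : l ≤ 3 * H := by nlinarith
  have hl2 : l ^ 2 ≤ (1 + ε) ^ 2 * H ^ 2 + 5 * H := by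
    calc l ^ 2 ≤ ((1 + ε) * H + 1) ^ 2 := pow_le_pow_left₀ hl0 hl 2
      _ = (1 + ε) ^ 2 * H ^ 2 + (2 * (1 + ε) * H + 1) := by ring
      _ ≤ _ := by nlinarith
  obtain ⟨W, hW⟩ : ∃ W : ℝ, W = 4 * J * (1 + ε) ^ 2 * H ^ 2 * m + 66 * H * m + 121 * H ^ 2 := ⟨_, rfl⟩
  have hW0 : 0 ≤ W := by rw [hW]; positivity
  have hQW : Q ≤ W := by
    refine hQ.trans ?_
    have e1 : 4 * l ^ 2 * m * J ≤ 4 * ((1 + ε) ^ 2 * H ^ 2 + 5 * H) * m * J := by gcongr
    have e2 : 2 * m * (4 * l + 1) ≤ 2 * m * (13 * H) := by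
      have : 4 * l + 1 ≤ 13 * H := by linarith
      gcongr
    have e3 : (2 * l + 1) ^ 2 ≤ (7 * H) ^ 2 := pow_le_pow_left₀ (by positivity) (by linarith) 2
    have e4 : l ^ 2 ≤ (3 * H) ^ 2 := pow_le_pow_left₀ hl0 hl3 2
    have e5 : 20 * (H * m * J) ≤ 20 * (H * m * 2) := by gcongr
    rw [hW]
    nlinarith
  have e1 : 2 * H / m ^ 2 + 1 ≤ 2 * H / m ^ 2 * (1 + ε) := by
    have h1 : 1 ≤ 2 * H / m ^ 2 * ε := by
      rw [div_mul_eq_mul_div, le_div_iff₀ (by positivity)]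
      linarith
    linarith
  have e2 : (2 * H + 1) ^ 2 ≤ 4 * H ^ 2 + 5 * H := by nlinarith
  have hK0 : 0 ≤ (2 * H / m ^ 2 + 1) * (2 * H + 1) ^ 2 := by positivity
  have e3 : (4 * H ^ 2 + 5 * H) * W ≤ 16 * J * (1 + ε) ^ 2 * H ^ 4 * m + (754 * H ^ 3 * m + 1089 * H ^ 4) := by
    have k1 : (1 + ε) ^ 2 ≤ 4 := by nlinarith
    have k2 : J * (1 + ε) ^ 2 ≤ 2 * 4 := mul_le_mul hJ k1 (by positivity) (by norm_num)
    have k3 : J * (1 + ε) ^ 2 * (H ^ 3 * m) ≤ 8 * (H ^ 3 * m) := mul_le_mul_of_nonneg_right (by linarith) (by positivity)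
    have k4 : H ^ 2 * m ≤ H ^ 3 * m := mul_le_mul_of_nonneg_right (pow_le_pow_right₀ hH (by norm_num)) hm0.le
    have k5 : H ^ 3 ≤ H ^ 4 := pow_le_pow_right₀ hH (by norm_num)
    rw [hW]
    nlinarith
  calc (2 * H / m ^ 2 + 1) * (2 * H + 1) ^ 2 * Q ≤ (2 * H / m ^ 2 + 1) * (2 * H + 1) ^ 2 * W := mul_le_mul_of_nonneg_left hQW hK0
    _ ≤ (2 * H / m ^ 2 * (1 + ε)) * (4 * H ^ 2 + 5 * H) * W := by gcongr
    _ = (2 * H / m ^ 2 * (1 + ε)) * ((4 * H ^ 2 + 5 * H) * W) := by ring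
    _ ≤ (2 * H / m ^ 2 * (1 + ε)) * (16 * J * (1 + ε) ^ 2 * H ^ 4 * m + (754 * H ^ 3 * m + 1089 * H ^ 4)) :=
        mul_le_mul_of_nonneg_left e3 (by positivity)
    _ = 32 * J * (1 + ε) ^ 3 * H ^ 5 * (1 / m) + (1 + ε) * (2178 * (H ^ 5 * (1 / m ^ 2)) + 1508 * (H ^ 4 * (1 / m))) := by
        field_simp
        ring
    _ ≤ 32 * J * (1 + ε) ^ 3 * H ^ 5 * (1 / m) + 2 * (2178 * (H ^ 5 * (1 / m ^ 2)) + 2178 * (H ^ 4 * (1 / m))) := by
        have k1 : 0 ≤ H ^ 4 * (1 / m) := by positivity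
        have k2 : 0 ≤ H ^ 5 * (1 / m ^ 2) := by positivity
        have k3 : (1 + ε) * (2178 * (H ^ 5 * (1 / m ^ 2)) + 1508 * (H ^ 4 * (1 / m))) ≤
            2 * (2178 * (H ^ 5 * (1 / m ^ 2)) + 2178 * (H ^ 4 * (1 / m))) :=
          mul_le_mul (by linarith) (by linarith) (by positivity) (by norm_num)
        linarith
    _ = _ := by ring

theorem lo_m (ε H m l J Q : ℝ) (hε : 0 ≤ ε) (hε1 : ε ≤ 1) (hH : 1 ≤ H) (hm : 1 ≤ m) (hmH : m ^ 2 ≤ 2 * ε * H)
    (hl0 : 0 ≤ l) (hlH : l ≤ H) (hl : (1 - ε) * H - 1 ≤ l) (hJ0 : 0 ≤ J) (hJ : J ≤ 2) (hQ0 : 0 ≤ Q)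
    (hQ : 4 * l ^ 2 * m * J - (2 * m * (4 * l + 1) + (2 * l + 1) ^ 2 + 8 * l ^ 2) - 2 * (2 * l + 1) ^ 2 ≤ Q) :
    32 * J * (1 - ε) ^ 3 * H ^ 5 * (1 / m) - 280 * (H ^ 5 * (1 / m ^ 2) + H ^ 4 * (1 / m)) ≤
      (2 * H / m ^ 2 - 1) * (2 * H + 1) ^ 2 * Q := by
  have hm0 : 0 < m := by linarith
  have hH0 : 0 < H := by linarith
  have hl2 : (1 - ε) ^ 2 * H ^ 2 - 2 * H ≤ l ^ 2 := by
    have h1 : 0 ≤ (1 - ε) * H := mul_nonneg (by linarith) hH0.le
    have h2 : (1 - ε) * H ≤ H := by nlinarith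
    rcases le_total 1 ((1 - ε) * H) with h3 | h3
    · have h4 : ((1 - ε) * H - 1) ^ 2 ≤ l ^ 2 := pow_le_pow_left₀ (by linarith) hl 2
      nlinarith
    · have h4 : ((1 - ε) * H) ^ 2 ≤ 1 := by nlinarith
      nlinarith [sq_nonneg l]
  obtain ⟨W, hW⟩ : ∃ W : ℝ, W = 4 * J * (1 - ε) ^ 2 * H ^ 2 * m - 26 * H * m - 35 * H ^ 2 := ⟨_, rfl⟩
  have hQW : W ≤ Q := by
    refine le_trans ?_ hQ
    have e1 : 4 * ((1 - ε) ^ 2 * H ^ 2 - 2 * H) * m * J ≤ 4 * l ^ 2 * m * J := by gcongr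
    have e2 : 2 * m * (4 * l + 1) ≤ 2 * m * (5 * H) := by
      have : 4 * l + 1 ≤ 5 * H := by linarith
      gcongr
    have e3 : (2 * l + 1) ^ 2 ≤ (3 * H) ^ 2 := pow_le_pow_left₀ (by positivity) (by linarith) 2
    have e4 : l ^ 2 ≤ H ^ 2 := pow_le_pow_left₀ hl0 hlH 2
    have e5 : 8 * (H * m * J) ≤ 8 * (H * m * 2) := by gcongr
    rw [hW]
    nlinarith
  have e1 : 2 * H / m ^ 2 * (1 - ε) ≤ 2 * H / m ^ 2 - 1 := by
    have h1 : 1 ≤ 2 * H / m ^ 2 * ε := by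
      rw [div_mul_eq_mul_div, le_div_iff₀ (by positivity)]
      linarith
    linarith
  have e2 : 4 * H ^ 2 ≤ (2 * H + 1) ^ 2 := by nlinarith
  have hε' : 0 ≤ 1 - ε := by linarith
  calc 32 * J * (1 - ε) ^ 3 * H ^ 5 * (1 / m) - 280 * (H ^ 5 * (1 / m ^ 2) + H ^ 4 * (1 / m))
      ≤ 32 * J * (1 - ε) ^ 3 * H ^ 5 * (1 / m) - (1 - ε) * (280 * (H ^ 5 * (1 / m ^ 2)) + 208 * (H ^ 4 * (1 / m))) := by
        have k1 : 0 ≤ H ^ 4 * (1 / m) := by positivity
        have k2 : 0 ≤ H ^ 5 * (1 / m ^ 2) := by positivity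
        have k3 : (1 - ε) * (280 * (H ^ 5 * (1 / m ^ 2)) + 208 * (H ^ 4 * (1 / m))) ≤
            1 * (280 * (H ^ 5 * (1 / m ^ 2)) + 280 * (H ^ 4 * (1 / m))) :=
          mul_le_mul (by linarith) (by linarith) (by positivity) (by norm_num)
        linarith
    _ = (2 * H / m ^ 2 * (1 - ε)) * (4 * H ^ 2) * W := by
        rw [hW]
        field_simp
        ring
    _ ≤ (2 * H / m ^ 2 * (1 - ε)) * (4 * H ^ 2) * Q := mul_le_mul_of_nonneg_left hQW (by positivity)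
    _ ≤ (2 * H / m ^ 2 - 1) * (2 * H + 1) ^ 2 * Q := by
        refine mul_le_mul_of_nonneg_right (mul_le_mul e1 e2 (by positivity) ?_) hQ0
        refine le_trans ?_ e1
        positivity

theorem harm_eq (R : ℕ) : ((harmonic R : ℚ) : ℝ) = ∑ m ∈ Icc 1 R, 1 / (m : ℝ) := by
  rw [harmonic_eq_sum_Icc]
  push_cast
  refine sum_congr rfl fun m _ => ?_
  rw [one_div]

theorem harm_up (R : ℕ) : ∑ m ∈ Icc 1 R, 1 / (m : ℝ) ≤ 1 + Real.log R := by
  rw [← harm_eq]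
  exact harmonic_le_one_add_log R

theorem harm_lo (R : ℕ) : Real.log ((R : ℝ) + 1) ≤ ∑ m ∈ Icc 1 R, 1 / (m : ℝ) := by
  rw [← harm_eq]
  have := log_add_one_le_harmonic R
  push_cast at this
  exact this

theorem sum_sq_inv (R : ℕ) : ∑ m ∈ Icc 1 R, 1 / (m : ℝ) ^ 2 ≤ 2 := by
  have h : ∀ R : ℕ, 1 ≤ R → ∑ m ∈ Icc 1 R, 1 / (m : ℝ) ^ 2 ≤ 2 - 1 / (R : ℝ) := by
    intro R hR
    induction R, hR using Nat.le_induction with
    | base => norm_num
    | succ R hR ih =>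
      rw [Finset.sum_Icc_succ_top (by omega)]
      have hR0 : (0 : ℝ) < R := by exact_mod_cast hR
      have e1 : 1 / ((R + 1 : ℕ) : ℝ) ^ 2 ≤ 1 / (R : ℝ) - 1 / ((R + 1 : ℕ) : ℝ) := by
        push_cast
        have e2 : 1 / (R : ℝ) - 1 / ((R : ℝ) + 1) = 1 / ((R : ℝ) * ((R : ℝ) + 1)) := by
          field_simp
          ring
        rw [e2]
        refine one_div_le_one_div_of_le (by positivity) ?_
        nlinarith
      linarith
  rcases Nat.eq_zero_or_pos R with h0 | h0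
  · rw [h0]
    norm_num
  · have h1 := h R h0
    have h2 : 0 ≤ 1 / (R : ℝ) := by positivity
    linarith

theorem An_triv (j H : ℕ) (x y N : ℤ) : (An j H x y N : ℝ) ≤ (2 * (H : ℝ) + 1) ^ ((j + 1) * (j + 2) / 2 - 1) := by
  classical
  have h00 : 0 + 0 ≤ j := by omega
  obtain ⟨i0, hi0⟩ : ∃ i0 : Ix j, i0 = ix 0 0 h00 := ⟨_, rfl⟩
  obtain ⟨s, hs⟩ : ∃ s : Ix j → Finset ℤ, s = fun p => if p = i0 then {0} else Icc (-(H : ℤ)) H := ⟨_, rfl⟩
  have h1 : (Fintype.piFinset s).card = (2 * H + 1) ^ ((j + 1) * (j + 2) / 2 - 1) := by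
    rw [Fintype.card_piFinset]
    have h2 : ∀ p, (s p).card = if p = i0 then 1 else 2 * H + 1 := by
      intro p
      rw [hs]
      simp only
      split_ifs
      · exact card_singleton _
      · rw [Int.card_Icc]
        omega
    rw [prod_congr rfl fun p _ => h2 p, ← card_ix j, ← mul_prod_erase univ _ (mem_univ i0), if_pos rfl, one_mul]
    rw [prod_congr rfl (g := fun _ => 2 * H + 1), prod_const, card_erase_of_mem (mem_univ _), card_univ]
    intro p hp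
    rw [if_neg (ne_of_mem_erase hp)]
  have h2 : ((box j H).filter fun c => ev j (co c) x y = N).card ≤ (Fintype.piFinset s).card := by
    refine card_le_card_of_injOn (fun c => Function.update c i0 0) ?_ ?_
    · intro c hc
      rw [mem_coe, mem_filter, mem_box] at hc
      rw [mem_coe, Fintype.mem_piFinset]
      intro p
      rw [hs]
      simp only
      split_ifs with h3
      · rw [h3, Function.update_self]
        exact mem_singleton_self _
      · rw [Function.update_of_ne h3]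
        exact mem_Icc.2 (abs_le.1 (hc.1 p))
    · intro c hc c' hc' h
      rw [mem_coe, mem_filter] at hc hc'
      simp only at h
      have h3 : ∀ p, p ≠ i0 → c p = c' p := by
        intro p hp
        have h4 := congrFun h p
        rwa [Function.update_of_ne hp, Function.update_of_ne hp] at h4
      have h5 : ev j (co c) x y - ev j (co c') x y = c i0 - c' i0 := by
        unfold ev
        rw [← sum_sub_distrib, sum_eq_single_of_mem 0 (mem_range.2 (by omega))]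
        · rw [sum_range_one, sum_range_one]
          simp only [Nat.sub_zero, pow_zero, mul_one]
          rw [co_of_le c h00, co_of_le c' h00, hi0]
        · intro k hk hk0
          rw [← sum_sub_distrib]
          refine sum_eq_zero fun i hi => ?_
          have hk' := mem_range.1 hk
          have hi' := mem_range.1 hi
          have hki : k - i + i ≤ j := by omega
          rw [co_of_le c hki, co_of_le c' hki, h3 (ix (k - i) i hki) ?_, sub_self]
          rw [hi0]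
          intro hcon
          have e1 := congrArg (fun p : Ix j => p.1.1.val) hcon
          have e2 := congrArg (fun p : Ix j => p.1.2.val) hcon
          simp only [ix] at e1 e2
          omega
      rw [hc.2, hc'.2, sub_self] at h5
      funext p
      by_cases hp : p = i0
      · rw [hp]
        linarith
      · exact h3 p hp
  rw [h1] at h2
  unfold An
  exact_mod_cast h2

/-- the first moment -/
theorem mid2 (n : ℕ) (hn : 4 ≤ n) (G : MvPolynomial (Fin 2) ℤ) (hG : G.totalDegree ≤ n) (ε : ℝ) (hε : 0 < ε) (hε1 : ε ≤ 1 / 2) :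
    ∃ ε₁ C : ℝ, 0 < ε₁ ∧ ε₁ ≤ 1 ∧ 0 ≤ C ∧ ∀ (H : ℕ) (S : ℝ), 1 ≤ H → 1 ≤ S → S ^ (n - 2) = H →
      (∑ P ∈ bp ⌊ε₁ * S⌋₊, (An 2 H P.1 P.2 (- eval ![P.1, P.2] G) : ℝ) ≤
        128 * Jc * (1 + ε) ^ 3 * (H : ℝ) ^ 5 * Real.log S + C * (H : ℝ) ^ 5) ∧
      128 * Jc * (1 - ε) ^ 3 * (H : ℝ) ^ 5 * Real.log S - C * (H : ℝ) ^ 5 ≤
        ∑ P ∈ bp ⌊ε₁ * S⌋₊, (An 2 H P.1 P.2 (- eval ![P.1, P.2] G) : ℝ) := by
  obtain ⟨D, hD, hval⟩ := val_le hG
  have hJ1 := Jc_ge
  have hJ2 := Jc_le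
  have hD0 : 0 < D := by linarith
  obtain ⟨ε₁, he₁⟩ : ∃ ε₁ : ℝ, ε₁ = ε / (2 * D) := ⟨_, rfl⟩
  have he₁0 : 0 < ε₁ := by rw [he₁]; positivity
  have he₁D : D * ε₁ = ε / 2 := by rw [he₁]; field_simp
  have he₁ε : ε₁ ≤ ε := by nlinarith
  have he₁1 : ε₁ ≤ 1 := by linarith
  obtain ⟨X0, hX0⟩ : ∃ X0 : ℕ, X0 = ⌈6 / ε⌉₊ := ⟨_, rfl⟩
  have hX0r : 6 / ε ≤ (X0 : ℝ) := by rw [hX0]; exact Nat.le_ceil _
  have hX06 : 6 ≤ ε * (X0 : ℝ) := by rw [div_le_iff₀ hε] at hX0r; linarith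
  obtain ⟨CX, hCX⟩ : ∃ CX : ℝ, CX = (2 * (X0 : ℝ) + 1) ^ 2 * 243 + 128 * Jc * (1 + ε) ^ 3 * (2 + Real.log (1 / ε₁) + Real.log X0) + 4 * 4356 * 4 + 4 * 280 * 4 := ⟨_, rfl⟩
  have hX01 : (1 : ℝ) ≤ X0 := by nlinarith
  have hlX : 0 ≤ Real.log X0 := Real.log_nonneg hX01
  have hle1 : 0 ≤ Real.log (1 / ε₁) := Real.log_nonneg (by rw [le_div_iff₀ he₁0]; linarith)
  refine ⟨ε₁, CX, he₁0, he₁1, by rw [hCX]; positivity, ?_⟩
  intro H S hH hS hSH
  have hH' : (1 : ℝ) ≤ (H : ℝ) := by exact_mod_cast hH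
  have hH0 : (0 : ℝ) < (H : ℝ) := by linarith
  have hS0 : 0 < S := by linarith
  have hS2 : S ^ 2 ≤ H := by
    rw [← hSH]
    exact pow_le_pow_right₀ hS (by omega)
  have hSle : S ≤ H := by nlinarith
  obtain ⟨R, hR⟩ : ∃ R : ℕ, R = ⌊ε₁ * S⌋₊ := ⟨_, rfl⟩
  have hRS : (R : ℝ) ≤ ε₁ * S := by rw [hR]; exact Nat.floor_le (by positivity)
  have hRS' : ε₁ * S < (R : ℝ) + 1 := by rw [hR]; exact Nat.lt_floor_add_one _
  rw [← hR]
  obtain ⟨e, he⟩ : ∃ e : ℕ, e = ⌈ε * H⌉₊ := ⟨_, rfl⟩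
  have heH1 : ε * H ≤ (e : ℝ) := by rw [he]; exact Nat.le_ceil _
  have heH2 : (e : ℝ) < ε * H + 1 := by rw [he]; exact Nat.ceil_lt_add_one (by positivity)
  have heH : e ≤ H := by
    have h1 : (e : ℝ) < (H : ℝ) + 1 := by nlinarith
    have h2 : e < H + 1 := by exact_mod_cast h1
    omega
  -- the condition at the points
  have hcond : ∀ x y : ℤ, |y| ≤ |x| → X0 < x.natAbs → x.natAbs ≤ R → ∀ N : ℤ, (|(N : ℝ)| ≤ D * (x.natAbs : ℝ) ^ n) →
      (H : ℤ) + 2 * H * |x| + |N| ≤ e * x ^ 2 := by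
    intro x y hxy hx0 hxR N hN
    obtain ⟨m, hm⟩ : ∃ m : ℝ, m = (x.natAbs : ℝ) := ⟨_, rfl⟩
    have hmx : m = |(x : ℝ)| := by rw [hm, Nat.cast_natAbs, Int.cast_abs]
    have hm2 : m ^ 2 = (x : ℝ) ^ 2 := by rw [hmx, sq_abs]
    have hmX : (X0 : ℝ) ≤ m := by rw [hm]; exact_mod_cast hx0.le
    have hmR : m ≤ R := by rw [hm]; exact_mod_cast hxR
    rw [← hm] at hN
    have hm1 : 1 ≤ m := by linarith
    have hm0 : 0 < m := by linarith
    have k1 : (H : ℝ) + 2 * H * m ≤ ε / 2 * H * m ^ 2 := by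
      have k2 : 6 ≤ ε * m := hX06.trans (by gcongr)
      have k3 : H * m * 6 ≤ H * m * (ε * m) := by gcongr
      have k4 : (H : ℝ) * 1 ≤ H * m := by gcongr
      nlinarith
    have k2 : D * m ^ n ≤ ε / 2 * H * m ^ 2 := by
      have k3 : m ^ (n - 2) ≤ ε₁ * H := by
        calc m ^ (n - 2) ≤ (ε₁ * S) ^ (n - 2) := pow_le_pow_left₀ hm0.le (hmR.trans hRS) _
          _ = ε₁ ^ (n - 2) * H := by rw [mul_pow, hSH]
          _ ≤ ε₁ * H := by
            refine mul_le_mul_of_nonneg_right ?_ hH0.le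
            exact pow_le_of_le_one he₁0.le he₁1 (by omega)
      have k4 : m ^ n = m ^ (n - 2) * m ^ 2 := by rw [← pow_add]; congr 1; omega
      rw [k4]
      calc D * (m ^ (n - 2) * m ^ 2) ≤ D * (ε₁ * H * m ^ 2) := by gcongr
        _ = (D * ε₁) * H * m ^ 2 := by ring
        _ = _ := by rw [he₁D]
    have k3 : (H : ℝ) + 2 * H * m + |(N : ℝ)| ≤ e * m ^ 2 := by
      have k4 : ε * H * m ^ 2 ≤ e * m ^ 2 := by gcongr
      nlinarith
    rw [hmx, sq_abs] at k3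
    exact_mod_cast k3
  have hvalN : ∀ x y : ℤ, |y| ≤ |x| → 1 ≤ x.natAbs → |((- eval ![x, y] G : ℤ) : ℝ)| ≤ D * (x.natAbs : ℝ) ^ n := by
    intro x y hxy hx1
    have h1 := hval ![x, y] (x.natAbs : ℝ) (by exact_mod_cast hx1) (by
      rw [Nat.cast_natAbs, Int.cast_abs]
      exact le_refl |(x : ℝ)|) (by
      rw [Nat.cast_natAbs, Int.cast_abs]
      have h2 : |(y : ℝ)| ≤ |(x : ℝ)| := by exact_mod_cast hxy
      exact h2)
    rw [Int.cast_neg, abs_neg]
    exact h1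
  have hvalN' : ∀ x y : ℤ, |y| ≤ |x| → 1 ≤ x.natAbs → |((- eval ![y, x] G : ℤ) : ℝ)| ≤ D * (x.natAbs : ℝ) ^ n := by
    intro x y hxy hx1
    have h1 := hval ![y, x] (x.natAbs : ℝ) (by exact_mod_cast hx1) (by
      rw [Nat.cast_natAbs, Int.cast_abs]
      have h2 : |(y : ℝ)| ≤ |(x : ℝ)| := by exact_mod_cast hxy
      exact h2) (by
      rw [Nat.cast_natAbs, Int.cast_abs]
      exact le_refl |(x : ℝ)|)
    rw [Int.cast_neg, abs_neg]
    exact h1
  have hxabs : ∀ x : ℤ, (x : ℝ) ^ 2 = (x.natAbs : ℝ) ^ 2 := by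
    intro x
    rw [Nat.cast_natAbs, Int.cast_abs, sq_abs]
  have hmH : ∀ m : ℕ, m ≤ R → (m : ℝ) ^ 2 ≤ 2 * ε * H := by
    intro m hm
    have h1 : (m : ℝ) ≤ ε₁ * S := le_trans (by exact_mod_cast hm) hRS
    calc (m : ℝ) ^ 2 ≤ (ε₁ * S) ^ 2 := pow_le_pow_left₀ (by positivity) h1 2
      _ = ε₁ * (ε₁ * S ^ 2) := by ring
      _ ≤ ε * (1 * H) := by gcongr
      _ ≤ _ := by nlinarith
  constructor
  · -- upper bound
    obtain ⟨U, hU⟩ : ∃ U : ℕ → ℕ → ℝ, U = fun m k => if k ≤ m ∧ X0 < m then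
      (2 * (H : ℝ) / (m : ℝ) ^ 2 + 1) * (2 * (H : ℝ) + 1) ^ 2 * ((qs (H + e) m k).card : ℝ) else 0 := ⟨_, rfl⟩
    have hU0 : ∀ m k, 0 ≤ U m k := by
      intro m k
      rw [hU]
      simp only
      split_ifs
      · positivity
      · exact le_refl _
    have hpt : ∀ P ∈ bp R, (An 2 H P.1 P.2 (- eval ![P.1, P.2] G) : ℝ) ≤
        (if P ∈ bp X0 then (2 * (H : ℝ) + 1) ^ 5 else 0) + (U P.1.natAbs P.2.natAbs + U P.2.natAbs P.1.natAbs) := by
      intro P hP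
      rw [mem_bp] at hP
      have hu1 := hU0 P.1.natAbs P.2.natAbs
      have hu2 := hU0 P.2.natAbs P.1.natAbs
      by_cases h0 : P ∈ bp X0
      · rw [if_pos h0]
        have h1 : (An 2 H P.1 P.2 (- eval ![P.1, P.2] G) : ℝ) ≤ (2 * (H : ℝ) + 1) ^ 5 := by
          have h2 := Pool.Agent.H82.TO.An_triv 2 H P.1 P.2 (- eval ![P.1, P.2] G)
          exact h2
        linarith
      · rw [if_neg h0, zero_add]
        rw [mem_bp] at h0
        rcases le_total |P.2| |P.1| with hle | hle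
        · have hx0 : X0 < P.1.natAbs := by
            by_contra hcon
            push Not at hcon
            apply h0
            have h1 : |P.1| ≤ (X0 : ℤ) := by rw [Int.abs_eq_natAbs]; exact_mod_cast hcon
            exact ⟨h1, hle.trans h1⟩
          have hxR : P.1.natAbs ≤ R := by
            have := hP.1
            rw [Int.abs_eq_natAbs] at this
            exact_mod_cast this
          have hne : P.1 ≠ 0 := by
            intro h
            rw [h] at hx0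
            exact absurd hx0 (by simp)
          have h1 := up_pt H e P.1 P.2 (- eval ![P.1, P.2] G) hne hle
            (hcond P.1 P.2 hle hx0 hxR _ (hvalN P.1 P.2 hle (by omega)))
          have h2 : U P.1.natAbs P.2.natAbs = (2 * (H : ℝ) / (P.1 : ℝ) ^ 2 + 1) * (2 * (H : ℝ) + 1) ^ 2 *
              ((qs (H + e) P.1.natAbs P.2.natAbs).card : ℝ) := by
            rw [hU]
            simp only
            rw [if_pos ⟨Int.natAbs_le_iff_sq_le.2 (sq_le_sq.2 hle), hx0⟩, hxabs]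
          rw [h2]
          linarith
        · have hx0 : X0 < P.2.natAbs := by
            by_contra hcon
            push Not at hcon
            apply h0
            have h1 : |P.2| ≤ (X0 : ℤ) := by rw [Int.abs_eq_natAbs]; exact_mod_cast hcon
            exact ⟨hle.trans h1, h1⟩
          have hxR : P.2.natAbs ≤ R := by
            have := hP.2
            rw [Int.abs_eq_natAbs] at this
            exact_mod_cast this
          have hne : P.2 ≠ 0 := by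
            intro h
            rw [h] at hx0
            exact absurd hx0 (by simp)
          have h1 := up_pt H e P.2 P.1 (- eval ![P.1, P.2] G) hne hle
            (hcond P.2 P.1 hle hx0 hxR _ (hvalN' P.2 P.1 hle (by omega)))
          have h2 : U P.2.natAbs P.1.natAbs = (2 * (H : ℝ) / (P.2 : ℝ) ^ 2 + 1) * (2 * (H : ℝ) + 1) ^ 2 *
              ((qs (H + e) P.2.natAbs P.1.natAbs).card : ℝ) := by
            rw [hU]
            simp only
            rw [if_pos ⟨Int.natAbs_le_iff_sq_le.2 (sq_le_sq.2 hle), hx0⟩, hxabs]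
          rw [h2, An_sw]
          linarith
    have hsum := sum_le_sum hpt
    rw [sum_add_distrib, sum_add_distrib, sum_sq R U (fun m k hmk => by rw [hU]; simp only; rw [if_neg (by omega)])
      (by rw [hU]; simp only; rw [if_neg (by omega)]), sum_sq' R U (fun m k hmk => by rw [hU]; simp only; rw [if_neg (by omega)])
      (by rw [hU]; simp only; rw [if_neg (by omega)])] at hsum
    have hs1 : ∑ P ∈ bp R, (if P ∈ bp X0 then (2 * (H : ℝ) + 1) ^ 5 else 0) ≤ (2 * (X0 : ℝ) + 1) ^ 2 * 243 * (H : ℝ) ^ 5 := by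
      rw [← sum_filter, sum_const, nsmul_eq_mul]
      have h1 : ((bp R).filter fun P => P ∈ bp X0).card ≤ (2 * X0 + 1) ^ 2 := by
        rw [← card_bp]
        exact card_le_card fun P hP => (mem_filter.1 hP).2
      have h2 : (((bp R).filter fun P => P ∈ bp X0).card : ℝ) ≤ (2 * (X0 : ℝ) + 1) ^ 2 := by exact_mod_cast h1
      have h3 : (2 * (H : ℝ) + 1) ^ 5 ≤ 243 * (H : ℝ) ^ 5 := by
        calc (2 * (H : ℝ) + 1) ^ 5 ≤ (3 * H) ^ 5 := pow_le_pow_left₀ (by positivity) (by linarith) 5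
          _ = _ := by ring
      calc _ ≤ (2 * (X0 : ℝ) + 1) ^ 2 * (243 * (H : ℝ) ^ 5) := mul_le_mul h2 h3 (by positivity) (by positivity)
        _ = _ := by ring
    have hs2 : ∀ m ∈ Icc 1 R, U m 0 + 2 * ∑ k ∈ Icc 1 m, U m k ≤
        32 * Jc * (1 + ε) ^ 3 * (H : ℝ) ^ 5 * (1 / (m : ℝ)) + 4356 * ((H : ℝ) ^ 5 * (1 / (m : ℝ) ^ 2) + (H : ℝ) ^ 4 * (1 / (m : ℝ))) := by
      intro m hm
      have hm' := mem_Icc.1 hm
      have hm1 : (1 : ℝ) ≤ m := by exact_mod_cast hm'.1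
      by_cases hX : X0 < m
      · have e1 : U m 0 + 2 * ∑ k ∈ Icc 1 m, U m k = (2 * (H : ℝ) / (m : ℝ) ^ 2 + 1) * (2 * (H : ℝ) + 1) ^ 2 *
            (((qs (H + e) m 0).card : ℝ) + 2 * ∑ k ∈ Icc 1 m, ((qs (H + e) m k).card : ℝ)) := by
          have e2 : U m 0 = (2 * (H : ℝ) / (m : ℝ) ^ 2 + 1) * (2 * (H : ℝ) + 1) ^ 2 * ((qs (H + e) m 0).card : ℝ) := by
            rw [hU]
            simp only
            rw [if_pos ⟨by omega, hX⟩]
          have e3 : ∑ k ∈ Icc 1 m, U m k = (2 * (H : ℝ) / (m : ℝ) ^ 2 + 1) * (2 * (H : ℝ) + 1) ^ 2 * ∑ k ∈ Icc 1 m, ((qs (H + e) m k).card : ℝ) := by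
            rw [mul_sum]
            refine sum_congr rfl fun k hk => ?_
            rw [hU]
            simp only
            rw [if_pos ⟨(mem_Icc.1 hk).2, hX⟩]
          rw [e2, e3]
          ring
        rw [e1]
        have h1 := abs_le.1 (qs_sum (H + e) m hm'.1)
        refine up_m ε H m ((H + e : ℕ) : ℝ) Jc _ hε.le (by linarith) hH' hm1 (hmH m hm'.2) (by positivity) ?_ (by linarith) hJ2 ?_
        · push_cast
          linarith
        · linarith [h1.2]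
      · have e1 : U m 0 + 2 * ∑ k ∈ Icc 1 m, U m k = 0 := by
          rw [hU]
          simp only
          rw [if_neg (by omega), sum_eq_zero fun k _ => by rw [if_neg (by omega)]]
          ring
        rw [e1]
        positivity
    have hs3 := sum_le_sum hs2
    rw [sum_add_distrib (f := fun m : ℕ => 32 * Jc * (1 + ε) ^ 3 * (H : ℝ) ^ 5 * (1 / (m : ℝ))), ← mul_sum, ← mul_sum,
      sum_add_distrib (f := fun m : ℕ => (H : ℝ) ^ 5 * (1 / (m : ℝ) ^ 2)), ← mul_sum, ← mul_sum] at hs3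
    have hh1 := harm_up R
    have hh2 := sum_sq_inv R
    have hlogR : Real.log R ≤ Real.log S := by
      rcases Nat.eq_zero_or_pos R with h0 | h0
      · rw [h0, Nat.cast_zero, Real.log_zero]
        exact Real.log_nonneg hS
      · refine Real.log_le_log (by exact_mod_cast h0) (hRS.trans ?_)
        nlinarith
    have hlogS : Real.log S ≤ H := (Real.log_le_sub_one_of_pos hS0).trans (by linarith)
    have hlogS0 : 0 ≤ Real.log S := Real.log_nonneg hS
    have hA : 0 ≤ 128 * Jc * (1 + ε) ^ 3 * (H : ℝ) ^ 5 := by positivity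
    have f1 : 32 * Jc * (1 + ε) ^ 3 * (H : ℝ) ^ 5 * ∑ m ∈ Icc 1 R, 1 / (m : ℝ) ≤ 32 * Jc * (1 + ε) ^ 3 * (H : ℝ) ^ 5 * (1 + Real.log S) := by
      refine mul_le_mul_of_nonneg_left (by linarith) (by positivity)
    have f2 : (H : ℝ) ^ 5 * ∑ m ∈ Icc 1 R, 1 / (m : ℝ) ^ 2 ≤ (H : ℝ) ^ 5 * 2 := mul_le_mul_of_nonneg_left hh2 (by positivity)
    have f3 : (H : ℝ) ^ 4 * ∑ m ∈ Icc 1 R, 1 / (m : ℝ) ≤ (H : ℝ) ^ 5 * 2 := by
      calc (H : ℝ) ^ 4 * ∑ m ∈ Icc 1 R, 1 / (m : ℝ) ≤ (H : ℝ) ^ 4 * (2 * H) := by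
            refine mul_le_mul_of_nonneg_left (by linarith) (by positivity)
        _ = _ := by ring
    have f4 : 0 ≤ (H : ℝ) ^ 5 * (128 * Jc * (1 + ε) ^ 3 * (Real.log (1 / ε₁) + Real.log X0 + 1)) := by positivity
    have f5 : 0 ≤ (H : ℝ) ^ 5 := by positivity
    rw [hCX]
    linarith
  · -- lower bound
    obtain ⟨V, hV⟩ : ∃ V : ℕ → ℕ → ℝ, V = fun m k => if k < m ∧ X0 < m then
      (2 * (H : ℝ) / (m : ℝ) ^ 2 - 1) * (2 * (H : ℝ) + 1) ^ 2 * ((qs (H - e) m k).card : ℝ) else 0 := ⟨_, rfl⟩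
    have hpt : ∀ P ∈ bp R, (V P.1.natAbs P.2.natAbs + V P.2.natAbs P.1.natAbs) ≤
        (An 2 H P.1 P.2 (- eval ![P.1, P.2] G) : ℝ) := by
      intro P hP
      rw [mem_bp] at hP
      have hxR1 : P.1.natAbs ≤ R := by
        have := hP.1
        rw [Int.abs_eq_natAbs] at this
        exact_mod_cast this
      have hxR2 : P.2.natAbs ≤ R := by
        have := hP.2
        rw [Int.abs_eq_natAbs] at this
        exact_mod_cast this
      by_cases h1 : P.2.natAbs < P.1.natAbs ∧ X0 < P.1.natAbs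
      · have hle : |P.2| ≤ |P.1| := by
          rw [Int.abs_eq_natAbs, Int.abs_eq_natAbs]
          exact_mod_cast h1.1.le
        have hne : P.1 ≠ 0 := by
          intro h
          rw [h] at h1
          exact absurd h1.2 (by simp)
        have h2 := lo_pt H e P.1 P.2 (- eval ![P.1, P.2] G) hne hle heH
            (hcond P.1 P.2 hle h1.2 hxR1 _ (hvalN P.1 P.2 hle (by omega)))
        have h3 : V P.1.natAbs P.2.natAbs = (2 * (H : ℝ) / (P.1 : ℝ) ^ 2 - 1) * (2 * (H : ℝ) + 1) ^ 2 *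
            ((qs (H - e) P.1.natAbs P.2.natAbs).card : ℝ) := by
          rw [hV]
          simp only
          rw [if_pos h1, hxabs]
        have h4 : V P.2.natAbs P.1.natAbs = 0 := by
          rw [hV]
          simp only
          rw [if_neg (by omega)]
        rw [h3, h4]
        linarith
      · have h3 : V P.1.natAbs P.2.natAbs = 0 := by
          rw [hV]
          simp only
          rw [if_neg h1]
        by_cases h2 : P.1.natAbs < P.2.natAbs ∧ X0 < P.2.natAbs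
        · have hle : |P.1| ≤ |P.2| := by
            rw [Int.abs_eq_natAbs, Int.abs_eq_natAbs]
            exact_mod_cast h2.1.le
          have hne : P.2 ≠ 0 := by
            intro h
            rw [h] at h2
            exact absurd h2.2 (by simp)
          have h4 := lo_pt H e P.2 P.1 (- eval ![P.1, P.2] G) hne hle heH
              (hcond P.2 P.1 hle h2.2 hxR2 _ (hvalN' P.2 P.1 hle (by omega)))
          have h5 : V P.2.natAbs P.1.natAbs = (2 * (H : ℝ) / (P.2 : ℝ) ^ 2 - 1) * (2 * (H : ℝ) + 1) ^ 2 *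
              ((qs (H - e) P.2.natAbs P.1.natAbs).card : ℝ) := by
            rw [hV]
            simp only
            rw [if_pos h2, hxabs]
          rw [h3, h5, An_sw]
          linarith
        · have h5 : V P.2.natAbs P.1.natAbs = 0 := by
            rw [hV]
            simp only
            rw [if_neg h2]
          rw [h3, h5, add_zero]
          positivity
    have hsum := sum_le_sum hpt
    rw [sum_add_distrib, sum_sq R V (fun m k hmk => by rw [hV]; simp only; rw [if_neg (by omega)])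
      (by rw [hV]; simp only; rw [if_neg (by omega)]), sum_sq' R V (fun m k hmk => by rw [hV]; simp only; rw [if_neg (by omega)])
      (by rw [hV]; simp only; rw [if_neg (by omega)])] at hsum
    obtain ⟨A, hA⟩ : ∃ A : ℝ, A = 32 * Jc * (1 - ε) ^ 3 * (H : ℝ) ^ 5 := ⟨_, rfl⟩
    have h1ε : 0 ≤ 1 - ε := by linarith
    have hA0 : 0 ≤ A := by rw [hA]; positivity
    have hs2 : ∀ m ∈ Icc 1 R, A * (1 / (m : ℝ)) - (if m ≤ X0 then A * (1 / (m : ℝ)) else 0) -
        280 * ((H : ℝ) ^ 5 * (1 / (m : ℝ) ^ 2) + (H : ℝ) ^ 4 * (1 / (m : ℝ))) ≤ V m 0 + 2 * ∑ k ∈ Icc 1 m, V m k := by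
      intro m hm
      have hm' := mem_Icc.1 hm
      have hm1 : (1 : ℝ) ≤ m := by exact_mod_cast hm'.1
      by_cases hX : X0 < m
      · rw [if_neg (by omega), sub_zero]
        have e1 : V m 0 + 2 * ∑ k ∈ Icc 1 m, V m k = (2 * (H : ℝ) / (m : ℝ) ^ 2 - 1) * (2 * (H : ℝ) + 1) ^ 2 *
            (((qs (H - e) m 0).card : ℝ) + 2 * ∑ k ∈ Icc 1 m, ((qs (H - e) m k).card : ℝ) - 2 * ((qs (H - e) m m).card : ℝ)) := by
          have e2 : V m 0 = (2 * (H : ℝ) / (m : ℝ) ^ 2 - 1) * (2 * (H : ℝ) + 1) ^ 2 * ((qs (H - e) m 0).card : ℝ) := by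
            rw [hV]
            simp only
            rw [if_pos ⟨by omega, hX⟩]
          have e3 : ∑ k ∈ Icc 1 m, V m k = (2 * (H : ℝ) / (m : ℝ) ^ 2 - 1) * (2 * (H : ℝ) + 1) ^ 2 *
              (∑ k ∈ Icc 1 m, ((qs (H - e) m k).card : ℝ) - ((qs (H - e) m m).card : ℝ)) := by
            have e4 : ∑ k ∈ Icc 1 m, ((qs (H - e) m k).card : ℝ) - ((qs (H - e) m m).card : ℝ) =
                ∑ k ∈ (Icc 1 m).erase m, ((qs (H - e) m k).card : ℝ) := by
              rw [← add_sum_erase (Icc 1 m) (fun k => ((qs (H - e) m k).card : ℝ)) (mem_Icc.2 ⟨hm'.1, le_refl _⟩)]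
              ring
            rw [e4, mul_sum, ← add_sum_erase (Icc 1 m) (fun k => V m k) (mem_Icc.2 ⟨hm'.1, le_refl _⟩)]
            have e5 : V m m = 0 := by
              rw [hV]
              simp only
              rw [if_neg (by omega)]
            rw [e5, zero_add]
            refine sum_congr rfl fun k hk => ?_
            have hk' := mem_erase.1 hk
            have hk2 := mem_Icc.1 hk'.2
            rw [hV]
            simp only
            rw [if_pos ⟨by omega, hX⟩]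
          rw [e2, e3]
          ring
        rw [e1, hA]
        have h1 := abs_le.1 (qs_sum (H - e) m hm'.1)
        have h2 : ((qs (H - e) m m).card : ℝ) ≤ (2 * ((H - e : ℕ) : ℝ) + 1) ^ 2 := by exact_mod_cast qs_le (H - e) m m
        have hcast : ((H - e : ℕ) : ℝ) = (H : ℝ) - e := by
          rw [Nat.cast_sub heH]
        refine lo_m ε H m ((H - e : ℕ) : ℝ) Jc _ hε.le (by linarith) hH' hm1 (hmH m hm'.2) (by positivity) ?_ ?_ (by linarith) hJ2 ?_ ?_
        · rw [hcast]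
          have : (0 : ℝ) ≤ e := Nat.cast_nonneg _
          linarith
        · rw [hcast]
          linarith
        · have e6 : ((qs (H - e) m m).card : ℝ) ≤ ∑ k ∈ Icc 1 m, ((qs (H - e) m k).card : ℝ) :=
            single_le_sum (f := fun k => ((qs (H - e) m k).card : ℝ)) (fun k _ => Nat.cast_nonneg _) (mem_Icc.2 ⟨hm'.1, le_refl _⟩)
          have e7 : (0 : ℝ) ≤ ((qs (H - e) m 0).card : ℝ) := Nat.cast_nonneg _
          linarith
        · linarith [h1.1]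
      · rw [if_pos (by omega), sub_self]
        have e1 : V m 0 + 2 * ∑ k ∈ Icc 1 m, V m k = 0 := by
          rw [hV]
          simp only
          rw [if_neg (by omega), sum_eq_zero fun k _ => by rw [if_neg (by omega)]]
          ring
        rw [e1]
        have : 0 ≤ 280 * ((H : ℝ) ^ 5 * (1 / (m : ℝ) ^ 2) + (H : ℝ) ^ 4 * (1 / (m : ℝ))) := by positivity
        linarith
    have hs3 := sum_le_sum hs2
    rw [sum_sub_distrib, sum_sub_distrib, ← mul_sum, ← mul_sum,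
      sum_add_distrib (f := fun m : ℕ => (H : ℝ) ^ 5 * (1 / (m : ℝ) ^ 2)), ← mul_sum, ← mul_sum] at hs3
    have hh1 := harm_up R
    have hh2 := sum_sq_inv R
    have hh3 := harm_lo R
    have hh4 := harm_up X0
    have hlogR : Real.log R ≤ Real.log S := by
      rcases Nat.eq_zero_or_pos R with h0 | h0
      · rw [h0, Nat.cast_zero, Real.log_zero]
        exact Real.log_nonneg hS
      · refine Real.log_le_log (by exact_mod_cast h0) (hRS.trans ?_)
        nlinarith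
    have hlogS : Real.log S ≤ H := (Real.log_le_sub_one_of_pos hS0).trans (by linarith)
    have hlog1 : Real.log S - Real.log (1 / ε₁) ≤ Real.log ((R : ℝ) + 1) := by
      have h1 : Real.log S - Real.log (1 / ε₁) = Real.log (ε₁ * S) := by
        rw [Real.log_mul he₁0.ne' hS0.ne', one_div, Real.log_inv]
        ring
      rw [h1]
      exact Real.log_le_log (by positivity) hRS'.le
    have hs4 : ∑ m ∈ Icc 1 R, (if m ≤ X0 then A * (1 / (m : ℝ)) else 0) ≤ A * (1 + Real.log X0) := by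
      rw [← sum_filter]
      have h1 : ∑ m ∈ (Icc 1 R).filter (fun m => m ≤ X0), A * (1 / (m : ℝ)) ≤ ∑ m ∈ Icc 1 X0, A * (1 / (m : ℝ)) := by
        refine sum_le_sum_of_subset_of_nonneg ?_ fun m _ _ => by positivity
        intro m hm
        rw [mem_filter, mem_Icc] at hm
        rw [mem_Icc]
        exact ⟨hm.1.1, hm.2⟩
      have h2 : ∑ m ∈ Icc 1 X0, A * (1 / (m : ℝ)) = A * ∑ m ∈ Icc 1 X0, 1 / (m : ℝ) := by rw [mul_sum]
      rw [h2] at h1
      exact h1.trans (mul_le_mul_of_nonneg_left hh4 hA0)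
    have f1 : A * (Real.log S - Real.log (1 / ε₁)) ≤ A * ∑ m ∈ Icc 1 R, 1 / (m : ℝ) :=
      mul_le_mul_of_nonneg_left (hlog1.trans hh3) hA0
    have f2 : (H : ℝ) ^ 5 * ∑ m ∈ Icc 1 R, 1 / (m : ℝ) ^ 2 ≤ (H : ℝ) ^ 5 * 2 := mul_le_mul_of_nonneg_left hh2 (by positivity)
    have f3 : (H : ℝ) ^ 4 * ∑ m ∈ Icc 1 R, 1 / (m : ℝ) ≤ (H : ℝ) ^ 5 * 2 := by
      calc (H : ℝ) ^ 4 * ∑ m ∈ Icc 1 R, 1 / (m : ℝ) ≤ (H : ℝ) ^ 4 * (2 * H) := by
            refine mul_le_mul_of_nonneg_left (by linarith) (by positivity)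
        _ = _ := by ring
    have f5 : 0 ≤ (H : ℝ) ^ 5 := by positivity
    have f6 : A ≤ 32 * Jc * (1 + ε) ^ 3 * (H : ℝ) ^ 5 := by
      rw [hA]
      have : (1 - ε) ^ 3 ≤ (1 + ε) ^ 3 := pow_le_pow_left₀ h1ε (by linarith) 3
      gcongr
    have f7 : A * (Real.log (1 / ε₁) + Real.log X0 + 1) ≤
        32 * Jc * (1 + ε) ^ 3 * (H : ℝ) ^ 5 * (Real.log (1 / ε₁) + Real.log X0 + 1) :=
      mul_le_mul_of_nonneg_right f6 (by positivity)
    have f8 : 0 ≤ (2 * (X0 : ℝ) + 1) ^ 2 * 243 * (H : ℝ) ^ 5 := by positivity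
    have f9 : 0 ≤ 128 * Jc * (1 + ε) ^ 3 * (H : ℝ) ^ 5 := by positivity
    have e1 : 128 * Jc * (1 - ε) ^ 3 * (H : ℝ) ^ 5 * Real.log S = 4 * A * Real.log S := by
      rw [hA]
      ring
    rw [e1, hCX]
    linarith

end Pool.Agent.H82.TO
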