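import Pool.Agent.H88.TS.Dig

/-! # [H82 TO UQ1] Number of vectors with given values at two points, summed over the pairs of points, `j = 1` -/

namespace Pool.Agent.H82.TO

open Finset Pool.Agent.H8.AA Pool.Agent.H88.TS

/-- integers of `[-H,H]` in one class modulo `X` -/
theorem cls_card' (X H : ℕ) (hX : 1 ≤ X) (r : ℤ) (V : Finset ℤ)
    (hV : ∀ v ∈ V, |v| ≤ (H : ℤ) ∧ (X : ℤ) ∣ v - r) : V.card ≤ 2 * H / X + 1 := by
  have hX0 : (0 : ℤ) < X := by exact_mod_cast hX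
  rw [← card_range (2 * H / X + 1)]
  refine card_le_card_of_injOn (fun v => ((v + H) / X).toNat) ?_ ?_
  · intro v hv
    have h1 := abs_le.1 (hV v hv).1
    have h2 : (0 : ℤ) ≤ (v + H) / X := Int.ediv_nonneg (by omega) hX0.le
    have h3 : (v + H) / X ≤ (2 * H : ℤ) / X := Int.ediv_le_ediv hX0 (by omega)
    have h4 : ((2 * H / X : ℕ) : ℤ) = (2 * H : ℤ) / X := by push_cast; rfl
    simp only [coe_range, Set.mem_Iio]
    rw [Int.toNat_lt h2]
    push_cast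
    omega
  · intro v hv w hw h
    have h1 := abs_le.1 (hV v hv).1
    have h2 := abs_le.1 (hV w hw).1
    have h3 : (0 : ℤ) ≤ (v + H) / X := Int.ediv_nonneg (by omega) hX0.le
    have h4 : (0 : ℤ) ≤ (w + H) / X := Int.ediv_nonneg (by omega) hX0.le
    have h5 : (v + H) / X = (w + H) / X := by
      have h6 : (((v + H) / X).toNat : ℤ) = (((w + H) / X).toNat : ℤ) := by exact_mod_cast h
      rwa [Int.toNat_of_nonneg h3, Int.toNat_of_nonneg h4] at h6
    have h7 : (v + H) % X = (w + H) % X := by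
      have h8 : (X : ℤ) ∣ (w + H) - (v + H) := by
        have h9 := dvd_sub (hV w hw).2 (hV v hv).2
        have h10 : w - r - (v - r) = (w + H) - (v + H) := by ring
        rwa [h10] at h9
      exact Int.modEq_iff_dvd.2 h8
    have h11 := Int.emod_add_mul_ediv (v + H) X
    have h12 := Int.emod_add_mul_ediv (w + H) X
    rw [h5, h7] at h11
    omega

theorem ext_co {j : ℕ} {c c' : Ix j → ℤ} (h : ∀ a b, a + b ≤ j → co c a b = co c' a b) : c = c' := by
  funext p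
  have h1 := h p.1.1.val p.1.2.val p.2
  rw [co_of_le c p.2, co_of_le c' p.2] at h1
  exact h1

/-- the points of a line in a box -/
theorem lin_card (H : ℕ) (u v m : ℤ) (hu : u ≠ 0) (T : Finset (ℤ × ℤ))
    (hT : ∀ q ∈ T, |q.2| ≤ (H : ℤ) ∧ q.1 * u + q.2 * v = m) :
    (T.card : ℝ) ≤ 1 + 2 * H * (((Int.gcd u v : ℕ) : ℝ) / |(u : ℝ)|) := by
  classical
  have hg : 0 < Int.gcd u v := Int.gcd_pos_of_ne_zero_left v hu
  obtain ⟨u', v', hcop, hu', hv'⟩ := Int.exists_gcd_one hg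
  obtain ⟨g, hgg⟩ : ∃ g : ℕ, g = Int.gcd u v := ⟨_, rfl⟩
  rw [← hgg] at hu' hv' hg ⊢
  have hg0 : (g : ℤ) ≠ 0 := by exact_mod_cast hg.ne'
  have hu0 : u' ≠ 0 := by
    rintro rfl
    rw [zero_mul] at hu'
    exact hu hu'
  have hX : 1 ≤ u'.natAbs := Int.natAbs_pos.2 hu0
  have hcop' : IsCoprime u' v' := Int.isCoprime_iff_gcd_eq_one.2 hcop
  rcases T.eq_empty_or_nonempty with rfl | ⟨q0, hq0⟩
  · simp only [card_empty, Nat.cast_zero]
    positivity
  have hinj : Set.InjOn (fun q : ℤ × ℤ => q.2) T := by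
    intro q hq q' hq' h
    simp only at h
    have h1 := (hT q hq).2
    have h2 := (hT q' hq').2
    rw [h] at h1
    have h3 : (q.1 - q'.1) * u = 0 := by linarith
    rcases mul_eq_zero.1 h3 with h4 | h4
    · exact Prod.ext (by linarith) h
    · exact absurd h4 hu
  rw [← card_image_of_injOn hinj]
  have h1 := cls_card' u'.natAbs H hX q0.2 (T.image fun q : ℤ × ℤ => q.2) (by
    intro v1 hv1
    obtain ⟨q, hq, rfl⟩ := mem_image.1 hv1
    refine ⟨(hT q hq).1, ?_⟩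
    rw [Int.natAbs_dvd]
    have h2 := (hT q hq).2
    have h3 := (hT q0 hq0).2
    have h4 : ((q.1 - q0.1) * u' + (q.2 - q0.2) * v') * g = 0 := by
      have e1 : ((q.1 - q0.1) * u' + (q.2 - q0.2) * v') * g = (q.1 - q0.1) * (u' * g) + (q.2 - q0.2) * (v' * g) := by ring
      rw [e1, ← hu', ← hv']
      linarith
    have h5 : (q.1 - q0.1) * u' + (q.2 - q0.2) * v' = 0 := by
      rcases mul_eq_zero.1 h4 with h6 | h6
      · exact h6
      · exact absurd h6 hg0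
    have h6 : u' ∣ (q.2 - q0.2) * v' := ⟨-(q.1 - q0.1), by linarith⟩
    exact hcop'.dvd_of_dvd_mul_right h6)
  have h2 : (((T.image fun q : ℤ × ℤ => q.2).card : ℕ) : ℝ) ≤ ((2 * H / u'.natAbs + 1 : ℕ) : ℝ) := by exact_mod_cast h1
  refine h2.trans ?_
  have h3 : ((2 * H / u'.natAbs : ℕ) : ℝ) ≤ ((2 * H : ℕ) : ℝ) / ((u'.natAbs : ℕ) : ℝ) := Nat.cast_div_le
  have hur : (0 : ℝ) < ((u'.natAbs : ℕ) : ℝ) := by exact_mod_cast hX
  have hgr : (0 : ℝ) < (g : ℝ) := by exact_mod_cast hg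
  have h4 : |(u : ℝ)| = ((u'.natAbs : ℕ) : ℝ) * g := by
    rw [hu']
    push_cast
    rw [abs_mul, Nat.abs_cast, Nat.cast_natAbs, Int.cast_abs]
  rw [h4]
  obtain ⟨W, hW⟩ : ∃ W : ℝ, W = ((u'.natAbs : ℕ) : ℝ) := ⟨_, rfl⟩
  rw [← hW] at h3 hur ⊢
  have h5 : (g : ℝ) / (W * g) = 1 / W := by
    field_simp
  rw [h5]
  have h7 : 2 * (H : ℝ) * (1 / W) = ((2 * H : ℕ) : ℝ) / W := by
    push_cast
    ring
  rw [h7, Nat.cast_add, Nat.cast_one]
  linarith

/-- the box of points -/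
noncomputable def bp (R : ℕ) : Finset (ℤ × ℤ) := Icc (-(R : ℤ)) R ×ˢ Icc (-(R : ℤ)) R

theorem mem_bp {R : ℕ} {P : ℤ × ℤ} : P ∈ bp R ↔ |P.1| ≤ (R : ℤ) ∧ |P.2| ≤ (R : ℤ) := by
  unfold bp
  rw [mem_product, mem_Icc, mem_Icc, abs_le, abs_le]

theorem card_bp (R : ℕ) : (bp R).card = (2 * R + 1) ^ 2 := by
  unfold bp
  rw [card_product, Int.card_Icc]
  have h : ((R : ℤ) + 1 - -(R : ℤ)).toNat = 2 * R + 1 := by omega
  rw [h, sq]

/-- maximum norm -/
noncomputable def mx (w : ℤ × ℤ) : ℝ := max |(w.1 : ℝ)| |(w.2 : ℝ)|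

theorem inv_sum (m : ℕ) : ∑ w ∈ (bp m).erase 0, 1 / mx w ≤ 8 * m := by
  induction m with
  | zero =>
    have h : (bp 0).erase 0 = ∅ := by
      rw [eq_empty_iff_forall_notMem]
      intro w hw
      rw [mem_erase, mem_bp] at hw
      apply hw.1
      have h1 := abs_eq_zero.1 (le_antisymm hw.2.1 (abs_nonneg _))
      have h2 := abs_eq_zero.1 (le_antisymm hw.2.2 (abs_nonneg _))
      exact Prod.ext h1 h2
    rw [h, sum_empty]
    simp
  | succ m ih =>
    have hsub : bp m ⊆ bp (m + 1) := by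
      intro w hw
      rw [mem_bp] at hw ⊢
      push_cast
      omega
    have hsub' : (bp m).erase 0 ⊆ (bp (m + 1)).erase 0 := erase_subset_erase _ hsub
    rw [← sum_sdiff hsub']
    have h1 : (bp (m + 1)).erase 0 \ (bp m).erase 0 ⊆ bp (m + 1) \ bp m := by
      intro w hw
      rw [mem_sdiff, mem_erase, mem_erase] at hw
      rw [mem_sdiff]
      refine ⟨hw.1.2, fun h => hw.2 ⟨hw.1.1, h⟩⟩
    have h2 : ∀ w ∈ bp (m + 1) \ bp m, 1 / mx w ≤ 1 / ((m : ℝ) + 1) := by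
      intro w hw
      rw [mem_sdiff, mem_bp, mem_bp] at hw
      have h3 : ((m : ℤ) + 1) ≤ |w.1| ∨ ((m : ℤ) + 1) ≤ |w.2| := by
        by_contra hcon
        push Not at hcon
        exact hw.2 ⟨by omega, by omega⟩
      refine one_div_le_one_div_of_le (by positivity) ?_
      unfold mx
      rcases h3 with h3 | h3
      · exact le_max_of_le_left (by exact_mod_cast h3)
      · exact le_max_of_le_right (by exact_mod_cast h3)
    have h3 : ((bp (m + 1) \ bp m).card : ℝ) = 8 * ((m : ℝ) + 1) := by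
      have h4 := card_sdiff_add_card_eq_card hsub
      rw [card_bp, card_bp] at h4
      have h5 : (((bp (m + 1) \ bp m).card : ℕ) : ℝ) + (2 * (m : ℝ) + 1) ^ 2 = (2 * ((m : ℝ) + 1) + 1) ^ 2 := by exact_mod_cast h4
      nlinarith
    have h4 : ∑ w ∈ (bp (m + 1)).erase 0 \ (bp m).erase 0, 1 / mx w ≤ 8 := by
      refine (sum_le_sum_of_subset_of_nonneg h1 fun w _ _ => by unfold mx; positivity).trans ?_
      refine (sum_le_sum h2).trans ?_
      rw [sum_const, nsmul_eq_mul, h3]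
      have : ((m : ℝ) + 1) ≠ 0 := by positivity
      field_simp
      exact le_refl _
    push_cast
    linarith

theorem gcd_sum (N : ℕ) (hN : 1 ≤ N) : ∑ w ∈ (bp N).erase 0, (((Int.gcd w.1 w.2 : ℕ) : ℝ) / mx w) ≤ 8 * N * (1 + Real.log N) := by
  classical
  have hmap : ∀ w ∈ (bp N).erase 0, Int.gcd w.1 w.2 ∈ Icc 1 N := by
    intro w hw
    rw [mem_erase, mem_bp] at hw
    obtain ⟨h0, h1, h2⟩ := hw
    have h3 : w.1 ≠ 0 ∨ w.2 ≠ 0 := by
      by_contra hcon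
      push Not at hcon
      exact h0 (Prod.ext hcon.1 hcon.2)
    rw [mem_Icc]
    rcases h3 with h3 | h3
    · refine ⟨Int.gcd_pos_of_ne_zero_left _ h3, ?_⟩
      have h4 := Nat.le_of_dvd (Int.natAbs_pos.2 h3) (Int.gcd_dvd_natAbs_left w.1 w.2)
      have h5 : |w.1| = (w.1.natAbs : ℤ) := Int.abs_eq_natAbs _
      omega
    · refine ⟨Int.gcd_pos_of_ne_zero_right _ h3, ?_⟩
      have h4 := Nat.le_of_dvd (Int.natAbs_pos.2 h3) (Int.gcd_dvd_natAbs_right w.1 w.2)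
      have h5 : |w.2| = (w.2.natAbs : ℤ) := Int.abs_eq_natAbs _
      omega
  rw [← sum_fiberwise_of_maps_to hmap]
  have hd : ∀ d ∈ Icc 1 N, ∑ w ∈ ((bp N).erase 0).filter (fun w => Int.gcd w.1 w.2 = d), (((Int.gcd w.1 w.2 : ℕ) : ℝ) / mx w) ≤
      8 * N * (d : ℝ)⁻¹ := by
    intro d hd
    have hd1 := (mem_Icc.1 hd).1
    have hd0 : (0 : ℝ) < d := by exact_mod_cast hd1
    have hdz : (d : ℤ) ≠ 0 := by exact_mod_cast (by omega : d ≠ 0)
    obtain ⟨φ, hφ⟩ : ∃ φ : ℤ × ℤ → ℤ × ℤ, φ = fun w : ℤ × ℤ => (w.1 / d, w.2 / d) := ⟨_, rfl⟩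
    obtain ⟨A, hA⟩ : ∃ A : Finset (ℤ × ℤ), A = ((bp N).erase 0).filter (fun w : ℤ × ℤ => Int.gcd w.1 w.2 = d) := ⟨_, rfl⟩
    rw [← hA]
    have hmul : ∀ w ∈ A, w.1 = d * (φ w).1 ∧ w.2 = d * (φ w).2 := by
      intro w hw
      rw [hA, mem_filter] at hw
      rw [hφ]
      simp only
      have h1 : (d : ℤ) ∣ w.1 := by rw [← hw.2]; exact Int.gcd_dvd_left _ _
      have h2 : (d : ℤ) ∣ w.2 := by rw [← hw.2]; exact Int.gcd_dvd_right _ _
      exact ⟨(Int.mul_ediv_cancel' h1).symm, (Int.mul_ediv_cancel' h2).symm⟩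
    have hterm : ∀ w ∈ A, (((Int.gcd w.1 w.2 : ℕ) : ℝ) / mx w) = 1 / mx (φ w) := by
      intro w hw
      obtain ⟨h1, h2⟩ := hmul w hw
      have h3 : Int.gcd w.1 w.2 = d := by
        rw [hA, mem_filter] at hw
        exact hw.2
      have h4 : mx w = d * mx (φ w) := by
        unfold mx
        rw [h1, h2]
        push_cast
        rw [abs_mul, abs_mul, Nat.abs_cast, mul_max_of_nonneg _ _ hd0.le]
      rw [h3, h4, div_mul_eq_div_div, div_self hd0.ne']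
    rw [sum_congr rfl hterm]
    have hinj : Set.InjOn φ A := by
      intro w hw w' hw' h
      obtain ⟨h1, h2⟩ := hmul w hw
      obtain ⟨h3, h4⟩ := hmul w' hw'
      rw [h] at h1 h2
      exact Prod.ext (h1.trans h3.symm) (h2.trans h4.symm)
    rw [← sum_image (f := fun w => 1 / mx w) hinj]
    have hsub : A.image φ ⊆ (bp (N / d)).erase 0 := by
      intro w' hw'
      obtain ⟨w, hw, rfl⟩ := mem_image.1 hw'
      obtain ⟨h1, h2⟩ := hmul w hw
      rw [hA, mem_filter, mem_erase, mem_bp] at hw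
      rw [mem_erase, mem_bp]
      have hdp : (0 : ℤ) < d := by exact_mod_cast hd1
      refine ⟨?_, ?_, ?_⟩
      · intro h
        apply hw.1.1
        rw [h] at h1 h2
        simp only [Prod.fst_zero, Prod.snd_zero, mul_zero] at h1 h2
        exact Prod.ext h1 h2
      · have h3 := hw.1.2.1
        rw [h1, abs_mul, Nat.abs_cast] at h3
        push_cast
        rw [Int.le_ediv_iff_mul_le hdp]
        linarith
      · have h3 := hw.1.2.2
        rw [h2, abs_mul, Nat.abs_cast] at h3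
        push_cast
        rw [Int.le_ediv_iff_mul_le hdp]
        linarith
    refine (sum_le_sum_of_subset_of_nonneg hsub fun w _ _ => by unfold mx; positivity).trans ?_
    refine (inv_sum (N / d)).trans ?_
    have h5 : ((N / d : ℕ) : ℝ) ≤ (N : ℝ) / d := Nat.cast_div_le
    calc 8 * ((N / d : ℕ) : ℝ) ≤ 8 * ((N : ℝ) / d) := by linarith
      _ = _ := by ring
  refine (sum_le_sum hd).trans ?_
  rw [← mul_sum]
  refine mul_le_mul_of_nonneg_left ?_ (by positivity)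
  have h1 := harmonic_le_one_add_log N
  have h5 : ((harmonic N : ℚ) : ℝ) = ∑ x ∈ Icc 1 N, (x : ℝ)⁻¹ := by
    rw [harmonic_eq_sum_Icc]
    push_cast
    rfl
  rw [h5] at h1
  exact h1

theorem ev_one (e : ℕ → ℕ → ℤ) (x y : ℤ) : ev 1 e x y = e 0 0 + e 1 0 * x + e 0 1 * y := by
  unfold ev
  simp only [sum_range_succ, range_zero, sum_empty]
  norm_num
  ring

/-- values at two points, `j = 1` -/
theorem pair1 (H : ℕ) (P Q : ℤ × ℤ) (N₁ N₂ : ℤ) (hPQ : P ≠ Q) (T : Finset (Ix 1 → ℤ))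
    (hT : ∀ c ∈ T, (∀ p, |c p| ≤ (H : ℤ)) ∧ ev 1 (co c) P.1 P.2 = N₁ ∧ ev 1 (co c) Q.1 Q.2 = N₂) :
    (T.card : ℝ) ≤ 1 + 2 * H * (((Int.gcd (P - Q).1 (P - Q).2 : ℕ) : ℝ) / mx (P - Q)) := by
  classical
  obtain ⟨u, hu⟩ : ∃ u, u = (P - Q).1 := ⟨_, rfl⟩
  obtain ⟨v, hv⟩ : ∃ v, v = (P - Q).2 := ⟨_, rfl⟩
  have hu' : u = P.1 - Q.1 := by rw [hu]; rfl
  have hv' : v = P.2 - Q.2 := by rw [hv]; rfl
  have h0 : u ≠ 0 ∨ v ≠ 0 := by
    by_contra hcon
    push Not at hcon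
    apply hPQ
    exact Prod.ext (by linarith [hcon.1]) (by linarith [hcon.2])
  have hmx : mx (P - Q) = max |(u : ℝ)| |(v : ℝ)| := by
    unfold mx
    rw [hu, hv]
  rw [hmx, ← hu, ← hv]
  have hbx : ∀ c ∈ T, |co c 1 0| ≤ (H : ℤ) ∧ |co c 0 1| ≤ (H : ℤ) := by
    intro c hc
    rw [co_of_le c (by omega : 1 + 0 ≤ 1), co_of_le c (by omega : 0 + 1 ≤ 1)]
    exact ⟨(hT c hc).1 _, (hT c hc).1 _⟩
  have hval : ∀ c ∈ T, co c 1 0 * u + co c 0 1 * v = N₁ - N₂ ∧ co c 0 0 + co c 1 0 * P.1 + co c 0 1 * P.2 = N₁ := by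
    intro c hc
    obtain ⟨_, h1, h2⟩ := hT c hc
    rw [ev_one] at h1 h2
    refine ⟨?_, h1⟩
    rw [hu', hv', ← h1, ← h2]
    ring
  have hext : ∀ c ∈ T, ∀ c' ∈ T, co c 1 0 = co c' 1 0 → co c 0 1 = co c' 0 1 → c = c' := by
    intro c hc c' hc' h1 h2
    have h3 := (hval c hc).2
    have h4 := (hval c' hc').2
    rw [h1, h2] at h3
    have h5 : co c 0 0 = co c' 0 0 := by linarith
    refine ext_co fun a b hab => ?_
    rcases Nat.eq_zero_or_pos a with ha | ha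
    · rcases Nat.eq_zero_or_pos b with hb | hb
      · rw [ha, hb]
        exact h5
      · have hb' : b = 1 := by omega
        rw [ha, hb']
        exact h2
    · have ha' : a = 1 := by omega
      have hb' : b = 0 := by omega
      rw [ha', hb']
      exact h1
  rcases le_total |(v : ℝ)| |(u : ℝ)| with hle | hle
  · rw [max_eq_left hle]
    have hu0 : u ≠ 0 := by
      rcases h0 with h | h
      · exact h
      · rintro rfl
        rw [Int.cast_zero, abs_zero] at hle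
        have h1 : (v : ℝ) = 0 := abs_eq_zero.1 (le_antisymm hle (abs_nonneg _))
        exact h (by exact_mod_cast h1)
    have h1 := lin_card H u v (N₁ - N₂) hu0 (T.image fun c => (co c 1 0, co c 0 1)) (by
      intro q hq
      obtain ⟨c, hc, rfl⟩ := mem_image.1 hq
      exact ⟨(hbx c hc).2, (hval c hc).1⟩)
    rw [card_image_of_injOn] at h1
    · exact h1
    · intro c hc c' hc' h
      simp only [Prod.mk.injEq] at h
      exact hext c hc c' hc' h.1 h.2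
  · rw [max_eq_right hle]
    have hv0 : v ≠ 0 := by
      rcases h0 with h | h
      · rintro rfl
        rw [Int.cast_zero, abs_zero] at hle
        have h1 : (u : ℝ) = 0 := abs_eq_zero.1 (le_antisymm hle (abs_nonneg _))
        exact h (by exact_mod_cast h1)
      · exact h
    have h1 := lin_card H v u (N₁ - N₂) hv0 (T.image fun c => (co c 0 1, co c 1 0)) (by
      intro q hq
      obtain ⟨c, hc, rfl⟩ := mem_image.1 hq
      refine ⟨(hbx c hc).1, ?_⟩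
      have := (hval c hc).1
      simp only
      linarith)
    rw [card_image_of_injOn] at h1
    · rw [Int.gcd_comm] at h1
      exact h1
    · intro c hc c' hc' h
      simp only [Prod.mk.injEq] at h
      exact hext c hc c' hc' h.2 h.1

/-- pairs of points, general -/
theorem dbl {j : ℕ} (R : ℕ) (z : (Ix j → ℤ) → ℤ × ℤ → Prop) (T : Finset (Ix j → ℤ))
    (hT : ∀ c ∈ T, ∃ P Q : ℤ × ℤ, P ≠ Q ∧ P ∈ bp R ∧ Q ∈ bp R ∧ z c P ∧ z c Q) (f : ℤ × ℤ → ℤ × ℤ → ℝ)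
    (hf : ∀ P ∈ bp R, ∀ Q ∈ bp R, P ≠ Q → ∀ T' : Finset (Ix j → ℤ), (∀ c ∈ T', c ∈ T ∧ z c P ∧ z c Q) → (T'.card : ℝ) ≤ f P Q) :
    (T.card : ℝ) ≤ ∑ P ∈ bp R, ∑ Q ∈ (bp R).erase P, f P Q := by
  classical
  have hsub : T ⊆ (bp R).biUnion fun P => ((bp R).erase P).biUnion fun Q => T.filter fun c => z c P ∧ z c Q := by
    intro c hc
    obtain ⟨P, Q, h1, h2, h3, h4, h5⟩ := hT c hc
    rw [mem_biUnion]
    refine ⟨P, h2, ?_⟩
    rw [mem_biUnion]
    exact ⟨Q, mem_erase.2 ⟨h1.symm, h3⟩, mem_filter.2 ⟨hc, h4, h5⟩⟩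
  have h1 : T.card ≤ ∑ P ∈ bp R, ∑ Q ∈ (bp R).erase P, (T.filter fun c => z c P ∧ z c Q).card :=
    (card_le_card hsub).trans (card_biUnion_le.trans (sum_le_sum fun P _ => card_biUnion_le))
  have h2 : (T.card : ℝ) ≤ ∑ P ∈ bp R, ∑ Q ∈ (bp R).erase P, ((T.filter fun c => z c P ∧ z c Q).card : ℝ) := by exact_mod_cast h1
  refine h2.trans (sum_le_sum fun P hP => sum_le_sum fun Q hQ => ?_)
  rw [mem_erase] at hQ
  refine hf P hP Q hQ.2 hQ.1.symm _ fun c hc => ?_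
  rw [mem_filter] at hc
  exact ⟨hc.1, hc.2⟩

theorem pairs1 (H R : ℕ) (hR : 1 ≤ R) (v : ℤ × ℤ → ℤ) (T : Finset (Ix 1 → ℤ))
    (hT : ∀ c ∈ T, (∀ p, |c p| ≤ (H : ℤ)) ∧ ∃ P Q : ℤ × ℤ, P ≠ Q ∧ P ∈ bp R ∧ Q ∈ bp R ∧
      ev 1 (co c) P.1 P.2 = v P ∧ ev 1 (co c) Q.1 Q.2 = v Q) :
    (T.card : ℝ) ≤ (2 * (R : ℝ) + 1) ^ 2 * ((4 * (R : ℝ) + 1) ^ 2 + 32 * H * R * (1 + Real.log (2 * R))) := by
  classical
  have h1 := dbl R (fun c P => ev 1 (co c) P.1 P.2 = v P) T (fun c hc => (hT c hc).2)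
    (fun P Q => 1 + 2 * H * (((Int.gcd (P - Q).1 (P - Q).2 : ℕ) : ℝ) / mx (P - Q))) (by
    intro P _ Q _ hPQ T' hT'
    refine pair1 H P Q (v P) (v Q) hPQ T' fun c hc => ?_
    obtain ⟨h1, h2, h3⟩ := hT' c hc
    exact ⟨(hT c h1).1, h2, h3⟩)
  refine h1.trans ?_
  have h2 : ∀ P ∈ bp R, ∑ Q ∈ (bp R).erase P, (1 + 2 * (H : ℝ) * (((Int.gcd (P - Q).1 (P - Q).2 : ℕ) : ℝ) / mx (P - Q))) ≤
      (4 * (R : ℝ) + 1) ^ 2 + 32 * H * R * (1 + Real.log (2 * R)) := by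
    intro P hP
    have hinj : Set.InjOn (fun Q : ℤ × ℤ => P - Q) ((bp R).erase P) := fun Q _ Q' _ h => by
      simpa using h
    rw [← sum_image (f := fun w : ℤ × ℤ => 1 + 2 * (H : ℝ) * (((Int.gcd w.1 w.2 : ℕ) : ℝ) / mx w)) hinj]
    have hsub : ((bp R).erase P).image (fun Q : ℤ × ℤ => P - Q) ⊆ (bp (2 * R)).erase 0 := by
      intro w hw
      obtain ⟨Q, hQ, rfl⟩ := mem_image.1 hw
      rw [mem_erase, mem_bp] at hQ
      rw [mem_bp] at hP
      rw [mem_erase, mem_bp]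
      refine ⟨fun h => hQ.1 (sub_eq_zero.1 h).symm, ?_, ?_⟩
      · rw [Prod.fst_sub]
        refine (abs_sub _ _).trans ?_
        push_cast
        linarith [hP.1, hQ.2.1]
      · rw [Prod.snd_sub]
        refine (abs_sub _ _).trans ?_
        push_cast
        linarith [hP.2, hQ.2.2]
    refine (sum_le_sum_of_subset_of_nonneg hsub fun w _ _ => by unfold mx; positivity).trans ?_
    rw [sum_add_distrib, ← mul_sum, sum_const, nsmul_eq_mul, mul_one]
    have e1 : ((((bp (2 * R)).erase 0).card : ℕ) : ℝ) ≤ (4 * (R : ℝ) + 1) ^ 2 := by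
      have h3 := card_le_card (erase_subset (0 : ℤ × ℤ) (bp (2 * R)))
      rw [card_bp] at h3
      have h4 : ((((bp (2 * R)).erase 0).card : ℕ) : ℝ) ≤ (2 * (2 * (R : ℝ)) + 1) ^ 2 := by exact_mod_cast h3
      refine h4.trans (le_of_eq ?_)
      ring
    have e2 := gcd_sum (2 * R) (by omega)
    push_cast at e2
    have e3 := mul_le_mul_of_nonneg_left e2 (by positivity : (0 : ℝ) ≤ 2 * H)
    have e4 : 2 * (H : ℝ) * (8 * (2 * R) * (1 + Real.log (2 * R))) = 32 * H * R * (1 + Real.log (2 * R)) := by ring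
    rw [e4] at e3
    linarith
  refine (sum_le_sum h2).trans ?_
  rw [sum_const, nsmul_eq_mul, card_bp]
  push_cast
  exact le_refl _

end Pool.Agent.H82.TO
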