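import Pool.Agent.H82.TO.As11
import Mathlib.MeasureTheory.Integral.IntegralEqImproper

/-! # [H82 TO AS12] The constant for `j = 1` as an integral over the plane -/

namespace Pool.Agent.H82.TO

open Finset MvPolynomial Filter Topology MeasureTheory Pool.Agent.H8.AA Pool.Agent.H88.A2 Pool.Agent.H82.A3 Pool.Agent.H88.TS

theorem dens_nonneg (n : ℕ) (F : MvPolynomial (Fin 2) ℤ) (z : ℝ × ℝ) : 0 ≤ dens n F z := by
  unfold dens
  positivity

theorem lf_meas (n : ℕ) (F : MvPolynomial (Fin 2) ℤ) : Measurable (lf n F) := by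
  unfold lf
  fun_prop

theorem dens_meas (n : ℕ) (F : MvPolynomial (Fin 2) ℤ) : Measurable (dens n F) := by
  have h := lf_meas n F
  unfold dens
  fun_prop

theorem dens_dom (n : ℕ) (hn : 4 ≤ n) (G : MvPolynomial (Fin 2) ℤ) (hG : G.totalDegree ≤ n) (T : ℝ) (hT : 1 ≤ T) : ∃ C : ℝ, 0 ≤ C ∧
    ∀ z : ℝ × ℝ, z.1 ≠ 0 → z.2 ≠ 0 → |z.1| < T → |z.2| < T → dens n G z ≤ C * (b2 (T + 1) z.1 * b2 (T + 1) z.2) := by
  obtain ⟨C, hC, hdom⟩ := dom1 G T hT
  refine ⟨C, hC, fun z hz1 hz2 h1 h2 => ?_⟩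
  have hs := sc_lim n (by omega)
  have hsH : ∀ H : ℕ, 1 ≤ H → sc n H ^ (n - 1) = H := fun H _ => sc_pow n (by omega) H
  have hpos : ∀ᶠ k in atTop, 1 ≤ sc n k := hs.eventually_ge_atTop 1
  have hge : ∀ᶠ k : ℕ in atTop, 1 ≤ k := eventually_ge_atTop 1
  have hxa : Tendsto (fun k => |((⌊sc n k * z.1⌋ : ℤ) : ℝ)| / sc n k) atTop (𝓝 |z.1|) := by
    refine (floor_lim hs z.1).abs.congr' ?_
    filter_upwards [hpos] with k hk
    rw [abs_div, abs_of_pos (by linarith : 0 < sc n k)]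
  have hya : Tendsto (fun k => |((⌊sc n k * z.2⌋ : ℤ) : ℝ)| / sc n k) atTop (𝓝 |z.2|) := by
    refine (floor_lim hs z.2).abs.congr' ?_
    filter_upwards [hpos] with k hk
    rw [abs_div, abs_of_pos (by linarith : 0 < sc n k)]
  refine le_of_tendsto (pt_lim n hn G hG hs hsH z hz1 hz2) ?_
  filter_upwards [hpos, hge, hxa.eventually (gt_mem_nhds h1), hya.eventually (gt_mem_nhds h2)] with k hk hk1 hx hy
  have hk0 : 0 < sc n k := by linarith
  have hSH : sc n k ≤ k := by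
    rw [← hsH k hk1]
    exact le_self_pow₀ hk (by omega)
  have h3 := hdom k (sc n k) hk1 hk hSH z hz1 hz2
  have hin : ∀ ξ : ℝ, |((⌊sc n k * ξ⌋ : ℤ) : ℝ)| / sc n k < T → |⌊sc n k * ξ⌋| ≤ ((⌊T * sc n k⌋₊ : ℕ) : ℤ) := by
    intro ξ h
    rw [div_lt_iff₀ hk0] at h
    have h7 : ((⌊sc n k * ξ⌋.natAbs : ℕ) : ℝ) ≤ T * sc n k := by
      rw [Nat.cast_natAbs, Int.cast_abs]
      exact h.le
    have h8 := Nat.le_floor h7
    rw [Int.abs_eq_natAbs]
    exact_mod_cast h8
  rw [stp_eq hk0, if_pos] at h3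
  · exact (le_abs_self _).trans h3
  · rw [mem_bp]
    exact ⟨hin z.1 hx, hin z.2 hy⟩

/-- the boxes -/
def bx (k : ℕ) : Set (ℝ × ℝ) := {z | |z.1| < (k : ℝ) + 1 ∧ |z.2| < (k : ℝ) + 1}

theorem bx_meas (k : ℕ) : MeasurableSet (bx k) := by
  unfold bx
  have h1 : Measurable fun z : ℝ × ℝ => |z.1| := by fun_prop
  have h2 : Measurable fun z : ℝ × ℝ => |z.2| := by fun_prop
  exact (measurableSet_lt h1 measurable_const).inter (measurableSet_lt h2 measurable_const)

theorem bx_cover : AECover (volume : Measure (ℝ × ℝ)) atTop bx := by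
  refine ⟨Filter.Eventually.of_forall fun z => ?_, bx_meas⟩
  obtain ⟨N, hN⟩ := exists_nat_gt (max |z.1| |z.2|)
  filter_upwards [eventually_ge_atTop N] with k hk
  have h1 : (N : ℝ) ≤ k := by exact_mod_cast hk
  have h2 := max_lt_iff.1 hN
  exact ⟨by linarith [h2.1], by linarith [h2.2]⟩

theorem aT_eq (n : ℕ) (F : MvPolynomial (Fin 2) ℤ) (k : ℕ) : aT n F ((k : ℝ) + 1) = ∫ z in bx k, dens n F z := by
  rw [← integral_indicator (bx_meas k)]
  unfold aT
  refine integral_congr_ae (Filter.Eventually.of_forall fun z => ?_)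
  by_cases hz : z ∈ bx k
  · simp only [Set.indicator_of_mem hz]
    exact if_pos hz
  · simp only [Set.indicator_of_notMem hz]
    exact if_neg hz

theorem dens_on (n : ℕ) (hn : 4 ≤ n) (G : MvPolynomial (Fin 2) ℤ) (hG : G.totalDegree ≤ n) (k : ℕ) : IntegrableOn (dens n G) (bx k) := by
  have hk : (1 : ℝ) ≤ (k : ℝ) + 1 := by linarith [(Nat.cast_nonneg k : (0 : ℝ) ≤ k)]
  obtain ⟨C, hC, hd⟩ := dens_dom n hn G hG ((k : ℝ) + 1) hk
  rw [← integrable_indicator_iff (bx_meas k)]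
  refine Integrable.mono' (b22_int ((k : ℝ) + 1 + 1) C (by linarith)) (((dens_meas n G).indicator (bx_meas k)).aestronglyMeasurable) ?_
  filter_upwards [ae_ne1 0, ae_ne2 0] with z hz1 hz2
  by_cases hz : z ∈ bx k
  · rw [Set.indicator_of_mem hz, Real.norm_of_nonneg (dens_nonneg n G z)]
    exact hd z hz1 hz2 hz.1 hz.2
  · rw [Set.indicator_of_notMem hz, norm_zero]
    exact mul_nonneg hC (mul_nonneg (b2_nonneg _ _) (b2_nonneg _ _))

theorem c1_int (n : ℕ) (G : MvPolynomial (Fin 2) ℤ) (h : Hyp0 n 1 G) : Integrable (dens n G) ∧ c1 n G = ∫ z, dens n G z := by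
  obtain ⟨hmono, hbdd, _⟩ := lim1 n G h
  obtain ⟨I, hI⟩ := hbdd
  have h1 : Integrable (dens n G) := by
    refine bx_cover.integrable_of_integral_bounded_of_nonneg_ae I (dens_on n h.hn G h.deg)
      (Filter.Eventually.of_forall fun z => dens_nonneg n G z) (Filter.Eventually.of_forall fun k => ?_)
    rw [← aT_eq]
    exact hI ⟨k, rfl⟩
  refine ⟨h1, ?_⟩
  have h2 := bx_cover.integral_tendsto_of_countably_generated h1
  simp only [← aT_eq] at h2
  exact tendsto_nhds_unique (tendsto_atTop_ciSup hmono ⟨I, hI⟩) h2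

/-- the leading form -/
theorem lf_aeval (n : ℕ) (G : MvPolynomial (Fin 2) ℤ) (z : ℝ × ℝ) :
    lf n G z = aeval ![z.1, z.2] (homogeneousComponent n G) := by
  classical
  have h1 : (aeval ![z.1, z.2] (homogeneousComponent n G) : ℝ) = ∑ d ∈ (homogeneousComponent n G).support,
      (((homogeneousComponent n G).coeff d : ℤ) : ℝ) * (z.1 ^ d 0 * z.2 ^ d 1) := by
    rw [aeval_def, eval₂_eq']
    refine sum_congr rfl fun d _ => ?_
    rw [Fin.prod_univ_two]
    simp
  rw [h1]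
  unfold lf
  symm
  obtain ⟨e, he⟩ : ∃ e : ℕ → (Fin 2 →₀ ℕ), e = fun i => Finsupp.single 0 (n - i) + Finsupp.single 1 i := ⟨_, rfl⟩
  have he0 : ∀ i, e i 0 = n - i := by
    intro i
    rw [he]
    simp
  have he1 : ∀ i, e i 1 = i := by
    intro i
    rw [he]
    simp
  have hinj : Set.InjOn e (range (n + 1)) := by
    intro i _ i' _ h
    rw [← he1 i, h, he1]
  have h2 : ∑ i ∈ range (n + 1), (ar G (n - i) i : ℝ) * (z.1 ^ (n - i) * z.2 ^ i) =
      ∑ d ∈ (range (n + 1)).image e, (((homogeneousComponent n G).coeff d : ℤ) : ℝ) * (z.1 ^ d 0 * z.2 ^ d 1) := by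
    rw [sum_image hinj]
    refine sum_congr rfl fun i hi => ?_
    have hi' := mem_range.1 hi
    rw [he0, he1, ← ar_hom n G i (by omega)]
    unfold ar
    rw [he]
  rw [h2]
  refine sum_subset ?_ ?_
  · intro d hd
    have h3 := mem_support_iff.1 hd
    rw [coeff_homogeneousComponent] at h3
    have h4 : d.degree = n := by
      by_contra hcon
      rw [if_neg hcon] at h3
      exact h3 rfl
    have h5 : d 0 + d 1 = n := by
      rw [← h4, Finsupp.degree_eq_sum, Fin.sum_univ_two]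
    rw [mem_image]
    refine ⟨d 1, mem_range.2 (by omega), ?_⟩
    ext i
    fin_cases i
    · have := he0 (d 1)
      simp only [Fin.zero_eta]
      rw [this]
      omega
    · have := he1 (d 1)
      simp only [Fin.mk_one]
      rw [this]
  · intro d _ hd
    rw [notMem_support_iff.1 hd]
    simp

/-- the length of the chord -/
theorem chord (x y F : ℝ) (hy : y ≠ 0) : volume.real {b : ℝ | |b| ≤ 1 ∧ |b * y + F| ≤ |x|} =
    max 0 (min 1 ((|x| - F) / |y|) + min 1 ((|x| + F) / |y|)) := by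
  have key : ∀ y F : ℝ, 0 < y → volume.real {b : ℝ | |b| ≤ 1 ∧ |b * y + F| ≤ |x|} =
      max 0 (min 1 ((|x| - F) / y) + min 1 ((|x| + F) / y)) := by
    intro y F hy
    have hset : {b : ℝ | |b| ≤ 1 ∧ |b * y + F| ≤ |x|} = Set.Icc (-(min 1 ((|x| + F) / y))) (min 1 ((|x| - F) / y)) := by
      ext b
      rw [Set.mem_ofPred_eq, Set.mem_Icc, neg_le, le_min_iff, le_min_iff, le_div_iff₀ hy, le_div_iff₀ hy, abs_le, abs_le]
      constructor
      · rintro ⟨⟨h1, h2⟩, h3, h4⟩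
        exact ⟨⟨by linarith, by linarith⟩, h2, by linarith⟩
      · rintro ⟨⟨h1, h2⟩, h3, h4⟩
        exact ⟨⟨by linarith, h3⟩, by linarith, by linarith⟩
    rw [hset, Measure.real, Real.volume_Icc, sub_neg_eq_add, ENNReal.toReal_ofReal', max_comm]
  rcases lt_or_gt_of_ne hy with hneg | hpos
  · have h1 := key (-y) (-F) (by linarith)
    have h2 : {b : ℝ | |b| ≤ 1 ∧ |b * -y + -F| ≤ |x|} = {b : ℝ | |b| ≤ 1 ∧ |b * y + F| ≤ |x|} := by
      ext b
      have e : b * -y + -F = -(b * y + F) := by ring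
      rw [Set.mem_ofPred_eq, Set.mem_ofPred_eq, e, abs_neg]
    rw [h2] at h1
    rw [h1, abs_of_neg hneg, sub_neg_eq_add, ← sub_eq_add_neg, add_comm]
  · rw [key y F hpos, abs_of_pos hpos]

/-- the constant -/
theorem c1_eq (n : ℕ) (G : MvPolynomial (Fin 2) ℤ) (h : Hyp0 n 1 G) : c1 n (homogeneousComponent n G) =
    ∫ z : ℝ × ℝ, 2 / |z.1| * volume.real {b : ℝ | |b| ≤ 1 ∧ |b * z.2 + aeval ![z.1, z.2] (homogeneousComponent n G)| ≤ |z.1|} := by
  have e : c1 n (homogeneousComponent n G) = c1 n G := by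
    unfold c1
    simp only [aT_hom]
  rw [e, (c1_int n G h).2]
  refine integral_congr_ae ?_
  filter_upwards [ae_ne2 0] with z hz
  rw [chord _ _ _ hz, ← lf_aeval]
  rfl

end Pool.Agent.H82.TO
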