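import Pool.Agent.H82.TO.Up3
import Pool.Agent.H82.TO.Lo

/-! # [H82 TO FIN] The exact order of the number of lower parts with an integer point, every stratum `1 ≤ j < n`, every `n ≥ 4` -/

namespace Pool.Agent.H82.TO

open Finset MvPolynomial Pool.Agent.H8.AA Pool.Agent.H88.A2 Pool.Agent.H82.A3

/-- number of `L` of degree at most `j` with coefficients at most `H` such that `G + L = 0` has an integer point -/
noncomputable def cnt (j : ℕ) (G : MvPolynomial (Fin 2) ℤ) (H : ℕ) : ℕ :=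
  Set.ncard {L : MvPolynomial (Fin 2) ℤ | L.totalDegree ≤ j ∧ (∀ m, |L.coeff m| ≤ (H : ℤ)) ∧ ∃ P : Fin 2 → ℤ, eval P (G + L) = 0}

/-- the zero `(0,0)` -/
theorem lo3 (j : ℕ) (G : MvPolynomial (Fin 2) ℤ) (H : ℕ) (hG : |eval (0 : Fin 2 → ℤ) G| ≤ (H : ℤ)) :
    (H : ℝ) ^ ((j + 1) * (j + 2) / 2 - 1) ≤ (cnt j G H : ℝ) := by
  classical
  have h00 : 0 + 0 ≤ j := by omega
  obtain ⟨i0, hi0⟩ : ∃ i0 : Ix j, i0 = ix 0 0 h00 := ⟨_, rfl⟩
  obtain ⟨s, hs⟩ : ∃ s : Ix j → Finset ℤ, s = fun p => if p = i0 then {- eval (0 : Fin 2 → ℤ) G} else Icc (-(H : ℤ)) H := ⟨_, rfl⟩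
  have h1 : (Fintype.piFinset s).card = (2 * H + 1) ^ ((j + 1) * (j + 2) / 2 - 1) := by
    rw [Fintype.card_piFinset]
    have h2 : ∀ p, (s p).card = if p = i0 then 1 else 2 * H + 1 := by
      intro p
      rw [hs]
      simp only
      split_ifs
      · exact card_singleton _
      · rw [Int.card_Icc]
        omega
    rw [prod_congr rfl fun p _ => h2 p, ← card_ix j, ← mul_prod_erase univ _ (mem_univ i0), if_pos rfl, one_mul]
    rw [prod_congr rfl (g := fun _ => 2 * H + 1), prod_const, card_erase_of_mem (mem_univ _), card_univ]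
    intro p hp
    rw [if_neg (ne_of_mem_erase hp)]
  have h2 : (Fintype.piFinset s : Set (Ix j → ℤ)) ⊆ {c : Ix j → ℤ | c ∈ box j H ∧ ∃ P : Fin 2 → ℤ, eval P (G + pol c) = 0} := by
    intro c hc
    rw [mem_coe, Fintype.mem_piFinset] at hc
    refine ⟨?_, 0, ?_⟩
    · rw [mem_box]
      intro p
      have h3 := hc p
      rw [hs] at h3
      simp only at h3
      split_ifs at h3 with h4
      · rw [mem_singleton.1 h3, abs_neg]
        exact hG
      · exact abs_le.2 (mem_Icc.1 h3)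
    · have h3 := hc i0
      rw [hs] at h3
      simp only [if_true, mem_singleton] at h3
      have h4 := ar_ev (Pool.Agent.H88.A2.pol_deg c) (0 : Fin 2 → ℤ)
      rw [ar_pol] at h4
      rw [map_add, ← h4]
      have h5 : ev j (co c) ((0 : Fin 2 → ℤ) 0) ((0 : Fin 2 → ℤ) 1) = c i0 := by
        unfold ev
        rw [sum_range_succ']
        have h6 : ∑ k ∈ range j, ∑ i ∈ range (k + 1 + 1), co c (k + 1 - i) i *
            (((0 : Fin 2 → ℤ) 0) ^ (k + 1 - i) * ((0 : Fin 2 → ℤ) 1) ^ i) = 0 := by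
          refine sum_eq_zero fun k _ => sum_eq_zero fun i hi => ?_
          have hi' := mem_range.1 hi
          rcases Nat.eq_zero_or_pos i with h7 | h7
          · rw [h7]
            simp
          · rw [Pi.zero_apply, Pi.zero_apply, zero_pow (by omega : i ≠ 0), mul_zero, mul_zero]
        rw [h6, hi0]
        simp [co_of_le]
      rw [h5, h3]
      ring
  have h3 : {c : Ix j → ℤ | c ∈ box j H ∧ ∃ P : Fin 2 → ℤ, eval P (G + pol c) = 0}.Finite :=
    (box j H).finite_toSet.subset fun c hc => hc.1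
  have h4 := Set.ncard_le_ncard h2 h3
  rw [Set.ncard_coe_finset, h1] at h4
  unfold cnt
  rw [pol_set j H (fun L => ∃ P : Fin 2 → ℤ, eval P (G + L) = 0)]
  have h5 : (((2 * H + 1) ^ ((j + 1) * (j + 2) / 2 - 1) : ℕ) : ℝ) ≤
      (Set.ncard {c : Ix j → ℤ | c ∈ box j H ∧ ∃ P : Fin 2 → ℤ, eval P (G + pol c) = 0} : ℝ) := by exact_mod_cast h4
  refine le_trans ?_ h5
  push_cast
  exact pow_le_pow_left₀ (by positivity) (by linarith [(Nat.cast_nonneg H : (0 : ℝ) ≤ (H : ℝ))]) _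

theorem orders (n j : ℕ) (G : MvPolynomial (Fin 2) ℤ) (h : Hyp0 n j G) : ∃ c C : ℝ, 0 < c ∧ ∃ H0 : ℕ, ∀ H : ℕ, H0 ≤ H →
    (j = 1 → c * (H : ℝ) ^ (2 + 1 / ((n - 1 : ℕ) : ℝ)) ≤ cnt j G H ∧ (cnt j G H : ℝ) ≤ C * (H : ℝ) ^ (2 + 1 / ((n - 1 : ℕ) : ℝ))) ∧
    (j = 2 → c * ((H : ℝ) ^ 5 * Real.log H) ≤ cnt j G H ∧ (cnt j G H : ℝ) ≤ C * ((H : ℝ) ^ 5 * Real.log H)) ∧
    (3 ≤ j → c * (H : ℝ) ^ ((j + 1) * (j + 2) / 2 - 1) ≤ cnt j G H ∧
      (cnt j G H : ℝ) ≤ C * (H : ℝ) ^ ((j + 1) * (j + 2) / 2 - 1)) := by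
  have hj := h.hj
  by_cases h1 : j = 1
  · subst h1
    obtain ⟨c, hc, H0, hlo⟩ := lo1 n h.hn G h.deg
    obtain ⟨C, hup⟩ := up1 n G h
    refine ⟨c, C, hc, H0 + 1, fun H hH => ⟨fun _ => ⟨hlo H (by omega), hup H (by omega)⟩, fun h2 => ?_, fun h2 => ?_⟩⟩
    · omega
    · omega
  by_cases h2 : j = 2
  · subst h2
    obtain ⟨c, hc, H0, hlo⟩ := lo2 n h.hn G h.deg
    obtain ⟨C, hup⟩ := aa3 n 2 G h (le_refl _)
    refine ⟨c, 2 * |C|, hc, H0 + 3, fun H hH => ⟨fun h3 => ?_, fun _ => ⟨hlo H (by omega), ?_⟩, fun h3 => ?_⟩⟩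
    · omega
    · have h3 := hup H (by omega)
      have hH3 : (3 : ℝ) ≤ H := by exact_mod_cast (by omega : 3 ≤ H)
      have e3 : 1 ≤ Real.log H := by
        rw [Real.le_log_iff_exp_le (by linarith)]
        exact (Real.exp_one_lt_d9.le.trans (by norm_num)).trans hH3
      rw [if_pos rfl, show (2 + 1) * (2 + 2) / 2 - 1 = 5 from rfl] at h3
      have h4 : C ≤ |C| := le_abs_self C
      unfold cnt
      refine h3.trans ?_
      calc C * (H : ℝ) ^ 5 * (1 + Real.log H) ≤ |C| * (H : ℝ) ^ 5 * (1 + Real.log H) := by gcongr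
        _ ≤ |C| * (H : ℝ) ^ 5 * (2 * Real.log H) := by
            have : 1 + Real.log H ≤ 2 * Real.log H := by linarith
            gcongr
        _ = _ := by ring
    · omega
  · obtain ⟨C, hup⟩ := aa3 n j G h (by omega)
    refine ⟨1, C, one_pos, (eval (0 : Fin 2 → ℤ) G).natAbs + 1, fun H hH => ⟨fun h3 => absurd h3 h1, fun h3 => absurd h3 h2, fun _ => ⟨?_, ?_⟩⟩⟩
    · rw [one_mul]
      refine lo3 j G H ?_
      have h3 : |eval (0 : Fin 2 → ℤ) G| = ((eval (0 : Fin 2 → ℤ) G).natAbs : ℤ) := Int.abs_eq_natAbs _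
      rw [h3]
      exact_mod_cast (by omega : (eval (0 : Fin 2 → ℤ) G).natAbs ≤ H)
    · have h3 := hup H (by omega)
      rw [if_neg h2, mul_one] at h3
      exact h3

end Pool.Agent.H82.TO
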