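import Pool.Agent.H82.TO.Uq3
import Pool.Agent.H82.A3.Fin

/-! # [H82 TO UQ4] points far out: both charts and the very large points -/

namespace Pool.Agent.H82.TO

open Finset MvPolynomial Pool.Agent.H8.AA Pool.Agent.H88.A2 Pool.Agent.H82.A3

theorem big (n j m : ℕ) (G : MvPolynomial (Fin 2) ℤ) (h : Hyp0 n j G) (hj2 : j ≤ 2) (hjm : j + m = n) :
    ∃ A C : ℝ, 1 ≤ A ∧ 0 ≤ C ∧ ∀ (H : ℕ) (S T0 : ℝ), 1 ≤ H → 1 ≤ S → S ^ m = H → A ≤ T0 → ∀ T : Finset (Ix j → ℤ),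
    (∀ c ∈ T, (∀ p, |c p| ≤ (H : ℤ)) ∧ ∃ P : Fin 2 → ℤ, eval P (G + pol c) = 0 ∧ T0 * S ≤ max |(P 0 : ℝ)| |(P 1 : ℝ)|) →
    (T.card : ℝ) ≤ C * ((2 * (H : ℝ) + 1) ^ (Fintype.card (Ix j) - (j + 1)) * (S ^ 2 * ((H : ℝ) / (T0 * S)) ^ j + S ^ 3) +
      (2 * (H : ℝ) + 1) ^ (Fintype.card (Ix j) - 1)) := by
  classical
  have hn := h.hn
  have hj := h.hj
  have hjn := h.hjn
  obtain ⟨B, hB, hGB⟩ := exists_bound G
  obtain ⟨E, C3, hC3, hlrg⟩ := lr_all n j G h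
  have hB' : (2 : ℝ) ≤ (B : ℝ) := by exact_mod_cast hB
  obtain ⟨A, hA, hg1, hg2⟩ := gd_of (by omega : 2 ≤ n) h.irr (B : ℝ) (by linarith)
  have hz := nz_of (by omega : 2 ≤ n) h.irr
  obtain ⟨g, hgd⟩ : ∃ g, g = ar G := ⟨_, rfl⟩
  rw [← hgd] at hg1 hg2 hz
  have hgB : ∀ a b, |g a b| + 1 ≤ (B : ℤ) := by
    intro a b
    rw [hgd]
    exact hGB _
  have hBA : (0 : ℝ) < (B : ℝ) / A := by positivity
  obtain ⟨A1, C1, hA1, hC1, h1⟩ := tailM n j m E B hn hj hj2 hjm hB g hgB hz _ hBA hg1 (fun x y => - eval ![x, y] G)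
  obtain ⟨A2, C2, hA2, hC2, h2⟩ := tailM n j m E B hn hj hj2 hjm hB (sw g) (fun a b => hgB b a) (nz_sw' hz) _ hBA hg2
    (fun x y => - eval ![y, x] G)
  refine ⟨max A1 A2, C1 + C2 + C3, le_max_of_le_left hA1, by positivity, ?_⟩
  intro H S T0 hH hS hSH hT0 T hT
  have hH' : (1 : ℝ) ≤ (H : ℝ) := by exact_mod_cast hH
  have hH0 : (0 : ℝ) < (H : ℝ) := by linarith
  have hS0 : 0 < S := by linarith
  have hT1 : A1 ≤ T0 := (le_max_left _ _).trans hT0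
  have hT2 : A2 ≤ T0 := (le_max_right _ _).trans hT0
  have hT00 : 0 < T0 := by linarith
  have hev : ∀ (c : Ix j → ℤ) (P : Fin 2 → ℤ), eval P (G + pol c) = ev n (Fc g c) (P 0) (P 1) := by
    intro c P
    have hd : (G + pol c).totalDegree ≤ n := (totalDegree_add _ _).trans (max_le h.deg ((Pool.Agent.H88.A2.pol_deg _).trans (by omega)))
    rw [← ar_ev hd]
    congr 1
    funext a b
    rw [ar_add, ar_pol, hgd]
    rfl
  have hev1 : ∀ (c : Ix j → ℤ) (P : Fin 2 → ℤ), eval P (G + pol c) = 0 → ev j (co c) (P 0) (P 1) = - eval P G := by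
    intro c P h0
    have h3 := ar_ev (Pool.Agent.H88.A2.pol_deg c) P
    rw [ar_pol] at h3
    rw [h3]
    rw [map_add] at h0
    linarith
  have hvec : ∀ P : Fin 2 → ℤ, ![P 0, P 1] = P := by
    intro P
    funext i
    fin_cases i <;> rfl
  obtain ⟨U, hU⟩ : ∃ U : ℝ, U = (((B * H : ℕ) : ℝ)) ^ E := ⟨_, rfl⟩
  obtain ⟨U1, hU1⟩ : ∃ U1, U1 = T.filter (fun c => ∃ x y : ℤ, |y| ≤ |x| ∧ T0 * S ≤ |(x : ℝ)| ∧ |(x : ℝ)| ≤ U ∧
    ev n (Fc g c) x y = 0 ∧ ev j (co c) x y = - eval ![x, y] G) := ⟨_, rfl⟩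
  obtain ⟨U2, hU2⟩ : ∃ U2, U2 = T.filter (fun c => ∃ x y : ℤ, |y| ≤ |x| ∧ T0 * S ≤ |(x : ℝ)| ∧ |(x : ℝ)| ≤ U ∧
    ev n (Fc g c) y x = 0 ∧ ev j (co c) y x = - eval ![y, x] G) := ⟨_, rfl⟩
  obtain ⟨U3, hU3⟩ : ∃ U3, U3 = T.filter (fun c => ∃ P : Fin 2 → ℤ, eval P (G + pol c) = 0 ∧
      ∃ i, ((B * H : ℕ) : ℤ) ^ E < |P i|) := ⟨_, rfl⟩
  have hsub : T ⊆ U1 ∪ U2 ∪ U3 := by
    intro c hc
    obtain ⟨hbox, P, hP, hmax⟩ := hT c hc
    simp only [mem_union]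
    rw [hU1, hU2, hU3, mem_filter, mem_filter, mem_filter]
    by_cases hlarge : ∃ i, ((B * H : ℕ) : ℤ) ^ E < |P i|
    · exact Or.inr ⟨hc, P, hP, hlarge⟩
    push Not at hlarge
    have hle : ∀ i, |(P i : ℝ)| ≤ U := by
      intro i
      have h3 := hlarge i
      rw [hU]
      exact_mod_cast h3
    have h4 := hev c P
    rw [hP] at h4
    have h5 := hev1 c P hP
    rcases le_total |P 1| |P 0| with h3 | h3
    · have h3' : |(P 1 : ℝ)| ≤ |(P 0 : ℝ)| := by exact_mod_cast h3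
      rw [max_eq_left h3'] at hmax
      refine Or.inl (Or.inl ⟨hc, P 0, P 1, h3, hmax, hle 0, h4.symm, ?_⟩)
      rw [hvec]
      exact h5
    · have h3' : |(P 0 : ℝ)| ≤ |(P 1 : ℝ)| := by exact_mod_cast h3
      rw [max_eq_right h3'] at hmax
      refine Or.inl (Or.inr ⟨hc, P 1, P 0, h3, hmax, hle 1, h4.symm, ?_⟩)
      rw [hvec]
      exact h5
  have hcT : (T.card : ℝ) ≤ U1.card + U2.card + U3.card := by
    have e1 := card_le_card hsub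
    have e2 := card_union_le (U1 ∪ U2) U3
    have e3 := card_union_le U1 U2
    have e5 : T.card ≤ U1.card + U2.card + U3.card := by omega
    exact_mod_cast e5
  obtain ⟨V, hV⟩ : ∃ V : ℝ, V = (2 * (H : ℝ) + 1) ^ (Fintype.card (Ix j) - (j + 1)) * (S ^ 2 * ((H : ℝ) / (T0 * S)) ^ j + S ^ 3) := ⟨_, rfl⟩
  have hV0 : 0 ≤ V := by rw [hV]; positivity
  have hc1 : (U1.card : ℝ) ≤ C1 * V := by
    have e1 := h1 H S T0 hH hS hSH hT1 U1 (by
      intro c hc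
      rw [hU1, mem_filter] at hc
      refine ⟨(hT c hc.1).1, ?_⟩
      obtain ⟨x, y, h3, h4, h5, h6, h7⟩ := hc.2
      exact ⟨x, y, h3, h4, by rw [hU] at h5; exact h5, h6, h7⟩)
    rw [mul_assoc, ← hV] at e1
    exact e1
  have hinj : Function.Injective (fun (c : Ix j → ℤ) (p : Ix j) => c (sp p)) := by
    intro c c' hcc
    funext p
    have := congrFun hcc (sp p)
    exact this
  have hc2 : (U2.card : ℝ) ≤ C2 * V := by
    have e1 := h2 H S T0 hH hS hSH hT2 (U2.image (fun c p => c (sp p))) (by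
      intro c' hc'
      obtain ⟨c, hc, rfl⟩ := mem_image.1 hc'
      rw [hU2, mem_filter] at hc
      refine ⟨fun p => (hT c hc.1).1 _, ?_⟩
      obtain ⟨x, y, h4, h5, h6, h7, h8⟩ := hc.2
      refine ⟨x, y, h4, h5, by rw [hU] at h6; exact h6, ?_, ?_⟩
      · rw [Fc_sp, ev_sw]
        exact h7
      · have h9 : co (fun p => c (sp p)) = sw (co c) := by
          funext a b
          rw [co_sp]
          rfl
        rw [h9, ev_sw]
        exact h8)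
    rw [card_image_of_injective _ hinj, mul_assoc, ← hV] at e1
    exact e1
  have hc3 : (U3.card : ℝ) ≤ C3 * (2 * (H : ℝ) + 1) ^ (Fintype.card (Ix j) - 1) := by
    refine hlrg B H hB hGB hH U3 ?_
    intro c hc
    rw [hU3, mem_filter] at hc
    exact ⟨(hT c hc.1).1, hc.2⟩
  rw [← hV]
  obtain ⟨V1, hV1⟩ : ∃ V1 : ℝ, V1 = (2 * (H : ℝ) + 1) ^ (Fintype.card (Ix j) - 1) := ⟨_, rfl⟩
  have hV10 : 0 ≤ V1 := by rw [hV1]; positivity
  rw [← hV1] at hc3 ⊢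
  nlinarith [mul_nonneg hC1 hV10, mul_nonneg hC2 hV10, mul_nonneg hC3 hV0]

end Pool.Agent.H82.TO
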