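import Pool.Agent.H82.TO.Uq2
import Pool.Agent.H82.TO.Uq4
import Pool.Agent.H82.TO.Fin
import Pool.Agent.H12.TU.Asm4

/-! # [H82 TO UQ] Almost every solvable member of the family has exactly one integer point, and it is small: every stratum `1 ≤ j < n`, `n ≥ 4` -/

namespace Pool.Agent.H82.TO

open Finset MvPolynomial Pool.Agent.H8.AA Pool.Agent.H88.A2 Pool.Agent.H82.A3 Pool.Agent.H88.TS Pool.Agent.H12.TU

/-- `G + L = 0` has exactly one integer point, and its coordinates are at most `R` -/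
def One (G L : MvPolynomial (Fin 2) ℤ) (R : ℝ) : Prop :=
  ∃ P : Fin 2 → ℤ, eval P (G + L) = 0 ∧ (∀ i, |(P i : ℝ)| ≤ R) ∧ ∀ Q : Fin 2 → ℤ, eval Q (G + L) = 0 → Q = P

theorem One.mono {G L : MvPolynomial (Fin 2) ℤ} {R R' : ℝ} (h : One G L R) (hR : R ≤ R') : One G L R' := by
  obtain ⟨P, h1, h2, h3⟩ := h
  exact ⟨P, h1, fun i => (h2 i).trans hR, h3⟩

/-- number of `L` of degree at most `j` with coefficients at most `H` such that `G + L = 0` has an integer point, but not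
exactly one, of size at most `R` -/
noncomputable def bad (j : ℕ) (G : MvPolynomial (Fin 2) ℤ) (H : ℕ) (R : ℝ) : ℕ :=
  Set.ncard {L : MvPolynomial (Fin 2) ℤ | L.totalDegree ≤ j ∧ (∀ m, |L.coeff m| ≤ (H : ℤ)) ∧
    ((∃ P : Fin 2 → ℤ, eval P (G + L) = 0) ∧ ¬ One G L R)}

theorem bad_fin (j : ℕ) (G : MvPolynomial (Fin 2) ℤ) (H : ℕ) (R : ℝ) (Z : Finset (Ix j → ℤ))
    (hZ : ∀ c, c ∈ Z ↔ c ∈ box j H ∧ ((∃ P : Fin 2 → ℤ, eval P (G + pol c) = 0) ∧ ¬ One G (pol c) R)) : bad j G H R = Z.card :=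
  ncard_filter j H (fun L => (∃ P : Fin 2 → ℤ, eval P (G + L) = 0) ∧ ¬ One G L R) Z hZ

theorem bad_le_cnt (j : ℕ) (G : MvPolynomial (Fin 2) ℤ) (H : ℕ) (R : ℝ) : bad j G H R ≤ cnt j G H := by
  classical
  obtain ⟨Z, hZ⟩ : ∃ Z : Finset (Ix j → ℤ), Z = (box j H).filter fun c =>
    (∃ P : Fin 2 → ℤ, eval P (G + pol c) = 0) ∧ ¬ One G (pol c) R := ⟨_, rfl⟩
  obtain ⟨Z', hZ'⟩ : ∃ Z' : Finset (Ix j → ℤ), Z' = (box j H).filter fun c => ∃ P : Fin 2 → ℤ, eval P (G + pol c) = 0 := ⟨_, rfl⟩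
  rw [bad_fin j G H R Z (fun c => by rw [hZ, Finset.mem_filter])]
  unfold cnt
  rw [ncard_filter j H (fun L => ∃ P : Fin 2 → ℤ, eval P (G + L) = 0) Z' (fun c => by rw [hZ', Finset.mem_filter])]
  refine Finset.card_le_card fun c hc => ?_
  rw [hZ, Finset.mem_filter] at hc
  rw [hZ', Finset.mem_filter]
  exact ⟨hc.1, hc.2.1⟩

theorem bad_mono (j : ℕ) (G : MvPolynomial (Fin 2) ℤ) (H : ℕ) {R R' : ℝ} (h : R ≤ R') : bad j G H R' ≤ bad j G H R := by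
  classical
  obtain ⟨Z, hZ⟩ : ∃ Z : Finset (Ix j → ℤ), Z = (box j H).filter fun c =>
    (∃ P : Fin 2 → ℤ, eval P (G + pol c) = 0) ∧ ¬ One G (pol c) R := ⟨_, rfl⟩
  obtain ⟨Z', hZ'⟩ : ∃ Z' : Finset (Ix j → ℤ), Z' = (box j H).filter fun c =>
    (∃ P : Fin 2 → ℤ, eval P (G + pol c) = 0) ∧ ¬ One G (pol c) R' := ⟨_, rfl⟩
  rw [bad_fin j G H R Z (fun c => by rw [hZ, Finset.mem_filter]), bad_fin j G H R' Z' (fun c => by rw [hZ', Finset.mem_filter])]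
  refine Finset.card_le_card fun c hc => ?_
  rw [hZ', Finset.mem_filter] at hc
  rw [hZ, Finset.mem_filter]
  exact ⟨hc.1, hc.2.1, fun h1 => hc.2.2 (h1.mono h)⟩

/-- bad vectors: a point far out, or two points in the box -/
theorem bad_split (j : ℕ) (G : MvPolynomial (Fin 2) ℤ) (H : ℕ) (R : ℝ) (hR : 0 ≤ R) : ∃ Tb Tp : Finset (Ix j → ℤ),
    bad j G H R ≤ Tb.card + Tp.card ∧
    (∀ c ∈ Tb, (∀ p, |c p| ≤ (H : ℤ)) ∧ ∃ P : Fin 2 → ℤ, eval P (G + pol c) = 0 ∧ R ≤ max |(P 0 : ℝ)| |(P 1 : ℝ)|) ∧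
    (∀ c ∈ Tp, (∀ p, |c p| ≤ (H : ℤ)) ∧ ∃ P Q : ℤ × ℤ, P ≠ Q ∧ P ∈ bp ⌊R⌋₊ ∧ Q ∈ bp ⌊R⌋₊ ∧
      ev j (co c) P.1 P.2 = - eval ![P.1, P.2] G ∧ ev j (co c) Q.1 Q.2 = - eval ![Q.1, Q.2] G) := by
  classical
  obtain ⟨Z, hZ⟩ : ∃ Z : Finset (Ix j → ℤ), Z = (box j H).filter fun c =>
    (∃ P : Fin 2 → ℤ, eval P (G + pol c) = 0) ∧ ¬ One G (pol c) R := ⟨_, rfl⟩
  obtain ⟨Tb, hTb⟩ : ∃ Tb : Finset (Ix j → ℤ), Tb = Z.filter fun c => ∃ P : Fin 2 → ℤ, eval P (G + pol c) = 0 ∧ R ≤ max |(P 0 : ℝ)| |(P 1 : ℝ)| := ⟨_, rfl⟩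
  obtain ⟨Tp, hTp⟩ : ∃ Tp : Finset (Ix j → ℤ), Tp = Z.filter fun c => ∃ P Q : ℤ × ℤ, P ≠ Q ∧ P ∈ bp ⌊R⌋₊ ∧ Q ∈ bp ⌊R⌋₊ ∧
      ev j (co c) P.1 P.2 = - eval ![P.1, P.2] G ∧ ev j (co c) Q.1 Q.2 = - eval ![Q.1, Q.2] G := ⟨_, rfl⟩
  have hbox : ∀ c ∈ Z, ∀ p, |c p| ≤ (H : ℤ) := by
    intro c hc
    rw [hZ, Finset.mem_filter] at hc
    exact mem_box.1 hc.1
  have hev1 : ∀ (c : Ix j → ℤ) (P : Fin 2 → ℤ), eval P (G + pol c) = 0 → ev j (co c) (P 0) (P 1) = - eval ![P 0, P 1] G := by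
    intro c P h0
    have h3 := ar_ev (Pool.Agent.H88.A2.pol_deg c) P
    rw [ar_pol] at h3
    have hvec : ![P 0, P 1] = P := by
      funext i
      fin_cases i <;> rfl
    rw [h3, hvec]
    rw [map_add] at h0
    linarith
  refine ⟨Tb, Tp, ?_, ?_, ?_⟩
  · rw [bad_fin j G H R Z (fun c => by rw [hZ, Finset.mem_filter])]
    refine le_trans (Finset.card_le_card ?_) (Finset.card_union_le Tb Tp)
    intro c hc
    rw [Finset.mem_union]
    by_cases hbig : ∃ P : Fin 2 → ℤ, eval P (G + pol c) = 0 ∧ R ≤ max |(P 0 : ℝ)| |(P 1 : ℝ)|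
    · left
      rw [hTb, Finset.mem_filter]
      exact ⟨hc, hbig⟩
    · right
      push Not at hbig
      rw [hTp, Finset.mem_filter]
      refine ⟨hc, ?_⟩
      rw [hZ, Finset.mem_filter] at hc
      obtain ⟨_, ⟨P, hP⟩, hnot⟩ := hc
      have hsm : ∀ Q : Fin 2 → ℤ, eval Q (G + pol c) = 0 → ∀ i, |(Q i : ℝ)| ≤ R := by
        intro Q hQ i
        have h1 := hbig Q hQ
        have h2 := max_lt_iff.1 h1
        fin_cases i
        · exact h2.1.le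
        · exact h2.2.le
      have hex : ∃ Q : Fin 2 → ℤ, eval Q (G + pol c) = 0 ∧ Q ≠ P := by
        by_contra hcon
        push Not at hcon
        exact hnot ⟨P, hP, hsm P hP, hcon⟩
      obtain ⟨Q, hQ, hne⟩ := hex
      have hin : ∀ Q : Fin 2 → ℤ, eval Q (G + pol c) = 0 → (Q 0, Q 1) ∈ bp ⌊R⌋₊ := by
        intro Q hQ
        have h1 := hsm Q hQ
        have key : ∀ i, |Q i| ≤ ((⌊R⌋₊ : ℕ) : ℤ) := by
          intro i
          have h2 : (((Q i).natAbs : ℕ) : ℝ) ≤ R := by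
            rw [Nat.cast_natAbs, Int.cast_abs]
            exact h1 i
          have h3 := Nat.le_floor h2
          rw [Int.abs_eq_natAbs]
          exact_mod_cast h3
        rw [mem_bp]
        exact ⟨key 0, key 1⟩
      refine ⟨(P 0, P 1), (Q 0, Q 1), ?_, hin P hP, hin Q hQ, hev1 c P hP, hev1 c Q hQ⟩
      intro h
      apply hne
      simp only [Prod.mk.injEq] at h
      funext i
      fin_cases i
      · exact h.1.symm
      · exact h.2.symm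
  · intro c hc
    rw [hTb, Finset.mem_filter] at hc
    exact ⟨hbox c hc.1, hc.2⟩
  · intro c hc
    rw [hTp, Finset.mem_filter] at hc
    exact ⟨hbox c hc.1, hc.2⟩

/-- `j = 1` -/
theorem uniq1 (n : ℕ) (G : MvPolynomial (Fin 2) ℤ) (h : Hyp0 n 1 G) : ∃ C : ℝ, 0 ≤ C ∧ ∀ (H : ℕ) (T : ℝ), 1 ≤ H → 1 ≤ T →
    (bad 1 G H (T * (H : ℝ) ^ (1 / ((n - 1 : ℕ) : ℝ))) : ℝ) ≤
      C * (1 / T + T ^ 4 * (H : ℝ) ^ (-(1 / (2 * ((n - 1 : ℕ) : ℝ))))) * (H : ℝ) ^ (2 + 1 / ((n - 1 : ℕ) : ℝ)) := by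
  have hn := h.hn
  obtain ⟨A, Cb, hA, hCb, hbig⟩ := big n 1 (n - 1) G h (by norm_num) (by omega)
  obtain ⟨Cu, hup⟩ := up1 n G h
  refine ⟨12 * Cb + 1089 + |Cu| * A, by positivity, ?_⟩
  intro H T hH hT
  have hH' : (1 : ℝ) ≤ (H : ℝ) := by exact_mod_cast hH
  have hH0 : (0 : ℝ) < (H : ℝ) := by linarith
  have hT0 : (0 : ℝ) < T := by linarith
  have hnr : (0 : ℝ) < ((n - 1 : ℕ) : ℝ) := by exact_mod_cast (by omega : 0 < n - 1)
  obtain ⟨S, hS⟩ : ∃ S : ℝ, S = (H : ℝ) ^ (1 / ((n - 1 : ℕ) : ℝ)) := ⟨_, rfl⟩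
  have hS1 : 1 ≤ S := by rw [hS]; exact Real.one_le_rpow hH' (by positivity)
  have hS0 : 0 < S := by linarith
  have hSH : S ^ (n - 1) = H := by
    rw [hS, ← Real.rpow_natCast, ← Real.rpow_mul hH0.le, one_div, inv_mul_cancel₀ hnr.ne', Real.rpow_one]
  have hS3 : S ^ 3 ≤ H := by
    rw [← hSH]
    exact pow_le_pow_right₀ hS1 (by omega)
  have hpow : (H : ℝ) ^ (2 + 1 / ((n - 1 : ℕ) : ℝ)) = (H : ℝ) ^ 2 * S := by
    rw [Real.rpow_add hH0, hS]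
    norm_num
  obtain ⟨s, hs⟩ : ∃ s : ℝ, s = √S := ⟨_, rfl⟩
  have hs1 : 1 ≤ s := by
    rw [hs, ← Real.sqrt_one]
    exact Real.sqrt_le_sqrt hS1
  have hs0 : 0 < s := by linarith
  have hss : s * s = S := by rw [hs]; exact Real.mul_self_sqrt hS0.le
  have hinv : (H : ℝ) ^ (-(1 / (2 * ((n - 1 : ℕ) : ℝ)))) = 1 / s := by
    rw [Real.rpow_neg hH0.le, ← one_div]
    congr 1
    rw [hs, Real.sqrt_eq_rpow, hS, ← Real.rpow_mul hH0.le]
    congr 1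
    field_simp
  rw [← hS, hinv, hpow]
  obtain ⟨Y, hY⟩ : ∃ Y : ℝ, Y = (H : ℝ) ^ 2 * S := ⟨_, rfl⟩
  have hY0 : 0 < Y := by rw [hY]; positivity
  rw [← hY]
  have hT4 : 1 ≤ T ^ 4 := one_le_pow₀ hT
  by_cases hTA : T < A
  · have h1 : (bad 1 G H (T * S) : ℝ) ≤ (cnt 1 G H : ℝ) := by exact_mod_cast bad_le_cnt 1 G H (T * S)
    have h2 : (cnt 1 G H : ℝ) ≤ |Cu| * Y := by
      have h3 := hup H hH
      rw [hpow, ← hY] at h3
      exact h3.trans (mul_le_mul_of_nonneg_right (le_abs_self Cu) hY0.le)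
    refine h1.trans (h2.trans ?_)
    have h3 : |Cu| ≤ |Cu| * A * (1 / T) := by
      rw [mul_assoc]
      refine le_mul_of_one_le_right (abs_nonneg _) ?_
      rw [mul_one_div, le_div_iff₀ hT0]
      linarith
    have h4 : |Cu| * A * (1 / T) ≤ (12 * Cb + 1089 + |Cu| * A) * (1 / T + T ^ 4 * (1 / s)) := by
      have e1 : 0 ≤ T ^ 4 * (1 / s) := by positivity
      have e2 : 0 ≤ 1 / T := by positivity
      have e3 : 0 ≤ |Cu| * A := by positivity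
      have e4 : 0 ≤ 12 * Cb + 1089 := by positivity
      nlinarith [mul_nonneg e3 e1, mul_nonneg e4 e1, mul_nonneg e4 e2]
    exact mul_le_mul_of_nonneg_right (h3.trans h4) hY0.le
  · push Not at hTA
    obtain ⟨Tb, Tp, hle, hb, hp⟩ := bad_split 1 G H (T * S) (by positivity)
    have hle' : (bad 1 G H (T * S) : ℝ) ≤ Tb.card + Tp.card := by exact_mod_cast hle
    have hc1 := hbig H S T hH hS1 hSH hTA Tb hb
    rw [card_ix, show (1 + 1) * (1 + 2) / 2 - (1 + 1) = 1 from rfl, show (1 + 1) * (1 + 2) / 2 - 1 = 2 from rfl, pow_one, pow_one] at hc1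
    have hTS1 : 1 ≤ T * S := by nlinarith
    have hR1 : 1 ≤ ⌊T * S⌋₊ := Nat.floor_pos.2 hTS1
    have hc2 := pairs1 H ⌊T * S⌋₊ hR1 (fun P => - eval ![P.1, P.2] G) Tp hp
    obtain ⟨r, hr⟩ : ∃ r : ℝ, r = ((⌊T * S⌋₊ : ℕ) : ℝ) := ⟨_, rfl⟩
    rw [← hr] at hc2
    have hr1 : 1 ≤ r := by rw [hr]; exact_mod_cast hR1
    have hrle : r ≤ T * S := by rw [hr]; exact Nat.floor_le (by positivity)
    have hK3 : 2 * (H : ℝ) + 1 ≤ 3 * H := by linarith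
    -- the far points
    have f1 : (Tb.card : ℝ) ≤ 12 * Cb * (1 / T + 1 / s) * Y := by
      refine hc1.trans ?_
      have e1 : S ^ 2 * ((H : ℝ) / (T * S)) = H * S * (1 / T) := by
        field_simp
      have e2 : (2 * (H : ℝ) + 1) ^ 2 ≤ 9 * (H : ℝ) ^ 2 := by
        calc (2 * (H : ℝ) + 1) ^ 2 ≤ (3 * H) ^ 2 := pow_le_pow_left₀ (by positivity) hK3 2
          _ = _ := by ring
      have e3 : (2 * (H : ℝ) + 1) * (S ^ 2 * ((H : ℝ) / (T * S)) + S ^ 3) ≤ 3 * H * (H * S * (1 / T) + H) := by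
        rw [e1]
        gcongr
      have e4 : (H : ℝ) ^ 2 ≤ Y * (1 / s) := by
        rw [hY, ← hss]
        have : (H : ℝ) ^ 2 * (s * s) * (1 / s) = (H : ℝ) ^ 2 * s := by
          field_simp
        rw [this]
        exact le_mul_of_one_le_right (by positivity) hs1
      have e5 : 3 * H * (H * S * (1 / T) + H) + 9 * (H : ℝ) ^ 2 ≤ 12 * (1 / T + 1 / s) * Y := by
        have e6 : 3 * H * (H * S * (1 / T) + H) + 9 * (H : ℝ) ^ 2 = 3 * (1 / T) * Y + 12 * (H : ℝ) ^ 2 := by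
          rw [hY]
          ring
        rw [e6]
        have e7 : 0 ≤ 1 / T * Y := by positivity
        nlinarith
      calc Cb * ((2 * (H : ℝ) + 1) * (S ^ 2 * ((H : ℝ) / (T * S)) + S ^ 3) + (2 * (H : ℝ) + 1) ^ 2)
          ≤ Cb * (3 * H * (H * S * (1 / T) + H) + 9 * (H : ℝ) ^ 2) := by
            refine mul_le_mul_of_nonneg_left ?_ hCb
            linarith
        _ ≤ Cb * (12 * (1 / T + 1 / s) * Y) := mul_le_mul_of_nonneg_left e5 hCb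
        _ = _ := by ring
    -- two points
    have f2 : (Tp.card : ℝ) ≤ 1089 * (T ^ 4 * (1 / s)) * Y := by
      refine hc2.trans ?_
      obtain ⟨q, hq⟩ : ∃ q : ℝ, q = √r := ⟨_, rfl⟩
      have hqq : q * q = r := by rw [hq]; exact Real.mul_self_sqrt (by linarith)
      have hq1 : 1 ≤ q := by
        rw [hq, ← Real.sqrt_one]
        exact Real.sqrt_le_sqrt hr1
      have hq0 : 0 < q := by linarith
      have hlog : 1 + Real.log (2 * r) ≤ 3 * q := by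
        have e1 : Real.log (2 * r) = Real.log 2 + 2 * Real.log q := by
          rw [Real.log_mul (by norm_num) (by linarith), ← hqq, Real.log_mul hq0.ne' hq0.ne']
          ring
        have e2 := Real.log_le_sub_one_of_pos hq0
        have e3 := Real.log_two_lt_d9
        rw [e1]
        linarith
      have hqT : q ≤ T * s := by
        rw [hq]
        rw [Real.sqrt_le_left (by positivity)]
        calc r ≤ T * S := hrle
          _ = 1 * (T * (s * s)) := by rw [hss]; ring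
          _ ≤ T * (T * (s * s)) := by gcongr
          _ = _ := by ring
      have e1 : (2 * r + 1) ^ 2 ≤ 9 * r ^ 2 := by
        calc (2 * r + 1) ^ 2 ≤ (3 * r) ^ 2 := pow_le_pow_left₀ (by positivity) (by linarith) 2
          _ = _ := by ring
      have e2 : (4 * r + 1) ^ 2 ≤ 25 * r ^ 2 := by
        calc (4 * r + 1) ^ 2 ≤ (5 * r) ^ 2 := pow_le_pow_left₀ (by positivity) (by linarith) 2
          _ = _ := by ring
      have e3 : (2 * r + 1) ^ 2 * ((4 * r + 1) ^ 2 + 32 * H * r * (1 + Real.log (2 * r))) ≤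
          9 * r ^ 2 * (25 * r ^ 2 + 32 * H * r * (3 * q)) := by
        have e30 : 0 ≤ 1 + Real.log (2 * r) := by
          have : 0 ≤ Real.log (2 * r) := Real.log_nonneg (by linarith)
          linarith
        gcongr
      refine e3.trans ?_
      have e4 : 9 * r ^ 2 * (25 * r ^ 2 + 32 * H * r * (3 * q)) = 225 * r ^ 4 + 864 * H * (r ^ 3 * q) := by ring
      rw [e4]
      have e5 : r ^ 4 ≤ T ^ 4 * (1 / s) * Y := by
        calc r ^ 4 ≤ (T * S) ^ 4 := pow_le_pow_left₀ (by linarith) hrle 4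
          _ = T ^ 4 * (S ^ 3 * S) := by ring
          _ ≤ T ^ 4 * (H * S) := by gcongr
          _ ≤ T ^ 4 * ((1 / s) * Y) := by
            refine mul_le_mul_of_nonneg_left ?_ (by positivity)
            rw [hY, one_div_mul_eq_div, le_div_iff₀ hs0]
            have e6 : s ≤ H := by
              have e7 : s ≤ S := by rw [← hss]; nlinarith
              have e8 : S ≤ S ^ 3 := le_self_pow₀ hS1 (by norm_num)
              linarith
            calc (H : ℝ) * S * s ≤ H * S * H := by gcongr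
              _ = _ := by ring
          _ = _ := by ring
      have e6 : H * (r ^ 3 * q) ≤ T ^ 4 * (1 / s) * Y := by
        calc (H : ℝ) * (r ^ 3 * q) ≤ H * ((T * S) ^ 3 * (T * s)) := by gcongr
          _ = T ^ 4 * (H * S ^ 3 * s) := by ring
          _ ≤ T ^ 4 * (H * H * s) := by gcongr
          _ = T ^ 4 * (1 / s) * Y := by
            rw [hY, ← hss]
            field_simp
      have e7 : 864 * (H : ℝ) * (r ^ 3 * q) = 864 * (H * (r ^ 3 * q)) := by ring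
      rw [e7]
      linarith
    have f3 : 1 / s ≤ T ^ 4 * (1 / s) := le_mul_of_one_le_left (by positivity) hT4
    have f4 : 0 ≤ 1 / T := by positivity
    have f5 : 0 ≤ T ^ 4 * (1 / s) := by positivity
    have f6 : 0 ≤ |Cu| * A := by positivity
    refine hle'.trans ?_
    have f7 : 12 * Cb * (1 / T + 1 / s) + 1089 * (T ^ 4 * (1 / s)) ≤ (12 * Cb + 1089 + |Cu| * A) * (1 / T + T ^ 4 * (1 / s)) := by
      have g1 : 12 * Cb * (1 / T + 1 / s) ≤ 12 * Cb * (1 / T + T ^ 4 * (1 / s)) := by gcongr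
      have g2 : 0 ≤ |Cu| * A * (1 / T + T ^ 4 * (1 / s)) := by positivity
      nlinarith
    calc (Tb.card : ℝ) + Tp.card ≤ 12 * Cb * (1 / T + 1 / s) * Y + 1089 * (T ^ 4 * (1 / s)) * Y := add_le_add f1 f2
      _ = (12 * Cb * (1 / T + 1 / s) + 1089 * (T ^ 4 * (1 / s))) * Y := by ring
      _ ≤ _ := mul_le_mul_of_nonneg_right f7 hY0.le

/-- `j = 2` -/
theorem uniq2 (n : ℕ) (G : MvPolynomial (Fin 2) ℤ) (h : Hyp0 n 2 G) : ∃ C : ℝ, 1 ≤ C ∧ ∀ H : ℕ, 1 ≤ H →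
    (bad 2 G H (C * (H : ℝ) ^ (1 / ((n - 2 : ℕ) : ℝ))) : ℝ) ≤ C * (H : ℝ) ^ 5 := by
  have hn := h.hn
  obtain ⟨A, Cb, hA, hCb, hbig⟩ := big n 2 (n - 2) G h (le_refl _) (by omega)
  obtain ⟨Cp, hCp, hpair⟩ := pairs2
  refine ⟨A + 297 * Cb + 2 * Cp * A ^ 4, by nlinarith [pow_nonneg (by linarith : (0:ℝ) ≤ A) 4, mul_nonneg hCp (pow_nonneg (by linarith : (0:ℝ) ≤ A) 4)], ?_⟩
  intro H hH
  have hH' : (1 : ℝ) ≤ (H : ℝ) := by exact_mod_cast hH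
  have hH0 : (0 : ℝ) < (H : ℝ) := by linarith
  have hA0 : (0 : ℝ) < A := by linarith
  have hnr : (0 : ℝ) < ((n - 2 : ℕ) : ℝ) := by exact_mod_cast (by omega : 0 < n - 2)
  obtain ⟨S, hS⟩ : ∃ S : ℝ, S = (H : ℝ) ^ (1 / ((n - 2 : ℕ) : ℝ)) := ⟨_, rfl⟩
  have hS1 : 1 ≤ S := by rw [hS]; exact Real.one_le_rpow hH' (by positivity)
  have hS0 : 0 < S := by linarith
  have hSH : S ^ (n - 2) = H := by
    rw [hS, ← Real.rpow_natCast, ← Real.rpow_mul hH0.le, one_div, inv_mul_cancel₀ hnr.ne', Real.rpow_one]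
  have hS2 : S ^ 2 ≤ H := by
    rw [← hSH]
    exact pow_le_pow_right₀ hS1 (by omega)
  have hS4 : S ^ 4 ≤ (H : ℝ) ^ 2 := by
    calc S ^ 4 = (S ^ 2) ^ 2 := by ring
      _ ≤ (H : ℝ) ^ 2 := pow_le_pow_left₀ (by positivity) hS2 2
  have hS3 : S ^ 3 ≤ (H : ℝ) ^ 2 := (pow_le_pow_right₀ hS1 (by norm_num)).trans hS4
  rw [← hS]
  have hmono : (bad 2 G H ((A + 297 * Cb + 2 * Cp * A ^ 4) * S) : ℝ) ≤ (bad 2 G H (A * S) : ℝ) := by
    exact_mod_cast bad_mono 2 G H (mul_le_mul_of_nonneg_right (by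
      have h1 : 0 ≤ 297 * Cb := by positivity
      have h2 : 0 ≤ 2 * Cp * A ^ 4 := by positivity
      linarith) hS0.le)
  refine hmono.trans ?_
  obtain ⟨Tb, Tp, hle, hb, hp⟩ := bad_split 2 G H (A * S) (by positivity)
  have hle' : (bad 2 G H (A * S) : ℝ) ≤ Tb.card + Tp.card := by exact_mod_cast hle
  have hc1 := hbig H S A hH hS1 hSH (le_refl _) Tb hb
  rw [card_ix, show (2 + 1) * (2 + 2) / 2 - (2 + 1) = 3 from rfl, show (2 + 1) * (2 + 2) / 2 - 1 = 5 from rfl] at hc1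
  have hTS1 : 1 ≤ A * S := by nlinarith
  have hR1 : 1 ≤ ⌊A * S⌋₊ := Nat.floor_pos.2 hTS1
  have hc2 := hpair H ⌊A * S⌋₊ hH hR1 (fun P => - eval ![P.1, P.2] G) Tp hp
  obtain ⟨r, hr⟩ : ∃ r : ℝ, r = ((⌊A * S⌋₊ : ℕ) : ℝ) := ⟨_, rfl⟩
  rw [← hr] at hc2
  have hr0 : 0 ≤ r := by rw [hr]; positivity
  have hrle : r ≤ A * S := by rw [hr]; exact Nat.floor_le (by positivity)
  have hK3 : 2 * (H : ℝ) + 1 ≤ 3 * H := by linarith
  have f1 : (Tb.card : ℝ) ≤ 297 * Cb * (H : ℝ) ^ 5 := by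
    refine hc1.trans ?_
    have e1 : S ^ 2 * ((H : ℝ) / (A * S)) ^ 2 ≤ (H : ℝ) ^ 2 := by
      have e2 : S ^ 2 * ((H : ℝ) / (A * S)) ^ 2 = (H : ℝ) ^ 2 / A ^ 2 := by
        field_simp
      rw [e2]
      exact div_le_self (by positivity) (one_le_pow₀ hA)
    have e2 : (2 * (H : ℝ) + 1) ^ 3 ≤ 27 * (H : ℝ) ^ 3 := by
      calc (2 * (H : ℝ) + 1) ^ 3 ≤ (3 * H) ^ 3 := pow_le_pow_left₀ (by positivity) hK3 3
        _ = _ := by ring
    have e3 : (2 * (H : ℝ) + 1) ^ 5 ≤ 243 * (H : ℝ) ^ 5 := by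
      calc (2 * (H : ℝ) + 1) ^ 5 ≤ (3 * H) ^ 5 := pow_le_pow_left₀ (by positivity) hK3 5
        _ = _ := by ring
    calc Cb * ((2 * (H : ℝ) + 1) ^ 3 * (S ^ 2 * ((H : ℝ) / (A * S)) ^ 2 + S ^ 3) + (2 * (H : ℝ) + 1) ^ 5)
        ≤ Cb * (27 * (H : ℝ) ^ 3 * ((H : ℝ) ^ 2 + (H : ℝ) ^ 2) + 243 * (H : ℝ) ^ 5) := by gcongr
      _ = _ := by ring
  have f2 : (Tp.card : ℝ) ≤ 2 * Cp * A ^ 4 * (H : ℝ) ^ 5 := by
    refine hc2.trans ?_
    have e1 : r ^ 4 ≤ A ^ 4 * (H : ℝ) ^ 2 := by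
      calc r ^ 4 ≤ (A * S) ^ 4 := pow_le_pow_left₀ hr0 hrle 4
        _ = A ^ 4 * S ^ 4 := by ring
        _ ≤ A ^ 4 * (H : ℝ) ^ 2 := by gcongr
    have e2 : r ^ 2 ≤ A ^ 4 * H := by
      calc r ^ 2 ≤ (A * S) ^ 2 := pow_le_pow_left₀ hr0 hrle 2
        _ = A ^ 2 * S ^ 2 := by ring
        _ ≤ A ^ 4 * H := by
          refine mul_le_mul (pow_le_pow_right₀ hA (by norm_num)) hS2 (by positivity) (by positivity)
    calc Cp * (H : ℝ) ^ 3 * (r ^ 4 + H * r ^ 2) ≤ Cp * (H : ℝ) ^ 3 * (A ^ 4 * (H : ℝ) ^ 2 + H * (A ^ 4 * H)) := by gcongr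
      _ = _ := by ring
  refine hle'.trans ?_
  calc (Tb.card : ℝ) + Tp.card ≤ 297 * Cb * (H : ℝ) ^ 5 + 2 * Cp * A ^ 4 * (H : ℝ) ^ 5 := add_le_add f1 f2
    _ ≤ (A + 297 * Cb + 2 * Cp * A ^ 4) * (H : ℝ) ^ 5 := by
      have : 0 ≤ A * (H : ℝ) ^ 5 := by positivity
      nlinarith

/-- `j ≥ 3` -/
theorem uniq3 (n j : ℕ) (G : MvPolynomial (Fin 2) ℤ) (h : Hyp0 n j G) (hj3 : 3 ≤ j) : ∃ C : ℝ, 0 ≤ C ∧ ∀ (H T : ℕ), 1 ≤ H → 1 ≤ T →
    (bad j G H (T : ℝ) : ℝ) ≤ C * (1 / (T : ℝ) ^ (j - 2) + (H : ℝ) ^ (-(1 / (2 * (n : ℝ) + 4)))) *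
      (H : ℝ) ^ ((j + 1) * (j + 2) / 2 - 1) := by
  classical
  obtain ⟨C, hC⟩ := main4 n j G ⟨h.hn, hj3, h.hjn, h.deg, h.irr⟩
  obtain ⟨N, hN⟩ : ∃ N : ℕ, N = (j + 1) * (j + 2) / 2 - 1 := ⟨_, rfl⟩
  rw [← hN]
  rw [← hN] at hC
  refine ⟨2 * |C| * 3 ^ N, by positivity, ?_⟩
  intro H T hH hT
  obtain ⟨_, h2, h3⟩ := hC H hH
  have h3 := h3 T hT
  have hH' : (1 : ℝ) ≤ (H : ℝ) := by exact_mod_cast hH
  have hH0 : (0 : ℝ) < (H : ℝ) := by linarith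
  obtain ⟨u, hu⟩ : ∃ u : ℝ, u = (H : ℝ) ^ (-(1 / (2 * (n : ℝ) + 4))) := ⟨_, rfl⟩
  rw [← hu] at h2 h3 ⊢
  have hu0 : 0 ≤ u := by rw [hu]; positivity
  have hVH : (2 * (H : ℝ) + 1) ^ N ≤ 3 ^ N * (H : ℝ) ^ N := by
    rw [← mul_pow]
    exact pow_le_pow_left₀ (by positivity) (by linarith) _
  obtain ⟨Z, hZ⟩ : ∃ Z : Finset (Ix j → ℤ), Z = (box j H).filter fun c =>
    (∃ P : Fin 2 → ℤ, eval P (G + pol c) = 0) ∧ ¬ One G (pol c) T := ⟨_, rfl⟩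
  obtain ⟨Z2, hZ2⟩ : ∃ Z2 : Finset (Ix j → ℤ), Z2 = (box j H).filter fun c =>
    ∃ P Q : Fin 2 → ℤ, P ≠ Q ∧ eval P (G + pol c) = 0 ∧ eval Q (G + pol c) = 0 := ⟨_, rfl⟩
  obtain ⟨Z3, hZ3⟩ : ∃ Z3 : Finset (Ix j → ℤ), Z3 = (box j H).filter fun c =>
    ∃ P : Fin 2 → ℤ, (T : ℤ) < max |P 0| |P 1| ∧ eval P (G + pol c) = 0 := ⟨_, rfl⟩
  rw [ncard_filter j H (fun L => ∃ P Q : Fin 2 → ℤ, P ≠ Q ∧ eval P (G + L) = 0 ∧ eval Q (G + L) = 0) Z2
    (fun c => by rw [hZ2, Finset.mem_filter])] at h2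
  rw [ncard_filter j H (fun L => ∃ P : Fin 2 → ℤ, (T : ℤ) < max |P 0| |P 1| ∧ eval P (G + L) = 0) Z3
    (fun c => by rw [hZ3, Finset.mem_filter])] at h3
  rw [bad_fin j G H (T : ℝ) Z (fun c => by rw [hZ, Finset.mem_filter])]
  have hsub : Z ⊆ Z2 ∪ Z3 := by
    intro c hc
    rw [hZ, Finset.mem_filter] at hc
    obtain ⟨hbx, ⟨P, hP⟩, hnot⟩ := hc
    rw [Finset.mem_union, hZ2, hZ3, Finset.mem_filter, Finset.mem_filter]
    by_cases hbig : ∃ P : Fin 2 → ℤ, (T : ℤ) < max |P 0| |P 1| ∧ eval P (G + pol c) = 0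
    · exact Or.inr ⟨hbx, hbig⟩
    · push Not at hbig
      refine Or.inl ⟨hbx, ?_⟩
      have hsm : ∀ i, |(P i : ℝ)| ≤ (T : ℝ) := by
        intro i
        have h4 : max |P 0| |P 1| ≤ (T : ℤ) := by
          by_contra hcon
          push Not at hcon
          exact hbig P hcon hP
        have h5 := max_le_iff.1 h4
        fin_cases i
        · exact_mod_cast h5.1
        · exact_mod_cast h5.2
      have hex : ∃ Q : Fin 2 → ℤ, eval Q (G + pol c) = 0 ∧ Q ≠ P := by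
        by_contra hcon
        push Not at hcon
        exact hnot ⟨P, hP, hsm, hcon⟩
      obtain ⟨Q, hQ, hne⟩ := hex
      exact ⟨P, Q, fun h => hne h.symm, hP, hQ⟩
  have h4 : (Z.card : ℝ) ≤ Z2.card + Z3.card := by
    exact_mod_cast (Finset.card_le_card hsub).trans (Finset.card_union_le _ _)
  have hT0 : 0 ≤ 1 / (T : ℝ) ^ (j - 2) := by positivity
  have hV0 : 0 ≤ (2 * (H : ℝ) + 1) ^ N := by positivity
  have h5 : C * u * (2 * (H : ℝ) + 1) ^ N ≤ |C| * (1 / (T : ℝ) ^ (j - 2) + u) * (3 ^ N * (H : ℝ) ^ N) := by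
    calc C * u * (2 * (H : ℝ) + 1) ^ N ≤ |C| * u * (2 * (H : ℝ) + 1) ^ N := by
          refine mul_le_mul_of_nonneg_right (mul_le_mul_of_nonneg_right (le_abs_self C) hu0) hV0
      _ ≤ |C| * (1 / (T : ℝ) ^ (j - 2) + u) * (3 ^ N * (H : ℝ) ^ N) := by
          refine mul_le_mul (mul_le_mul_of_nonneg_left (by linarith) (abs_nonneg C)) hVH hV0 (by positivity)
  have h6 : C * (1 / (T : ℝ) ^ (j - 2) + u) * (2 * (H : ℝ) + 1) ^ N ≤ |C| * (1 / (T : ℝ) ^ (j - 2) + u) * (3 ^ N * (H : ℝ) ^ N) := by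
    calc C * (1 / (T : ℝ) ^ (j - 2) + u) * (2 * (H : ℝ) + 1) ^ N ≤ |C| * (1 / (T : ℝ) ^ (j - 2) + u) * (2 * (H : ℝ) + 1) ^ N := by
          refine mul_le_mul_of_nonneg_right (mul_le_mul_of_nonneg_right (le_abs_self C) (by positivity)) hV0
      _ ≤ _ := mul_le_mul_of_nonneg_left hVH (by positivity)
  calc (Z.card : ℝ) ≤ Z2.card + Z3.card := h4
    _ ≤ |C| * (1 / (T : ℝ) ^ (j - 2) + u) * (3 ^ N * (H : ℝ) ^ N) + |C| * (1 / (T : ℝ) ^ (j - 2) + u) * (3 ^ N * (H : ℝ) ^ N) :=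
        add_le_add (h2.trans h5) (h3.trans h6)
    _ = _ := by ring

/-- the size of the points -/
noncomputable def sz (n j H : ℕ) : ℝ := if j = 1 then (H : ℝ) ^ (1 / ((n - 1 : ℕ) : ℝ)) else if j = 2 then (H : ℝ) ^ (1 / ((n - 2 : ℕ) : ℝ)) else 1

/-- Among the `L` of degree at most `j` and height at most `H` such that `G + L = 0` has an integer point, all but a proportion `ε`
have exactly one integer point, of size at most `T(ε) sz`. -/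
theorem solvable (n j : ℕ) (G : MvPolynomial (Fin 2) ℤ) (h : Hyp0 n j G) (ε : ℝ) (hε : 0 < ε) : ∃ T : ℝ, ∃ H0 : ℕ, ∀ H : ℕ, H0 ≤ H →
    (bad j G H (T * sz n j H) : ℝ) ≤ ε * (cnt j G H : ℝ) := by
  obtain ⟨c, C, hc, H0, hord⟩ := orders n j G h
  have hn := h.hn
  by_cases h1 : j = 1
  · subst h1
    obtain ⟨C1, hC1, hu⟩ := uniq1 n G h
    have hnr : (0 : ℝ) < ((n - 1 : ℕ) : ℝ) := by exact_mod_cast (by omega : 0 < n - 1)
    obtain ⟨T, hT⟩ : ∃ T : ℝ, T = 1 + 2 * C1 / (ε * c) := ⟨_, rfl⟩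
    have hT1 : 1 ≤ T := by
      rw [hT]
      have : 0 ≤ 2 * C1 / (ε * c) := by positivity
      linarith
    have hT0 : 0 < T := by linarith
    have hCT : C1 * (1 / T) ≤ ε * c / 2 := by
      rw [mul_one_div, div_le_iff₀ hT0, hT]
      have h2 : ε * c / 2 * (1 + 2 * C1 / (ε * c)) = ε * c / 2 + C1 := by
        field_simp
      rw [h2]
      have : 0 < ε * c := by positivity
      linarith
    have hlim : Filter.Tendsto (fun H : ℕ => C1 * (T ^ 4 * (H : ℝ) ^ (-(1 / (2 * ((n - 1 : ℕ) : ℝ)))))) Filter.atTop (nhds 0) := by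
      have h2 := (tendsto_rpow_neg_atTop (show (0 : ℝ) < 1 / (2 * ((n - 1 : ℕ) : ℝ)) by positivity)).comp (tendsto_natCast_atTop_atTop (R := ℝ))
      have h3 := (h2.const_mul (T ^ 4)).const_mul C1
      simpa using h3
    have hev := hlim.eventually (gt_mem_nhds (show (0 : ℝ) < ε * c / 2 by positivity))
    obtain ⟨H1, hH1⟩ := Filter.eventually_atTop.1 hev
    refine ⟨T, H0 + H1 + 1, fun H hH => ?_⟩
    have h2 := hu H T (by omega) hT1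
    have h3 := ((hord H (by omega)).1 rfl).1
    have h4 := hH1 H (by omega)
    have e : sz n 1 H = (H : ℝ) ^ (1 / ((n - 1 : ℕ) : ℝ)) := by
      unfold sz
      rw [if_pos rfl]
    rw [e]
    refine h2.trans ?_
    have h5 : 0 ≤ (H : ℝ) ^ (2 + 1 / ((n - 1 : ℕ) : ℝ)) := by positivity
    calc C1 * (1 / T + T ^ 4 * (H : ℝ) ^ (-(1 / (2 * ((n - 1 : ℕ) : ℝ))))) * (H : ℝ) ^ (2 + 1 / ((n - 1 : ℕ) : ℝ))
        = (C1 * (1 / T) + C1 * (T ^ 4 * (H : ℝ) ^ (-(1 / (2 * ((n - 1 : ℕ) : ℝ)))))) * (H : ℝ) ^ (2 + 1 / ((n - 1 : ℕ) : ℝ)) := by ring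
      _ ≤ (ε * c) * (H : ℝ) ^ (2 + 1 / ((n - 1 : ℕ) : ℝ)) := by
          refine mul_le_mul_of_nonneg_right ?_ h5
          linarith
      _ = ε * (c * (H : ℝ) ^ (2 + 1 / ((n - 1 : ℕ) : ℝ))) := by ring
      _ ≤ _ := mul_le_mul_of_nonneg_left h3 hε.le
  by_cases h2 : j = 2
  · subst h2
    obtain ⟨C1, hC1, hu⟩ := uniq2 n G h
    have hlim : Filter.Tendsto (fun H : ℕ => Real.log (H : ℝ)) Filter.atTop Filter.atTop :=
      Real.tendsto_log_atTop.comp tendsto_natCast_atTop_atTop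
    have hev := hlim.eventually (Filter.eventually_ge_atTop (C1 / (ε * c)))
    obtain ⟨H1, hH1⟩ := Filter.eventually_atTop.1 hev
    refine ⟨C1, H0 + H1 + 1, fun H hH => ?_⟩
    have h2 := hu H (by omega)
    have h3 := ((hord H (by omega)).2.1 rfl).1
    have h4 := hH1 H (by omega)
    have e : sz n 2 H = (H : ℝ) ^ (1 / ((n - 2 : ℕ) : ℝ)) := by
      unfold sz
      rw [if_neg (by norm_num), if_pos rfl]
    rw [e]
    refine h2.trans ?_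
    rw [div_le_iff₀ (by positivity)] at h4
    calc C1 * (H : ℝ) ^ 5 ≤ (Real.log H * (ε * c)) * (H : ℝ) ^ 5 := by gcongr
      _ = ε * (c * ((H : ℝ) ^ 5 * Real.log H)) := by ring
      _ ≤ _ := mul_le_mul_of_nonneg_left h3 hε.le
  · have hj3 : 3 ≤ j := by
      have := h.hj
      omega
    obtain ⟨C1, hC1, hu⟩ := uniq3 n j G h hj3
    obtain ⟨T, hT⟩ : ∃ T : ℕ, T = ⌈2 * C1 / (ε * c)⌉₊ + 1 := ⟨_, rfl⟩
    have hTr : 2 * C1 / (ε * c) ≤ (T : ℝ) := by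
      rw [hT]
      push_cast
      have := Nat.le_ceil (2 * C1 / (ε * c))
      linarith
    have hT1 : 1 ≤ T := by omega
    have hT1r : (1 : ℝ) ≤ T := by exact_mod_cast hT1
    have hT0 : (0 : ℝ) < T := by linarith
    have hpowT : (T : ℝ) ≤ (T : ℝ) ^ (j - 2) := le_self_pow₀ hT1r (by omega)
    have hCT : C1 * (1 / (T : ℝ) ^ (j - 2)) ≤ ε * c / 2 := by
      have e1 : 1 / (T : ℝ) ^ (j - 2) ≤ 1 / T := one_div_le_one_div_of_le hT0 hpowT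
      refine (mul_le_mul_of_nonneg_left e1 hC1).trans ?_
      rw [mul_one_div, div_le_iff₀ hT0]
      rw [div_le_iff₀ (by positivity)] at hTr
      linarith
    have hn0 : (0 : ℝ) < 2 * (n : ℝ) + 4 := by positivity
    have hlim : Filter.Tendsto (fun H : ℕ => C1 * (H : ℝ) ^ (-(1 / (2 * (n : ℝ) + 4)))) Filter.atTop (nhds 0) := by
      have h2 := (tendsto_rpow_neg_atTop (show (0 : ℝ) < 1 / (2 * (n : ℝ) + 4) by positivity)).comp (tendsto_natCast_atTop_atTop (R := ℝ))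
      have h3 := h2.const_mul C1
      simpa using h3
    have hev := hlim.eventually (gt_mem_nhds (show (0 : ℝ) < ε * c / 2 by positivity))
    obtain ⟨H1, hH1⟩ := Filter.eventually_atTop.1 hev
    refine ⟨T, H0 + H1 + 1, fun H hH => ?_⟩
    have h2 := hu H T (by omega) hT1
    have h3 := ((hord H (by omega)).2.2 hj3).1
    have h4 := hH1 H (by omega)
    have e : sz n j H = 1 := by
      unfold sz
      rw [if_neg h1, if_neg (by omega)]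
    rw [e, mul_one]
    refine h2.trans ?_
    have h5 : 0 ≤ (H : ℝ) ^ ((j + 1) * (j + 2) / 2 - 1) := by positivity
    calc C1 * (1 / (T : ℝ) ^ (j - 2) + (H : ℝ) ^ (-(1 / (2 * (n : ℝ) + 4)))) * (H : ℝ) ^ ((j + 1) * (j + 2) / 2 - 1)
        = (C1 * (1 / (T : ℝ) ^ (j - 2)) + C1 * (H : ℝ) ^ (-(1 / (2 * (n : ℝ) + 4)))) * (H : ℝ) ^ ((j + 1) * (j + 2) / 2 - 1) := by ring
      _ ≤ (ε * c) * (H : ℝ) ^ ((j + 1) * (j + 2) / 2 - 1) := by
          refine mul_le_mul_of_nonneg_right ?_ h5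
          linarith
      _ = ε * (c * (H : ℝ) ^ ((j + 1) * (j + 2) / 2 - 1)) := by ring
      _ ≤ _ := mul_le_mul_of_nonneg_left h3 hε.le

end Pool.Agent.H82.TO
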