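import Pool.Agent.H82.TO.As9

/-! # [H82 TO AS10] `j = 1`: the number of lower parts with an integer point is asymptotic to `c H^(2+1/(n-1))`, `c` depends on the
leading form only -/

namespace Pool.Agent.H82.TO

open Finset MvPolynomial Filter Topology MeasureTheory Pool.Agent.H8.AA Pool.Agent.H88.A2 Pool.Agent.H82.A3 Pool.Agent.H88.TS

theorem pairs1s (H R : ℕ) (hR : 1 ≤ R) :
    ∑ P ∈ bp R, ∑ Q ∈ (bp R).erase P, (1 + 2 * (H : ℝ) * (((Int.gcd (P - Q).1 (P - Q).2 : ℕ) : ℝ) / mx (P - Q))) ≤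
      (2 * (R : ℝ) + 1) ^ 2 * ((4 * (R : ℝ) + 1) ^ 2 + 32 * H * R * (1 + Real.log (2 * R))) := by
  classical
  have h2 : ∀ P ∈ bp R, ∑ Q ∈ (bp R).erase P, (1 + 2 * (H : ℝ) * (((Int.gcd (P - Q).1 (P - Q).2 : ℕ) : ℝ) / mx (P - Q))) ≤
      (4 * (R : ℝ) + 1) ^ 2 + 32 * H * R * (1 + Real.log (2 * R)) := by
    intro P hP
    have hinj : Set.InjOn (fun Q : ℤ × ℤ => P - Q) ((bp R).erase P) := fun Q _ Q' _ h => by
      simpa using h
    rw [← sum_image (f := fun w : ℤ × ℤ => 1 + 2 * (H : ℝ) * (((Int.gcd w.1 w.2 : ℕ) : ℝ) / mx w)) hinj]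
    have hsub : ((bp R).erase P).image (fun Q : ℤ × ℤ => P - Q) ⊆ (bp (2 * R)).erase 0 := by
      intro w hw
      obtain ⟨Q, hQ, rfl⟩ := mem_image.1 hw
      rw [mem_erase, mem_bp] at hQ
      rw [mem_bp] at hP
      rw [mem_erase, mem_bp]
      refine ⟨fun h => hQ.1 (sub_eq_zero.1 h).symm, ?_, ?_⟩
      · rw [Prod.fst_sub]
        refine (abs_sub _ _).trans ?_
        push_cast
        linarith [hP.1, hQ.2.1]
      · rw [Prod.snd_sub]
        refine (abs_sub _ _).trans ?_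
        push_cast
        linarith [hP.2, hQ.2.2]
    refine (sum_le_sum_of_subset_of_nonneg hsub fun w _ _ => by unfold mx; positivity).trans ?_
    rw [sum_add_distrib, ← mul_sum, sum_const, nsmul_eq_mul, mul_one]
    have e1 : ((((bp (2 * R)).erase 0).card : ℕ) : ℝ) ≤ (4 * (R : ℝ) + 1) ^ 2 := by
      have h3 := card_le_card (erase_subset (0 : ℤ × ℤ) (bp (2 * R)))
      rw [card_bp] at h3
      have h4 : ((((bp (2 * R)).erase 0).card : ℕ) : ℝ) ≤ (2 * (2 * (R : ℝ)) + 1) ^ 2 := by exact_mod_cast h3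
      refine h4.trans (le_of_eq ?_)
      ring
    have e2 := gcd_sum (2 * R) (by omega)
    push_cast at e2
    have e3 := mul_le_mul_of_nonneg_left e2 (by positivity : (0 : ℝ) ≤ 2 * H)
    have e4 : 2 * (H : ℝ) * (8 * (2 * R) * (1 + Real.log (2 * R))) = 32 * H * R * (1 + Real.log (2 * R)) := by ring
    rw [e4] at e3
    linarith
  refine (sum_le_sum h2).trans ?_
  rw [sum_const, nsmul_eq_mul, card_bp]
  push_cast
  exact le_refl _

theorem pair_fin (H r S T : ℝ) (hH : 1 ≤ H) (hr : 1 ≤ r) (hS : 1 ≤ S) (hT : 1 ≤ T) (hS3 : S ^ 3 ≤ H) (hrle : r ≤ T * S) :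
    (2 * r + 1) ^ 2 * ((4 * r + 1) ^ 2 + 32 * H * r * (1 + Real.log (2 * r))) ≤ 1089 * (T ^ 4 * (1 / √S)) * (H ^ 2 * S) := by
  have hH0 : 0 < H := by linarith
  have hS0 : 0 < S := by linarith
  have hT0 : 0 < T := by linarith
  obtain ⟨s, hs⟩ : ∃ s : ℝ, s = √S := ⟨_, rfl⟩
  have hs1 : 1 ≤ s := by
    rw [hs, ← Real.sqrt_one]
    exact Real.sqrt_le_sqrt hS
  have hs0 : 0 < s := by linarith
  have hss : s * s = S := by rw [hs]; exact Real.mul_self_sqrt hS0.le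
  rw [← hs]
  obtain ⟨Y, hY⟩ : ∃ Y : ℝ, Y = H ^ 2 * S := ⟨_, rfl⟩
  rw [← hY]
  obtain ⟨q, hq⟩ : ∃ q : ℝ, q = √r := ⟨_, rfl⟩
  have hqq : q * q = r := by rw [hq]; exact Real.mul_self_sqrt (by linarith)
  have hq1 : 1 ≤ q := by
    rw [hq, ← Real.sqrt_one]
    exact Real.sqrt_le_sqrt hr
  have hq0 : 0 < q := by linarith
  have hlog : 1 + Real.log (2 * r) ≤ 3 * q := by
    have e1 : Real.log (2 * r) = Real.log 2 + 2 * Real.log q := by
      rw [Real.log_mul (by norm_num) (by linarith), ← hqq, Real.log_mul hq0.ne' hq0.ne']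
      ring
    have e2 := Real.log_le_sub_one_of_pos hq0
    have e3 := Real.log_two_lt_d9
    rw [e1]
    linarith
  have hqT : q ≤ T * s := by
    rw [hq]
    rw [Real.sqrt_le_left (by positivity)]
    calc r ≤ T * S := hrle
      _ = 1 * (T * (s * s)) := by rw [hss]; ring
      _ ≤ T * (T * (s * s)) := by gcongr
      _ = _ := by ring
  have e1 : (2 * r + 1) ^ 2 ≤ 9 * r ^ 2 := by
    calc (2 * r + 1) ^ 2 ≤ (3 * r) ^ 2 := pow_le_pow_left₀ (by positivity) (by linarith) 2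
      _ = _ := by ring
  have e2 : (4 * r + 1) ^ 2 ≤ 25 * r ^ 2 := by
    calc (4 * r + 1) ^ 2 ≤ (5 * r) ^ 2 := pow_le_pow_left₀ (by positivity) (by linarith) 2
      _ = _ := by ring
  have e3 : (2 * r + 1) ^ 2 * ((4 * r + 1) ^ 2 + 32 * H * r * (1 + Real.log (2 * r))) ≤
      9 * r ^ 2 * (25 * r ^ 2 + 32 * H * r * (3 * q)) := by
    have e30 : 0 ≤ 1 + Real.log (2 * r) := by
      have : 0 ≤ Real.log (2 * r) := Real.log_nonneg (by linarith)
      linarith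
    gcongr
  refine e3.trans ?_
  have e4 : 9 * r ^ 2 * (25 * r ^ 2 + 32 * H * r * (3 * q)) = 225 * r ^ 4 + 864 * H * (r ^ 3 * q) := by ring
  rw [e4]
  have e5 : r ^ 4 ≤ T ^ 4 * (1 / s) * Y := by
    calc r ^ 4 ≤ (T * S) ^ 4 := pow_le_pow_left₀ (by linarith) hrle 4
      _ = T ^ 4 * (S ^ 3 * S) := by ring
      _ ≤ T ^ 4 * (H * S) := by gcongr
      _ ≤ T ^ 4 * ((1 / s) * Y) := by
        refine mul_le_mul_of_nonneg_left ?_ (by positivity)
        rw [hY, one_div_mul_eq_div, le_div_iff₀ hs0]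
        have e6 : s ≤ H := by
          have e7 : s ≤ S := by rw [← hss]; nlinarith
          have e8 : S ≤ S ^ 3 := le_self_pow₀ hS (by norm_num)
          linarith
        calc H * S * s ≤ H * S * H := by gcongr
          _ = _ := by ring
      _ = _ := by ring
  have e6 : H * (r ^ 3 * q) ≤ T ^ 4 * (1 / s) * Y := by
    calc H * (r ^ 3 * q) ≤ H * ((T * S) ^ 3 * (T * s)) := by gcongr
      _ = T ^ 4 * (H * S ^ 3 * s) := by ring
      _ ≤ T ^ 4 * (H * H * s) := by gcongr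
      _ = T ^ 4 * (1 / s) * Y := by
        rw [hY, ← hss]
        field_simp
  have e7 : 864 * H * (r ^ 3 * q) = 864 * (H * (r ^ 3 * q)) := by ring
  rw [e7]
  linarith

/-- two-sided bounds by the first moment -/
theorem two1 (n : ℕ) (G : MvPolynomial (Fin 2) ℤ) (h : Hyp0 n 1 G) : ∃ C : ℝ, 0 ≤ C ∧ ∀ (H : ℕ) (S T : ℝ), 1 ≤ H → 1 ≤ S → 1 ≤ T →
    S ^ (n - 1) = H →
      (cnt 1 G H : ℝ) / ((H : ℝ) ^ 2 * S) ≤ (∑ P ∈ bp ⌊T * S⌋₊, (An 1 H P.1 P.2 (- eval ![P.1, P.2] G) : ℝ)) / ((H : ℝ) ^ 2 * S) +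
        C * (1 / T + T ^ 4 * (1 / √S)) ∧
      (∑ P ∈ bp ⌊T * S⌋₊, (An 1 H P.1 P.2 (- eval ![P.1, P.2] G) : ℝ)) / ((H : ℝ) ^ 2 * S) - C * (T ^ 4 * (1 / √S)) ≤
        (cnt 1 G H : ℝ) / ((H : ℝ) ^ 2 * S) := by
  have hn := h.hn
  obtain ⟨C1, hC1, hu⟩ := uniq1 n G h
  refine ⟨C1 + 1089, by positivity, ?_⟩
  intro H S T hH hS hT hSH
  have hH' : (1 : ℝ) ≤ (H : ℝ) := by exact_mod_cast hH
  have hH0 : (0 : ℝ) < (H : ℝ) := by linarith
  have hS0 : 0 < S := by linarith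
  have hT0 : 0 < T := by linarith
  have hnr : (0 : ℝ) < ((n - 1 : ℕ) : ℝ) := by exact_mod_cast (by omega : 0 < n - 1)
  have hSeq : (H : ℝ) ^ (1 / ((n - 1 : ℕ) : ℝ)) = S := by
    rw [← hSH, ← Real.rpow_natCast, ← Real.rpow_mul hS0.le, mul_one_div, div_self hnr.ne', Real.rpow_one]
  have hS3 : S ^ 3 ≤ H := by
    rw [← hSH]
    exact pow_le_pow_right₀ hS (by omega)
  have hpow : (H : ℝ) ^ (2 + 1 / ((n - 1 : ℕ) : ℝ)) = (H : ℝ) ^ 2 * S := by
    rw [Real.rpow_add hH0, hSeq]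
    norm_num
  have hinv : (H : ℝ) ^ (-(1 / (2 * ((n - 1 : ℕ) : ℝ)))) = 1 / √S := by
    rw [Real.rpow_neg hH0.le, ← one_div]
    congr 1
    rw [Real.sqrt_eq_rpow, ← hSeq, ← Real.rpow_mul hH0.le]
    congr 1
    field_simp
  have hY0 : 0 < (H : ℝ) ^ 2 * S := by positivity
  have hTS1 : 1 ≤ T * S := by nlinarith
  have hR1 : 1 ≤ ⌊T * S⌋₊ := Nat.floor_pos.2 hTS1
  have hsq : 0 ≤ T ^ 4 * (1 / √S) := by positivity
  constructor
  · have h1 := cnt_up 1 G H (T * S) (by positivity)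
    have h2 := hu H T hH hT
    rw [hSeq, hinv, hpow] at h2
    have h3 : (cnt 1 G H : ℝ) ≤ ∑ P ∈ bp ⌊T * S⌋₊, (An 1 H P.1 P.2 (- eval ![P.1, P.2] G) : ℝ) +
        C1 * (1 / T + T ^ 4 * (1 / √S)) * ((H : ℝ) ^ 2 * S) := h1.trans (by linarith)
    rw [div_le_iff₀ hY0, add_mul, div_mul_cancel₀ _ hY0.ne']
    refine h3.trans ?_
    have h4 : 0 ≤ 1089 * (1 / T + T ^ 4 * (1 / √S)) * ((H : ℝ) ^ 2 * S) := by positivity
    linarith
  · have h1 := cnt_lo 1 G H ⌊T * S⌋₊ (fun P Q => 1 + 2 * (H : ℝ) * (((Int.gcd (P - Q).1 (P - Q).2 : ℕ) : ℝ) / mx (P - Q))) (by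
      intro P _ Q _ hPQ T' hT'
      exact pair1 H P Q _ _ hPQ T' hT')
    have h2 := pairs1s H ⌊T * S⌋₊ hR1
    have h3 := pair_fin H ((⌊T * S⌋₊ : ℕ) : ℝ) S T hH' (by exact_mod_cast hR1) hS hT hS3 (Nat.floor_le (by positivity))
    rw [le_div_iff₀ hY0, sub_mul, div_mul_cancel₀ _ hY0.ne']
    have h4 : 0 ≤ C1 * (T ^ 4 * (1 / √S)) * ((H : ℝ) ^ 2 * S) := by positivity
    linarith

/-- the scale -/
noncomputable def sc (n H : ℕ) : ℝ := (H : ℝ) ^ (1 / ((n - 1 : ℕ) : ℝ))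

theorem sc_lim (n : ℕ) (hn : 2 ≤ n) : Tendsto (sc n) atTop atTop := by
  have hnr : (0 : ℝ) < ((n - 1 : ℕ) : ℝ) := by exact_mod_cast (by omega : 0 < n - 1)
  exact (tendsto_rpow_atTop (by positivity : 0 < 1 / ((n - 1 : ℕ) : ℝ))).comp tendsto_natCast_atTop_atTop

theorem sc_pow (n : ℕ) (hn : 2 ≤ n) (H : ℕ) : sc n H ^ (n - 1) = H := by
  have hnr : (0 : ℝ) < ((n - 1 : ℕ) : ℝ) := by exact_mod_cast (by omega : 0 < n - 1)
  unfold sc
  rw [← Real.rpow_natCast, ← Real.rpow_mul (Nat.cast_nonneg H), one_div, inv_mul_cancel₀ hnr.ne', Real.rpow_one]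

/-- the constant -/
noncomputable def c1 (n : ℕ) (F : MvPolynomial (Fin 2) ℤ) : ℝ := ⨆ k : ℕ, aT n F ((k : ℝ) + 1)

theorem lim1 (n : ℕ) (G : MvPolynomial (Fin 2) ℤ) (h : Hyp0 n 1 G) :
    Monotone (fun k : ℕ => aT n G ((k : ℝ) + 1)) ∧ BddAbove (Set.range fun k : ℕ => aT n G ((k : ℝ) + 1)) ∧
    Tendsto (fun H : ℕ => (cnt 1 G H : ℝ) / ((H : ℝ) ^ 2 * sc n H)) atTop (𝓝 (c1 n G)) := by
  have hn := h.hn
  obtain ⟨C, hC, htwo⟩ := two1 n G h
  obtain ⟨Cu, hup⟩ := up1 n G h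
  have hs := sc_lim n (by omega)
  have hsH : ∀ H : ℕ, 1 ≤ H → sc n H ^ (n - 1) = H := fun H _ => sc_pow n (by omega) H
  have hpos : ∀ᶠ k in atTop, 1 ≤ sc n k := hs.eventually_ge_atTop 1
  have hge : ∀ᶠ k : ℕ in atTop, 1 ≤ k := eventually_ge_atTop 1
  obtain ⟨M, hM⟩ : ∃ M : ℝ → ℕ → ℝ, M = fun T H => (∑ P ∈ bp ⌊T * sc n H⌋₊, (An 1 H P.1 P.2 (- eval ![P.1, P.2] G) : ℝ)) /
    ((H : ℝ) ^ 2 * sc n H) := ⟨_, rfl⟩
  have hMl : ∀ T : ℝ, 1 ≤ T → Tendsto (M T) atTop (𝓝 (aT n G T)) := by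
    intro T hT
    rw [hM]
    exact mid1 n hn G h.deg hs hsH T hT
  have hsq : Tendsto (fun H => 1 / √(sc n H)) atTop (𝓝 0) := by
    simp only [one_div]
    exact (Real.tendsto_sqrt_atTop.comp hs).inv_tendsto_atTop
  have hmono : Monotone (fun k : ℕ => aT n G ((k : ℝ) + 1)) := by
    intro k l hkl
    have hk : (1 : ℝ) ≤ (k : ℝ) + 1 := by linarith [(Nat.cast_nonneg k : (0 : ℝ) ≤ k)]
    have hl : (1 : ℝ) ≤ (l : ℝ) + 1 := by linarith [(Nat.cast_nonneg l : (0 : ℝ) ≤ l)]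
    refine le_of_tendsto_of_tendsto (hMl _ hk) (hMl _ hl) ?_
    filter_upwards [hpos] with H hH
    rw [hM]
    simp only
    refine div_le_div_of_nonneg_right ?_ (by positivity)
    refine sum_le_sum_of_subset_of_nonneg ?_ fun P _ _ => Nat.cast_nonneg _
    intro P hP
    rw [mem_bp] at hP ⊢
    have h1 : ⌊((k : ℝ) + 1) * sc n H⌋₊ ≤ ⌊((l : ℝ) + 1) * sc n H⌋₊ := by
      refine Nat.floor_le_floor ?_
      have h2 : (k : ℝ) ≤ l := by exact_mod_cast hkl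
      have h3 : 0 ≤ sc n H := by linarith
      nlinarith
    have h2 : ((⌊((k : ℝ) + 1) * sc n H⌋₊ : ℕ) : ℤ) ≤ ((⌊((l : ℝ) + 1) * sc n H⌋₊ : ℕ) : ℤ) := by exact_mod_cast h1
    exact ⟨hP.1.trans h2, hP.2.trans h2⟩
  have hcu : ∀ᶠ H : ℕ in atTop, (cnt 1 G H : ℝ) / ((H : ℝ) ^ 2 * sc n H) ≤ Cu := by
    filter_upwards [hpos, hge] with H hH hH1
    have hH0 : (0 : ℝ) < H := by exact_mod_cast hH1
    have hs0 : 0 < sc n H := by linarith
    rw [div_le_iff₀ (by positivity)]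
    have h1 := hup H hH1
    have hpow : (H : ℝ) ^ (2 + 1 / ((n - 1 : ℕ) : ℝ)) = (H : ℝ) ^ 2 * sc n H := by
      rw [Real.rpow_add hH0]
      unfold sc
      norm_num
    rw [hpow] at h1
    exact h1
  have hbd : ∀ T : ℝ, 1 ≤ T → aT n G T ≤ Cu := by
    intro T hT
    have h1 : Tendsto (fun H => M T H - C * (T ^ 4 * (1 / √(sc n H)))) atTop (𝓝 (aT n G T)) := by
      have h2 := (hMl T hT).sub ((hsq.const_mul (T ^ 4)).const_mul C)
      rw [mul_zero, mul_zero, sub_zero] at h2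
      exact h2
    refine le_of_tendsto h1 ?_
    filter_upwards [hpos, hge, hcu] with H hH hH1 hH2
    have h2 := (htwo H (sc n H) T hH1 hH hT (hsH H hH1)).2
    rw [hM]
    exact h2.trans hH2
  have hbdd : BddAbove (Set.range fun k : ℕ => aT n G ((k : ℝ) + 1)) := by
    refine ⟨Cu, ?_⟩
    rintro _ ⟨k, rfl⟩
    exact hbd _ (by linarith [(Nat.cast_nonneg k : (0 : ℝ) ≤ k)])
  refine ⟨hmono, hbdd, ?_⟩
  have hlimc : Tendsto (fun k : ℕ => aT n G ((k : ℝ) + 1)) atTop (𝓝 (c1 n G)) := tendsto_atTop_ciSup hmono hbdd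
  rw [Metric.tendsto_atTop]
  intro ε hε
  have hTl : Tendsto (fun k : ℕ => C * (1 / ((k : ℝ) + 1))) atTop (𝓝 0) := by
    have h1 := (tendsto_one_div_add_atTop_nhds_zero_nat (𝕜 := ℝ)).const_mul C
    rwa [mul_zero] at h1
  obtain ⟨k, hk1, hk2⟩ := ((hlimc.eventually (lt_mem_nhds (show c1 n G - ε / 4 < c1 n G by linarith))).and
    (hTl.eventually (gt_mem_nhds (show (0 : ℝ) < ε / 4 by positivity)))).exists
  obtain ⟨T, hT⟩ : ∃ T : ℝ, T = (k : ℝ) + 1 := ⟨_, rfl⟩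
  have hT1 : 1 ≤ T := by rw [hT]; linarith [(Nat.cast_nonneg k : (0 : ℝ) ≤ k)]
  rw [← hT] at hk1 hk2
  have hk3 : aT n G T ≤ c1 n G := by
    rw [hT]
    exact le_ciSup hbdd k
  have h4 : Tendsto (fun H => C * (T ^ 4 * (1 / √(sc n H)))) atTop (𝓝 0) := by
    have h2 := (hsq.const_mul (T ^ 4)).const_mul C
    rw [mul_zero, mul_zero] at h2
    exact h2
  have hev := (((hMl T hT1).eventually (lt_mem_nhds (show aT n G T - ε / 4 < aT n G T by linarith))).and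
    ((hMl T hT1).eventually (gt_mem_nhds (show aT n G T < aT n G T + ε / 4 by linarith)))).and
    ((h4.eventually (gt_mem_nhds (show (0 : ℝ) < ε / 4 by positivity))).and (hpos.and hge))
  obtain ⟨N, hN⟩ := eventually_atTop.1 hev
  refine ⟨N, fun H hH => ?_⟩
  obtain ⟨⟨a1, a2⟩, a3, a4, a5⟩ := hN H hH
  obtain ⟨t1, t2⟩ := htwo H (sc n H) T a5 a4 hT1 (hsH H a5)
  rw [hM] at a1 a2
  simp only at a1 a2
  rw [mul_add] at t1
  rw [Real.dist_eq, abs_lt]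
  constructor <;> linarith

theorem ar_hom (n : ℕ) (G : MvPolynomial (Fin 2) ℤ) (i : ℕ) (hi : i ≤ n) :
    ar (homogeneousComponent n G) (n - i) i = ar G (n - i) i := by
  unfold ar
  rw [coeff_homogeneousComponent, if_pos]
  rw [map_add, Finsupp.degree_single, Finsupp.degree_single]
  omega

theorem aT_hom (n : ℕ) (G : MvPolynomial (Fin 2) ℤ) (T : ℝ) : aT n (homogeneousComponent n G) T = aT n G T := by
  have h1 : ∀ z, lf n (homogeneousComponent n G) z = lf n G z := by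
    intro z
    unfold lf
    refine sum_congr rfl fun i hi => ?_
    have hi' := mem_range.1 hi
    rw [ar_hom n G i (by omega)]
  have h2 : ∀ z, dens n (homogeneousComponent n G) z = dens n G z := by
    intro z
    unfold dens
    rw [h1]
  unfold aT
  simp only [h2]

theorem asy1 (n : ℕ) (G : MvPolynomial (Fin 2) ℤ) (h : Hyp0 n 1 G) : 0 < c1 n (homogeneousComponent n G) ∧
    Tendsto (fun H : ℕ => (cnt 1 G H : ℝ) / (H : ℝ) ^ (2 + 1 / ((n - 1 : ℕ) : ℝ))) atTop (𝓝 (c1 n (homogeneousComponent n G))) := by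
  have hn := h.hn
  have e : c1 n (homogeneousComponent n G) = c1 n G := by
    unfold c1
    simp only [aT_hom]
  rw [e]
  have h1 := (lim1 n G h).2.2
  have hge : ∀ᶠ k : ℕ in atTop, 1 ≤ k := eventually_ge_atTop 1
  have h2 : Tendsto (fun H : ℕ => (cnt 1 G H : ℝ) / (H : ℝ) ^ (2 + 1 / ((n - 1 : ℕ) : ℝ))) atTop (𝓝 (c1 n G)) := by
    refine h1.congr' ?_
    filter_upwards [hge] with H hH1
    have hH0 : (0 : ℝ) < H := by exact_mod_cast hH1
    have hpow : (H : ℝ) ^ (2 + 1 / ((n - 1 : ℕ) : ℝ)) = (H : ℝ) ^ 2 * sc n H := by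
      rw [Real.rpow_add hH0]
      unfold sc
      norm_num
    rw [hpow]
  refine ⟨?_, h2⟩
  obtain ⟨c, C, hc, H0, hord⟩ := orders n 1 G h
  have h3 : c ≤ c1 n G := by
    refine ge_of_tendsto h2 ?_
    filter_upwards [hge, eventually_ge_atTop H0] with H hH1 hH2
    have hH0 : (0 : ℝ) < H := by exact_mod_cast hH1
    rw [le_div_iff₀ (by positivity)]
    exact ((hord H hH2).1 rfl).1
  linarith

end Pool.Agent.H82.TO
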