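import Pool.Agent.H82.TO.As12

/-! # [H82 TO ALL] Number and location of the integer points in every family `G + L`, `deg L ≤ j`: asymptotic formulas for `j = 1, 2`,
almost every solvable member has exactly one integer point, and it is small -/

namespace Pool.Agent.H82.TO

open MvPolynomial Pool.Agent.H88.A2 MeasureTheory

theorem all (n j : ℕ) (G : MvPolynomial (Fin 2) ℤ) (hn : 4 ≤ n) (hj : 1 ≤ j) (hjn : j < n) (hG : G.totalDegree ≤ n)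
    (hirr : Irreducible (map (Int.castRingHom ℚ) (homogeneousComponent n G))) :
    (j = 1 → 0 < (∫ z : ℝ × ℝ, 2 / |z.1| *
        volume.real {b : ℝ | |b| ≤ 1 ∧ |b * z.2 + aeval ![z.1, z.2] (homogeneousComponent n G)| ≤ |z.1|}) ∧
      Filter.Tendsto (fun H : ℕ => (cnt j G H : ℝ) / (H : ℝ) ^ (2 + 1 / ((n - 1 : ℕ) : ℝ))) Filter.atTop
        (nhds (∫ z : ℝ × ℝ, 2 / |z.1| *
          volume.real {b : ℝ | |b| ≤ 1 ∧ |b * z.2 + aeval ![z.1, z.2] (homogeneousComponent n G)| ≤ |z.1|}))) ∧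
    (j = 2 → Filter.Tendsto (fun H : ℕ => (cnt j G H : ℝ) / ((H : ℝ) ^ 5 * Real.log H)) Filter.atTop
      (nhds ((96 * √5 + 64 * Real.log ((1 + √5) / 2)) / ((n - 2 : ℕ) : ℝ)))) ∧
    (j = 1 → ∃ C : ℝ, ∀ (H : ℕ) (T : ℝ), 1 ≤ H → 1 ≤ T → (bad j G H (T * (H : ℝ) ^ (1 / ((n - 1 : ℕ) : ℝ))) : ℝ) ≤
      C * (1 / T + T ^ 4 * (H : ℝ) ^ (-(1 / (2 * ((n - 1 : ℕ) : ℝ))))) * (H : ℝ) ^ (2 + 1 / ((n - 1 : ℕ) : ℝ))) ∧
    (j = 2 → ∃ C : ℝ, ∀ H : ℕ, 1 ≤ H → (bad j G H (C * (H : ℝ) ^ (1 / ((n - 2 : ℕ) : ℝ))) : ℝ) ≤ C * (H : ℝ) ^ 5) ∧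
    (∀ ε : ℝ, 0 < ε → ∃ T : ℝ, ∃ H₀ : ℕ, ∀ H : ℕ, H₀ ≤ H →
      (bad j G H (T * (if j = 1 then (H : ℝ) ^ (1 / ((n - 1 : ℕ) : ℝ)) else if j = 2 then (H : ℝ) ^ (1 / ((n - 2 : ℕ) : ℝ)) else 1)) : ℝ) ≤
        ε * (cnt j G H : ℝ)) := by
  have h : Hyp0 n j G := ⟨hn, hj, hjn, hG, hirr⟩
  refine ⟨fun h1 => ?_, fun h2 => ?_, fun h1 => ?_, fun h2 => ?_, fun ε hε => ?_⟩
  · subst h1
    rw [← c1_eq n G h]
    exact asy1 n G h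
  · subst h2
    rw [← Jc_eq]
    exact asy2 n G h
  · subst h1
    obtain ⟨C, _, hC⟩ := uniq1 n G h
    exact ⟨C, hC⟩
  · subst h2
    obtain ⟨C, _, hC⟩ := uniq2 n G h
    exact ⟨C, hC⟩
  · exact solvable n j G h ε hε

end Pool.Agent.H82.TO
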