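import Pool.Agent.H82.TO.Uq
import Mathlib.Analysis.SumIntegralComparisons
import Mathlib.MeasureTheory.Integral.IntervalIntegral.Basic

/-! # [H82 TO AS1] The number of `(b, c)` in a box with `|b t + c t^2| ≤ l`, and its sum over `t = k/m` -/

namespace Pool.Agent.H82.TO

open Finset

/-- the profile -/
noncomputable def Ph (t : ℝ) : ℝ := ∫ γ in (-1 : ℝ)..1, min 1 (1 / t - γ * t)

theorem cont_min (t : ℝ) : Continuous fun γ : ℝ => min 1 (1 / t - γ * t) := by fun_prop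

theorem Ph_le (t : ℝ) : Ph t ≤ 2 := by
  unfold Ph
  have h1 : ∫ γ in (-1 : ℝ)..1, min 1 (1 / t - γ * t) ≤ ∫ _γ in (-1 : ℝ)..1, (1 : ℝ) :=
    intervalIntegral.integral_mono_on (by norm_num) ((cont_min t).intervalIntegrable _ _) (continuous_const.intervalIntegrable _ _)
      fun γ _ => min_le_left _ _
  rw [intervalIntegral.integral_const, smul_eq_mul] at h1
  have h2 : ((1 : ℝ) - -1) * 1 = 2 := by norm_num
  rw [h2] at h1
  exact h1

theorem Ph_ge {t : ℝ} (h0 : 0 < t) (h1 : t ≤ 1) : 1 ≤ Ph t := by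
  unfold Ph
  have h2 : ∫ γ in (-1 : ℝ)..1, ((1 : ℝ) / 2 - γ / 2) ≤ ∫ γ in (-1 : ℝ)..1, min 1 (1 / t - γ * t) := by
    refine intervalIntegral.integral_mono_on (by norm_num) (Continuous.intervalIntegrable (by fun_prop) _ _)
      ((cont_min t).intervalIntegrable _ _) fun γ hγ => ?_
    have h3 : 1 ≤ 1 / t := by rw [le_div_iff₀ h0]; linarith
    refine le_min (by linarith [hγ.1]) ?_
    rcases le_total 0 γ with h4 | h4
    · nlinarith [hγ.2]
    · nlinarith [hγ.1]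
  refine le_trans (le_of_eq ?_) h2
  have h3 : ∫ γ in (-1 : ℝ)..1, ((1 : ℝ) / 2 - γ / 2) = 1 := by
    rw [intervalIntegral.integral_sub (continuous_const.intervalIntegrable _ _) (Continuous.intervalIntegrable (by fun_prop) _ _),
      intervalIntegral.integral_const, intervalIntegral.integral_div, integral_id]
    norm_num
  rw [h3]

theorem Ph_anti {t t' : ℝ} (h0 : 0 < t) (h : t ≤ t') (h1 : t' ≤ 1) : Ph t' ≤ Ph t := by
  unfold Ph
  refine intervalIntegral.integral_mono_on (by norm_num) ((cont_min t').intervalIntegrable _ _)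
      ((cont_min t).intervalIntegrable _ _) fun γ hγ => ?_
  refine min_le_min_left _ ?_
  have h0' : 0 < t' := by linarith
  have h2 : 1 / t - 1 / t' = (t' - t) * (1 / (t * t')) := by
    field_simp
  have h3 : 1 ≤ 1 / (t * t') := by
    rw [le_div_iff₀ (by positivity)]
    nlinarith
  have h4 : (t' - t) * 1 ≤ (t' - t) * (1 / (t * t')) := mul_le_mul_of_nonneg_left h3 (by linarith)
  nlinarith [hγ.1, hγ.2]

/-- the profile, extended -/
noncomputable def Ps (t : ℝ) : ℝ := if t ≤ 0 then 2 else Ph t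

theorem Ps_anti : AntitoneOn Ps (Set.Icc 0 1) := by
  intro t ht t' ht' h
  unfold Ps
  by_cases h1 : t ≤ 0
  · rw [if_pos h1]
    split_ifs
    · exact le_refl _
    · exact Ph_le _
  · push Not at h1
    rw [if_neg (not_le.2 h1), if_neg (not_le.2 (lt_of_lt_of_le h1 h))]
    exact Ph_anti h1 h ht'.2

/-- the mean -/
noncomputable def Jc : ℝ := ∫ t in (0 : ℝ)..1, Ps t

theorem Ps_int : IntervalIntegrable Ps MeasureTheory.volume 0 1 := by
  have h : AntitoneOn Ps (Set.uIcc 0 1) := by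
    rw [Set.uIcc_of_le zero_le_one]
    exact Ps_anti
  exact h.intervalIntegrable

theorem Jc_ge : 1 ≤ Jc := by
  unfold Jc
  have h2 : ∫ _t in (0 : ℝ)..1, (1 : ℝ) ≤ ∫ t in (0 : ℝ)..1, Ps t := by
    refine intervalIntegral.integral_mono_on (by norm_num) (continuous_const.intervalIntegrable _ _) Ps_int fun t ht => ?_
    unfold Ps
    split_ifs with h
    · norm_num
    · exact Ph_ge (not_le.1 h) ht.2
  rw [intervalIntegral.integral_const] at h2
  norm_num at h2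
  exact h2

theorem Jc_le : Jc ≤ 2 := by
  unfold Jc
  have h2 : ∫ t in (0 : ℝ)..1, Ps t ≤ ∫ _t in (0 : ℝ)..1, (2 : ℝ) := by
    refine intervalIntegral.integral_mono_on (by norm_num) Ps_int (continuous_const.intervalIntegrable _ _) fun t ht => ?_
    unfold Ps
    split_ifs with h
    · norm_num
    · exact Ph_le _
  rw [intervalIntegral.integral_const] at h2
  norm_num at h2
  exact h2

/-- sums of the profile -/
theorem Ph_sum (m : ℕ) (hm : 1 ≤ m) : |∑ k ∈ Icc 1 m, Ph ((k : ℝ) / m) - m * Jc| ≤ 2 := by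
  have hm0 : (0 : ℝ) < m := by exact_mod_cast hm
  obtain ⟨f, hf⟩ : ∃ f : ℝ → ℝ, f = fun u => Ps (u / m) := ⟨_, rfl⟩
  have hfa : AntitoneOn f (Set.Icc (0 : ℝ) (0 + (m : ℕ))) := by
    intro u hu v hv huv
    rw [hf]
    rw [zero_add] at hu hv
    refine Ps_anti ?_ ?_ ?_
    · exact ⟨div_nonneg hu.1 hm0.le, by rw [div_le_one hm0]; exact hu.2⟩
    · exact ⟨div_nonneg hv.1 hm0.le, by rw [div_le_one hm0]; exact hv.2⟩
    · gcongr
  have h1 := hfa.integral_le_sum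
  have h2 := hfa.sum_le_integral
  have h3 : ∫ u in (0 : ℝ)..(0 + (m : ℕ)), f u = m * Jc := by
    rw [hf, zero_add]
    rw [intervalIntegral.integral_comp_div Ps hm0.ne']
    rw [zero_div, div_self hm0.ne', smul_eq_mul]
    rfl
  rw [h3] at h1 h2
  have h4 : ∀ k : ℕ, 1 ≤ k → Ph ((k : ℝ) / m) = f k := by
    intro k hk
    rw [hf]
    have hk0 : (0 : ℝ) < k := by exact_mod_cast hk
    simp only [Ps]
    rw [if_neg (not_le.2 (by positivity))]
  have h5 : ∑ k ∈ Icc 1 m, Ph ((k : ℝ) / m) = ∑ i ∈ range m, f (0 + ((i + 1 : ℕ) : ℝ)) := by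
    rw [← Finset.sum_image (s := range m) (g := fun i => i + 1) (f := fun k : ℕ => f (0 + (k : ℝ))) (fun a _ b _ hab => by simpa using hab)]
    have h6 : (range m).image (fun i => i + 1) = Icc 1 m := by
      ext k
      simp only [mem_image, mem_range, mem_Icc]
      constructor
      · rintro ⟨i, hi, rfl⟩
        omega
      · intro hk
        exact ⟨k - 1, by omega, by omega⟩
    rw [h6]
    refine sum_congr rfl fun k hk => ?_
    rw [h4 k (mem_Icc.1 hk).1, zero_add]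
  have h6 : ∑ i ∈ range m, f (0 + ((i : ℕ) : ℝ)) ≤ ∑ i ∈ range m, f (0 + ((i + 1 : ℕ) : ℝ)) + 2 := by
    have h7 := Finset.sum_range_succ (fun i : ℕ => f (0 + (i : ℝ))) m
    have h8 := Finset.sum_range_succ' (fun i : ℕ => f (0 + (i : ℝ))) m
    rw [h7] at h8
    have h9 : f (0 + ((0 : ℕ) : ℝ)) = 2 := by
      rw [hf]
      simp [Ps]
    have h10 : 0 ≤ f (0 + ((m : ℕ) : ℝ)) := by
      rw [zero_add, ← h4 m hm]
      have := Ph_ge (t := (m : ℝ) / m) (by positivity) (by rw [div_self hm0.ne'])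
      linarith
    rw [h9] at h8
    linarith
  rw [h5, abs_le]
  constructor <;> linarith

/-- the pairs -/
noncomputable def qs (l m k : ℕ) : Finset (ℤ × ℤ) := ((Icc (-(l : ℤ)) l) ×ˢ (Icc (-(l : ℤ)) l)).filter
  fun p => |p.1 * ((m : ℤ) * k) + p.2 * (k : ℤ) ^ 2| ≤ l * (m : ℤ) ^ 2

theorem qs_le (l m k : ℕ) : (qs l m k).card ≤ (2 * l + 1) ^ 2 := by
  unfold qs
  refine (card_filter_le _ _).trans ?_
  rw [card_product, Int.card_Icc]
  have : ((l : ℤ) + 1 - -(l : ℤ)).toNat = 2 * l + 1 := by omega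
  rw [this, sq]

theorem row_card (l m k : ℕ) (hk : 1 ≤ k) (hkm : k ≤ m) (c : ℤ) (hc : |c| ≤ (l : ℤ)) (g : ℤ → ℝ)
    (hg : g = fun c : ℤ => min (l : ℝ) ((l : ℝ) / ((k : ℝ) / m) - (c : ℝ) * ((k : ℝ) / m))) :
    |(((Icc (-(l : ℤ)) l).filter fun b => |b * ((m : ℤ) * k) + c * (k : ℤ) ^ 2| ≤ l * (m : ℤ) ^ 2).card : ℝ) - (g c + g (-c))| ≤ 1 := by
  have hk0 : (0 : ℝ) < k := by exact_mod_cast hk
  have hm0 : (0 : ℝ) < m := by exact_mod_cast (by omega : 0 < m)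
  have hl0 : (0 : ℝ) ≤ l := Nat.cast_nonneg l
  have hkm' : (k : ℝ) ≤ m := by exact_mod_cast hkm
  have hnn : ∀ c : ℤ, |c| ≤ (l : ℤ) → 0 ≤ g c := by
    intro c hc
    rw [hg]
    refine le_min hl0 ?_
    have h1 : (c : ℝ) ≤ l := by exact_mod_cast (abs_le.1 hc).2
    have h2 : (k : ℝ) / m ≤ 1 := by rw [div_le_one hm0]; exact hkm'
    have h3 : 0 < (k : ℝ) / m := by positivity
    have h4 : (c : ℝ) * ((k : ℝ) / m) ≤ l := by
      rcases le_total 0 (c : ℝ) with h5 | h5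
      · nlinarith
      · nlinarith
    have h5 : (l : ℝ) ≤ (l : ℝ) / ((k : ℝ) / m) := by
      rw [le_div_iff₀ h3]
      nlinarith
    linarith
  have key : ∀ (b c : ℤ), ((b : ℝ) ≤ (l : ℝ) / ((k : ℝ) / m) - c * ((k : ℝ) / m)) ↔ b * ((m : ℤ) * k) + c * (k : ℤ) ^ 2 ≤ l * (m : ℤ) ^ 2 := by
    intro b c
    have e1 : (l : ℝ) / ((k : ℝ) / m) - c * ((k : ℝ) / m) = (l * (m : ℝ) ^ 2 - c * (k : ℝ) ^ 2) / (m * k) := by
      field_simp
    rw [e1, le_div_iff₀ (by positivity)]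
    constructor
    · intro h
      have h2 : (b : ℝ) * ((m : ℝ) * k) + c * (k : ℝ) ^ 2 ≤ l * (m : ℝ) ^ 2 := by linarith
      exact_mod_cast h2
    · intro h
      have h2 : (b : ℝ) * ((m : ℝ) * k) + c * (k : ℝ) ^ 2 ≤ l * (m : ℝ) ^ 2 := by exact_mod_cast h
      linarith
  have hset : ((Icc (-(l : ℤ)) l).filter fun b => |b * ((m : ℤ) * k) + c * (k : ℤ) ^ 2| ≤ l * (m : ℤ) ^ 2) =
      Icc (-⌊g (-c)⌋) ⌊g c⌋ := by
    ext b
    rw [mem_filter, mem_Icc, mem_Icc, abs_le]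
    have e1 : b ≤ ⌊g c⌋ ↔ b ≤ (l : ℤ) ∧ b * ((m : ℤ) * k) + c * (k : ℤ) ^ 2 ≤ l * (m : ℤ) ^ 2 := by
      rw [Int.le_floor, hg]
      simp only [le_min_iff]
      rw [key]
      constructor
      · intro h
        exact ⟨by exact_mod_cast h.1, h.2⟩
      · intro h
        exact ⟨by exact_mod_cast h.1, h.2⟩
    have e2 : -⌊g (-c)⌋ ≤ b ↔ -(l : ℤ) ≤ b ∧ -(l * (m : ℤ) ^ 2) ≤ b * ((m : ℤ) * k) + c * (k : ℤ) ^ 2 := by
      rw [neg_le, Int.le_floor, hg]
      simp only [le_min_iff]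
      rw [key]
      constructor
      · intro h
        have h1 : -b ≤ (l : ℤ) := by exact_mod_cast h.1
        exact ⟨by linarith, by linarith [h.2]⟩
      · intro h
        have h1 : -b ≤ (l : ℤ) := by linarith [h.1]
        exact ⟨by exact_mod_cast h1, by linarith [h.2]⟩
    rw [e1, e2]
    tauto
  rw [hset, Int.card_Icc]
  have hc' : |-c| ≤ (l : ℤ) := by rw [abs_neg]; exact hc
  have f1 : 0 ≤ ⌊g c⌋ := Int.floor_nonneg.2 (hnn c hc)
  have f2 : 0 ≤ ⌊g (-c)⌋ := Int.floor_nonneg.2 (hnn (-c) hc')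
  have f3 : (((⌊g c⌋ + 1 - -⌊g (-c)⌋).toNat : ℕ) : ℝ) = (⌊g c⌋ : ℝ) + 1 + (⌊g (-c)⌋ : ℝ) := by
    have h1 : (((⌊g c⌋ + 1 - -⌊g (-c)⌋).toNat : ℤ) : ℝ) = ((⌊g c⌋ + 1 - -⌊g (-c)⌋ : ℤ) : ℝ) := by rw [Int.toNat_of_nonneg (by omega)]
    have h2 : (((⌊g c⌋ + 1 - -⌊g (-c)⌋).toNat : ℕ) : ℝ) = (((⌊g c⌋ + 1 - -⌊g (-c)⌋).toNat : ℤ) : ℝ) := by norm_cast
    rw [h2, h1]
    push_cast
    ring
  rw [f3]
  have g1 := Int.floor_le (g c)
  have g2 := Int.lt_floor_add_one (g c)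
  have g3 := Int.floor_le (g (-c))
  have g4 := Int.lt_floor_add_one (g (-c))
  rw [abs_le]
  constructor <;> linarith

theorem qs_card (l m k : ℕ) (hk : 1 ≤ k) (hkm : k ≤ m) : |((qs l m k).card : ℝ) - 2 * (l : ℝ) ^ 2 * Ph ((k : ℝ) / m)| ≤ 4 * (l : ℝ) + 1 := by
  have hk0 : (0 : ℝ) < k := by exact_mod_cast hk
  have hm0 : (0 : ℝ) < m := by exact_mod_cast (by omega : 0 < m)
  have hl0 : (0 : ℝ) ≤ l := Nat.cast_nonneg l
  obtain ⟨t, ht⟩ : ∃ t : ℝ, t = (k : ℝ) / m := ⟨_, rfl⟩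
  have ht0 : 0 < t := by rw [ht]; positivity
  have ht1 : t ≤ 1 := by
    rw [ht, div_le_one hm0]
    exact_mod_cast hkm
  obtain ⟨F, hF⟩ : ∃ F : ℝ → ℝ, F = fun c => min (l : ℝ) ((l : ℝ) / t - c * t) := ⟨_, rfl⟩
  obtain ⟨g, hg⟩ : ∃ g : ℤ → ℝ, g = fun c : ℤ => min (l : ℝ) ((l : ℝ) / t - c * t) := ⟨_, rfl⟩
  have hgF : ∀ c : ℤ, g c = F c := by
    intro c
    rw [hg, hF]
  -- sum over the rows
  have h1 : ((qs l m k).card : ℝ) = ∑ c ∈ Icc (-(l : ℤ)) l,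
      (((Icc (-(l : ℤ)) l).filter fun b => |b * ((m : ℤ) * k) + c * (k : ℤ) ^ 2| ≤ l * (m : ℤ) ^ 2).card : ℝ) := by
    unfold qs
    rw [card_filter, sum_product_right]
    push_cast
    refine sum_congr rfl fun c _ => ?_
    rw [card_filter]
    push_cast
    rfl
  have hIc : ((Icc (-(l : ℤ)) l).card : ℝ) = 2 * l + 1 := by
    rw [Int.card_Icc]
    have : ((l : ℤ) + 1 - -(l : ℤ)).toNat = 2 * l + 1 := by omega
    rw [this]
    push_cast
    ring
  have h2 : |((qs l m k).card : ℝ) - ∑ c ∈ Icc (-(l : ℤ)) l, (g c + g (-c))| ≤ 2 * (l : ℝ) + 1 := by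
    rw [h1, ← sum_sub_distrib]
    refine (abs_sum_le_sum_abs _ _).trans ?_
    rw [← hIc]
    have h3 := Finset.sum_le_card_nsmul (Icc (-(l : ℤ)) l) (fun c => |(((Icc (-(l : ℤ)) l).filter fun b =>
      |b * ((m : ℤ) * k) + c * (k : ℤ) ^ 2| ≤ l * (m : ℤ) ^ 2).card : ℝ) - (g c + g (-c))|) 1 (by
        intro c hc
        exact row_card l m k hk hkm c (abs_le.2 (mem_Icc.1 hc)) g (by rw [hg, ht]))
    rw [nsmul_eq_mul, mul_one] at h3
    exact h3
  have h3 : ∑ c ∈ Icc (-(l : ℤ)) l, g (-c) = ∑ c ∈ Icc (-(l : ℤ)) l, g c := by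
    refine Finset.sum_nbij' (fun c => -c) (fun c => -c) ?_ ?_ ?_ ?_ ?_
    · intro c hc
      rw [mem_Icc] at hc ⊢
      constructor <;> linarith [hc.1, hc.2]
    · intro c hc
      rw [mem_Icc] at hc ⊢
      constructor <;> linarith [hc.1, hc.2]
    · intro c _
      ring
    · intro c _
      ring
    · intro c _
      rfl
  rw [sum_add_distrib, h3] at h2
  -- the sum as a sum over range
  have h4 : ∑ c ∈ Icc (-(l : ℤ)) l, g c = ∑ i ∈ range (2 * l + 1), F (-(l : ℝ) + (i : ℕ)) := by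
    symm
    refine Finset.sum_nbij' (fun i : ℕ => -(l : ℤ) + i) (fun c : ℤ => (c + l).toNat) ?_ ?_ ?_ ?_ ?_
    · intro i hi
      rw [mem_range] at hi
      rw [mem_Icc]
      constructor <;> omega
    · intro c hc
      rw [mem_Icc] at hc
      rw [mem_range]
      omega
    · intro i _
      omega
    · intro c hc
      rw [mem_Icc] at hc
      omega
    · intro i _
      rw [hgF]
      push_cast
      rfl
  have hFa : AntitoneOn F (Set.Icc (-(l : ℝ)) (-(l : ℝ) + ((2 * l : ℕ) : ℝ))) := by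
    intro u _ v _ huv
    rw [hF]
    refine min_le_min_left _ ?_
    have := mul_le_mul_of_nonneg_right huv ht0.le
    linarith
  have h5 := hFa.integral_le_sum
  have h6 := hFa.sum_le_integral
  have h7 : ∫ c in (-(l : ℝ))..(-(l : ℝ) + ((2 * l : ℕ) : ℝ)), F c = (l : ℝ) ^ 2 * Ph t := by
    rcases Nat.eq_zero_or_pos l with hl | hl
    · subst hl
      simp
    · have hl1 : (0 : ℝ) < l := by exact_mod_cast hl
      have e1 : -(l : ℝ) + ((2 * l : ℕ) : ℝ) = l := by push_cast; ring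
      rw [e1]
      have e2 : F = fun c => (l : ℝ) * (fun γ => min 1 (1 / t - γ * t)) (c / l) := by
        rw [hF]
        funext c
        simp only
        rw [mul_min_of_nonneg _ _ hl1.le, mul_one]
        congr 1
        field_simp
      rw [e2, intervalIntegral.integral_const_mul, intervalIntegral.integral_comp_div (fun γ => min 1 (1 / t - γ * t)) hl1.ne',
        neg_div, div_self hl1.ne', smul_eq_mul]
      unfold Ph
      ring
  rw [h7] at h5 h6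
  have h8 := Finset.sum_range_succ (fun i : ℕ => F (-(l : ℝ) + (i : ℕ))) (2 * l)
  have h9 := Finset.sum_range_succ' (fun i : ℕ => F (-(l : ℝ) + (i : ℕ))) (2 * l)
  have h10 : F (-(l : ℝ) + ((0 : ℕ) : ℝ)) ≤ l := by
    rw [hF]
    exact min_le_left _ _
  have h11 : 0 ≤ F (-(l : ℝ) + ((2 * l : ℕ) : ℝ)) := by
    have e1 : -(l : ℝ) + ((2 * l : ℕ) : ℝ) = l := by push_cast; ring
    rw [e1, hF]
    refine le_min hl0 ?_
    have h3 : (l : ℝ) ≤ (l : ℝ) / t := by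
      rw [le_div_iff₀ ht0]
      nlinarith
    nlinarith
  rw [← ht]
  rw [h4] at h2
  have h12 := abs_le.1 h2
  have h13 : (l : ℝ) ^ 2 * Ph t ≤ ∑ i ∈ range (2 * l + 1), F (-(l : ℝ) + (i : ℕ)) := by
    rw [h8]
    linarith
  have h14 : ∑ i ∈ range (2 * l + 1), F (-(l : ℝ) + (i : ℕ)) ≤ (l : ℝ) ^ 2 * Ph t + l := by
    rw [h9]
    linarith
  rw [abs_le]
  constructor <;> linarith [h12.1, h12.2]

/-- summed over the numbers `k = 0, …, m` with weights `1, 2, …, 2` -/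
theorem qs_sum (l m : ℕ) (hm : 1 ≤ m) :
    |((qs l m 0).card : ℝ) + 2 * ∑ k ∈ Icc 1 m, ((qs l m k).card : ℝ) - 4 * (l : ℝ) ^ 2 * m * Jc| ≤
      2 * (m : ℝ) * (4 * (l : ℝ) + 1) + (2 * (l : ℝ) + 1) ^ 2 + 8 * (l : ℝ) ^ 2 := by
  have h1 : |∑ k ∈ Icc 1 m, ((qs l m k).card : ℝ) - ∑ k ∈ Icc 1 m, 2 * (l : ℝ) ^ 2 * Ph ((k : ℝ) / m)| ≤ (m : ℝ) * (4 * (l : ℝ) + 1) := by
    rw [← sum_sub_distrib]
    refine (abs_sum_le_sum_abs _ _).trans ?_
    have h3 := Finset.sum_le_card_nsmul (Icc 1 m) (fun k => |((qs l m k).card : ℝ) - 2 * (l : ℝ) ^ 2 * Ph ((k : ℝ) / m)|) (4 * (l : ℝ) + 1) (by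
      intro k hk
      exact qs_card l m k (mem_Icc.1 hk).1 (mem_Icc.1 hk).2)
    rw [nsmul_eq_mul, Nat.card_Icc] at h3
    have e : m + 1 - 1 = m := by omega
    rw [e] at h3
    exact h3
  have h2 : ∑ k ∈ Icc 1 m, 2 * (l : ℝ) ^ 2 * Ph ((k : ℝ) / m) = 2 * (l : ℝ) ^ 2 * ∑ k ∈ Icc 1 m, Ph ((k : ℝ) / m) := by
    rw [mul_sum]
  have h3 := Ph_sum m hm
  have h4 : ((qs l m 0).card : ℝ) ≤ (2 * (l : ℝ) + 1) ^ 2 := by exact_mod_cast qs_le l m 0
  have h5 : (0 : ℝ) ≤ ((qs l m 0).card : ℝ) := Nat.cast_nonneg _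
  rw [h2] at h1
  have h6 := abs_le.1 h1
  have h7 := abs_le.1 h3
  have hl2 : (0 : ℝ) ≤ 2 * (l : ℝ) ^ 2 := by positivity
  have h8 := mul_le_mul_of_nonneg_left h7.1 hl2
  have h9 := mul_le_mul_of_nonneg_left h7.2 hl2
  rw [abs_le]
  constructor <;> nlinarith [h6.1, h6.2]

end Pool.Agent.H82.TO
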