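import Pool.Agent.H82.TO.As10
import Mathlib.MeasureTheory.Integral.IntervalIntegral.FundThmCalculus

/-! # [H82 TO AS11] The constant for `j = 2`: `96 √5 + 64 log ((1+√5)/2)` -/

namespace Pool.Agent.H82.TO

open MeasureTheory

theorem Ph_lo {t : ℝ} (h0 : 0 < t) (h1 : t ^ 2 + t ≤ 1) : Ph t = 2 := by
  unfold Ph
  have h2 : ∫ γ in (-1 : ℝ)..1, min 1 (1 / t - γ * t) = ∫ _γ in (-1 : ℝ)..1, (1 : ℝ) := by
    refine intervalIntegral.integral_congr fun γ hγ => ?_
    rw [Set.uIcc_of_le (by norm_num)] at hγ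
    refine min_eq_left ?_
    have h3 : 1 + t ≤ 1 / t := by
      rw [le_div_iff₀ h0]
      nlinarith
    nlinarith [hγ.1, hγ.2]
  rw [h2, intervalIntegral.integral_const, smul_eq_mul]
  norm_num

theorem Ph_hi {t : ℝ} (h0 : 0 < t) (h1 : t ≤ 1) (h2 : 1 ≤ t ^ 2 + t) :
    Ph t = 1 - t / 2 + 1 / (2 * t) + 1 / t ^ 2 - 1 / (2 * t ^ 3) := by
  obtain ⟨a, ha⟩ : ∃ a : ℝ, a = (1 - t) / t ^ 2 := ⟨_, rfl⟩
  have ha0 : 0 ≤ a := by rw [ha]; exact div_nonneg (by linarith) (by positivity)
  have ha1 : a ≤ 1 := by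
    rw [ha, div_le_one (by positivity)]
    linarith
  have hat : a * t = 1 / t - 1 := by
    rw [ha]
    field_simp
  unfold Ph
  rw [← intervalIntegral.integral_add_adjacent_intervals ((cont_min t).intervalIntegrable (-1) a) ((cont_min t).intervalIntegrable a 1)]
  have e1 : ∫ γ in (-1 : ℝ)..a, min 1 (1 / t - γ * t) = ∫ _γ in (-1 : ℝ)..a, (1 : ℝ) := by
    refine intervalIntegral.integral_congr fun γ hγ => ?_
    rw [Set.uIcc_of_le (by linarith)] at hγ
    refine min_eq_left ?_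
    have h3 : γ * t ≤ a * t := mul_le_mul_of_nonneg_right hγ.2 h0.le
    linarith
  have e2 : ∫ γ in a..1, min 1 (1 / t - γ * t) = ∫ γ in a..1, (1 / t - γ * t) := by
    refine intervalIntegral.integral_congr fun γ hγ => ?_
    rw [Set.uIcc_of_le ha1] at hγ
    refine min_eq_right ?_
    have h3 : a * t ≤ γ * t := mul_le_mul_of_nonneg_right hγ.1 h0.le
    linarith
  rw [e1, e2, intervalIntegral.integral_const, intervalIntegral.integral_sub (continuous_const.intervalIntegrable _ _)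
    (Continuous.intervalIntegrable (by fun_prop) _ _), intervalIntegral.integral_const, intervalIntegral.integral_mul_const, integral_id,
    smul_eq_mul, smul_eq_mul, ha]
  field_simp
  ring

theorem Jc_eq : 128 * Jc = 96 * √5 + 64 * Real.log ((1 + √5) / 2) := by
  obtain ⟨q, hq⟩ : ∃ q : ℝ, q = √5 := ⟨_, rfl⟩
  have hqq : q ^ 2 = 5 := by rw [hq]; exact Real.sq_sqrt (by norm_num)
  have hq0 : 0 ≤ q := by rw [hq]; positivity
  have hq2 : 2 < q := by nlinarith
  have hq3 : q < 3 := by nlinarith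
  obtain ⟨p, hp⟩ : ∃ p : ℝ, p = (q - 1) / 2 := ⟨_, rfl⟩
  have hp0 : 0 < p := by rw [hp]; linarith
  have hp1 : p < 1 := by rw [hp]; linarith
  have hpp : p ^ 2 + p = 1 := by
    rw [hp]
    nlinarith
  have hint : IntervalIntegrable Ps volume 0 1 := Ps_int
  have hi1 : IntervalIntegrable Ps volume 0 p := by
    refine hint.mono_set ?_
    rw [Set.uIcc_of_le hp0.le, Set.uIcc_of_le zero_le_one]
    exact Set.Icc_subset_Icc_right hp1.le
  have hi2 : IntervalIntegrable Ps volume p 1 := by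
    refine hint.mono_set ?_
    rw [Set.uIcc_of_le hp1.le, Set.uIcc_of_le zero_le_one]
    exact Set.Icc_subset_Icc_left hp0.le
  have e1 : ∫ t in (0 : ℝ)..p, Ps t = ∫ _t in (0 : ℝ)..p, (2 : ℝ) := by
    refine intervalIntegral.integral_congr fun t ht => ?_
    rw [Set.uIcc_of_le hp0.le] at ht
    unfold Ps
    split_ifs with h
    · rfl
    · refine Ph_lo (not_le.1 h) ?_
      nlinarith [ht.1, ht.2]
  have e2 : ∫ t in p..1, Ps t = ∫ t in p..1, (1 - t / 2 + 1 / (2 * t) + 1 / t ^ 2 - 1 / (2 * t ^ 3)) := by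
    refine intervalIntegral.integral_congr fun t ht => ?_
    rw [Set.uIcc_of_le hp1.le] at ht
    have ht0 : 0 < t := by linarith [ht.1]
    unfold Ps
    rw [if_neg (not_le.2 ht0)]
    refine Ph_hi ht0 ht.2 ?_
    nlinarith [ht.1, ht.2]
  have e3 : ∫ t in p..1, (1 - t / 2 + 1 / (2 * t) + 1 / t ^ 2 - 1 / (2 * t ^ 3)) =
      (fun t : ℝ => t - t ^ 2 / 4 + Real.log t / 2 - 1 / t + 1 / (4 * t ^ 2)) 1 -
      (fun t : ℝ => t - t ^ 2 / 4 + Real.log t / 2 - 1 / t + 1 / (4 * t ^ 2)) p := by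
    refine intervalIntegral.integral_eq_sub_of_hasDerivAt (f := fun t : ℝ => t - t ^ 2 / 4 + Real.log t / 2 - 1 / t + 1 / (4 * t ^ 2)) ?_ ?_
    · intro t ht
      rw [Set.uIcc_of_le hp1.le] at ht
      have ht0 : 0 < t := by linarith [ht.1]
      have d1 := hasDerivAt_id t
      have d2 := (hasDerivAt_pow 2 t).div_const 4
      have d3 := (Real.hasDerivAt_log ht0.ne').div_const 2
      have d4 := hasDerivAt_inv ht0.ne'
      have d5 : HasDerivAt (fun t : ℝ => (4 * t ^ 2)⁻¹) (-(4 * (((2 : ℕ) : ℝ) * t ^ (2 - 1))) / (4 * t ^ 2) ^ 2) t :=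
        ((hasDerivAt_pow 2 t).const_mul 4).inv (by positivity)
      have d6 := (((d1.sub d2).add d3).sub d4).add d5
      refine (d6.congr_deriv ?_).congr_of_eventuallyEq ?_
      · push_cast
        field_simp
        ring
      · refine Filter.Eventually.of_forall fun u => ?_
        simp only [one_div]
        rfl
    · refine ContinuousOn.intervalIntegrable ?_
      rw [Set.uIcc_of_le hp1.le]
      intro t ht
      have ht0 : t ≠ 0 := by linarith [ht.1]
      have h1 : ContinuousAt (fun t : ℝ => 1 - t / 2 + 1 / (2 * t) + 1 / t ^ 2 - 1 / (2 * t ^ 3)) t := by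
        have a1 : 2 * t ≠ 0 := by positivity
        have a2 : t ^ 2 ≠ 0 := by positivity
        have a3 : 2 * t ^ 3 ≠ 0 := by positivity
        fun_prop (disch := assumption)
      exact h1.continuousWithinAt
  have hJ : Jc = 2 * p + (0 - (p - p ^ 2 / 4 + Real.log p / 2 - 1 / p + 1 / (4 * p ^ 2))) := by
    unfold Jc
    rw [← intervalIntegral.integral_add_adjacent_intervals hi1 hi2, e1, e2, e3, intervalIntegral.integral_const, smul_eq_mul]
    simp only [Real.log_one]
    ring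
  have hinvp : 1 / p = 1 + p := by
    rw [div_eq_iff hp0.ne']
    linarith
  have hinvp2 : 1 / (4 * p ^ 2) = (2 + p) / 4 := by
    have h1 : 1 / (4 * p ^ 2) = (1 / p) ^ 2 / 4 := by
      field_simp
    rw [h1, hinvp]
    have h2 : (1 + p) ^ 2 = 2 + p := by nlinarith
    rw [h2]
  have hlog : Real.log p = - Real.log ((1 + q) / 2) := by
    rw [← Real.log_inv]
    congr 1
    rw [hp]
    refine eq_inv_of_mul_eq_one_left ?_
    nlinarith
  have hp2 : p ^ 2 = 1 - p := by linarith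
  rw [hJ, hinvp, hinvp2, hlog, hp2, ← hq, hp]
  ring

end Pool.Agent.H82.TO
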