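import Pool.Agent.H8.AA.Box

/-! # [H82 TO LBP] Lower bound for the number of vectors with a given value at a point, `j = 1, 2` -/

namespace Pool.Agent.H82.TO

open Finset Pool.Agent.H8.AA

/-- the vector of an array -/
def vc (j : ℕ) (e : ℕ → ℕ → ℤ) : Ix j → ℤ := fun p => e p.1.1.val p.1.2.val

theorem co_vc (j : ℕ) (e : ℕ → ℕ → ℤ) {a b : ℕ} (h : a + b ≤ j) : co (vc j e) a b = e a b := by
  rw [co_of_le _ h]
  rfl

theorem ev_vc (j : ℕ) (e : ℕ → ℕ → ℤ) (x y : ℤ) : ev j (co (vc j e)) x y = ev j e x y := by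
  unfold ev
  refine Finset.sum_congr rfl fun k hk => Finset.sum_congr rfl fun i hi => ?_
  have h1 := Finset.mem_range.1 hk
  have h2 := Finset.mem_range.1 hi
  rw [co_vc j e (by omega)]

/-- `j = 1` -/
theorem lb1 (H : ℕ) (x y N : ℤ) (hx : 1 ≤ x) (hy : |y| ≤ x) (hxH : 16 * x ≤ H) (hN : 8 * |N| ≤ H * x) :
    (H : ℝ) ^ 2 / (32 * x) ≤ (((box 1 H).filter fun c => ev 1 (co c) x y = N).card : ℝ) := by
  classical
  obtain ⟨h, hh⟩ : ∃ h : ℤ, h = (H : ℤ) / 8 := ⟨_, rfl⟩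
  obtain ⟨m, hm⟩ : ∃ m : ℤ, m = (H : ℤ) / (4 * x) := ⟨_, rfl⟩
  have hx0 : x ≠ 0 := by omega
  have h0 : 0 ≤ h := by omega
  have h8 : 8 * h ≤ H := by omega
  have h8' : (H : ℤ) < 8 * h + 8 := by omega
  have hm0 : 0 ≤ m := by rw [hm]; positivity
  have hm1 : m * (4 * x) ≤ H := by rw [hm]; exact Int.ediv_mul_le _ (by omega)
  have hm2 : (H : ℤ) < (m + 1) * (4 * x) := by rw [hm]; exact Int.lt_ediv_add_one_mul_self _ (by omega)
  obtain ⟨f, hf⟩ : ∃ f : ℤ × ℤ → (Ix 1 → ℤ), f = fun q => vc 1 (fun a b =>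
      if b = 1 then q.1 else if a = 1 then (N - q.1 * y) / x + q.2 else (N - q.1 * y) % x - q.2 * x) := ⟨_, rfl⟩
  have hmap : ∀ q ∈ (Icc (-h) h ×ˢ Icc (-m) m : Finset (ℤ × ℤ)), f q ∈ (box 1 H).filter fun c => ev 1 (co c) x y = N := by
    intro q hq
    rw [Finset.mem_product, Finset.mem_Icc, Finset.mem_Icc] at hq
    obtain ⟨⟨hu1, hu2⟩, hs1, hs2⟩ := hq
    have hdm := Int.emod_add_mul_ediv (N - q.1 * y) x
    have hmod0 := Int.emod_nonneg (N - q.1 * y) hx0
    have hmod1 := Int.emod_lt_of_pos (N - q.1 * y) (by omega : 0 < x)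
    have huy : |q.1 * y| ≤ h * x := by
      rw [abs_mul]
      exact mul_le_mul (abs_le.2 ⟨hu1, hu2⟩) hy (abs_nonneg _) h0
    have hsx : |q.2 * x| ≤ m * x := by
      rw [abs_mul, abs_of_pos (by omega : 0 < x)]
      exact mul_le_mul_of_nonneg_right (abs_le.2 ⟨hs1, hs2⟩) (by omega)
    rw [Finset.mem_filter, mem_box]
    refine ⟨?_, ?_⟩
    · intro p
      rw [hf]
      obtain ⟨⟨a, b⟩, hab⟩ := p
      simp only at hab
      simp only [vc]
      split_ifs with h1 h2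
      · rw [abs_le]
        omega
      · -- the coefficient of x
        have h3 : 4 * |N - q.1 * y| ≤ H * x := by
          have h4 : |N - q.1 * y| ≤ |N| + |q.1 * y| := abs_sub _ _
          nlinarith
        have h5 := abs_le.1 (show |N - q.1 * y| ≤ |N - q.1 * y| from le_refl _)
        have h6 : 4 * (((N - q.1 * y) / x) * x) ≤ H * x := by nlinarith
        have h7 : -(H * x) - 4 * x < 4 * (((N - q.1 * y) / x) * x) := by nlinarith
        have h8 : 4 * ((N - q.1 * y) / x) ≤ H := by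
          by_contra hcon
          push Not at hcon
          nlinarith
        have h9 : -(H : ℤ) - 4 < 4 * ((N - q.1 * y) / x) := by
          by_contra hcon
          push Not at hcon
          nlinarith
        have h10 : 4 * m ≤ H := by nlinarith
        rw [abs_le]
        omega
      · have h10 := abs_le.1 hsx
        rw [abs_le]
        constructor <;> nlinarith
    · rw [hf]
      simp only
      rw [ev_vc]
      unfold ev
      simp only [Finset.sum_range_succ, Finset.sum_range_zero, zero_add, Nat.sub_zero, Nat.sub_self, pow_zero, pow_one]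
      norm_num
      linarith
  have hinj : Set.InjOn f (Icc (-h) h ×ˢ Icc (-m) m : Finset (ℤ × ℤ)) := by
    intro q _ q' _ hqq
    have h1 : co (f q) 0 1 = co (f q') 0 1 := by rw [hqq]
    have h2 : co (f q) 1 0 = co (f q') 1 0 := by rw [hqq]
    rw [hf] at h1 h2
    simp only at h1 h2
    rw [co_vc 1 _ (by norm_num), co_vc 1 _ (by norm_num)] at h1 h2
    norm_num at h1 h2
    rw [h1] at h2
    have h3 : q.2 = q'.2 := by linarith
    exact Prod.ext h1 h3
  have hcard := Finset.card_le_card_of_injOn f hmap hinj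
  rw [Finset.card_product, Int.card_Icc, Int.card_Icc] at hcard
  have hc1 : (h + 1 - -h).toNat = (2 * h + 1).toNat := by congr 1; ring
  have hc2 : (m + 1 - -m).toNat = (2 * m + 1).toNat := by congr 1; ring
  rw [hc1, hc2] at hcard
  have hcr : ((2 * h + 1 : ℤ) : ℝ) * ((2 * m + 1 : ℤ) : ℝ) ≤ (((box 1 H).filter fun c => ev 1 (co c) x y = N).card : ℝ) := by
    have h1 : (((2 * h + 1).toNat : ℤ) : ℝ) = ((2 * h + 1 : ℤ) : ℝ) := by rw [Int.toNat_of_nonneg (by omega)]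
    have h2 : (((2 * m + 1).toNat : ℤ) : ℝ) = ((2 * m + 1 : ℤ) : ℝ) := by rw [Int.toNat_of_nonneg (by omega)]
    rw [← h1, ← h2]
    exact_mod_cast hcard
  refine le_trans ?_ hcr
  have hxr : (1 : ℝ) ≤ x := by exact_mod_cast hx
  have hHx : 16 * (x : ℝ) ≤ H := by exact_mod_cast hxH
  have e1 : (H : ℝ) / 8 ≤ ((2 * h + 1 : ℤ) : ℝ) := by
    have h1 : (H : ℝ) < 8 * (h : ℝ) + 8 := by exact_mod_cast h8'
    push_cast
    linarith
  have e2 : (H : ℝ) / (4 * x) ≤ ((2 * m + 1 : ℤ) : ℝ) := by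
    have h1 : (H : ℝ) < ((m : ℝ) + 1) * (4 * x) := by exact_mod_cast hm2
    rw [div_le_iff₀ (by positivity)]
    push_cast
    nlinarith
  calc (H : ℝ) ^ 2 / (32 * x) = H / 8 * (H / (4 * x)) := by
        field_simp
        ring
    _ ≤ _ := mul_le_mul e1 e2 (by positivity) (by linarith [show (0 : ℝ) ≤ (H : ℝ) / 8 by positivity])

/-- division of a number `≤ A x^k` by `x` -/
theorem div_bd {x N A : ℤ} (hx : 1 ≤ x) (hN : |N| ≤ A * x) : |N / x| ≤ A + 1 := by
  have hdm := Int.emod_add_mul_ediv N x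
  have hmod0 := Int.emod_nonneg N (by omega : x ≠ 0)
  have hmod1 := Int.emod_lt_of_pos N (by omega : 0 < x)
  have h1 := abs_le.1 hN
  rw [abs_le]
  constructor
  · by_contra hcon
    push Not at hcon
    nlinarith
  · by_contra hcon
    push Not at hcon
    nlinarith

/-- `j = 2` -/
theorem lb2 (H : ℕ) (x y N : ℤ) (hx : 1 ≤ x) (hy : |y| ≤ x) (hxH : 16 * x ≤ H) (hN : 8 * |N| ≤ H * x ^ 2) :
    (H : ℝ) ^ 5 / (4 ^ 9 * x ^ 2) ≤ (((box 2 H).filter fun c => ev 2 (co c) x y = N).card : ℝ) := by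
  classical
  obtain ⟨h, hh⟩ : ∃ h : ℤ, h = (H : ℤ) / 16 := ⟨_, rfl⟩
  obtain ⟨m, hm⟩ : ∃ m : ℤ, m = (H : ℤ) / (8 * x) := ⟨_, rfl⟩
  have hx0 : x ≠ 0 := by omega
  have hxx : 0 < x ^ 2 := by positivity
  have h0 : 0 ≤ h := by omega
  have h8 : 16 * h ≤ H := by omega
  have h8' : (H : ℤ) < 16 * h + 16 := by omega
  have hm0 : 0 ≤ m := by rw [hm]; positivity
  have hm1 : m * (8 * x) ≤ H := by rw [hm]; exact Int.ediv_mul_le _ (by omega)
  have hm2 : (H : ℤ) < (m + 1) * (8 * x) := by rw [hm]; exact Int.lt_ediv_add_one_mul_self _ (by omega)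
  have hmH : 8 * m ≤ H := by nlinarith
  -- parameters: u = coefficient of x y, v of y^2, w of y, s, r
  obtain ⟨N1, hN1⟩ : ∃ N1 : (ℤ × ℤ × ℤ) × ℤ × ℤ → ℤ, N1 = fun q => N - (q.1.1 * (x * y) + q.1.2.1 * y ^ 2 + q.1.2.2 * y) := ⟨_, rfl⟩
  obtain ⟨N2, hN2⟩ : ∃ N2 : (ℤ × ℤ × ℤ) × ℤ × ℤ → ℤ, N2 = fun q => N1 q % x ^ 2 - q.2.1 * x ^ 2 := ⟨_, rfl⟩
  obtain ⟨f, hf⟩ : ∃ f : (ℤ × ℤ × ℤ) × ℤ × ℤ → (Ix 2 → ℤ), f = fun q => vc 2 (fun a b =>
      if b = 2 then q.1.2.1 else if b = 1 then (if a = 1 then q.1.1 else q.1.2.2) else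
      if a = 2 then N1 q / x ^ 2 + q.2.1 else if a = 1 then N2 q / x + q.2.2 else N2 q % x - q.2.2 * x) := ⟨_, rfl⟩
  obtain ⟨D, hD⟩ : ∃ D : Finset ((ℤ × ℤ × ℤ) × ℤ × ℤ), D = (Icc (-h) h ×ˢ Icc (-h) h ×ˢ Icc (-h) h) ×ˢ Icc (-m) m ×ˢ Icc (-m) m := ⟨_, rfl⟩
  have hmap : ∀ q ∈ D, f q ∈ (box 2 H).filter fun c => ev 2 (co c) x y = N := by
    intro q hq
    rw [hD] at hq
    simp only [Finset.mem_product, Finset.mem_Icc] at hq
    obtain ⟨⟨⟨hu1, hu2⟩, ⟨hv1, hv2⟩, hw1, hw2⟩, ⟨hs1, hs2⟩, hr1, hr2⟩ := hq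
    have hyx := abs_le.1 hy
    have hyy : |y| ^ 2 ≤ x ^ 2 := pow_le_pow_left₀ (abs_nonneg _) hy 2
    have k1 : |q.1.1 * (x * y)| ≤ h * x ^ 2 := by
      rw [abs_mul, abs_mul, abs_of_pos (by omega : 0 < x)]
      refine mul_le_mul (abs_le.2 ⟨hu1, hu2⟩) ?_ (by positivity) h0
      nlinarith
    have k2 : |q.1.2.1 * y ^ 2| ≤ h * x ^ 2 := by
      rw [abs_mul, abs_pow]
      exact mul_le_mul (abs_le.2 ⟨hv1, hv2⟩) hyy (by positivity) h0
    have k3 : |q.1.2.2 * y| ≤ h * x ^ 2 := by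
      rw [abs_mul]
      refine mul_le_mul (abs_le.2 ⟨hw1, hw2⟩) ?_ (abs_nonneg _) h0
      nlinarith
    have k4 : 16 * |N1 q| ≤ 5 * H * x ^ 2 := by
      rw [hN1]
      simp only
      have h1 : |N - (q.1.1 * (x * y) + q.1.2.1 * y ^ 2 + q.1.2.2 * y)| ≤
          |N| + (|q.1.1 * (x * y)| + |q.1.2.1 * y ^ 2| + |q.1.2.2 * y|) := by
        refine (abs_sub _ _).trans ?_
        have h2 := abs_add_three (q.1.1 * (x * y)) (q.1.2.1 * y ^ 2) (q.1.2.2 * y)
        linarith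
      nlinarith
    have d1 := Int.emod_add_mul_ediv (N1 q) (x ^ 2)
    have d2 := Int.emod_nonneg (N1 q) hxx.ne'
    have d3 := Int.emod_lt_of_pos (N1 q) hxx
    have d4 := Int.emod_add_mul_ediv (N2 q) x
    have d5 := Int.emod_nonneg (N2 q) hx0
    have d6 := Int.emod_lt_of_pos (N2 q) (by omega : 0 < x)
    have hsx : |q.2.1 * x ^ 2| ≤ m * x ^ 2 := by
      rw [abs_mul, abs_of_pos hxx]
      exact mul_le_mul_of_nonneg_right (abs_le.2 ⟨hs1, hs2⟩) hxx.le
    have hrx : |q.2.2 * x| ≤ m * x := by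
      rw [abs_mul, abs_of_pos (by omega : 0 < x)]
      exact mul_le_mul_of_nonneg_right (abs_le.2 ⟨hr1, hr2⟩) (by omega)
    have k5 : 16 * |N2 q| ≤ 3 * H * x := by
      have h1 : |N2 q| ≤ x ^ 2 + m * x ^ 2 := by
        rw [hN2]
        simp only
        refine (abs_sub _ _).trans ?_
        have h2 : |N1 q % x ^ 2| ≤ x ^ 2 := by
          rw [abs_of_nonneg d2]
          exact d3.le
        linarith
      have h2 : 16 * x ^ 2 ≤ H * x := by nlinarith
      have h3 : 16 * (m * x ^ 2) ≤ 2 * (H * x) := by nlinarith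
      linarith
    rw [Finset.mem_filter, mem_box]
    refine ⟨?_, ?_⟩
    · intro p
      rw [hf]
      obtain ⟨⟨a, b⟩, hab⟩ := p
      simp only at hab
      simp only [vc]
      split_ifs with h1 h2 h3 h4 h5
      · rw [abs_le]; omega
      · rw [abs_le]; omega
      · rw [abs_le]; omega
      · have h6 : |16 * N1 q| ≤ 5 * H * x ^ 2 := by
          rw [abs_mul]
          simpa using k4
        have h7 : |N1 q| ≤ (5 * H / 16 + 1) * x ^ 2 := by
          have h8 : (5 * (H : ℤ)) ≤ 16 * (5 * H / 16 + 1) := by omega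
          nlinarith
        have h9 := div_bd (by omega : 1 ≤ x ^ 2) h7
        have h10 := abs_le.1 h9
        rw [abs_le]
        omega
      · have h7 : |N2 q| ≤ (3 * H / 16 + 1) * x := by
          have h8 : (3 * (H : ℤ)) ≤ 16 * (3 * H / 16 + 1) := by omega
          nlinarith
        have h9 := div_bd hx h7
        have h10 := abs_le.1 h9
        rw [abs_le]
        omega
      · have h10 := abs_le.1 hrx
        rw [abs_le]
        constructor <;> nlinarith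
    · rw [hf]
      simp only
      rw [ev_vc]
      unfold ev
      simp only [Finset.sum_range_succ, Finset.sum_range_zero, zero_add, Nat.sub_zero, Nat.sub_self, pow_zero, pow_one]
      norm_num
      have e1 : N2 q = N1 q % x ^ 2 - q.2.1 * x ^ 2 := by rw [hN2]
      have e2 : N1 q = N - (q.1.1 * (x * y) + q.1.2.1 * y ^ 2 + q.1.2.2 * y) := by rw [hN1]
      linear_combination d4 + d1 + e1 + e2
  have hinj : Set.InjOn f D := by
    intro q _ q' _ hqq
    have h1 : co (f q) 0 2 = co (f q') 0 2 := by rw [hqq]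
    have h2 : co (f q) 1 1 = co (f q') 1 1 := by rw [hqq]
    have h3 : co (f q) 0 1 = co (f q') 0 1 := by rw [hqq]
    have h4 : co (f q) 2 0 = co (f q') 2 0 := by rw [hqq]
    have h5 : co (f q) 1 0 = co (f q') 1 0 := by rw [hqq]
    rw [hf] at h1 h2 h3 h4 h5
    simp only at h1 h2 h3 h4 h5
    rw [co_vc 2 _ (by norm_num), co_vc 2 _ (by norm_num)] at h1 h2 h3 h4 h5
    norm_num at h1 h2 h3 h4 h5
    have e1 : N1 q = N1 q' := by
      rw [hN1]
      simp only
      rw [h1, h2, h3]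
    have e2 : q.2.1 = q'.2.1 := by
      rw [e1] at h4
      linarith
    have e3 : N2 q = N2 q' := by
      rw [hN2]
      simp only
      rw [e1, e2]
    have e4 : q.2.2 = q'.2.2 := by
      rw [e3] at h5
      linarith
    exact Prod.ext (Prod.ext h2 (Prod.ext h1 h3)) (Prod.ext e2 e4)
  have hcard := Finset.card_le_card_of_injOn f hmap hinj
  rw [hD] at hcard
  simp only [Finset.card_product, Int.card_Icc] at hcard
  have hc1 : (h + 1 - -h).toNat = (2 * h + 1).toNat := by congr 1; ring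
  have hc2 : (m + 1 - -m).toNat = (2 * m + 1).toNat := by congr 1; ring
  rw [hc1, hc2] at hcard
  have hcr : ((2 * h + 1 : ℤ) : ℝ) ^ 3 * ((2 * m + 1 : ℤ) : ℝ) ^ 2 ≤
      (((box 2 H).filter fun c => ev 2 (co c) x y = N).card : ℝ) := by
    have h1 : (((2 * h + 1).toNat : ℤ) : ℝ) = ((2 * h + 1 : ℤ) : ℝ) := by rw [Int.toNat_of_nonneg (by omega)]
    have h2 : (((2 * m + 1).toNat : ℤ) : ℝ) = ((2 * m + 1 : ℤ) : ℝ) := by rw [Int.toNat_of_nonneg (by omega)]
    rw [← h1, ← h2]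
    have h3 : (((2 * h + 1).toNat : ℝ) ^ 3 * ((2 * m + 1).toNat : ℝ) ^ 2) ≤
        (((box 2 H).filter fun c => ev 2 (co c) x y = N).card : ℝ) := by
      refine le_trans (le_of_eq ?_) (Nat.cast_le.2 hcard)
      push_cast
      ring
    exact_mod_cast h3
  refine le_trans ?_ hcr
  have hxr : (1 : ℝ) ≤ x := by exact_mod_cast hx
  have hHx : 16 * (x : ℝ) ≤ H := by exact_mod_cast hxH
  have e1 : (H : ℝ) / 16 ≤ ((2 * h + 1 : ℤ) : ℝ) := by
    have h1 : (H : ℝ) < 16 * (h : ℝ) + 16 := by exact_mod_cast h8'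
    push_cast
    linarith
  have e2 : (H : ℝ) / (8 * x) ≤ ((2 * m + 1 : ℤ) : ℝ) := by
    have h1 : (H : ℝ) < ((m : ℝ) + 1) * (8 * x) := by exact_mod_cast hm2
    rw [div_le_iff₀ (by positivity)]
    push_cast
    nlinarith
  calc (H : ℝ) ^ 5 / (4 ^ 9 * x ^ 2) = (H / 16) ^ 3 * (H / (8 * x)) ^ 2 := by
        field_simp
        ring
    _ ≤ _ := mul_le_mul (pow_le_pow_left₀ (by positivity) e1 3) (pow_le_pow_left₀ (by positivity) e2 2) (by positivity)
        (by positivity)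

end Pool.Agent.H82.TO
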