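import Pool.Agent.H82.TO.As1
import Pool.Agent.H82.TO.Lbp
import Pool.Agent.H82.A3.Cnt

/-! # [H82 TO AS2] The number of vectors with a given value at a point, `j = 2`, two-sided -/

namespace Pool.Agent.H82.TO

open Finset Pool.Agent.H8.AA Pool.Agent.H88.A2 Pool.Agent.H82.A3

/-- the number of vectors with the value `N` at `(x, y)` -/
noncomputable def An (j H : ℕ) (x y N : ℤ) : ℕ := ((box j H).filter fun c => ev j (co c) x y = N).card

theorem An_sw (j H : ℕ) (x y N : ℤ) : An j H x y N = An j H y x N := by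
  have key : ∀ x y : ℤ, An j H x y N ≤ An j H y x N := by
    intro x y
    unfold An
    have hinj : Function.Injective (fun (c : Ix j → ℤ) (p : Ix j) => c (sp p)) := by
      intro c c' hcc
      funext p
      have := congrFun hcc (sp p)
      exact this
    refine card_le_card_of_injOn (fun (c : Ix j → ℤ) (p : Ix j) => c (sp p)) ?_ hinj.injOn
    intro c hc
    rw [mem_coe, mem_filter, mem_box] at hc
    rw [mem_coe, mem_filter, mem_box]
    refine ⟨fun p => hc.1 _, ?_⟩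
    have h9 : co (fun p => c (sp p)) = sw (co c) := by
      funext a b
      rw [co_sp]
      rfl
    rw [h9, ev_sw]
    exact hc.2
  exact le_antisymm (key x y) (key y x)

theorem sgn_ex (x y : ℤ) : ∃ s : ℤ, (s = 1 ∨ s = -1) ∧ x * y = s * ((x.natAbs : ℤ) * (y.natAbs : ℤ)) := by
  rcases Int.natAbs_eq x with hx | hx <;> rcases Int.natAbs_eq y with hy | hy
  · exact ⟨1, Or.inl rfl, by rw [← hx, ← hy]; ring⟩
  · exact ⟨-1, Or.inr rfl, by rw [← hx]; linear_combination x * hy⟩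
  · exact ⟨-1, Or.inr rfl, by rw [← hy]; linear_combination y * hx⟩
  · refine ⟨1, Or.inl rfl, ?_⟩
    have e1 : ((x.natAbs : ℤ)) = -x := by linarith
    have e2 : ((y.natAbs : ℤ)) = -y := by linarith
    rw [e1, e2]
    ring

theorem up_pt (H e : ℕ) (x y N : ℤ) (hx : x ≠ 0) (hxy : |y| ≤ |x|)
    (he : (H : ℤ) + 2 * H * |x| + |N| ≤ e * x ^ 2) :
    (An 2 H x y N : ℝ) ≤ (2 * (H : ℝ) / (x : ℝ) ^ 2 + 1) * (2 * (H : ℝ) + 1) ^ 2 * ((qs (H + e) x.natAbs y.natAbs).card : ℝ) := by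
  classical
  obtain ⟨s, hs, hsxy⟩ := sgn_ex x y
  have hss : s * s = 1 := by rcases hs with rfl | rfl <;> norm_num
  have hxx : 0 < x ^ 2 := by positivity
  have hx2 : (x.natAbs : ℤ) ^ 2 = x ^ 2 := Int.natAbs_sq x
  have hy2 : (y.natAbs : ℤ) ^ 2 = y ^ 2 := Int.natAbs_sq y
  obtain ⟨T, hT⟩ : ∃ T : Finset (Ix 2 → ℤ), T = (box 2 H).filter fun c => ev 2 (co c) x y = N := ⟨_, rfl⟩
  obtain ⟨f, hf⟩ : ∃ f : (Ix 2 → ℤ) → (ℤ × ℤ) × (ℤ × ℤ), f = fun c => ((s * co c 1 1, co c 0 2), (co c 1 0, co c 0 1)) := ⟨_, rfl⟩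
  have hmem : ∀ c ∈ T, (∀ a b, a + b ≤ 2 → |co c a b| ≤ (H : ℤ)) ∧
      co c 0 0 + co c 1 0 * x + co c 0 1 * y + co c 2 0 * x ^ 2 + co c 1 1 * (x * y) + co c 0 2 * y ^ 2 = N := by
    intro c hc
    rw [hT, mem_filter, mem_box] at hc
    refine ⟨fun a b hab => ?_, ?_⟩
    · rw [co_of_le c hab]
      exact hc.1 _
    · have h1 := hc.2
      rw [ev_two] at h1
      rw [← h1]
  have hfib : ∀ a ∈ T.image f, (T.filter fun c => f c = a).card ≤ (2 * (H : ℤ) / x ^ 2).toNat + 1 := by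
    intro a _
    obtain ⟨V, hV⟩ : ∃ V : Finset ℤ, V = (T.filter fun c => f c = a).image fun c => co c 2 0 := ⟨_, rfl⟩
    have hcV : V.card = (T.filter fun c => f c = a).card := by
      rw [hV]
      refine card_image_of_injOn ?_
      intro c hc c' hc' h
      rw [mem_coe, mem_filter] at hc hc'
      simp only at h
      have h1 := hc.2.trans hc'.2.symm
      rw [hf] at h1
      simp only [Prod.mk.injEq] at h1
      obtain ⟨⟨h2, h3⟩, h4, h5⟩ := h1
      have h6 : co c 1 1 = co c' 1 1 := by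
        have h7 : s * (s * co c 1 1) = s * (s * co c' 1 1) := by rw [h2]
        rw [← mul_assoc, ← mul_assoc, hss, one_mul, one_mul] at h7
        exact h7
      have h8 := (hmem c hc.1).2
      have h9 := (hmem c' hc'.1).2
      rw [h, h3, h4, h5, h6] at h8
      have h10 : co c 0 0 = co c' 0 0 := by linarith
      refine ext_co fun a b hab => ?_
      have ha : a ≤ 2 := by omega
      have hb : b ≤ 2 := by omega
      interval_cases a <;> interval_cases b <;> first | omega | assumption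
    rw [← hcV]
    refine diam_card V _ ?_
    intro u hu v hv
    rw [hV, mem_image] at hu hv
    obtain ⟨c, hc, rfl⟩ := hu
    obtain ⟨c', hc', rfl⟩ := hv
    rw [mem_filter] at hc hc'
    have h1 := hc.2.trans hc'.2.symm
    rw [hf] at h1
    simp only [Prod.mk.injEq] at h1
    obtain ⟨⟨h2, h3⟩, h4, h5⟩ := h1
    have h6 : co c 1 1 = co c' 1 1 := by
      have h7 : s * (s * co c 1 1) = s * (s * co c' 1 1) := by rw [h2]
      rw [← mul_assoc, ← mul_assoc, hss, one_mul, one_mul] at h7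
      exact h7
    have h8 := (hmem c hc.1).2
    have h9 := (hmem c' hc'.1).2
    rw [h3, h4, h5, h6] at h8
    have h10 := abs_le.1 ((hmem c hc.1).1 0 0 (by norm_num))
    have h11 := abs_le.1 ((hmem c' hc'.1).1 0 0 (by norm_num))
    have h12 : (co c 2 0 - co c' 2 0) * x ^ 2 ≤ 2 * H := by nlinarith
    have h13 : co c 2 0 - co c' 2 0 ≤ 2 * (H : ℤ) / x ^ 2 := (Int.le_ediv_iff_mul_le hxx).2 h12
    rw [Int.toNat_of_nonneg (Int.ediv_nonneg (by positivity) hxx.le)]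
    exact h13
  have h1 := card_le_mul_card_image T ((2 * (H : ℤ) / x ^ 2).toNat + 1) hfib
  have hsub : T.image f ⊆ (qs (H + e) x.natAbs y.natAbs) ×ˢ ((Icc (-(H : ℤ)) H) ×ˢ (Icc (-(H : ℤ)) H)) := by
    intro a ha
    obtain ⟨c, hc, rfl⟩ := mem_image.1 ha
    obtain ⟨h2, h3⟩ := hmem c hc
    rw [hf]
    rw [mem_product, mem_product]
    refine ⟨?_, mem_Icc.2 (abs_le.1 (h2 1 0 (by norm_num))), mem_Icc.2 (abs_le.1 (h2 0 1 (by norm_num)))⟩
    unfold qs
    rw [mem_filter, mem_product]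
    have h4 := abs_le.1 (h2 1 1 (by norm_num))
    have h5 := abs_le.1 (h2 0 2 (by norm_num))
    have he0 : (0 : ℤ) ≤ e := by positivity
    refine ⟨⟨?_, ?_⟩, ?_⟩
    · rw [mem_Icc]
      push_cast
      rcases hs with rfl | rfl
      · constructor <;> linarith [h4.1, h4.2]
      · constructor <;> linarith [h4.1, h4.2]
    · rw [mem_Icc]
      push_cast
      constructor <;> linarith [h5.1, h5.2]
    · simp only
      rw [hx2, hy2]
      have e1 : s * co c 1 1 * ((x.natAbs : ℤ) * (y.natAbs : ℤ)) + co c 0 2 * y ^ 2 =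
          N - co c 0 0 - co c 1 0 * x - co c 0 1 * y - co c 2 0 * x ^ 2 := by
        have e2 : s * co c 1 1 * ((x.natAbs : ℤ) * (y.natAbs : ℤ)) = co c 1 1 * (x * y) := by
          rw [hsxy]
          ring
        rw [e2]
        linarith
      rw [e1]
      have k1 : |co c 1 0 * x| ≤ H * |x| := by
        rw [abs_mul]
        exact mul_le_mul_of_nonneg_right (h2 1 0 (by norm_num)) (abs_nonneg _)
      have k2 : |co c 0 1 * y| ≤ H * |x| := by
        rw [abs_mul]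
        exact mul_le_mul (h2 0 1 (by norm_num)) hxy (abs_nonneg _) (by positivity)
      have k3 : |co c 2 0 * x ^ 2| ≤ H * x ^ 2 := by
        rw [abs_mul, abs_of_pos hxx]
        exact mul_le_mul_of_nonneg_right (h2 2 0 (by norm_num)) hxx.le
      have k4 := h2 0 0 (by norm_num)
      have k5 := abs_le.1 k1
      have k6 := abs_le.1 k2
      have k7 := abs_le.1 k3
      have k8 := abs_le.1 k4
      have k9 := neg_abs_le N
      have k10 := le_abs_self N
      push_cast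
      rw [abs_le]
      constructor <;> nlinarith
  have h2 := card_le_card hsub
  rw [card_product, card_product, Int.card_Icc] at h2
  have e2 : ((H : ℤ) + 1 - -(H : ℤ)).toNat = 2 * H + 1 := by omega
  rw [e2] at h2
  have h3 : (((2 * (H : ℤ) / x ^ 2).toNat : ℕ) : ℝ) ≤ 2 * (H : ℝ) / (x : ℝ) ^ 2 := by
    have h4 : (((2 * (H : ℤ) / x ^ 2).toNat : ℤ)) = 2 * (H : ℤ) / x ^ 2 := Int.toNat_of_nonneg (Int.ediv_nonneg (by positivity) hxx.le)
    have h5 : (2 * (H : ℤ) / x ^ 2) * x ^ 2 ≤ 2 * H := Int.ediv_mul_le _ hxx.ne'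
    rw [← h4] at h5
    have h6 : (((2 * (H : ℤ) / x ^ 2).toNat : ℕ) : ℝ) * (x : ℝ) ^ 2 ≤ 2 * H := by exact_mod_cast h5
    rw [le_div_iff₀ (by positivity)]
    exact h6
  unfold An
  rw [← hT]
  have h4 : (T.card : ℝ) ≤ (((2 * (H : ℤ) / x ^ 2).toNat : ℕ) + 1 : ℝ) *
      (((qs (H + e) x.natAbs y.natAbs).card : ℝ) * ((2 * (H : ℝ) + 1) * (2 * (H : ℝ) + 1))) := by
    exact_mod_cast h1.trans (Nat.mul_le_mul_left _ h2)
  refine h4.trans ?_
  calc (((2 * (H : ℤ) / x ^ 2).toNat : ℕ) + 1 : ℝ) * (((qs (H + e) x.natAbs y.natAbs).card : ℝ) * ((2 * (H : ℝ) + 1) * (2 * (H : ℝ) + 1)))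
      ≤ (2 * (H : ℝ) / (x : ℝ) ^ 2 + 1) * (((qs (H + e) x.natAbs y.natAbs).card : ℝ) * ((2 * (H : ℝ) + 1) * (2 * (H : ℝ) + 1))) := by
        refine mul_le_mul_of_nonneg_right ?_ (by positivity)
        linarith
    _ = _ := by ring

theorem lo_pt (H e : ℕ) (x y N : ℤ) (hx : x ≠ 0) (hxy : |y| ≤ |x|) (heH : e ≤ H)
    (he : (H : ℤ) + 2 * H * |x| + |N| ≤ e * x ^ 2) :
    (2 * (H : ℝ) / (x : ℝ) ^ 2 - 1) * (2 * (H : ℝ) + 1) ^ 2 * ((qs (H - e) x.natAbs y.natAbs).card : ℝ) ≤ (An 2 H x y N : ℝ) := by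
  classical
  obtain ⟨s, hs, hsxy⟩ := sgn_ex x y
  have hss : s * s = 1 := by rcases hs with rfl | rfl <;> norm_num
  have hxx : 0 < x ^ 2 := by positivity
  have hx2 : (x.natAbs : ℤ) ^ 2 = x ^ 2 := Int.natAbs_sq x
  have hy2 : (y.natAbs : ℤ) ^ 2 = y ^ 2 := Int.natAbs_sq y
  obtain ⟨K, hK⟩ : ∃ K : ℕ, K = ((2 * (H : ℤ) + 1) / x ^ 2).toNat := ⟨_, rfl⟩
  have hKz : (K : ℤ) = (2 * (H : ℤ) + 1) / x ^ 2 := by
    rw [hK]
    exact Int.toNat_of_nonneg (Int.ediv_nonneg (by positivity) hxx.le)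
  obtain ⟨w, hw⟩ : ∃ w : ((ℤ × ℤ) × (ℤ × ℤ)) × ℕ → ℤ, w = fun q =>
    q.1.1.1 * s * (x * y) + q.1.1.2 * y ^ 2 + q.1.2.1 * x + q.1.2.2 * y - N := ⟨_, rfl⟩
  obtain ⟨a, ha⟩ : ∃ a : ((ℤ × ℤ) × (ℤ × ℤ)) × ℕ → ℤ, a = fun q => -((w q + H) / x ^ 2) + q.2 := ⟨_, rfl⟩
  obtain ⟨f, hf⟩ : ∃ f : ((ℤ × ℤ) × (ℤ × ℤ)) × ℕ → (Ix 2 → ℤ), f = fun q => vc 2 (fun i j =>
      if j = 2 then q.1.1.2 else if j = 1 then (if i = 1 then q.1.1.1 * s else q.1.2.2) else
      if i = 2 then a q else if i = 1 then q.1.2.1 else -(w q + a q * x ^ 2)) := ⟨_, rfl⟩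
  obtain ⟨D, hD⟩ : ∃ D : Finset (((ℤ × ℤ) × (ℤ × ℤ)) × ℕ),
    D = ((qs (H - e) x.natAbs y.natAbs) ×ˢ ((Icc (-(H : ℤ)) H) ×ˢ (Icc (-(H : ℤ)) H))) ×ˢ range K := ⟨_, rfl⟩
  have hmap : ∀ q ∈ D, f q ∈ (box 2 H).filter fun c => ev 2 (co c) x y = N := by
    intro q hq
    rw [hD] at hq
    unfold qs at hq
    simp only [Finset.mem_product, Finset.mem_Icc, Finset.mem_filter, Finset.mem_range] at hq
    obtain ⟨⟨⟨⟨⟨hb1, hb2⟩, hc1, hc2⟩, hq1⟩, ⟨hd1, hd2⟩, he1, he2⟩, hk⟩ := hq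
    have hcast : ((H - e : ℕ) : ℤ) = (H : ℤ) - e := by omega
    rw [hcast] at hb1 hb2 hc1 hc2 hq1
    have he0 : (0 : ℤ) ≤ e := by positivity
    have k1 : |q.1.2.1 * x| ≤ H * |x| := by
      rw [abs_mul]
      exact mul_le_mul_of_nonneg_right (abs_le.2 ⟨hd1, hd2⟩) (abs_nonneg _)
    have k2 : |q.1.2.2 * y| ≤ H * |x| := by
      rw [abs_mul]
      exact mul_le_mul (abs_le.2 ⟨he1, he2⟩) hxy (abs_nonneg _) (by positivity)
    have k3 : |w q| + H ≤ H * x ^ 2 := by
      rw [hx2, hy2] at hq1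
      have e1 : q.1.1.1 * ((x.natAbs : ℤ) * (y.natAbs : ℤ)) + q.1.1.2 * y ^ 2 = q.1.1.1 * s * (x * y) + q.1.1.2 * y ^ 2 := by
        rw [hsxy]
        linear_combination (- q.1.1.1 * ((x.natAbs : ℤ) * (y.natAbs : ℤ))) * hss
      rw [e1] at hq1
      have k5 := abs_le.1 k1
      have k6 := abs_le.1 k2
      have k7 := abs_le.1 hq1
      have k9 := neg_abs_le N
      have k10 := le_abs_self N
      have k11 : |w q| ≤ H * x ^ 2 - H := by
        rw [hw, abs_le]
        simp only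
        constructor <;> nlinarith
      linarith
    have k4 := abs_le.1 (show |w q| ≤ |w q| from le_refl _)
    have d1 := Int.emod_add_mul_ediv (w q + H) (x ^ 2)
    have d2 := Int.emod_nonneg (w q + H) hxx.ne'
    have d3 := Int.emod_lt_of_pos (w q + H) hxx
    have hk1 : (q.2 : ℤ) + 1 ≤ (2 * (H : ℤ) + 1) / x ^ 2 := by rw [← hKz]; exact_mod_cast hk
    have hk2 : ((q.2 : ℤ) + 1) * x ^ 2 ≤ 2 * H + 1 := (Int.le_ediv_iff_mul_le hxx).1 hk1
    have hk0 : (0 : ℤ) ≤ (q.2 : ℤ) := by positivity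
    have hfv : |w q + a q * x ^ 2| ≤ H := by
      have e1 : w q + a q * x ^ 2 = (w q + H) % x ^ 2 - H + (q.2 : ℤ) * x ^ 2 := by
        rw [ha]
        simp only
        linear_combination -d1
      rw [e1, abs_le]
      constructor
      · nlinarith
      · nlinarith
    have hav : |a q| ≤ H := by
      have e1 := abs_le.1 hfv
      have e2 : |a q| * x ^ 2 ≤ H * x ^ 2 := by
        have e3 : |a q| * x ^ 2 = |a q * x ^ 2| := by rw [abs_mul, abs_of_pos hxx]
        rw [e3]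
        have e4 : a q * x ^ 2 = (w q + a q * x ^ 2) - w q := by ring
        rw [e4]
        refine (abs_sub _ _).trans ?_
        linarith
      exact le_of_mul_le_mul_right e2 hxx
    rw [Finset.mem_filter, mem_box]
    refine ⟨?_, ?_⟩
    · intro p
      rw [hf]
      obtain ⟨⟨i, j⟩, hij⟩ := p
      simp only at hij
      simp only [vc]
      split_ifs with h1 h2 h3 h4 h5
      · rw [abs_le]; constructor <;> linarith
      · rw [abs_mul]
        have h6 : |s| = 1 := by rcases hs with rfl | rfl <;> norm_num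
        rw [h6, mul_one, abs_le]
        constructor <;> linarith
      · exact abs_le.2 ⟨he1, he2⟩
      · exact hav
      · exact abs_le.2 ⟨hd1, hd2⟩
      · rw [abs_neg]
        exact hfv
    · rw [hf]
      simp only
      rw [ev_vc, ev_two]
      norm_num
      rw [hw]
      simp only
      ring
  have hinj : Set.InjOn f D := by
    intro q _ q' _ hqq
    have h1 : co (f q) 0 2 = co (f q') 0 2 := by rw [hqq]
    have h2 : co (f q) 1 1 = co (f q') 1 1 := by rw [hqq]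
    have h3 : co (f q) 0 1 = co (f q') 0 1 := by rw [hqq]
    have h4 : co (f q) 2 0 = co (f q') 2 0 := by rw [hqq]
    have h5 : co (f q) 1 0 = co (f q') 1 0 := by rw [hqq]
    rw [hf] at h1 h2 h3 h4 h5
    simp only at h1 h2 h3 h4 h5
    rw [co_vc 2 _ (by norm_num), co_vc 2 _ (by norm_num)] at h1 h2 h3 h4 h5
    simp only [if_true, if_false, reduceIte, OfNat.ofNat_ne_zero, one_ne_zero, zero_ne_one, Nat.reduceEqDiff, OfNat.zero_ne_ofNat, OfNat.ofNat_ne_one, OfNat.one_ne_ofNat] at h1 h2 h3 h4 h5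
    have h2' : q.1.1.1 = q'.1.1.1 := by
      have h7 : q.1.1.1 * s * s = q'.1.1.1 * s * s := by rw [h2]
      rw [mul_assoc, mul_assoc, hss, mul_one, mul_one] at h7
      exact h7
    have e1 : w q = w q' := by
      rw [hw]
      simp only
      rw [h1, h2', h3, h5]
    have e2 : (q.2 : ℤ) = q'.2 := by
      rw [ha] at h4
      simp only at h4
      rw [e1] at h4
      linarith
    exact Prod.ext (Prod.ext (Prod.ext h2' h1) (Prod.ext h5 h3)) (by exact_mod_cast e2)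
  have hcard := Finset.card_le_card_of_injOn f hmap hinj
  rw [hD] at hcard
  simp only [Finset.card_product, Int.card_Icc, Finset.card_range] at hcard
  have e2 : ((H : ℤ) + 1 - -(H : ℤ)).toNat = 2 * H + 1 := by omega
  rw [e2] at hcard
  have h3 : 2 * (H : ℝ) / (x : ℝ) ^ 2 - 1 ≤ (K : ℝ) := by
    have h5 : 2 * (H : ℤ) + 1 < ((2 * (H : ℤ) + 1) / x ^ 2 + 1) * x ^ 2 := Int.lt_ediv_add_one_mul_self _ hxx
    rw [← hKz] at h5
    have h6 : 2 * (H : ℝ) + 1 < ((K : ℝ) + 1) * (x : ℝ) ^ 2 := by exact_mod_cast h5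
    have h7 : 2 * (H : ℝ) / (x : ℝ) ^ 2 ≤ (K : ℝ) + 1 := by
      rw [div_le_iff₀ (by positivity)]
      linarith
    linarith
  unfold An
  have h4 : (((qs (H - e) x.natAbs y.natAbs).card : ℝ) * ((2 * (H : ℝ) + 1) * (2 * (H : ℝ) + 1))) * (K : ℝ) ≤
      (((box 2 H).filter fun c => ev 2 (co c) x y = N).card : ℝ) := by
    exact_mod_cast hcard
  refine le_trans ?_ h4
  calc (2 * (H : ℝ) / (x : ℝ) ^ 2 - 1) * (2 * (H : ℝ) + 1) ^ 2 * ((qs (H - e) x.natAbs y.natAbs).card : ℝ)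
      ≤ (K : ℝ) * (2 * (H : ℝ) + 1) ^ 2 * ((qs (H - e) x.natAbs y.natAbs).card : ℝ) := by
        refine mul_le_mul_of_nonneg_right (mul_le_mul_of_nonneg_right h3 (by positivity)) (by positivity)
    _ = _ := by ring

open Classical in
/-- Bonferroni with weights -/
theorem bonf2 {α β : Type*} [DecidableEq α] [DecidableEq β] (W : Finset α) (T : Finset β) (z : α → β → Prop) (r : β → β → ℝ)
    (hr : ∀ P ∈ T, ∀ Q ∈ T, P ≠ Q → ((W.filter fun a => z a P ∧ z a Q).card : ℝ) ≤ r P Q) :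
    ∑ P ∈ T, ((W.filter fun a => z a P).card : ℝ) ≤
      ((W.filter fun a => ∃ P ∈ T, z a P).card : ℝ) + ∑ P ∈ T, ∑ Q ∈ T.erase P, r P Q := by
  have h1 : ∑ P ∈ T, ∑ Q ∈ T.erase P, ((W.filter fun a => z a P ∧ z a Q).card : ℝ) ≤ ∑ P ∈ T, ∑ Q ∈ T.erase P, r P Q := by
    refine sum_le_sum fun P hP => sum_le_sum fun Q hQ => ?_
    rw [mem_erase] at hQ
    exact hr P hP Q hQ.2 hQ.1.symm
  have h2 : ∑ P ∈ T, ((W.filter fun a => z a P).card : ℝ) = ∑ a ∈ W, ((T.filter fun P => z a P).card : ℝ) := by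
    have e1 : ∀ P, ((W.filter fun a => z a P).card : ℝ) = ∑ a ∈ W, (if z a P then (1 : ℝ) else 0) := by
      intro P
      rw [card_filter]
      push_cast
      rfl
    have e2 : ∀ a, ((T.filter fun P => z a P).card : ℝ) = ∑ P ∈ T, (if z a P then (1 : ℝ) else 0) := by
      intro a
      rw [card_filter]
      push_cast
      rfl
    simp only [e1, e2]
    rw [sum_comm]
  have h3 : ∑ P ∈ T, ∑ Q ∈ T.erase P, ((W.filter fun a => z a P ∧ z a Q).card : ℝ) =
      ∑ a ∈ W, ∑ P ∈ T, ∑ Q ∈ T.erase P, (if z a P ∧ z a Q then (1 : ℝ) else 0) := by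
    have e1 : ∀ P Q, ((W.filter fun a => z a P ∧ z a Q).card : ℝ) = ∑ a ∈ W, (if z a P ∧ z a Q then (1 : ℝ) else 0) := by
      intro P Q
      rw [card_filter]
      push_cast
      rfl
    simp only [e1]
    have e2 : ∀ P ∈ T, ∑ Q ∈ T.erase P, ∑ a ∈ W, (if z a P ∧ z a Q then (1 : ℝ) else 0) =
        ∑ a ∈ W, ∑ Q ∈ T.erase P, (if z a P ∧ z a Q then (1 : ℝ) else 0) := fun P _ => sum_comm
    rw [sum_congr rfl e2, sum_comm]
  have h4 : ((W.filter fun a => ∃ P ∈ T, z a P).card : ℝ) = ∑ a ∈ W, (if ∃ P ∈ T, z a P then (1 : ℝ) else 0) := by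
    rw [card_filter]
    push_cast
    rfl
  have h5 : ∀ a ∈ W, ((T.filter fun P => z a P).card : ℝ) ≤ (if ∃ P ∈ T, z a P then (1 : ℝ) else 0) +
      ∑ P ∈ T, ∑ Q ∈ T.erase P, (if z a P ∧ z a Q then (1 : ℝ) else 0) := by
    intro a _
    have hnn : ∀ P Q, (0 : ℝ) ≤ (if z a P ∧ z a Q then (1 : ℝ) else 0) := by
      intro P Q
      split_ifs
      · exact zero_le_one
      · exact le_refl _
    by_cases hex : ∃ P ∈ T, z a P
    · rw [if_pos hex]
      obtain ⟨P0, hP0, hz⟩ := hex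
      have e1 : (T.filter fun P => z a P) ⊆ insert P0 ((T.erase P0).filter fun Q => z a Q) := by
        intro Q hQ
        rw [mem_filter] at hQ
        by_cases hQP : Q = P0
        · rw [hQP]
          exact mem_insert_self _ _
        · refine mem_insert_of_mem ?_
          rw [mem_filter, mem_erase]
          exact ⟨⟨hQP, hQ.1⟩, hQ.2⟩
      have e2 : (T.filter fun P => z a P).card ≤ ((T.erase P0).filter fun Q => z a Q).card + 1 :=
        (card_le_card e1).trans (card_insert_le _ _)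
      have e3 : (((T.erase P0).filter fun Q => z a Q).card : ℝ) = ∑ Q ∈ T.erase P0, (if z a P0 ∧ z a Q then (1 : ℝ) else 0) := by
        rw [card_filter]
        push_cast
        refine sum_congr rfl fun Q _ => ?_
        by_cases hQ : z a Q
        · rw [if_pos hQ, if_pos ⟨hz, hQ⟩]
        · rw [if_neg hQ, if_neg fun h => hQ h.2]
      have e4 : ∑ Q ∈ T.erase P0, (if z a P0 ∧ z a Q then (1 : ℝ) else 0) ≤
          ∑ P ∈ T, ∑ Q ∈ T.erase P, (if z a P ∧ z a Q then (1 : ℝ) else 0) :=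
        single_le_sum (f := fun P => ∑ Q ∈ T.erase P, (if z a P ∧ z a Q then (1 : ℝ) else 0)) (fun P _ => sum_nonneg fun Q _ => hnn P Q) hP0
      have e5 : ((T.filter fun P => z a P).card : ℝ) ≤ (((T.erase P0).filter fun Q => z a Q).card : ℝ) + 1 := by exact_mod_cast e2
      linarith
    · have e1 : (T.filter fun P => z a P) = ∅ := by
        rw [filter_eq_empty_iff]
        intro P hP hz
        exact hex ⟨P, hP, hz⟩
      rw [e1, card_empty, Nat.cast_zero, if_neg hex, zero_add]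
      exact sum_nonneg fun P _ => sum_nonneg fun Q _ => hnn P Q
  have h6 := sum_le_sum h5
  rw [sum_add_distrib, ← h4, ← h3, ← h2] at h6
  linarith

end Pool.Agent.H82.TO
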