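import Pool.Agent.H82.TO.As4

/-! # [H82 TO AS5] `j = 2`: the number of lower parts with an integer point is asymptotic to `c H^5 log H / (n-2)`, `c` absolute -/

namespace Pool.Agent.H82.TO

open Finset MvPolynomial Pool.Agent.H8.AA Pool.Agent.H88.A2 Pool.Agent.H82.A3 Pool.Agent.H88.TS

theorem asy2 (n : ℕ) (G : MvPolynomial (Fin 2) ℤ) (h : Hyp0 n 2 G) :
    Filter.Tendsto (fun H : ℕ => (cnt 2 G H : ℝ) / ((H : ℝ) ^ 5 * Real.log H)) Filter.atTop (nhds (128 * Jc / ((n - 2 : ℕ) : ℝ))) := by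
  rw [Metric.tendsto_atTop]
  intro δ hδ
  have hn := h.hn
  have hJ1 := Jc_ge
  have hJ2 := Jc_le
  have hnr : (2 : ℝ) ≤ ((n - 2 : ℕ) : ℝ) := by exact_mod_cast (by omega : 2 ≤ n - 2)
  have hnr0 : (0 : ℝ) < ((n - 2 : ℕ) : ℝ) := by linarith
  obtain ⟨ε, hε⟩ : ∃ ε : ℝ, ε = min (1 / 2) (δ / 1792) := ⟨_, rfl⟩
  have hε0 : 0 < ε := by rw [hε]; positivity
  have hε1 : ε ≤ 1 / 2 := by rw [hε]; exact min_le_left _ _
  have hε2 : 896 * ε ≤ δ / 2 := by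
    have : ε ≤ δ / 1792 := by rw [hε]; exact min_le_right _ _
    linarith
  obtain ⟨C, hC, hb⟩ := two2 n G h ε hε0 hε1
  have hlim : Filter.Tendsto (fun H : ℕ => Real.log (H : ℝ)) Filter.atTop Filter.atTop :=
    Real.tendsto_log_atTop.comp tendsto_natCast_atTop_atTop
  have hev := hlim.eventually (Filter.eventually_ge_atTop (4 * C / δ + 1))
  obtain ⟨H1, hH1⟩ := Filter.eventually_atTop.1 hev
  refine ⟨H1 + 1, fun H hH => ?_⟩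
  have hH' : (1 : ℝ) ≤ (H : ℝ) := by exact_mod_cast (by omega : 1 ≤ H)
  have hH0 : (0 : ℝ) < (H : ℝ) := by linarith
  obtain ⟨S, hS⟩ : ∃ S : ℝ, S = (H : ℝ) ^ (1 / ((n - 2 : ℕ) : ℝ)) := ⟨_, rfl⟩
  have hS1 : 1 ≤ S := by rw [hS]; exact Real.one_le_rpow hH' (by positivity)
  have hSH : S ^ (n - 2) = H := by
    rw [hS, ← Real.rpow_natCast, ← Real.rpow_mul hH0.le, one_div, inv_mul_cancel₀ hnr0.ne', Real.rpow_one]
  obtain ⟨h1, h2⟩ := hb H S (by omega) hS1 hSH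
  have hlogS : Real.log S = Real.log H / ((n - 2 : ℕ) : ℝ) := by
    rw [hS, Real.log_rpow hH0]
    ring
  have hL := hH1 H (by omega)
  have hL1 : 1 ≤ Real.log H := by
    have : 0 ≤ 4 * C / δ := by positivity
    linarith
  have hL0 : 0 < Real.log H := by linarith
  obtain ⟨L, hLd⟩ : ∃ L : ℝ, L = Real.log H := ⟨_, rfl⟩
  rw [← hLd] at hL hL1 hL0 hlogS ⊢
  rw [hlogS] at h1 h2
  obtain ⟨M, hM⟩ : ∃ M : ℝ, M = 128 * Jc / ((n - 2 : ℕ) : ℝ) := ⟨_, rfl⟩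
  have hM0 : 0 ≤ M := by rw [hM]; positivity
  have hM1 : M ≤ 128 := by
    rw [hM, div_le_iff₀ hnr0]
    nlinarith
  rw [← hM]
  have hD : 0 < (H : ℝ) ^ 5 * L := by positivity
  have e1 : 128 * Jc * (1 + ε) ^ 3 * (H : ℝ) ^ 5 * (L / ((n - 2 : ℕ) : ℝ)) = M * (1 + ε) ^ 3 * ((H : ℝ) ^ 5 * L) := by
    rw [hM]
    field_simp
  have e2 : 128 * Jc * (1 - ε) ^ 3 * (H : ℝ) ^ 5 * (L / ((n - 2 : ℕ) : ℝ)) = M * (1 - ε) ^ 3 * ((H : ℝ) ^ 5 * L) := by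
    rw [hM]
    field_simp
  rw [e1] at h1
  rw [e2] at h2
  have hCL : C ≤ δ / 4 * L := by
    have h3 : 4 * C / δ ≤ L := by linarith
    rw [div_le_iff₀ hδ] at h3
    linarith
  have hCL' : C * (H : ℝ) ^ 5 ≤ δ / 4 * ((H : ℝ) ^ 5 * L) := by
    have : 0 ≤ (H : ℝ) ^ 5 := by positivity
    nlinarith
  have p1 : M * (1 + ε) ^ 3 ≤ M + δ / 2 := by
    have k1 : (1 + ε) ^ 3 ≤ 1 + 7 * ε := by nlinarith [sq_nonneg ε]
    have k2 : M * (1 + ε) ^ 3 ≤ M * (1 + 7 * ε) := mul_le_mul_of_nonneg_left k1 hM0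
    nlinarith
  have p2 : M - δ / 2 ≤ M * (1 - ε) ^ 3 := by
    have k1 : 1 - 3 * ε ≤ (1 - ε) ^ 3 := by nlinarith [sq_nonneg ε, mul_nonneg (sq_nonneg ε) (by linarith : 0 ≤ 3 - ε)]
    have k2 : M * (1 - 3 * ε) ≤ M * (1 - ε) ^ 3 := mul_le_mul_of_nonneg_left k1 hM0
    nlinarith
  rw [Real.dist_eq, abs_lt]
  constructor
  · have k1 : (M - δ) * ((H : ℝ) ^ 5 * L) < (cnt 2 G H : ℝ) := by
      have k2 : (M - δ / 2) * ((H : ℝ) ^ 5 * L) ≤ M * (1 - ε) ^ 3 * ((H : ℝ) ^ 5 * L) := mul_le_mul_of_nonneg_right p2 hD.le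
      have k3 : 0 < δ / 4 * ((H : ℝ) ^ 5 * L) := by positivity
      linarith
    have k2 : M - δ < (cnt 2 G H : ℝ) / ((H : ℝ) ^ 5 * L) := by
      rw [lt_div_iff₀ hD]
      exact k1
    linarith
  · have k1 : (cnt 2 G H : ℝ) < (M + δ) * ((H : ℝ) ^ 5 * L) := by
      have k2 : M * (1 + ε) ^ 3 * ((H : ℝ) ^ 5 * L) ≤ (M + δ / 2) * ((H : ℝ) ^ 5 * L) := mul_le_mul_of_nonneg_right p1 hD.le
      have k3 : 0 < δ / 4 * ((H : ℝ) ^ 5 * L) := by positivity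
      linarith
    have k2 : (cnt 2 G H : ℝ) / ((H : ℝ) ^ 5 * L) < M + δ := by
      rw [div_lt_iff₀ hD]
      exact k1
    linarith

end Pool.Agent.H82.TO
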