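import Pool.Agent.H82.TO.As5

/-! # [H82 TO AS6] The number of vectors with a given value at a point, `j = 1`, two-sided -/

namespace Pool.Agent.H82.TO

open Finset Pool.Agent.H8.AA Pool.Agent.H88.A2 Pool.Agent.H82.A3

/-- the number of the second coefficients -/
noncomputable def bc (H : ℕ) (y N K : ℤ) : ℕ := ((Icc (-(H : ℤ)) H).filter fun b => |b * y - N| ≤ K).card

theorem bc_card (H : ℕ) (y N K : ℤ) (hy : y ≠ 0) :
    |(bc H y N K : ℝ) - max 0 (min (H : ℝ) (((K : ℝ) + N) / |(y : ℝ)|) + min (H : ℝ) (((K : ℝ) - N) / |(y : ℝ)|))| ≤ 1 := by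
  have key : ∀ y N : ℤ, 0 < y → (bc H y N K : ℝ) = (((⌊min (H : ℝ) (((K : ℝ) + N) / (y : ℝ))⌋ + ⌊min (H : ℝ) (((K : ℝ) - N) / (y : ℝ))⌋ + 1).toNat : ℕ) : ℝ) := by
    intro y N hy
    have hy0 : (0 : ℝ) < y := by exact_mod_cast hy
    have hset : ((Icc (-(H : ℤ)) H).filter fun b => |b * y - N| ≤ K) =
        Icc (-⌊min (H : ℝ) (((K : ℝ) - N) / (y : ℝ))⌋) ⌊min (H : ℝ) (((K : ℝ) + N) / (y : ℝ))⌋ := by
      ext b
      rw [mem_filter, mem_Icc, mem_Icc, abs_le]
      have e1 : b ≤ ⌊min (H : ℝ) (((K : ℝ) + N) / (y : ℝ))⌋ ↔ b ≤ (H : ℤ) ∧ b * y ≤ K + N := by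
        rw [Int.le_floor, le_min_iff, le_div_iff₀ hy0]
        constructor
        · intro h
          exact ⟨by exact_mod_cast h.1, by exact_mod_cast h.2⟩
        · intro h
          exact ⟨by exact_mod_cast h.1, by exact_mod_cast h.2⟩
      have e2 : -⌊min (H : ℝ) (((K : ℝ) - N) / (y : ℝ))⌋ ≤ b ↔ -b ≤ (H : ℤ) ∧ -b * y ≤ K - N := by
        rw [neg_le, Int.le_floor, le_min_iff, le_div_iff₀ hy0]
        constructor
        · intro h
          exact ⟨by exact_mod_cast h.1, by exact_mod_cast h.2⟩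
        · intro h
          exact ⟨by exact_mod_cast h.1, by exact_mod_cast h.2⟩
      rw [e1, e2]
      constructor
      · rintro ⟨⟨h1, h2⟩, h3, h4⟩
        exact ⟨⟨by linarith, by linarith⟩, h2, by linarith⟩
      · rintro ⟨⟨h1, h2⟩, h3, h4⟩
        exact ⟨⟨by linarith, h3⟩, by linarith, by linarith⟩
    unfold bc
    rw [hset, Int.card_Icc]
    congr 2
    ring
  have fin : ∀ a b : ℝ, |(((⌊a⌋ + ⌊b⌋ + 1).toNat : ℕ) : ℝ) - max 0 (a + b)| ≤ 1 := by
    intro a b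
    have g1 := Int.floor_le a
    have g2 := Int.lt_floor_add_one a
    have g3 := Int.floor_le b
    have g4 := Int.lt_floor_add_one b
    rcases le_or_gt 0 (a + b) with h | h
    · rw [max_eq_right h]
      have h1 : 0 ≤ ⌊a⌋ + ⌊b⌋ + 1 := by
        by_contra hcon
        push Not at hcon
        have h2 : ⌊a⌋ + ⌊b⌋ + 1 ≤ -1 := by omega
        have h3 : ((⌊a⌋ : ℤ) : ℝ) + ⌊b⌋ + 1 ≤ -1 := by exact_mod_cast h2
        linarith
      have h2 : (((⌊a⌋ + ⌊b⌋ + 1).toNat : ℕ) : ℝ) = (⌊a⌋ : ℝ) + ⌊b⌋ + 1 := by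
        have h3 : (((⌊a⌋ + ⌊b⌋ + 1).toNat : ℤ)) = ⌊a⌋ + ⌊b⌋ + 1 := Int.toNat_of_nonneg h1
        have h4 : (((⌊a⌋ + ⌊b⌋ + 1).toNat : ℕ) : ℝ) = (((⌊a⌋ + ⌊b⌋ + 1).toNat : ℤ) : ℝ) := by norm_cast
        rw [h4, h3]
        push_cast
        ring
      rw [h2, abs_le]
      constructor <;> linarith
    · rw [max_eq_left h.le]
      have h1 : ⌊a⌋ + ⌊b⌋ + 1 ≤ 0 := by
        by_contra hcon
        push Not at hcon
        have h2 : 1 ≤ ⌊a⌋ + ⌊b⌋ + 1 := by omega
        have h3 : (1 : ℝ) ≤ ((⌊a⌋ : ℤ) : ℝ) + ⌊b⌋ + 1 := by exact_mod_cast h2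
        linarith
      rw [Int.toNat_of_nonpos h1]
      norm_num
  rcases lt_or_gt_of_ne hy with hneg | hpos
  · have h1 : bc H y N K = bc H (-y) (-N) K := by
      unfold bc
      congr 1
      ext b
      rw [mem_filter, mem_filter]
      have e : b * -y - -N = -(b * y - N) := by ring
      rw [e, abs_neg]
    have h2 : |(y : ℝ)| = ((-y : ℤ) : ℝ) := by
      push_cast
      exact abs_of_neg (by exact_mod_cast hneg)
    rw [h1, key (-y) (-N) (by omega), h2]
    have h3 := fin (min (H : ℝ) (((K : ℝ) + ((-N : ℤ) : ℝ)) / ((-y : ℤ) : ℝ))) (min (H : ℝ) (((K : ℝ) - ((-N : ℤ) : ℝ)) / ((-y : ℤ) : ℝ)))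
    have e1 : (K : ℝ) + ((-N : ℤ) : ℝ) = K - N := by push_cast; ring
    have e2 : (K : ℝ) - ((-N : ℤ) : ℝ) = K + N := by push_cast; ring
    rw [e1, e2] at h3
    rw [e1, e2, add_comm (min (H : ℝ) (((K : ℝ) + N) / ((-y : ℤ) : ℝ)))]
    exact h3
  · have h2 : |(y : ℝ)| = (y : ℝ) := abs_of_pos (by exact_mod_cast hpos)
    rw [key y N hpos, h2]
    exact fin _ _

theorem up_pt1 (H : ℕ) (x y N : ℤ) (hx : x ≠ 0) :
    (An 1 H x y N : ℝ) ≤ (2 * (H : ℝ) / |(x : ℝ)| + 1) * (bc H y N (H * (|x| + 1)) : ℝ) := by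
  classical
  have hxx : 0 < |x| := abs_pos.2 hx
  obtain ⟨T, hT⟩ : ∃ T : Finset (Ix 1 → ℤ), T = (box 1 H).filter fun c => ev 1 (co c) x y = N := ⟨_, rfl⟩
  have hmem : ∀ c ∈ T, (∀ a b, a + b ≤ 1 → |co c a b| ≤ (H : ℤ)) ∧ co c 0 0 + co c 1 0 * x + co c 0 1 * y = N := by
    intro c hc
    rw [hT, mem_filter, mem_box] at hc
    refine ⟨fun a b hab => ?_, ?_⟩
    · rw [co_of_le c hab]
      exact hc.1 _
    · have h1 := hc.2
      rw [ev_one] at h1
      exact h1
  have hfib : ∀ a ∈ T.image (fun c => co c 0 1), (T.filter fun c => co c 0 1 = a).card ≤ (2 * (H : ℤ) / |x|).toNat + 1 := by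
    intro a _
    obtain ⟨s, hs⟩ : ∃ s : ℤ, s * x = |x| ∧ s * s = 1 := by
      rcases abs_choice x with h | h
      · exact ⟨1, by rw [h]; ring, by norm_num⟩
      · exact ⟨-1, by rw [h]; ring, by norm_num⟩
    obtain ⟨V, hV⟩ : ∃ V : Finset ℤ, V = (T.filter fun c => co c 0 1 = a).image fun c => s * co c 1 0 := ⟨_, rfl⟩
    have hcV : V.card = (T.filter fun c => co c 0 1 = a).card := by
      rw [hV]
      refine card_image_of_injOn ?_
      intro c hc c' hc' h
      rw [mem_coe, mem_filter] at hc hc'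
      simp only at h
      have h6 : co c 1 0 = co c' 1 0 := by
        have h7 : s * (s * co c 1 0) = s * (s * co c' 1 0) := by rw [h]
        rw [← mul_assoc, ← mul_assoc, hs.2, one_mul, one_mul] at h7
        exact h7
      have h5 : co c 0 1 = co c' 0 1 := hc.2.trans hc'.2.symm
      have h8 := (hmem c hc.1).2
      have h9 := (hmem c' hc'.1).2
      rw [h6, h5] at h8
      have h10 : co c 0 0 = co c' 0 0 := by linarith
      refine ext_co fun a b hab => ?_
      have ha : a ≤ 1 := by omega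
      have hb : b ≤ 1 := by omega
      interval_cases a <;> interval_cases b <;> first | assumption | omega
    rw [← hcV]
    refine diam_card V _ ?_
    intro u hu v hv
    rw [hV, mem_image] at hu hv
    obtain ⟨c, hc, rfl⟩ := hu
    obtain ⟨c', hc', rfl⟩ := hv
    rw [mem_filter] at hc hc'
    have h5 : co c 0 1 = co c' 0 1 := hc.2.trans hc'.2.symm
    have h8 := (hmem c hc.1).2
    have h9 := (hmem c' hc'.1).2
    rw [h5] at h8
    have h10 := abs_le.1 ((hmem c hc.1).1 0 0 (by norm_num))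
    have h11 := abs_le.1 ((hmem c' hc'.1).1 0 0 (by norm_num))
    have h12 : (s * co c 1 0 - s * co c' 1 0) * |x| ≤ 2 * H := by
      rw [← hs.1]
      have e : (s * co c 1 0 - s * co c' 1 0) * (s * x) = (s * s) * (co c 1 0 * x - co c' 1 0 * x) := by ring
      rw [e, hs.2, one_mul]
      linarith
    have h13 : s * co c 1 0 - s * co c' 1 0 ≤ 2 * (H : ℤ) / |x| := (Int.le_ediv_iff_mul_le hxx).2 h12
    rw [Int.toNat_of_nonneg (Int.ediv_nonneg (by positivity) hxx.le)]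
    exact h13
  have h1 := card_le_mul_card_image T ((2 * (H : ℤ) / |x|).toNat + 1) hfib
  have hsub : T.image (fun c => co c 0 1) ⊆ (Icc (-(H : ℤ)) H).filter fun b => |b * y - N| ≤ H * (|x| + 1) := by
    intro a ha
    obtain ⟨c, hc, rfl⟩ := mem_image.1 ha
    obtain ⟨h2, h3⟩ := hmem c hc
    rw [mem_filter]
    refine ⟨mem_Icc.2 (abs_le.1 (h2 0 1 (by norm_num))), ?_⟩
    have e1 : co c 0 1 * y - N = -(co c 0 0 + co c 1 0 * x) := by linarith
    rw [e1, abs_neg]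
    refine (abs_add_le _ _).trans ?_
    have k3 : |co c 1 0 * x| ≤ H * |x| := by
      rw [abs_mul]
      exact mul_le_mul_of_nonneg_right (h2 1 0 (by norm_num)) hxx.le
    have k4 := h2 0 0 (by norm_num)
    linarith
  have h2 := card_le_card hsub
  have h3 : (((2 * (H : ℤ) / |x|).toNat : ℕ) : ℝ) ≤ 2 * (H : ℝ) / |(x : ℝ)| := by
    have h4 : (((2 * (H : ℤ) / |x|).toNat : ℤ)) = 2 * (H : ℤ) / |x| := Int.toNat_of_nonneg (Int.ediv_nonneg (by positivity) hxx.le)
    have h5 : (2 * (H : ℤ) / |x|) * |x| ≤ 2 * H := Int.ediv_mul_le _ hxx.ne'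
    rw [← h4] at h5
    have h6 : (((2 * (H : ℤ) / |x|).toNat : ℕ) : ℝ) * |(x : ℝ)| ≤ 2 * H := by exact_mod_cast h5
    rw [le_div_iff₀ (by exact_mod_cast hxx)]
    exact h6
  unfold An bc
  rw [← hT]
  have h4 : (T.card : ℝ) ≤ (((2 * (H : ℤ) / |x|).toNat : ℕ) + 1 : ℝ) *
      ((((Icc (-(H : ℤ)) H).filter fun b => |b * y - N| ≤ H * (|x| + 1)).card : ℕ) : ℝ) := by
    exact_mod_cast h1.trans (Nat.mul_le_mul_left _ h2)
  refine h4.trans ?_
  refine mul_le_mul_of_nonneg_right ?_ (by positivity)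
  linarith

theorem lo_pt1 (H : ℕ) (x y N : ℤ) (hx : x ≠ 0) :
    (2 * (H : ℝ) / |(x : ℝ)| - 1) * (bc H y N (H * (|x| - 1)) : ℝ) ≤ (An 1 H x y N : ℝ) := by
  classical
  have hxx : 0 < |x| := abs_pos.2 hx
  obtain ⟨s, hs⟩ : ∃ s : ℤ, s * x = |x| ∧ s * s = 1 ∧ |s| = 1 := by
    rcases abs_choice x with h | h
    · exact ⟨1, by rw [h]; ring, by norm_num, by norm_num⟩
    · exact ⟨-1, by rw [h]; ring, by norm_num, by norm_num⟩
  obtain ⟨K, hK⟩ : ∃ K : ℕ, K = ((2 * (H : ℤ) + 1) / |x|).toNat := ⟨_, rfl⟩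
  have hKz : (K : ℤ) = (2 * (H : ℤ) + 1) / |x| := by
    rw [hK]
    exact Int.toNat_of_nonneg (Int.ediv_nonneg (by positivity) hxx.le)
  obtain ⟨w, hw⟩ : ∃ w : ℤ × ℕ → ℤ, w = fun q => q.1 * y - N := ⟨_, rfl⟩
  obtain ⟨a, ha⟩ : ∃ a : ℤ × ℕ → ℤ, a = fun q => -((w q + H) / |x|) + q.2 := ⟨_, rfl⟩
  obtain ⟨f, hf⟩ : ∃ f : ℤ × ℕ → (Ix 1 → ℤ), f = fun q => vc 1 (fun i j =>
      if j = 1 then q.1 else if i = 1 then s * a q else -(w q + a q * |x|)) := ⟨_, rfl⟩
  obtain ⟨D, hD⟩ : ∃ D : Finset (ℤ × ℕ), D = ((Icc (-(H : ℤ)) H).filter fun b => |b * y - N| ≤ H * (|x| - 1)) ×ˢ range K := ⟨_, rfl⟩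
  have hmap : ∀ q ∈ D, f q ∈ (box 1 H).filter fun c => ev 1 (co c) x y = N := by
    intro q hq
    rw [hD] at hq
    simp only [Finset.mem_product, Finset.mem_Icc, Finset.mem_filter, Finset.mem_range] at hq
    obtain ⟨⟨⟨hb1, hb2⟩, hq1⟩, hk⟩ := hq
    have k3 : |w q| + H ≤ H * |x| := by
      rw [hw]
      simp only
      linarith
    have d1 := Int.emod_add_mul_ediv (w q + H) |x|
    have d2 := Int.emod_nonneg (w q + H) hxx.ne'
    have d3 := Int.emod_lt_of_pos (w q + H) hxx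
    have hk1 : (q.2 : ℤ) + 1 ≤ (2 * (H : ℤ) + 1) / |x| := by rw [← hKz]; exact_mod_cast hk
    have hk2 : ((q.2 : ℤ) + 1) * |x| ≤ 2 * H + 1 := (Int.le_ediv_iff_mul_le hxx).1 hk1
    have hk0 : (0 : ℤ) ≤ (q.2 : ℤ) := by positivity
    have hfv : |w q + a q * (|x|)| ≤ H := by
      have e1 : w q + a q * |x| = (w q + H) % |x| - H + (q.2 : ℤ) * |x| := by
        rw [ha]
        simp only
        linear_combination -d1
      rw [e1, abs_le]
      constructor
      · nlinarith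
      · nlinarith
    have hav : |a q| ≤ H := by
      have e2 : |a q| * |x| ≤ H * |x| := by
        have e3 : |a q| * |x| = |a q * (|x|)| := by rw [abs_mul, abs_abs]
        rw [e3]
        have e4 : a q * |x| = (w q + a q * |x|) - w q := by ring
        rw [e4]
        refine (abs_sub _ _).trans ?_
        linarith
      exact le_of_mul_le_mul_right e2 hxx
    rw [Finset.mem_filter, mem_box]
    refine ⟨?_, ?_⟩
    · intro p
      rw [hf]
      obtain ⟨⟨i, j⟩, hij⟩ := p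
      simp only at hij
      simp only [vc]
      split_ifs with h1 h2
      · exact abs_le.2 ⟨hb1, hb2⟩
      · rw [abs_mul, hs.2.2, one_mul]
        exact hav
      · rw [abs_neg]
        exact hfv
    · rw [hf]
      simp only
      rw [ev_vc, ev_one]
      norm_num
      have e1 : w q = q.1 * y - N := by rw [hw]
      have e2 := hs.1
      linear_combination (a q) * e2 - e1
  have hinj : Set.InjOn f D := by
    intro q _ q' _ hqq
    have h1 : co (f q) 0 1 = co (f q') 0 1 := by rw [hqq]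
    have h2 : co (f q) 1 0 = co (f q') 1 0 := by rw [hqq]
    rw [hf] at h1 h2
    simp only at h1 h2
    rw [co_vc 1 _ (by norm_num), co_vc 1 _ (by norm_num)] at h1 h2
    simp only [if_true, if_false, one_ne_zero, zero_ne_one] at h1 h2
    have e1 : w q = w q' := by
      rw [hw]
      simp only
      rw [h1]
    have h3 : a q = a q' := by
      have h7 : s * (s * a q) = s * (s * a q') := by rw [h2]
      rw [← mul_assoc, ← mul_assoc, hs.2.1, one_mul, one_mul] at h7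
      exact h7
    have e2 : (q.2 : ℤ) = q'.2 := by
      rw [ha] at h3
      simp only at h3
      rw [e1] at h3
      linarith
    exact Prod.ext h1 (by exact_mod_cast e2)
  have hcard := Finset.card_le_card_of_injOn f hmap hinj
  rw [hD] at hcard
  rw [Finset.card_product, Finset.card_range] at hcard
  have h3 : 2 * (H : ℝ) / |(x : ℝ)| - 1 ≤ (K : ℝ) := by
    have h5 : 2 * (H : ℤ) + 1 < ((2 * (H : ℤ) + 1) / |x| + 1) * |x| := Int.lt_ediv_add_one_mul_self _ hxx
    rw [← hKz] at h5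
    have h6 : 2 * (H : ℝ) + 1 < ((K : ℝ) + 1) * |(x : ℝ)| := by exact_mod_cast h5
    have h7 : 2 * (H : ℝ) / |(x : ℝ)| ≤ (K : ℝ) + 1 := by
      rw [div_le_iff₀ (by exact_mod_cast hxx)]
      linarith
    linarith
  unfold An bc
  have h4 : ((((Icc (-(H : ℤ)) H).filter fun b => |b * y - N| ≤ H * (|x| - 1)).card : ℕ) : ℝ) * (K : ℝ) ≤
      (((box 1 H).filter fun c => ev 1 (co c) x y = N).card : ℝ) := by
    exact_mod_cast hcard
  refine le_trans ?_ h4
  rw [mul_comm]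
  exact mul_le_mul_of_nonneg_left h3 (by positivity)

end Pool.Agent.H82.TO
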