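import Pool.Agent.H82.TO.As6
import Mathlib.MeasureTheory.Integral.Prod
import Mathlib.MeasureTheory.Integral.DominatedConvergence
import Mathlib.Analysis.SpecialFunctions.Integrals.Basic

/-! # [H82 TO AS7] Sums over lattice points as integrals -/

namespace Pool.Agent.H82.TO

open Finset MeasureTheory

/-- the cell of a point -/
def cel (S : ℝ) (P : ℤ × ℤ) : Set (ℝ × ℝ) := Set.Ico ((P.1 : ℝ) / S) (((P.1 : ℝ) + 1) / S) ×ˢ Set.Ico ((P.2 : ℝ) / S) (((P.2 : ℝ) + 1) / S)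

theorem cel_meas (S : ℝ) (P : ℤ × ℤ) : MeasurableSet (cel S P) := measurableSet_Ico.prod measurableSet_Ico

theorem mem_cel {S : ℝ} (hS : 0 < S) (P : ℤ × ℤ) (z : ℝ × ℝ) : z ∈ cel S P ↔ (⌊S * z.1⌋, ⌊S * z.2⌋) = P := by
  unfold cel
  rw [Set.mem_prod, Set.mem_Ico, Set.mem_Ico, Prod.ext_iff, Int.floor_eq_iff, Int.floor_eq_iff, div_le_iff₀ hS, div_le_iff₀ hS,
    lt_div_iff₀ hS, lt_div_iff₀ hS, mul_comm z.1 S, mul_comm z.2 S]

theorem cel_vol {S : ℝ} (hS : 0 < S) (P : ℤ × ℤ) : volume (cel S P) = ENNReal.ofReal (1 / S ^ 2) := by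
  unfold cel
  rw [Measure.volume_eq_prod, Measure.prod_prod, Real.volume_Ico, Real.volume_Ico, ← ENNReal.ofReal_mul]
  · congr 1
    field_simp
    ring
  · rw [← sub_div]
    refine div_nonneg ?_ hS.le
    linarith

/-- the step function -/
noncomputable def stp (S : ℝ) (B : Finset (ℤ × ℤ)) (F : ℤ × ℤ → ℝ) (z : ℝ × ℝ) : ℝ := ∑ P ∈ B, (cel S P).indicator (fun _ => F P) z

theorem stp_eq {S : ℝ} (hS : 0 < S) (B : Finset (ℤ × ℤ)) (F : ℤ × ℤ → ℝ) (z : ℝ × ℝ) :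
    stp S B F z = if (⌊S * z.1⌋, ⌊S * z.2⌋) ∈ B then F (⌊S * z.1⌋, ⌊S * z.2⌋) else 0 := by
  classical
  unfold stp
  have h1 : ∀ P, (cel S P).indicator (fun _ => F P) z = if P = (⌊S * z.1⌋, ⌊S * z.2⌋) then F P else 0 := by
    intro P
    rw [Set.indicator_apply]
    by_cases h : z ∈ cel S P
    · rw [if_pos h, if_pos ((mem_cel hS P z).1 h).symm]
    · rw [if_neg h, if_neg fun h' => h ((mem_cel hS P z).2 h'.symm)]
  simp only [h1]
  rw [sum_ite_eq' B (⌊S * z.1⌋, ⌊S * z.2⌋) F]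

theorem stp_meas (S : ℝ) (B : Finset (ℤ × ℤ)) (F : ℤ × ℤ → ℝ) : Measurable (stp S B F) := by
  unfold stp
  exact Finset.measurable_sum _ fun P _ => measurable_const.indicator (cel_meas S P)

theorem stp_int {S : ℝ} (hS : 0 < S) (B : Finset (ℤ × ℤ)) (F : ℤ × ℤ → ℝ) : ∫ z, stp S B F z = (∑ P ∈ B, F P) / S ^ 2 := by
  unfold stp
  rw [integral_finset_sum]
  · rw [sum_div]
    refine sum_congr rfl fun P _ => ?_
    rw [integral_indicator_const _ (cel_meas S P), Measure.real, cel_vol hS, ENNReal.toReal_ofReal (by positivity), smul_eq_mul]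
    ring
  · intro P _
    rw [integrable_indicator_iff (cel_meas S P)]
    exact integrableOn_const (by rw [cel_vol hS]; exact ENNReal.ofReal_ne_top)

/-- one-dimensional bound -/
noncomputable def b1 (M u : ℝ) : ℝ := (Set.Ioc 0 M).indicator (fun u => u ^ (-(1 / 2) : ℝ)) u

noncomputable def b2 (M u : ℝ) : ℝ := b1 M u + b1 M (-u)

theorem b1_int (M : ℝ) (hM : 0 ≤ M) : Integrable (b1 M) := by
  unfold b1
  change Integrable ((Set.Ioc 0 M).indicator (fun u : ℝ => u ^ (-(1 / 2) : ℝ)))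
  rw [integrable_indicator_iff measurableSet_Ioc]
  have h := intervalIntegral.intervalIntegrable_rpow' (a := 0) (b := M) (r := -(1 / 2)) (by norm_num)
  rwa [intervalIntegrable_iff_integrableOn_Ioc_of_le hM] at h

theorem b2_int (M : ℝ) (hM : 0 ≤ M) : Integrable (b2 M) := by
  have h := b1_int M hM
  exact h.add h.comp_neg

theorem b2_eq (M u : ℝ) (hu : u ≠ 0) (hM : |u| ≤ M) : b2 M u = |u| ^ (-(1 / 2) : ℝ) := by
  unfold b2 b1
  rcases lt_or_gt_of_ne hu with h | h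
  · rw [Set.indicator_of_notMem, Set.indicator_of_mem, zero_add, abs_of_neg h]
    · rw [abs_of_neg h] at hM
      exact ⟨by linarith, hM⟩
    · intro hh
      linarith [hh.1]
  · rw [Set.indicator_of_mem, Set.indicator_of_notMem, add_zero, abs_of_pos h]
    · intro hh
      linarith [hh.1]
    · rw [abs_of_pos h] at hM
      exact ⟨h, hM⟩

theorem b2_nonneg (M u : ℝ) : 0 ≤ b2 M u := by
  have h : ∀ v, 0 ≤ b1 M v := by
    intro v
    unfold b1
    refine Set.indicator_nonneg (fun w hw => ?_) v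
    exact Real.rpow_nonneg hw.1.le _
  exact add_nonneg (h _) (h _)

theorem inv_max_le (a b : ℝ) (ha : 0 < a) (hb : 0 < b) : 1 / max a b ≤ a ^ (-(1 / 2) : ℝ) * b ^ (-(1 / 2) : ℝ) := by
  rw [Real.rpow_neg ha.le, Real.rpow_neg hb.le, ← Real.sqrt_eq_rpow, ← Real.sqrt_eq_rpow, ← mul_inv, one_div]
  have h1 : √a * √b ≤ max a b := by
    have h2 : √a ≤ √(max a b) := Real.sqrt_le_sqrt (le_max_left _ _)
    have h3 : √b ≤ √(max a b) := Real.sqrt_le_sqrt (le_max_right _ _)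
    calc √a * √b ≤ √(max a b) * √(max a b) := mul_le_mul h2 h3 (by positivity) (by positivity)
      _ = max a b := Real.mul_self_sqrt (le_max_of_le_left ha.le)
  have h4 : 0 < √a * √b := by positivity
  exact inv_anti₀ h4 h1

theorem b22_int (M C : ℝ) (hM : 0 ≤ M) : Integrable (fun z : ℝ × ℝ => C * (b2 M z.1 * b2 M z.2)) := by
  have h := (b2_int M hM).mul_prod (b2_int M hM)
  exact h.const_mul C

theorem ae_ne1 (a : ℝ) : ∀ᵐ z : ℝ × ℝ, z.1 ≠ a := by
  have h : ∀ᵐ x : ℝ, x ≠ a := compl_mem_ae_iff.2 (measure_singleton a)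
  exact Measure.quasiMeasurePreserving_fst.ae h

theorem ae_ne2 (a : ℝ) : ∀ᵐ z : ℝ × ℝ, z.2 ≠ a := by
  have h : ∀ᵐ x : ℝ, x ≠ a := compl_mem_ae_iff.2 (measure_singleton a)
  exact Measure.quasiMeasurePreserving_snd.ae h

end Pool.Agent.H82.TO
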