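import Pool.Agent.H82.TO.As7

/-! # [H82 TO AS8] Pointwise limit of the number of vectors at a point, `j = 1` -/

namespace Pool.Agent.H82.TO

open Finset MvPolynomial Filter Topology Pool.Agent.H8.AA Pool.Agent.H88.A2 Pool.Agent.H82.A3 Pool.Agent.H88.TS

/-- value of the leading form at a real point -/
noncomputable def lf (n : ℕ) (F : MvPolynomial (Fin 2) ℤ) (z : ℝ × ℝ) : ℝ :=
  ∑ i ∈ range (n + 1), (ar F (n - i) i : ℝ) * (z.1 ^ (n - i) * z.2 ^ i)

/-- the density -/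
noncomputable def dens (n : ℕ) (F : MvPolynomial (Fin 2) ℤ) (z : ℝ × ℝ) : ℝ :=
  2 / |z.1| * max 0 (min 1 ((|z.1| - lf n F z) / |z.2|) + min 1 ((|z.1| + lf n F z) / |z.2|))

theorem floor_lim {s : ℕ → ℝ} (hs : Tendsto s atTop atTop) (ξ : ℝ) : Tendsto (fun k => ((⌊s k * ξ⌋ : ℤ) : ℝ) / s k) atTop (𝓝 ξ) := by
  have h1 : Tendsto (fun k => ξ - 1 / s k) atTop (𝓝 ξ) := by
    have h2 : Tendsto (fun k => 1 / s k) atTop (𝓝 0) := by
      simp only [one_div]
      exact hs.inv_tendsto_atTop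
    simpa using (tendsto_const_nhds (x := ξ)).sub h2
  have hpos : ∀ᶠ k in atTop, 0 < s k := hs.eventually_gt_atTop 0
  refine tendsto_of_tendsto_of_tendsto_of_le_of_le' h1 tendsto_const_nhds ?_ ?_
  · filter_upwards [hpos] with k hk
    rw [le_div_iff₀ hk]
    have := Int.lt_floor_add_one (s k * ξ)
    have e : (ξ - 1 / s k) * s k = s k * ξ - 1 := by
      field_simp
    rw [e]
    linarith
  · filter_upwards [hpos] with k hk
    rw [div_le_iff₀ hk]
    have := Int.floor_le (s k * ξ)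
    linarith

theorem ev_lim (n : ℕ) (g : ℕ → ℕ → ℤ) {s : ℕ → ℝ} (hs : Tendsto s atTop atTop) {x y : ℕ → ℤ} {ξ η : ℝ}
    (hx : Tendsto (fun k => (x k : ℝ) / s k) atTop (𝓝 ξ)) (hy : Tendsto (fun k => (y k : ℝ) / s k) atTop (𝓝 η)) :
    Tendsto (fun k => ((ev n g (x k) (y k) : ℤ) : ℝ) / s k ^ n) atTop
      (𝓝 (∑ i ∈ range (n + 1), (g (n - i) i : ℝ) * (ξ ^ (n - i) * η ^ i))) := by
  have hpos : ∀ᶠ k in atTop, 0 < s k := hs.eventually_gt_atTop 0
  have hinv : Tendsto (fun k => (s k)⁻¹) atTop (𝓝 0) := hs.inv_tendsto_atTop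
  have h1 : Tendsto (fun k => ∑ r ∈ range (n + 1), ∑ i ∈ range (r + 1), (g (r - i) i : ℝ) *
      (((x k : ℝ) / s k) ^ (r - i) * ((y k : ℝ) / s k) ^ i) * (s k)⁻¹ ^ (n - r)) atTop
      (𝓝 (∑ r ∈ range (n + 1), ∑ i ∈ range (r + 1), (g (r - i) i : ℝ) * (ξ ^ (r - i) * η ^ i) * (0 : ℝ) ^ (n - r))) := by
    refine tendsto_finsetSum _ fun r _ => tendsto_finsetSum _ fun i _ => ?_
    exact (((hx.pow _).mul (hy.pow _)).const_mul _).mul (hinv.pow _)
  have h2 : ∑ r ∈ range (n + 1), ∑ i ∈ range (r + 1), (g (r - i) i : ℝ) * (ξ ^ (r - i) * η ^ i) * (0 : ℝ) ^ (n - r) =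
      ∑ i ∈ range (n + 1), (g (n - i) i : ℝ) * (ξ ^ (n - i) * η ^ i) := by
    rw [sum_eq_single_of_mem n (mem_range.2 (by omega))]
    · refine sum_congr rfl fun i _ => ?_
      rw [Nat.sub_self, pow_zero, mul_one]
    · intro r hr hrn
      have hr' := mem_range.1 hr
      refine sum_eq_zero fun i _ => ?_
      rw [zero_pow (by omega), mul_zero]
  rw [h2] at h1
  refine h1.congr' ?_
  filter_upwards [hpos] with k hk
  unfold ev
  push_cast
  rw [sum_div]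
  refine sum_congr rfl fun r hr => ?_
  rw [sum_div]
  refine sum_congr rfl fun i hi => ?_
  have hr' := mem_range.1 hr
  have hi' := mem_range.1 hi
  have e : s k ^ n = s k ^ (r - i) * s k ^ i * s k ^ (n - r) := by
    rw [← pow_add, ← pow_add]
    congr 1
    omega
  rw [div_pow, div_pow, inv_pow, e]
  field_simp

/-- the limit at a point -/
theorem pt_lim (n : ℕ) (hn : 4 ≤ n) (G : MvPolynomial (Fin 2) ℤ) (hG : G.totalDegree ≤ n) {s : ℕ → ℝ} (hs : Tendsto s atTop atTop)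
    (hsH : ∀ H : ℕ, 1 ≤ H → s H ^ (n - 1) = H) (z : ℝ × ℝ) (h1 : z.1 ≠ 0) (h2 : z.2 ≠ 0) :
    Tendsto (fun H : ℕ => (An 1 H ⌊s H * z.1⌋ ⌊s H * z.2⌋ (- eval ![⌊s H * z.1⌋, ⌊s H * z.2⌋] G) : ℝ) * (s H / (H : ℝ) ^ 2)) atTop
      (𝓝 (dens n G z)) := by
  obtain ⟨x, hx⟩ : ∃ x : ℕ → ℤ, x = fun H => ⌊s H * z.1⌋ := ⟨_, rfl⟩
  obtain ⟨y, hy⟩ : ∃ y : ℕ → ℤ, y = fun H => ⌊s H * z.2⌋ := ⟨_, rfl⟩
  obtain ⟨N, hN⟩ : ∃ N : ℕ → ℤ, N = fun H => - eval ![x H, y H] G := ⟨_, rfl⟩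
  have hxl : Tendsto (fun k => (x k : ℝ) / s k) atTop (𝓝 z.1) := by rw [hx]; exact floor_lim hs z.1
  have hyl : Tendsto (fun k => (y k : ℝ) / s k) atTop (𝓝 z.2) := by rw [hy]; exact floor_lim hs z.2
  have hpos : ∀ᶠ k in atTop, 1 ≤ s k := hs.eventually_ge_atTop 1
  have hge : ∀ᶠ k : ℕ in atTop, 1 ≤ k := eventually_ge_atTop 1
  have hNl : Tendsto (fun k => (N k : ℝ) / s k ^ n) atTop (𝓝 (- lf n G z)) := by
    have h3 := (ev_lim n (ar G) hs hxl hyl).neg
    refine h3.congr' (Filter.Eventually.of_forall fun k => ?_)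
    rw [hN]
    have h4 := ar_ev hG ![x k, y k]
    have h5 : ev n (ar G) (x k) (y k) = eval ![x k, y k] G := h4
    simp only
    rw [h5]
    push_cast
    ring
  -- s / H → 0
  have hsH0 : Tendsto (fun k : ℕ => s k / k) atTop (𝓝 0) := by
    have hinv : Tendsto (fun k => (s k)⁻¹ ^ (n - 2)) atTop (𝓝 ((0 : ℝ) ^ (n - 2))) := (hs.inv_tendsto_atTop).pow _
    rw [zero_pow (by omega)] at hinv
    refine hinv.congr' ?_
    filter_upwards [hpos, hge] with k hk hk1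
    have hk0 : 0 < s k := by linarith
    rw [← hsH k hk1]
    have e : s k ^ (n - 1) = s k * s k ^ (n - 2) := by
      rw [← pow_succ']
      congr 1
      omega
    rw [e, inv_pow]
    field_simp
  have hHinv : Tendsto (fun k : ℕ => 1 / (k : ℝ)) atTop (𝓝 0) := tendsto_one_div_atTop_nhds_zero_nat
  have hsinv : Tendsto (fun k => 1 / s k) atTop (𝓝 0) := by
    simp only [one_div]
    exact hs.inv_tendsto_atTop
  have hxa : Tendsto (fun k => |(x k : ℝ)| / s k) atTop (𝓝 |z.1|) := by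
    refine hxl.abs.congr' ?_
    filter_upwards [hpos] with k hk
    rw [abs_div, abs_of_pos (by linarith : 0 < s k)]
  have hya : Tendsto (fun k => |(y k : ℝ)| / s k) atTop (𝓝 |z.2|) := by
    refine hyl.abs.congr' ?_
    filter_upwards [hpos] with k hk
    rw [abs_div, abs_of_pos (by linarith : 0 < s k)]
  have hz1 : 0 < |z.1| := abs_pos.2 h1
  have hz2 : 0 < |z.2| := abs_pos.2 h2
  have hx0 : ∀ᶠ k in atTop, 0 < |(x k : ℝ)| / s k := hxa.eventually (lt_mem_nhds hz1)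
  have hy0 : ∀ᶠ k in atTop, 0 < |(y k : ℝ)| / s k := hya.eventually (lt_mem_nhds hz2)
  have hx1 : ∀ᶠ k in atTop, |(x k : ℝ)| / s k < |z.1| + 1 := hxa.eventually (gt_mem_nhds (by linarith))
  have hsmall : ∀ᶠ k : ℕ in atTop, s k / k < 1 / (|z.1| + 1) := hsH0.eventually (gt_mem_nhds (by positivity))
  -- the width
  obtain ⟨w, hw⟩ : ∃ w : ℝ → ℕ → ℝ, w = fun σ k => max 0 (min 1 (((|(x k : ℝ)| / s k + σ * (1 / s k)) + (N k : ℝ) / s k ^ n) / (|(y k : ℝ)| / s k)) +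
    min 1 (((|(x k : ℝ)| / s k + σ * (1 / s k)) - (N k : ℝ) / s k ^ n) / (|(y k : ℝ)| / s k))) := ⟨_, rfl⟩
  have hwl : ∀ σ : ℝ, Tendsto (w σ) atTop (𝓝 (max 0 (min 1 ((|z.1| - lf n G z) / |z.2|) + min 1 ((|z.1| + lf n G z) / |z.2|)))) := by
    intro σ
    have k1 : Tendsto (fun k => |(x k : ℝ)| / s k + σ * (1 / s k)) atTop (𝓝 (|z.1| + σ * 0)) := hxa.add (hsinv.const_mul σ)
    rw [mul_zero, add_zero] at k1
    have k2 : Tendsto (fun k => ((|(x k : ℝ)| / s k + σ * (1 / s k)) + (N k : ℝ) / s k ^ n) / (|(y k : ℝ)| / s k)) atTop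
        (𝓝 ((|z.1| - lf n G z) / |z.2|)) := by
      have k3 := (k1.add hNl).div hya hz2.ne'
      rw [← sub_eq_add_neg] at k3
      exact k3
    have k3 : Tendsto (fun k => ((|(x k : ℝ)| / s k + σ * (1 / s k)) - (N k : ℝ) / s k ^ n) / (|(y k : ℝ)| / s k)) atTop
        (𝓝 ((|z.1| + lf n G z) / |z.2|)) := by
      have k3 := (k1.sub hNl).div hya hz2.ne'
      rw [sub_neg_eq_add] at k3
      exact k3
    rw [hw]
    exact (tendsto_const_nhds (x := (0 : ℝ))).max (((tendsto_const_nhds (x := (1 : ℝ))).min k2).add ((tendsto_const_nhds (x := (1 : ℝ))).min k3))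
  -- the count
  have hbc : ∀ᶠ k in atTop, ∀ τ : ℤ, |(bc k (y k) (N k) (k * (|x k| + τ)) : ℝ) - k * w τ k| ≤ 1 := by
    filter_upwards [hpos, hge, hy0] with k hk hk1 hky τ
    have hsk : 0 < s k := by linarith
    have hk0 : (0 : ℝ) < k := by exact_mod_cast hk1
    have hyk : y k ≠ 0 := by
      intro h
      rw [h] at hky
      simp at hky
    have hy' : 0 < |(y k : ℝ)| := abs_pos.2 (by exact_mod_cast hyk)
    have h3 := bc_card k (y k) (N k) (k * (|x k| + τ)) hyk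
    have hsn : s k ^ n = k * s k := by
      rw [← hsH k hk1, ← pow_succ]
      congr 1
      omega
    have e1 : (k : ℝ) * w τ k = max 0 (min (k : ℝ) ((((k * (|x k| + τ) : ℤ) : ℝ) + N k) / |(y k : ℝ)|) +
        min (k : ℝ) ((((k * (|x k| + τ) : ℤ) : ℝ) - N k) / |(y k : ℝ)|)) := by
      rw [hw]
      simp only
      rw [mul_max_of_nonneg _ _ hk0.le, mul_zero, mul_add, mul_min_of_nonneg _ _ hk0.le, mul_min_of_nonneg _ _ hk0.le, mul_one, hsn]
      congr 2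
      · congr 1
        push_cast
        field_simp
      · congr 1
        push_cast
        field_simp
    rw [e1]
    exact h3
  obtain ⟨W, hW⟩ : ∃ W : ℝ, W = max 0 (min 1 ((|z.1| - lf n G z) / |z.2|) + min 1 ((|z.1| + lf n G z) / |z.2|)) := ⟨_, rfl⟩
  rw [← hW] at hwl
  have hdens : dens n G z = 2 / |z.1| * W := by
    unfold dens
    rw [hW]
  rw [hdens]
  have hup : Tendsto (fun k : ℕ => (2 / (|(x k : ℝ)| / s k) + s k / k) * (w 1 k + 1 / k)) atTop (𝓝 (2 / |z.1| * W)) := by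
    have k1 := (((tendsto_const_nhds (x := (2 : ℝ))).div hxa hz1.ne').add hsH0).mul ((hwl 1).add hHinv)
    rw [add_zero, add_zero] at k1
    exact k1
  have hlo : Tendsto (fun k : ℕ => (2 / (|(x k : ℝ)| / s k) - s k / k) * (w (-1) k - 1 / k)) atTop (𝓝 (2 / |z.1| * W)) := by
    have k1 := (((tendsto_const_nhds (x := (2 : ℝ))).div hxa hz1.ne').sub hsH0).mul ((hwl (-1)).sub hHinv)
    rw [sub_zero, sub_zero] at k1
    exact k1
  have heq : (fun H : ℕ => (An 1 H ⌊s H * z.1⌋ ⌊s H * z.2⌋ (- eval ![⌊s H * z.1⌋, ⌊s H * z.2⌋] G) : ℝ) * (s H / (H : ℝ) ^ 2)) =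
      fun H : ℕ => (An 1 H (x H) (y H) (N H) : ℝ) * (s H / (H : ℝ) ^ 2) := by
    rw [hN, hx, hy]
  rw [heq]
  refine tendsto_of_tendsto_of_tendsto_of_le_of_le' hlo hup ?_ ?_
  · filter_upwards [hpos, hge, hx0, hx1, hsmall, hbc] with k hk hk1 hkx hkx1 hks hkb
    have hsk : 0 < s k := by linarith
    have hk0 : (0 : ℝ) < k := by exact_mod_cast hk1
    have hxk : x k ≠ 0 := by
      intro h
      rw [h] at hkx
      simp at hkx
    have hx' : 0 < |(x k : ℝ)| := abs_pos.2 (by exact_mod_cast hxk)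
    have h3 := lo_pt1 k (x k) (y k) (N k) hxk
    have h4 := abs_le.1 (hkb (-1))
    have e0 : (k : ℤ) * (|x k| + -1) = k * (|x k| - 1) := by ring
    rw [e0] at h4
    push_cast at h4
    have h5 : 0 ≤ 2 * (k : ℝ) / |(x k : ℝ)| - 1 := by
      rw [sub_nonneg, le_div_iff₀ hx', one_mul]
      rw [div_lt_iff₀ hsk] at hkx1
      rw [div_lt_div_iff₀ hk0 (by positivity)] at hks
      nlinarith
    have h6 : (2 * (k : ℝ) / |(x k : ℝ)| - 1) * (k * w (-1) k - 1) ≤ (An 1 k (x k) (y k) (N k) : ℝ) := by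
      refine le_trans (mul_le_mul_of_nonneg_left ?_ h5) h3
      linarith [h4.1]
    have h7 : (2 / (|(x k : ℝ)| / s k) - s k / k) * (w (-1) k - 1 / k) =
        ((2 * (k : ℝ) / |(x k : ℝ)| - 1) * (k * w (-1) k - 1)) * (s k / (k : ℝ) ^ 2) := by
      field_simp
    rw [h7]
    exact mul_le_mul_of_nonneg_right h6 (by positivity)
  · filter_upwards [hpos, hge, hx0, hbc] with k hk hk1 hkx hkb
    have hsk : 0 < s k := by linarith
    have hk0 : (0 : ℝ) < k := by exact_mod_cast hk1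
    have hxk : x k ≠ 0 := by
      intro h
      rw [h] at hkx
      simp at hkx
    have hx' : 0 < |(x k : ℝ)| := abs_pos.2 (by exact_mod_cast hxk)
    have h3 := up_pt1 k (x k) (y k) (N k) hxk
    have h4 := abs_le.1 (hkb 1)
    push_cast at h4
    have h6 : (An 1 k (x k) (y k) (N k) : ℝ) ≤ (2 * (k : ℝ) / |(x k : ℝ)| + 1) * (k * w 1 k + 1) := by
      refine h3.trans (mul_le_mul_of_nonneg_left ?_ (by positivity))
      linarith [h4.2]
    have h7 : (2 / (|(x k : ℝ)| / s k) + s k / k) * (w 1 k + 1 / k) =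
        ((2 * (k : ℝ) / |(x k : ℝ)| + 1) * (k * w 1 k + 1)) * (s k / (k : ℝ) ^ 2) := by
      field_simp
    rw [h7]
    exact mul_le_mul_of_nonneg_right h6 (by positivity)

end Pool.Agent.H82.TO
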