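import Pool.Agent.H82.TO.As8

/-! # [H82 TO AS9] The first moment over a dilated box converges, `j = 1` -/

namespace Pool.Agent.H82.TO

open Finset MvPolynomial Filter Topology MeasureTheory Pool.Agent.H8.AA Pool.Agent.H88.A2 Pool.Agent.H82.A3 Pool.Agent.H88.TS

/-- the limit over the box of radius `T` -/
noncomputable def aT (n : ℕ) (F : MvPolynomial (Fin 2) ℤ) (T : ℝ) : ℝ :=
  ∫ z : ℝ × ℝ, if |z.1| < T ∧ |z.2| < T then dens n F z else 0

theorem floor_abs (S ξ : ℝ) : |S * ξ| ≤ |((⌊S * ξ⌋ : ℤ) : ℝ)| + 1 := by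
  have h1 := Int.floor_le (S * ξ)
  have h2 := Int.lt_floor_add_one (S * ξ)
  have h3 := neg_abs_le ((⌊S * ξ⌋ : ℤ) : ℝ)
  have h4 := le_abs_self ((⌊S * ξ⌋ : ℤ) : ℝ)
  rw [abs_le]
  constructor <;> linarith

theorem dom1 (G : MvPolynomial (Fin 2) ℤ) (T : ℝ) (hT : 1 ≤ T) : ∃ C : ℝ, 0 ≤ C ∧ ∀ (H : ℕ) (S : ℝ), 1 ≤ H → 1 ≤ S → S ≤ H →
    ∀ z : ℝ × ℝ, z.1 ≠ 0 → z.2 ≠ 0 →
    ‖stp S (bp ⌊T * S⌋₊) (fun P => (An 1 H P.1 P.2 (- eval ![P.1, P.2] G) : ℝ) * (S / (H : ℝ) ^ 2)) z‖ ≤
      C * (b2 (T + 1) z.1 * b2 (T + 1) z.2) := by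
  obtain ⟨Cd, hCd, hd⟩ := dig 1 (le_refl _)
  refine ⟨9 + 6 * Cd * (1 + T), by positivity, ?_⟩
  intro H S hH hS hSH z hz1 hz2
  have hH' : (1 : ℝ) ≤ (H : ℝ) := by exact_mod_cast hH
  have hH0 : (0 : ℝ) < (H : ℝ) := by linarith
  have hS0 : 0 < S := by linarith
  have hT0 : 0 < T := by linarith
  have hb0 : 0 ≤ b2 (T + 1) z.1 * b2 (T + 1) z.2 := mul_nonneg (b2_nonneg _ _) (b2_nonneg _ _)
  rw [stp_eq hS0]
  split_ifs with hmem
  · obtain ⟨x, hx⟩ : ∃ x : ℤ, x = ⌊S * z.1⌋ := ⟨_, rfl⟩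
    obtain ⟨y, hy⟩ : ∃ y : ℤ, y = ⌊S * z.2⌋ := ⟨_, rfl⟩
    rw [← hx, ← hy] at hmem ⊢
    have f1 := floor_abs S z.1
    have f2 := floor_abs S z.2
    rw [← hx] at f1
    rw [← hy] at f2
    rw [abs_mul, abs_of_pos hS0] at f1 f2
    rw [mem_bp] at hmem
    simp only at hmem ⊢
    have hfl : ((⌊T * S⌋₊ : ℕ) : ℝ) ≤ T * S := Nat.floor_le (by positivity)
    have hxT : |(x : ℝ)| ≤ T * S := by
      have h1 : |(x : ℝ)| ≤ ((⌊T * S⌋₊ : ℕ) : ℝ) := by exact_mod_cast hmem.1
      linarith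
    have hyT : |(y : ℝ)| ≤ T * S := by
      have h1 : |(y : ℝ)| ≤ ((⌊T * S⌋₊ : ℕ) : ℝ) := by exact_mod_cast hmem.2
      linarith
    have hM : ∀ ξ v : ℝ, |v| ≤ T * S → S * |ξ| ≤ |v| + 1 → |ξ| ≤ T + 1 := by
      intro ξ v hv h
      have h1 : S * |ξ| ≤ S * (T + 1) := by nlinarith
      exact le_of_mul_le_mul_left h1 hS0
    have e1 := b2_eq (T + 1) z.1 hz1 (hM _ _ hxT f1)
    have e2 := b2_eq (T + 1) z.2 hz2 (hM _ _ hyT f2)
    rw [e1, e2] at hb0 ⊢
    have h3 := inv_max_le |z.1| |z.2| (abs_pos.2 hz1) (abs_pos.2 hz2)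
    obtain ⟨μ, hμ⟩ : ∃ μ : ℝ, μ = max |z.1| |z.2| := ⟨_, rfl⟩
    rw [← hμ] at h3
    have hμ0 : 0 < μ := by rw [hμ]; exact lt_max_of_lt_left (abs_pos.2 hz1)
    have hA0 : 0 ≤ (An 1 H x y (- eval ![x, y] G) : ℝ) * (S / (H : ℝ) ^ 2) := by positivity
    rw [Real.norm_of_nonneg hA0]
    have key : (An 1 H x y (- eval ![x, y] G) : ℝ) * (S / (H : ℝ) ^ 2) ≤ (9 + 6 * Cd * (1 + T)) * (1 / μ) := by
      by_cases h0 : x ≠ 0 ∨ y ≠ 0
      · obtain ⟨m, hm⟩ : ∃ m : ℝ, m = max |(x : ℝ)| |(y : ℝ)| := ⟨_, rfl⟩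
        have hm1 : 1 ≤ m := by
          rw [hm]
          rcases h0 with h | h
          · exact le_max_of_le_left (by exact_mod_cast Int.one_le_abs h)
          · exact le_max_of_le_right (by exact_mod_cast Int.one_le_abs h)
        have hm0 : 0 < m := by linarith
        have hmT : m ≤ T * S := by rw [hm]; exact max_le hxT hyT
        have hSμ : S * μ ≤ 2 * m := by
          have h4 : S * μ ≤ m + 1 := by
            rw [hμ, mul_max_of_nonneg _ _ hS0.le]
            refine max_le (f1.trans ?_) (f2.trans ?_)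
            · rw [hm]; linarith [le_max_left |(x : ℝ)| |(y : ℝ)|]
            · rw [hm]; linarith [le_max_right |(x : ℝ)| |(y : ℝ)|]
          linarith
        have h4 := hd H hH x y (- eval ![x, y] G) h0 ((box 1 H).filter fun c => ev 1 (co c) x y = - eval ![x, y] G) (by
          intro c hc
          rw [mem_filter, mem_box] at hc
          exact hc)
        rw [card_ix, show (1 + 1) * (1 + 2) / 2 - (1 + 1) = 1 from rfl, pow_one, pow_one, ← hm] at h4
        have h5 : (An 1 H x y (- eval ![x, y] G) : ℝ) ≤ Cd * (H / m + 1) * (3 * H) := by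
          refine h4.trans (mul_le_mul_of_nonneg_left (by linarith) (by positivity))
        have h6 : S / H ≤ T * (S / m) := by
          have h7 : S / H ≤ 1 := by rw [div_le_one hH0]; exact hSH
          have h8 : 1 ≤ T * (S / m) := by rw [mul_div_assoc', le_div_iff₀ hm0]; linarith
          linarith
        have h7 : S / m ≤ 2 * (1 / μ) := by
          rw [mul_one_div, div_le_div_iff₀ hm0 hμ0]
          exact hSμ
        calc (An 1 H x y (- eval ![x, y] G) : ℝ) * (S / (H : ℝ) ^ 2) ≤ (Cd * (H / m + 1) * (3 * H)) * (S / (H : ℝ) ^ 2) :=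
              mul_le_mul_of_nonneg_right h5 (by positivity)
          _ = 3 * Cd * (S / m + S / H) := by
              field_simp
          _ ≤ 3 * Cd * ((1 + T) * (2 * (1 / μ))) := by
              refine mul_le_mul_of_nonneg_left ?_ (by positivity)
              have h8 : (1 + T) * (S / m) ≤ (1 + T) * (2 * (1 / μ)) := mul_le_mul_of_nonneg_left h7 (by positivity)
              linarith
          _ ≤ _ := by
              have : 0 ≤ 9 * (1 / μ) := by positivity
              linarith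
      · push Not at h0
        rw [h0.1, Int.cast_zero, abs_zero, zero_add] at f1
        rw [h0.2, Int.cast_zero, abs_zero, zero_add] at f2
        have hSμ : S * μ ≤ 1 := by
          rw [hμ, mul_max_of_nonneg _ _ hS0.le]
          exact max_le f1 f2
        have h4 := An_triv 1 H x y (- eval ![x, y] G)
        rw [show (1 + 1) * (1 + 2) / 2 - 1 = 2 from rfl] at h4
        have h5 : (An 1 H x y (- eval ![x, y] G) : ℝ) ≤ 9 * (H : ℝ) ^ 2 := by
          refine h4.trans ?_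
          calc (2 * (H : ℝ) + 1) ^ 2 ≤ (3 * H) ^ 2 := pow_le_pow_left₀ (by positivity) (by linarith) 2
            _ = _ := by ring
        have h6 : S ≤ 1 / μ := by rw [le_div_iff₀ hμ0]; exact hSμ
        calc (An 1 H x y (- eval ![x, y] G) : ℝ) * (S / (H : ℝ) ^ 2) ≤ (9 * (H : ℝ) ^ 2) * (S / (H : ℝ) ^ 2) :=
              mul_le_mul_of_nonneg_right h5 (by positivity)
          _ = 9 * S := by
              field_simp
          _ ≤ 9 * (1 / μ) := by linarith
          _ ≤ _ := by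
              have : 0 ≤ 6 * Cd * (1 + T) * (1 / μ) := by positivity
              linarith
    exact key.trans (mul_le_mul_of_nonneg_left h3 (by positivity))
  · rw [norm_zero]
    positivity

theorem mid1 (n : ℕ) (hn : 4 ≤ n) (G : MvPolynomial (Fin 2) ℤ) (hG : G.totalDegree ≤ n) {s : ℕ → ℝ} (hs : Tendsto s atTop atTop)
    (hsH : ∀ H : ℕ, 1 ≤ H → s H ^ (n - 1) = H) (T : ℝ) (hT : 1 ≤ T) :
    Tendsto (fun H : ℕ => (∑ P ∈ bp ⌊T * s H⌋₊, (An 1 H P.1 P.2 (- eval ![P.1, P.2] G) : ℝ)) / ((H : ℝ) ^ 2 * s H)) atTop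
      (𝓝 (aT n G T)) := by
  obtain ⟨C, hC, hdom⟩ := dom1 G T hT
  have hpos : ∀ᶠ k in atTop, 1 ≤ s k := hs.eventually_ge_atTop 1
  have hge : ∀ᶠ k : ℕ in atTop, 1 ≤ k := eventually_ge_atTop 1
  have h1 : Tendsto (fun H : ℕ => ∫ z, stp (s H) (bp ⌊T * s H⌋₊) (fun P => (An 1 H P.1 P.2 (- eval ![P.1, P.2] G) : ℝ) * (s H / (H : ℝ) ^ 2)) z)
      atTop (𝓝 (aT n G T)) := by
    unfold aT
    refine tendsto_integral_filter_of_dominated_convergence (fun z : ℝ × ℝ => C * (b2 (T + 1) z.1 * b2 (T + 1) z.2)) ?_ ?_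
      (b22_int (T + 1) C (by linarith)) ?_
    · exact Filter.Eventually.of_forall fun H => (stp_meas _ _ _).aestronglyMeasurable
    · filter_upwards [hpos, hge] with H hH hH1
      have hSH : s H ≤ H := by
        rw [← hsH H hH1]
        exact le_self_pow₀ hH (by omega)
      filter_upwards [ae_ne1 0, ae_ne2 0] with z hz1 hz2
      exact hdom H (s H) hH1 hH hSH z hz1 hz2
    · filter_upwards [ae_ne1 0, ae_ne2 0, ae_ne1 T, ae_ne1 (-T), ae_ne2 T, ae_ne2 (-T)] with z hz1 hz2 h3 h4 h5 h6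
      have hxa : Tendsto (fun k => |((⌊s k * z.1⌋ : ℤ) : ℝ)| / s k) atTop (𝓝 |z.1|) := by
        refine (floor_lim hs z.1).abs.congr' ?_
        filter_upwards [hpos] with k hk
        rw [abs_div, abs_of_pos (by linarith : 0 < s k)]
      have hya : Tendsto (fun k => |((⌊s k * z.2⌋ : ℤ) : ℝ)| / s k) atTop (𝓝 |z.2|) := by
        refine (floor_lim hs z.2).abs.congr' ?_
        filter_upwards [hpos] with k hk
        rw [abs_div, abs_of_pos (by linarith : 0 < s k)]
      have hne1 : |z.1| ≠ T := by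
        intro h
        rcases abs_choice z.1 with h' | h'
        · exact h3 (h'.symm.trans h)
        · exact h4 (by rw [← h, h', neg_neg])
      have hne2 : |z.2| ≠ T := by
        intro h
        rcases abs_choice z.2 with h' | h'
        · exact h5 (h'.symm.trans h)
        · exact h6 (by rw [← h, h', neg_neg])
      have hin : ∀ k, 1 ≤ s k → ∀ ξ : ℝ, (|((⌊s k * ξ⌋ : ℤ) : ℝ)| / s k < T → |⌊s k * ξ⌋| ≤ ((⌊T * s k⌋₊ : ℕ) : ℤ)) ∧
          (T < |((⌊s k * ξ⌋ : ℤ) : ℝ)| / s k → ¬ |⌊s k * ξ⌋| ≤ ((⌊T * s k⌋₊ : ℕ) : ℤ)) := by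
        intro k hk ξ
        have hk0 : 0 < s k := by linarith
        constructor
        · intro h
          rw [div_lt_iff₀ hk0] at h
          have h7 : ((⌊s k * ξ⌋.natAbs : ℕ) : ℝ) ≤ T * s k := by
            rw [Nat.cast_natAbs, Int.cast_abs]
            exact h.le
          have h8 := Nat.le_floor h7
          rw [Int.abs_eq_natAbs]
          exact_mod_cast h8
        · intro h hcon
          rw [lt_div_iff₀ hk0] at h
          have h7 : |((⌊s k * ξ⌋ : ℤ) : ℝ)| ≤ ((⌊T * s k⌋₊ : ℕ) : ℝ) := by exact_mod_cast hcon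
          have h8 : ((⌊T * s k⌋₊ : ℕ) : ℝ) ≤ T * s k := Nat.floor_le (by positivity)
          linarith
      by_cases hcase : |z.1| < T ∧ |z.2| < T
      · rw [if_pos hcase]
        refine (pt_lim n hn G hG hs hsH z hz1 hz2).congr' ?_
        filter_upwards [hpos, hxa.eventually (gt_mem_nhds hcase.1), hya.eventually (gt_mem_nhds hcase.2)] with k hk hk1 hk2
        have hk0 : 0 < s k := by linarith
        rw [stp_eq hk0, if_pos]
        rw [mem_bp]
        exact ⟨(hin k hk z.1).1 hk1, (hin k hk z.2).1 hk2⟩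
      · rw [if_neg hcase]
        refine tendsto_const_nhds.congr' ?_
        rw [not_and_or, not_lt, not_lt] at hcase
        rcases hcase with hcase | hcase
        · have h7 : T < |z.1| := lt_of_le_of_ne hcase hne1.symm
          filter_upwards [hpos, hxa.eventually (lt_mem_nhds h7)] with k hk hk1
          have hk0 : 0 < s k := by linarith
          rw [stp_eq hk0, if_neg]
          rw [mem_bp]
          exact fun h => (hin k hk z.1).2 hk1 h.1
        · have h7 : T < |z.2| := lt_of_le_of_ne hcase hne2.symm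
          filter_upwards [hpos, hya.eventually (lt_mem_nhds h7)] with k hk hk1
          have hk0 : 0 < s k := by linarith
          rw [stp_eq hk0, if_neg]
          rw [mem_bp]
          exact fun h => (hin k hk z.2).2 hk1 h.2
  refine h1.congr' ?_
  filter_upwards [hpos, hge] with k hk hk1
  have hk0 : 0 < s k := by linarith
  have hkr : (0 : ℝ) < k := by exact_mod_cast hk1
  rw [stp_int hk0, ← sum_mul]
  field_simp

end Pool.Agent.H82.TO
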