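import Pool.Agent.H88.TS.Mid
import Pool.Agent.H82.A3.Cnt

/-! # [H82 TO UP1] `j = 1`: upper bound, one chart

`S ^ (n-1) = H`. Points with `2^k ≤ |x| < 2^(k+1)`: at most `25 * 4^k` if `2^k ≤ A S`; at most `C S^2` if `2^k > A S` (strip around the fixed asymptotes, Roth).
Each point costs `C (2H+1) (H/2^k + 1)` vectors (`dig`). -/

namespace Pool.Agent.H82.TO

open Finset Pool.Agent.H8.AA Pool.Agent.H88.A2 Pool.Agent.H88.TS Pool.Agent.H82.A3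

/-- the number of scales -/
theorem scales (E B : ℕ) (hB : 1 ≤ B) (η : ℝ) (hη : 0 < η) : ∃ C : ℝ, 0 ≤ C ∧ ∀ H : ℕ, 1 ≤ H →
    ((Nat.log 2 ((B * H) ^ E) + 1 : ℕ) : ℝ) ≤ C * (H : ℝ) ^ η := by
  refine ⟨2 * E * ((B : ℝ) ^ η / η) + 1, by positivity, ?_⟩
  intro H hH
  have hH1 : (1 : ℝ) ≤ H := by exact_mod_cast hH
  have hHr : (1 : ℝ) ≤ (H : ℝ) ^ η := Real.one_le_rpow hH1 hη.le
  have hBH : 0 < B * H := Nat.mul_pos hB hH
  have h1 : 2 ^ Nat.log 2 ((B * H) ^ E) ≤ (B * H) ^ E := Nat.pow_log_le_self 2 (by positivity)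
  have h2 : (2 : ℝ) ^ Nat.log 2 ((B * H) ^ E) ≤ ((B * H : ℕ) : ℝ) ^ E := by exact_mod_cast h1
  have h3 := Real.log_le_log (by positivity) h2
  rw [Real.log_pow, Real.log_pow] at h3
  have h4 : Real.log ((B * H : ℕ) : ℝ) ≤ ((B * H : ℕ) : ℝ) ^ η / η := Real.log_le_rpow_div (by positivity) hη
  have h5 : (((B * H : ℕ) : ℝ)) ^ η = (B : ℝ) ^ η * (H : ℝ) ^ η := by
    push_cast
    rw [Real.mul_rpow (by positivity) (by positivity)]
  have h6 := Real.log_two_gt_d9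
  have hE : (0 : ℝ) ≤ E := by positivity
  have h7 : (E : ℝ) * Real.log ((B * H : ℕ) : ℝ) ≤ E * ((B : ℝ) ^ η / η * (H : ℝ) ^ η) := by
    refine mul_le_mul_of_nonneg_left ?_ hE
    rw [h5] at h4
    calc _ ≤ (B : ℝ) ^ η * (H : ℝ) ^ η / η := h4
      _ = _ := by ring
  have h8 : ((Nat.log 2 ((B * H) ^ E) : ℕ) : ℝ) * (1 / 2) ≤ ((Nat.log 2 ((B * H) ^ E) : ℕ) : ℝ) * Real.log 2 := by
    refine mul_le_mul_of_nonneg_left ?_ (by positivity)
    linarith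
  push_cast
  have h9 : (0 : ℝ) ≤ 2 * E * ((B : ℝ) ^ η / η) := by positivity
  nlinarith

private theorem fm_cg {n : ℕ} {e e' : ℕ → ℕ → ℤ} (h : ∀ a b, a + b = n → e a b = e' a b) : fm e n = fm e' n := by
  unfold fm
  refine Finset.sum_congr rfl fun j hj => ?_
  have hj' : j ≤ n := by
    have := Finset.mem_range.1 hj
    omega
  rw [h (n - j) j (by omega)]

/-- the points of one scale near the asymptotes -/
theorem scale1 (n E B : ℕ) (hn : 4 ≤ n) (hB : 2 ≤ B) (f : ℕ → ℕ → ℤ) (hnz : Nz n f) (c0 : ℝ) (hc0 : 0 < c0)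
    (hgd : Gd n c0 f) : ∃ A C : ℝ, 1 ≤ A ∧ 0 ≤ C ∧ ∀ (H : ℕ) (S : ℝ), 1 ≤ H → 1 ≤ S → S ^ (n - 1) = H →
      ∀ (g : ℕ → ℕ → ℤ) (k : ℕ) (T : Finset (ℤ × ℤ)),
      (∀ P ∈ T, ∃ e : ℕ → ℕ → ℤ, (∀ a b, a + b = n → f a b = e a b) ∧ (∀ a b, a + b = n - 1 → e a b = g a b) ∧
        Bs n (2 * B) S e ∧ |P.2| ≤ |P.1| ∧ A * S ≤ |(P.1 : ℝ)| ∧ (2 : ℝ) ^ k ≤ |(P.1 : ℝ)| ∧ |(P.1 : ℝ)| ≤ 2 ^ (k + 1) ∧
        |(P.1 : ℝ)| ≤ ((B * H : ℕ) : ℝ) ^ E ∧ ev n e P.1 P.2 = 0) →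
      (T.card : ℝ) ≤ C * S ^ 2 := by
  classical
  have hB1 : (1 : ℝ) ≤ 2 * B := by
    have : (2 : ℝ) ≤ B := by exact_mod_cast hB
    linarith
  have hBr : (1 : ℝ) ≤ B := by
    have : (2 : ℝ) ≤ B := by exact_mod_cast hB
    linarith
  obtain ⟨A, C₁, hA, hC₁, hnear⟩ := near n (by omega) (2 * B) c0 hB1 hc0
  have hfm : fm f n ≠ 0 := by
    intro h0
    have h1 := hnz 1 0 (Or.inl one_ne_zero)
    apply h1
    refine Finset.sum_eq_zero fun j hj => ?_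
    have h2 : (fm f n).coeff j = 0 := by rw [h0]; simp
    rw [fm_coeff, if_pos (by have := Finset.mem_range.1 hj; omega)] at h2
    rw [h2, zero_mul]
  have hirr : ∀ t : ℝ, Polynomial.aeval t (fm f n) = 0 → Irrational t := by
    intro t ht
    rw [irrational_iff_ne_rational]
    intro p q hq hpq
    have hq' : (q : ℝ) ≠ 0 := by exact_mod_cast hq
    apply hnz q p (Or.inl hq)
    have h1 : ((∑ j ∈ Finset.range (n + 1), f (n - j) j * (q ^ (n - j) * p ^ j) : ℤ) : ℝ) =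
        (q : ℝ) ^ n * Polynomial.aeval t (fm f n) := by
      rw [fm_aeval, Finset.mul_sum]
      push_cast
      refine Finset.sum_congr rfl fun j hj => ?_
      have hj' : j ≤ n := by
        have := Finset.mem_range.1 hj
        omega
      rw [hpq, div_pow, show (q : ℝ) ^ n = (q : ℝ) ^ (n - j) * (q : ℝ) ^ j by rw [← pow_add]; congr 1; omega]
      field_simp
    rw [ht, mul_zero] at h1
    exact_mod_cast h1
  have hnr : (0 : ℝ) < ((n - 1 : ℕ) : ℝ) := by exact_mod_cast (by omega : 0 < n - 1)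
  obtain ⟨ε, hε⟩ : ∃ ε : ℝ, ε = 1 / (((n - 1 : ℕ) : ℝ) * (E + 1)) := ⟨_, rfl⟩
  have hE : (0 : ℝ) ≤ E := by positivity
  have hε0 : 0 < ε := by rw [hε]; positivity
  have hn1 : (1 : ℝ) ≤ ((n - 1 : ℕ) : ℝ) := by exact_mod_cast (by omega : 1 ≤ n - 1)
  have hε1 : ε ≤ 1 := by
    rw [hε, div_le_one (by positivity)]
    nlinarith
  have hεE : E * ε ≤ 1 / ((n - 1 : ℕ) : ℝ) := by
    rw [hε, mul_one_div, div_le_div_iff₀ (by positivity) hnr]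
    nlinarith
  have hst : ∀ t : ℝ, ∃ C : ℝ, 0 ≤ C ∧ (Polynomial.aeval t (fm f n) = 0 → ∀ s w X : ℝ, 1 ≤ X → 0 ≤ w →
      ∀ T : Finset (ℤ × ℤ), (∀ P ∈ T, |(P.1 : ℝ)| ≤ X ∧ |(P.2 : ℝ) - t * P.1 - s| ≤ w) →
        (T.card : ℝ) ≤ C * (X ^ ε + w * X)) := by
    intro t
    by_cases ht : Polynomial.aeval t (fm f n) = 0
    · obtain ⟨c, hc, hR⟩ := roth (fm f n) hfm t (hirr t ht) ht ε hε0
      obtain ⟨C, hC, h⟩ := strip t ε c hc hε0 hR
      exact ⟨C, hC, fun _ => h⟩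
    · exact ⟨0, le_refl _, fun h => absurd h ht⟩
  choose Cs hCs0 hCs using hst
  obtain ⟨Z, hZ⟩ : ∃ Z : Finset ℝ, Z = ((fm f n).aroots ℝ).toFinset := ⟨_, rfl⟩
  have hmem : ∀ t : ℝ, t ∈ Z ↔ Polynomial.aeval t (fm f n) = 0 := by
    intro t
    rw [hZ, Multiset.mem_toFinset, Polynomial.mem_aroots]
    exact ⟨fun h => h.2, fun h => ⟨hfm, h⟩⟩
  have hS0' : 0 ≤ ∑ t ∈ Z, Cs t := Finset.sum_nonneg fun t _ => hCs0 t
  refine ⟨A, (∑ t ∈ Z, Cs t) * (2 * B + 2 * C₁), hA, by positivity, ?_⟩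
  intro H S hH hS hSH g k T hT
  have hH1 : (1 : ℝ) ≤ H := by exact_mod_cast hH
  have hS0 : 0 < S := by linarith
  have hBH : 0 < B * H := Nat.mul_pos (by omega) hH
  have hBHr : (1 : ℝ) ≤ ((B * H : ℕ) : ℝ) := by exact_mod_cast hBH
  rcases T.eq_empty_or_nonempty with hTe | ⟨P0, hP0⟩
  · rw [hTe, card_empty, Nat.cast_zero]
    positivity
  -- the size of the scale
  have hX : ((2 : ℝ) ^ (k + 1)) ^ ε ≤ 2 * (B * S) := by
    obtain ⟨e, _, _, _, _, _, h1, _, h2, _⟩ := hT P0 hP0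
    have h6 : (2 : ℝ) ^ (k + 1) ≤ 2 * ((B * H : ℕ) : ℝ) ^ E := by
      rw [pow_succ]
      linarith
    have h7 : ((2 : ℝ) ^ (k + 1)) ^ ε ≤ (2 * ((B * H : ℕ) : ℝ) ^ E) ^ ε :=
      Real.rpow_le_rpow (by positivity) h6 hε0.le
    refine h7.trans ?_
    rw [Real.mul_rpow (by norm_num) (by positivity)]
    have h8 : (2 : ℝ) ^ ε ≤ 2 := by
      have := Real.rpow_le_rpow_of_exponent_le (by norm_num : (1 : ℝ) ≤ 2) hε1
      rwa [Real.rpow_one] at this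
    have h9 : (((B * H : ℕ) : ℝ) ^ E) ^ ε ≤ (B : ℝ) * S := by
      rw [← Real.rpow_natCast, ← Real.rpow_mul (by positivity)]
      refine (Real.rpow_le_rpow_of_exponent_le hBHr hεE).trans ?_
      have h10 : ((B * H : ℕ) : ℝ) = (B : ℝ) * H := by push_cast; ring
      rw [h10, Real.mul_rpow (by positivity) (by positivity)]
      have h11 : (H : ℝ) ^ (1 / ((n - 1 : ℕ) : ℝ)) = S := by
        rw [← hSH, ← Real.rpow_natCast S, ← Real.rpow_mul hS0.le, mul_one_div, div_self hnr.ne', Real.rpow_one]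
      rw [h11]
      refine mul_le_mul_of_nonneg_right ?_ hS0.le
      have h12 := Real.rpow_le_rpow_of_exponent_le hBr (show 1 / ((n - 1 : ℕ) : ℝ) ≤ 1 by
        rw [div_le_one hnr]
        exact hn1)
      rwa [Real.rpow_one] at h12
    exact mul_le_mul h8 h9 (by positivity) (by norm_num)
  obtain ⟨s, hs⟩ : ∃ s : ℝ → ℝ, s = fun t => - (Polynomial.aeval t (fm g (n - 1)) /
    Polynomial.aeval t (Polynomial.derivative (fm f n))) := ⟨_, rfl⟩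
  obtain ⟨Y, hY⟩ : ∃ Y : ℝ → Finset (ℤ × ℤ), Y = fun t => T.filter fun P => |(P.1 : ℝ)| ≤ (2 : ℝ) ^ (k + 1) ∧
    |(P.2 : ℝ) - t * P.1 - s t| ≤ C₁ * S ^ 2 / (2 : ℝ) ^ k := ⟨_, rfl⟩
  have hsub : T ⊆ Z.biUnion Y := by
    intro P hP
    obtain ⟨e, h1, h2, h3, h4, h5, h6, h7, h8, h9⟩ := hT P hP
    obtain ⟨t, ht, h10⟩ := hnear e S hS h3 (gd_congr h1 hgd) P.1 P.2 h4 h5 h9
    have hfe : fm e n = fm f n := fm_cg fun a b h => (h1 a b h).symm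
    have hfg : fm e (n - 1) = fm g (n - 1) := fm_cg h2
    rw [hfe] at ht h10
    rw [hfg] at h10
    rw [mem_biUnion]
    refine ⟨t, (hmem t).2 ht, ?_⟩
    rw [hY]
    simp only [mem_filter]
    refine ⟨hP, h7, ?_⟩
    rw [hs]
    simp only [sub_neg_eq_add]
    refine h10.trans ?_
    exact div_le_div_of_nonneg_left (by positivity) (by positivity) h6
  have hcard : ∀ t ∈ Z, ((Y t).card : ℝ) ≤ Cs t * ((2 * B + 2 * C₁) * S ^ 2) := by
    intro t ht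
    have h1 := hCs t ((hmem t).1 ht) (s t) (C₁ * S ^ 2 / (2 : ℝ) ^ k) ((2 : ℝ) ^ (k + 1)) (one_le_pow₀ (by norm_num))
      (by positivity) (Y t) (by
        intro P hP
        rw [hY] at hP
        simp only [Finset.mem_filter] at hP
        exact hP.2)
    refine h1.trans (mul_le_mul_of_nonneg_left ?_ (hCs0 t))
    have h2 : C₁ * S ^ 2 / (2 : ℝ) ^ k * (2 : ℝ) ^ (k + 1) = 2 * C₁ * S ^ 2 := by
      have h2' : (2 : ℝ) ^ k ≠ 0 := by positivity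
      rw [pow_succ, div_mul_eq_mul_div, div_eq_iff h2']
      ring
    rw [h2]
    have h3 : S ≤ S ^ 2 := by nlinarith
    nlinarith
  have h1 : (T.card : ℝ) ≤ ∑ t ∈ Z, ((Y t).card : ℝ) := by
    have h2 := (card_le_card hsub).trans card_biUnion_le
    exact_mod_cast h2
  calc (T.card : ℝ) ≤ ∑ t ∈ Z, ((Y t).card : ℝ) := h1
    _ ≤ ∑ t ∈ Z, Cs t * ((2 * B + 2 * C₁) * S ^ 2) := sum_le_sum hcard
    _ = _ := by rw [← sum_mul]; ring

end Pool.Agent.H82.TO
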