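import Pool.Agent.H82.TO.Up1

/-! # [H82 TO UP2] `j = 1`: upper bound for the vectors with a zero in one chart -/

namespace Pool.Agent.H82.TO

open Finset Pool.Agent.H8.AA Pool.Agent.H88.A2 Pool.Agent.H88.TS Pool.Agent.H82.A3

/-- all points of one scale -/
theorem scale0 (k : ℕ) (W : Finset (ℤ × ℤ)) (hW : ∀ P ∈ W, |P.2| ≤ |P.1| ∧ |(P.1 : ℝ)| ≤ 2 ^ (k + 1)) :
    (W.card : ℝ) ≤ 25 * 4 ^ k := by
  have hsub : W ⊆ (Icc (-(2 ^ (k + 1) : ℤ)) (2 ^ (k + 1))) ×ˢ (Icc (-(2 ^ (k + 1) : ℤ)) (2 ^ (k + 1))) := by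
    intro P hP
    obtain ⟨h1, h2⟩ := hW P hP
    have h3 : |P.1| ≤ (2 ^ (k + 1) : ℤ) := by exact_mod_cast h2
    have h4 : |P.2| ≤ (2 ^ (k + 1) : ℤ) := h1.trans h3
    rw [mem_product, mem_Icc, mem_Icc]
    exact ⟨abs_le.1 h3, abs_le.1 h4⟩
  have h1 := card_le_card hsub
  rw [card_product, Int.card_Icc] at h1
  have h2 : ((2 : ℤ) ^ (k + 1) + 1 - -(2 : ℤ) ^ (k + 1)).toNat = 4 * 2 ^ k + 1 := by
    have h3 : (2 : ℤ) ^ (k + 1) + 1 - -(2 : ℤ) ^ (k + 1) = ((4 * 2 ^ k + 1 : ℕ) : ℤ) := by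
      push_cast
      ring
    rw [h3, Int.toNat_natCast]
  rw [h2] at h1
  have h3 : (W.card : ℝ) ≤ (4 * 2 ^ k + 1) * (4 * 2 ^ k + 1) := by exact_mod_cast h1
  have h4 : (1 : ℝ) ≤ 2 ^ k := one_le_pow₀ (by norm_num)
  have h5 : (4 : ℝ) ^ k = 2 ^ k * 2 ^ k := by
    rw [← mul_pow]
    norm_num
  rw [h5]
  nlinarith

theorem bs1 {n B H : ℕ} {S : ℝ} (hn : 4 ≤ n) (hB : 2 ≤ B) (hS : 1 ≤ S) (hSH : S ^ (n - 1) = H) {g : ℕ → ℕ → ℤ}
    (hg : ∀ a b, |g a b| + 1 ≤ (B : ℤ)) {c : Ix 1 → ℤ} (hc : ∀ p, |c p| ≤ (H : ℤ)) : Bs n (2 * B) S (Fc g c) := by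
  intro a b hab
  have hBr : (2 : ℝ) ≤ B := by exact_mod_cast hB
  have h1 : |(g a b : ℝ)| ≤ B := g_le hg a b
  have h2 : (1 : ℝ) ≤ S ^ (n - a - b) := one_le_pow₀ hS
  have h3 : |(co c a b : ℝ)| ≤ S ^ (n - a - b) := by
    by_cases h : a + b ≤ 1
    · rw [co_of_le c h]
      have h4 : |((c (ix a b h) : ℤ) : ℝ)| ≤ (H : ℝ) := by exact_mod_cast hc (ix a b h)
      refine h4.trans ?_
      rw [← hSH]
      exact pow_le_pow_right₀ hS (by omega)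
    · unfold co
      rw [dif_neg h, Int.cast_zero, abs_zero]
      positivity
  unfold Fc
  push_cast
  refine (abs_add_le _ _).trans ?_
  nlinarith

theorem chart1 (n E B : ℕ) (hn : 4 ≤ n) (hB : 2 ≤ B) (g : ℕ → ℕ → ℤ) (hg : ∀ a b, |g a b| + 1 ≤ (B : ℤ)) (hnz : Nz n g)
    (c0 : ℝ) (hc0 : 0 < c0) (hgd : Gd n c0 g) (v : ℤ → ℤ → ℤ) :
    ∃ C : ℝ, 0 ≤ C ∧ ∀ (H : ℕ) (S : ℝ), 1 ≤ H → 1 ≤ S → S ^ (n - 1) = H → ∀ T : Finset (Ix 1 → ℤ),
    (∀ c ∈ T, (∀ p, |c p| ≤ (H : ℤ)) ∧ ∃ x y : ℤ, |y| ≤ |x| ∧ x ≠ 0 ∧ |(x : ℝ)| ≤ ((B * H : ℕ) : ℝ) ^ E ∧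
      ev n (Fc g c) x y = 0 ∧ ev 1 (co c) x y = v x y) →
    (T.card : ℝ) ≤ C * (H : ℝ) ^ 2 * S := by
  classical
  obtain ⟨A, C1, hA, hC1, hsc⟩ := scale1 n E B hn hB g hnz c0 hc0 hgd
  obtain ⟨Cd, hCd, hdig⟩ := dig 1 (le_refl _)
  have hnr : (0 : ℝ) < ((n - 1 : ℕ) : ℝ) := by exact_mod_cast (by omega : 0 < n - 1)
  obtain ⟨CK, hCK, hK⟩ := scales E B (by omega) (1 / ((n - 1 : ℕ) : ℝ)) (by positivity)
  refine ⟨(25 * Cd * (2 * A + 4 * A ^ 2) + C1 * Cd * (2 + CK)) * 3, by positivity, ?_⟩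
  intro H S hH hS hSH T hT
  have hH1 : (1 : ℝ) ≤ H := by exact_mod_cast hH
  have hS0 : 0 < S := by linarith
  have hSle : S ≤ H := by
    rw [← hSH]
    exact le_self_pow₀ hS (by omega)
  have hS3 : S ^ 3 ≤ H := by
    rw [← hSH]
    exact pow_le_pow_right₀ hS (by omega)
  have hHη : (H : ℝ) ^ (1 / ((n - 1 : ℕ) : ℝ)) = S := by
    rw [← hSH, ← Real.rpow_natCast S, ← Real.rpow_mul hS0.le, mul_one_div, div_self hnr.ne', Real.rpow_one]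
  -- points
  have hP : ∀ c : Ix 1 → ℤ, ∃ P : ℤ × ℤ, c ∈ T → |P.2| ≤ |P.1| ∧ P.1 ≠ 0 ∧ |(P.1 : ℝ)| ≤ ((B * H : ℕ) : ℝ) ^ E ∧
      ev n (Fc g c) P.1 P.2 = 0 ∧ ev 1 (co c) P.1 P.2 = v P.1 P.2 := by
    intro c
    by_cases hc : c ∈ T
    · obtain ⟨x, y, h⟩ := (hT c hc).2
      exact ⟨(x, y), fun _ => h⟩
    · exact ⟨0, fun h => absurd h hc⟩
  choose P hP using hP
  obtain ⟨K1, hK1⟩ : ∃ K1 : ℕ, K1 = Nat.log 2 ((B * H) ^ E) + 1 := ⟨_, rfl⟩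
  have hK1' : (K1 : ℝ) ≤ CK * S := by
    have := hK H hH
    rw [hHη] at this
    rw [hK1]
    exact this
  obtain ⟨W, hW⟩ : ∃ W : ℕ → Finset (ℤ × ℤ), W = fun k => (T.image P).filter fun Q =>
    (2 : ℝ) ^ k ≤ |(Q.1 : ℝ)| ∧ |(Q.1 : ℝ)| ≤ 2 ^ (k + 1) := ⟨_, rfl⟩
  have hsub : T ⊆ (range K1).biUnion fun k => (W k).biUnion fun Q => T.filter fun c => P c = Q := by
    intro c hc
    obtain ⟨h1, h2, h3, h4, h5⟩ := hP c hc
    have hn0 : (P c).1.natAbs ≠ 0 := Int.natAbs_ne_zero.2 h2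
    have habs : |((P c).1 : ℝ)| = (((P c).1.natAbs : ℕ) : ℝ) := by
      rw [Nat.cast_natAbs, Int.cast_abs]
    have h6 : (P c).1.natAbs ≤ (B * H) ^ E := by
      rw [habs] at h3
      exact_mod_cast h3
    have h7 : 2 ^ Nat.log 2 (P c).1.natAbs ≤ (P c).1.natAbs := Nat.pow_log_le_self 2 hn0
    have h8 : (P c).1.natAbs < 2 ^ (Nat.log 2 (P c).1.natAbs + 1) := Nat.lt_pow_succ_log_self (by norm_num) _
    have h9 : Nat.log 2 (P c).1.natAbs ≤ Nat.log 2 ((B * H) ^ E) := Nat.log_mono_right h6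
    rw [mem_biUnion]
    refine ⟨Nat.log 2 (P c).1.natAbs, mem_range.2 (by omega), ?_⟩
    rw [mem_biUnion]
    refine ⟨P c, ?_, mem_filter.2 ⟨hc, rfl⟩⟩
    rw [hW]
    simp only [mem_filter]
    refine ⟨mem_image_of_mem _ hc, ?_, ?_⟩
    · rw [habs]
      exact_mod_cast h7
    · rw [habs]
      exact_mod_cast h8.le
  obtain ⟨q, hq⟩ : ∃ q : ℕ → ℝ, q = fun k => Cd * ((H : ℝ) / 2 ^ k + 1) * (2 * H + 1) := ⟨_, rfl⟩
  have hq0 : ∀ k, 0 ≤ q k := by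
    intro k
    rw [hq]
    positivity
  have hfib : ∀ k, ∀ Q ∈ W k, ((T.filter fun c => P c = Q).card : ℝ) ≤ q k := by
    intro k Q hQ
    rw [hW] at hQ
    simp only [mem_filter] at hQ
    obtain ⟨hQ1, hQ2, hQ3⟩ := hQ
    obtain ⟨c1, hc1, rfl⟩ := mem_image.1 hQ1
    obtain ⟨h1, h2, h3, h4, h5⟩ := hP c1 hc1
    have h6 := hdig H hH (P c1).1 (P c1).2 (v (P c1).1 (P c1).2) (Or.inl h2) (T.filter fun c => P c = P c1) (by
      intro c hc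
      rw [mem_filter] at hc
      refine ⟨(hT c hc.1).1, ?_⟩
      rw [← hc.2]
      exact (hP c hc.1).2.2.2.2)
    have h7 : |((P c1).2 : ℝ)| ≤ |((P c1).1 : ℝ)| := by exact_mod_cast h1
    rw [max_eq_left h7, pow_one, card_ix] at h6
    norm_num at h6
    refine h6.trans ?_
    rw [hq]
    simp only
    have h8 : (H : ℝ) / |((P c1).1 : ℝ)| ≤ H / 2 ^ k := div_le_div_of_nonneg_left (by positivity) (by positivity) hQ2
    gcongr
  have hcardT : (T.card : ℝ) ≤ ∑ k ∈ range K1, ((W k).card : ℝ) * q k := by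
    have h1 : T.card ≤ ∑ k ∈ range K1, ∑ Q ∈ W k, (T.filter fun c => P c = Q).card :=
      (card_le_card hsub).trans (card_biUnion_le.trans (sum_le_sum fun k _ => card_biUnion_le))
    have h2 : (T.card : ℝ) ≤ ∑ k ∈ range K1, ∑ Q ∈ W k, ((T.filter fun c => P c = Q).card : ℝ) := by exact_mod_cast h1
    refine h2.trans (sum_le_sum fun k _ => ?_)
    refine (sum_le_sum (hfib k)).trans ?_
    rw [sum_const, nsmul_eq_mul]
  -- the two kinds of scales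
  have hAS : 1 ≤ A * S := by nlinarith
  obtain ⟨k0, hk0⟩ : ∃ k0 : ℕ, k0 = Nat.log 2 ⌊A * S⌋₊ := ⟨_, rfl⟩
  have hfl : ⌊A * S⌋₊ ≠ 0 := by
    have := Nat.floor_pos.2 hAS
    omega
  have hk1 : (2 : ℝ) ^ k0 ≤ A * S := by
    have h1 : 2 ^ k0 ≤ ⌊A * S⌋₊ := by rw [hk0]; exact Nat.pow_log_le_self 2 hfl
    have h2 : ((2 ^ k0 : ℕ) : ℝ) ≤ (⌊A * S⌋₊ : ℝ) := by exact_mod_cast h1
    push_cast at h2
    exact h2.trans (Nat.floor_le (by linarith))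
  have hk2 : A * S < (2 : ℝ) ^ (k0 + 1) := by
    have h1 : ⌊A * S⌋₊ < 2 ^ (k0 + 1) := by rw [hk0]; exact Nat.lt_pow_succ_log_self (by norm_num) _
    have h2 := (Nat.floor_lt (by linarith)).1 h1
    push_cast at h2
    exact h2
  have hWm : ∀ k, ∀ Q ∈ W k, ∃ c ∈ T, P c = Q ∧ (2 : ℝ) ^ k ≤ |(Q.1 : ℝ)| ∧ |(Q.1 : ℝ)| ≤ 2 ^ (k + 1) := by
    intro k Q hQ
    rw [hW] at hQ
    simp only [mem_filter] at hQ
    obtain ⟨c, hc, hcQ⟩ := mem_image.1 hQ.1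
    exact ⟨c, hc, hcQ, hQ.2⟩
  have hlow : ∀ k, ((W k).card : ℝ) ≤ 25 * 4 ^ k := by
    intro k
    refine scale0 k (W k) fun Q hQ => ?_
    obtain ⟨c, hc, hcQ, h1, h2⟩ := hWm k Q hQ
    rw [← hcQ] at h2 ⊢
    exact ⟨(hP c hc).1, h2⟩
  have hhigh : ∀ k, k0 + 1 ≤ k → ((W k).card : ℝ) ≤ C1 * S ^ 2 := by
    intro k hk
    refine hsc H S hH hS hSH g k (W k) fun Q hQ => ?_
    obtain ⟨c, hc, hcQ, h1, h2⟩ := hWm k Q hQ
    obtain ⟨p1, p2, p3, p4, p5⟩ := hP c hc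
    rw [← hcQ] at h1 h2 ⊢
    refine ⟨Fc g c, ?_, ?_, bs1 hn hB hS hSH hg (hT c hc).1, p1, ?_, h1, h2, p3, p4⟩
    · intro a b hab
      unfold Fc co
      rw [dif_neg (by omega), add_zero]
    · intro a b hab
      unfold Fc co
      rw [dif_neg (by omega), add_zero]
    · have h3 : (2 : ℝ) ^ (k0 + 1) ≤ 2 ^ k := pow_le_pow_right₀ (by norm_num) hk
      linarith
  -- the sums
  have hs1 : ∑ k ∈ (range K1).filter (fun k => k < k0 + 1), ((W k).card : ℝ) * q k ≤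
      25 * Cd * (2 * H + 1) * (H * (2 * (A * S)) + 4 * (A * S) ^ 2) := by
    have h1 : ∑ k ∈ (range K1).filter (fun k => k < k0 + 1), ((W k).card : ℝ) * q k ≤
        ∑ k ∈ range (k0 + 1), 25 * Cd * (2 * H + 1) * (H * 2 ^ k + 4 ^ k) := by
      have h2 : (range K1).filter (fun k => k < k0 + 1) ⊆ range (k0 + 1) := by
        intro k hk
        rw [mem_filter] at hk
        exact mem_range.2 hk.2
      refine (sum_le_sum_of_subset_of_nonneg h2 fun k _ _ => mul_nonneg (Nat.cast_nonneg _) (hq0 k)).trans ?_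
      refine sum_le_sum fun k _ => ?_
      refine (mul_le_mul_of_nonneg_right (hlow k) (hq0 k)).trans (le_of_eq ?_)
      rw [hq]
      simp only
      have h3 : (4 : ℝ) ^ k = 2 ^ k * 2 ^ k := by
        rw [← mul_pow]
        norm_num
      have h4 : (2 : ℝ) ^ k ≠ 0 := by positivity
      rw [h3]
      field_simp
    refine h1.trans ?_
    rw [← mul_sum, sum_add_distrib, ← mul_sum]
    refine mul_le_mul_of_nonneg_left ?_ (by positivity)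
    have h2 : ∑ k ∈ range (k0 + 1), (2 : ℝ) ^ k ≤ 2 * (A * S) := by
      rw [geom_sum_eq (by norm_num), pow_succ]
      linarith
    have h3 : ∑ k ∈ range (k0 + 1), (4 : ℝ) ^ k ≤ 4 * (A * S) ^ 2 := by
      rw [geom_sum_eq (by norm_num), pow_succ]
      have h4 : (4 : ℝ) ^ k0 = (2 ^ k0) ^ 2 := by
        rw [← pow_mul, mul_comm, pow_mul]
        norm_num
      have h5 : ((2 : ℝ) ^ k0) ^ 2 ≤ (A * S) ^ 2 := pow_le_pow_left₀ (by positivity) hk1 2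
      rw [h4]
      have h6 : 0 ≤ ((2 : ℝ) ^ k0) ^ 2 := by positivity
      linarith
    gcongr
  have hs2 : ∑ k ∈ (range K1).filter (fun k => ¬ k < k0 + 1), ((W k).card : ℝ) * q k ≤
      C1 * S ^ 2 * Cd * (2 * H + 1) * (H * (2 / S) + CK * S) := by
    have h1 : ∑ k ∈ (range K1).filter (fun k => ¬ k < k0 + 1), ((W k).card : ℝ) * q k ≤
        ∑ k ∈ Ico (k0 + 1) K1, C1 * S ^ 2 * Cd * (2 * H + 1) * (H * (1 / 2) ^ k + 1) := by
      have h2 : (range K1).filter (fun k => ¬ k < k0 + 1) ⊆ Ico (k0 + 1) K1 := by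
        intro k hk
        rw [mem_filter, mem_range] at hk
        exact mem_Ico.2 ⟨by omega, hk.1⟩
      refine (sum_le_sum_of_subset_of_nonneg h2 fun k _ _ => mul_nonneg (Nat.cast_nonneg _) (hq0 k)).trans ?_
      refine sum_le_sum fun k hk => ?_
      refine (mul_le_mul_of_nonneg_right (hhigh k (mem_Ico.1 hk).1) (hq0 k)).trans (le_of_eq ?_)
      rw [hq]
      simp only
      rw [one_div, inv_pow]
      ring
    refine h1.trans ?_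
    rw [← mul_sum, sum_add_distrib, ← mul_sum, sum_const, nsmul_eq_mul, mul_one]
    refine mul_le_mul_of_nonneg_left ?_ (by positivity)
    have h2 : ∑ k ∈ Ico (k0 + 1) K1, (1 / 2 : ℝ) ^ k ≤ 2 / S := by
      refine (geom_sum_Ico_le_of_lt_one (by norm_num) (by norm_num)).trans ?_
      have h3 : (1 / 2 : ℝ) ^ (k0 + 1) ≤ 1 / S := by
        rw [one_div, inv_pow, ← one_div]
        exact one_div_le_one_div_of_le hS0 (by nlinarith)
      have h4 : (1 : ℝ) - 1 / 2 = 1 / 2 := by norm_num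
      rw [h4, div_le_iff₀ (by norm_num)]
      calc (1 / 2 : ℝ) ^ (k0 + 1) ≤ 1 / S := h3
        _ = _ := by ring
    have h3 : (((Ico (k0 + 1) K1).card : ℕ) : ℝ) ≤ CK * S := by
      refine le_trans ?_ hK1'
      rw [Nat.card_Ico]
      exact_mod_cast Nat.sub_le _ _
    gcongr
  have hsum : ∑ k ∈ range K1, ((W k).card : ℝ) * q k =
      ∑ k ∈ (range K1).filter (fun k => k < k0 + 1), ((W k).card : ℝ) * q k +
      ∑ k ∈ (range K1).filter (fun k => ¬ k < k0 + 1), ((W k).card : ℝ) * q k :=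
    (sum_filter_add_sum_filter_not _ _ _).symm
  have hK3 : 2 * (H : ℝ) + 1 ≤ 3 * H := by linarith
  have hSS : S ^ 2 ≤ H * S := by nlinarith
  have f1 : 25 * Cd * (2 * H + 1) * (H * (2 * (A * S)) + 4 * (A * S) ^ 2) ≤ 25 * Cd * (3 * H) * (H * S * (2 * A + 4 * A ^ 2)) := by
    have h1 : (H : ℝ) * (2 * (A * S)) + 4 * (A * S) ^ 2 ≤ H * S * (2 * A + 4 * A ^ 2) := by
      have h2 : 4 * (A * S) ^ 2 = 4 * A ^ 2 * S ^ 2 := by ring
      have h3 : 4 * A ^ 2 * S ^ 2 ≤ 4 * A ^ 2 * (H * S) := mul_le_mul_of_nonneg_left hSS (by positivity)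
      rw [h2]
      linarith
    gcongr
  have f2 : C1 * S ^ 2 * Cd * (2 * H + 1) * (H * (2 / S) + CK * S) ≤ C1 * Cd * (3 * H) * (H * S * (2 + CK)) := by
    have h1 : S ^ 2 * ((H : ℝ) * (2 / S) + CK * S) ≤ H * S * (2 + CK) := by
      have h2 : S ^ 2 * ((H : ℝ) * (2 / S) + CK * S) = 2 * (H * S) + CK * S ^ 3 := by
        field_simp
      have h3 : CK * S ^ 3 ≤ CK * (H * S) := mul_le_mul_of_nonneg_left (by nlinarith) hCK
      rw [h2]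
      linarith
    calc C1 * S ^ 2 * Cd * (2 * H + 1) * (H * (2 / S) + CK * S) = C1 * Cd * (2 * H + 1) * (S ^ 2 * (H * (2 / S) + CK * S)) := by ring
      _ ≤ C1 * Cd * (3 * H) * (H * S * (2 + CK)) := by gcongr
  calc (T.card : ℝ) ≤ _ := hcardT
    _ = _ := hsum
    _ ≤ 25 * Cd * (3 * H) * (H * S * (2 * A + 4 * A ^ 2)) + C1 * Cd * (3 * H) * (H * S * (2 + CK)) :=
        add_le_add (hs1.trans f1) (hs2.trans f2)
    _ = _ := by ring

end Pool.Agent.H82.TO
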