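import Pool.Agent.H82.TO.Up2
import Pool.Agent.H82.A3.Fin

/-! # [H82 TO UP3] `j = 1`: upper bound `C H^(2+1/(n-1))` -/

namespace Pool.Agent.H82.TO

open Finset MvPolynomial Pool.Agent.H8.AA Pool.Agent.H88.A2 Pool.Agent.H82.A3

theorem up1 (n : ℕ) (G : MvPolynomial (Fin 2) ℤ) (h : Hyp0 n 1 G) : ∃ C : ℝ, ∀ H : ℕ, 1 ≤ H →
    (Set.ncard {L : MvPolynomial (Fin 2) ℤ | L.totalDegree ≤ 1 ∧ (∀ m, |L.coeff m| ≤ (H : ℤ)) ∧
      ∃ P : Fin 2 → ℤ, eval P (G + L) = 0} : ℝ) ≤ C * (H : ℝ) ^ (2 + 1 / ((n - 1 : ℕ) : ℝ)) := by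
  classical
  have hn := h.hn
  obtain ⟨B, hB, hGB⟩ := exists_bound G
  obtain ⟨E, C3, hC3, hlrg⟩ := lr_all n 1 G h
  have hB' : (2 : ℝ) ≤ (B : ℝ) := by exact_mod_cast hB
  obtain ⟨A, hA, hg1, hg2⟩ := gd_of (by omega : 2 ≤ n) h.irr (B : ℝ) (by linarith)
  have hz := nz_of (by omega : 2 ≤ n) h.irr
  obtain ⟨g, hgd⟩ : ∃ g, g = ar G := ⟨_, rfl⟩
  rw [← hgd] at hg1 hg2 hz
  have hgB : ∀ a b, |g a b| + 1 ≤ (B : ℤ) := by
    intro a b
    rw [hgd]
    exact hGB _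
  have hBA : (0 : ℝ) < (B : ℝ) / A := by positivity
  obtain ⟨C1, hC1, h1⟩ := chart1 n E B hn hB g hgB hz _ hBA hg1 (fun x y => - eval ![x, y] G)
  obtain ⟨C2, hC2, h2⟩ := chart1 n E B hn hB (sw g) (fun a b => hgB b a) (nz_sw' hz) _ hBA hg2 (fun x y => - eval ![y, x] G)
  refine ⟨9 + C1 + C2 + 9 * C3, ?_⟩
  intro H hH
  have hH' : (1 : ℝ) ≤ (H : ℝ) := by exact_mod_cast hH
  have hH0 : (0 : ℝ) < (H : ℝ) := by linarith
  have hnr : (0 : ℝ) < ((n - 1 : ℕ) : ℝ) := by exact_mod_cast (by omega : 0 < n - 1)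
  obtain ⟨S, hS⟩ : ∃ S : ℝ, S = (H : ℝ) ^ (1 / ((n - 1 : ℕ) : ℝ)) := ⟨_, rfl⟩
  have hS1 : 1 ≤ S := by rw [hS]; exact Real.one_le_rpow hH' (by positivity)
  have hSH : S ^ (n - 1) = H := by
    rw [hS, ← Real.rpow_natCast, ← Real.rpow_mul hH0.le, one_div, inv_mul_cancel₀ hnr.ne', Real.rpow_one]
  have hpow : (H : ℝ) ^ (2 + 1 / ((n - 1 : ℕ) : ℝ)) = (H : ℝ) ^ 2 * S := by
    rw [Real.rpow_add hH0, hS]
    norm_num
  have hev : ∀ (c : Ix 1 → ℤ) (P : Fin 2 → ℤ), eval P (G + pol c) = ev n (Fc g c) (P 0) (P 1) := by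
    intro c P
    have hd : (G + pol c).totalDegree ≤ n := (totalDegree_add _ _).trans (max_le h.deg ((Pool.Agent.H88.A2.pol_deg _).trans (by omega)))
    rw [← ar_ev hd]
    congr 1
    funext a b
    rw [ar_add, ar_pol, hgd]
    rfl
  have hev1 : ∀ (c : Ix 1 → ℤ) (P : Fin 2 → ℤ), eval P (G + pol c) = 0 → ev 1 (co c) (P 0) (P 1) = - eval P G := by
    intro c P h0
    have h3 := ar_ev (Pool.Agent.H88.A2.pol_deg c) P
    rw [ar_pol] at h3
    rw [h3]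
    rw [map_add] at h0
    linarith
  have hvec : ∀ P : Fin 2 → ℤ, ![P 0, P 1] = P := by
    intro P
    funext i
    fin_cases i <;> rfl
  obtain ⟨T, hT⟩ : ∃ T : Finset (Ix 1 → ℤ), T = (box 1 H).filter (fun c => ∃ P : Fin 2 → ℤ, eval P (G + pol c) = 0) := ⟨_, rfl⟩
  have hcard : Set.ncard {L : MvPolynomial (Fin 2) ℤ | L.totalDegree ≤ 1 ∧ (∀ m, |L.coeff m| ≤ (H : ℤ)) ∧
      ∃ P : Fin 2 → ℤ, eval P (G + L) = 0} = T.card := by
    rw [pol_set 1 H (fun L => ∃ P : Fin 2 → ℤ, eval P (G + L) = 0), ← Set.ncard_coe_finset, hT]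
    congr 1
    ext c
    simp
  obtain ⟨U, hU⟩ : ∃ U : ℝ, U = (((B * H : ℕ) : ℝ)) ^ E := ⟨_, rfl⟩
  obtain ⟨T0, hT0⟩ : ∃ T0, T0 = T.filter (fun c => eval (0 : Fin 2 → ℤ) (G + pol c) = 0) := ⟨_, rfl⟩
  obtain ⟨T1, hT1⟩ : ∃ T1, T1 = T.filter (fun c => ∃ x y : ℤ, |y| ≤ |x| ∧ x ≠ 0 ∧ |(x : ℝ)| ≤ U ∧
    ev n (Fc g c) x y = 0 ∧ ev 1 (co c) x y = - eval ![x, y] G) := ⟨_, rfl⟩
  obtain ⟨T2, hT2⟩ : ∃ T2, T2 = T.filter (fun c => ∃ x y : ℤ, |y| ≤ |x| ∧ x ≠ 0 ∧ |(x : ℝ)| ≤ U ∧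
    ev n (Fc g c) y x = 0 ∧ ev 1 (co c) y x = - eval ![y, x] G) := ⟨_, rfl⟩
  obtain ⟨T3, hT3⟩ : ∃ T3, T3 = T.filter (fun c => ∃ P : Fin 2 → ℤ, eval P (G + pol c) = 0 ∧
      ∃ i, ((B * H : ℕ) : ℤ) ^ E < |P i|) := ⟨_, rfl⟩
  have hbox : ∀ c ∈ T, ∀ p, |c p| ≤ (H : ℤ) := by
    intro c hc
    rw [hT, mem_filter] at hc
    exact mem_box.1 hc.1
  have hsub : T ⊆ T0 ∪ T1 ∪ T2 ∪ T3 := by
    intro c hc
    have hc' := hc
    rw [hT, mem_filter] at hc'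
    obtain ⟨P, hP⟩ := hc'.2
    simp only [mem_union]
    rw [hT0, hT1, hT2, hT3, mem_filter, mem_filter, mem_filter, mem_filter]
    by_cases hP0 : P = 0
    · rw [hP0] at hP
      exact Or.inl (Or.inl (Or.inl ⟨hc, hP⟩))
    by_cases hlarge : ∃ i, ((B * H : ℕ) : ℤ) ^ E < |P i|
    · exact Or.inr ⟨hc, P, hP, hlarge⟩
    push Not at hlarge
    have hle : ∀ i, |(P i : ℝ)| ≤ U := by
      intro i
      have h3 := hlarge i
      rw [hU]
      exact_mod_cast h3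
    have h4 := hev c P
    rw [hP] at h4
    have h5 := hev1 c P hP
    rcases le_total |P 1| |P 0| with h3 | h3
    · refine Or.inl (Or.inl (Or.inr ⟨hc, P 0, P 1, h3, ?_, hle 0, h4.symm, ?_⟩))
      · intro h6
        rw [h6, abs_zero] at h3
        have h7 := abs_eq_zero.1 (le_antisymm h3 (abs_nonneg _))
        apply hP0
        funext i
        fin_cases i
        · exact h6
        · exact h7
      · rw [hvec]
        exact h5
    · refine Or.inl (Or.inr ⟨hc, P 1, P 0, h3, ?_, hle 1, h4.symm, ?_⟩)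
      · intro h6
        rw [h6, abs_zero] at h3
        have h7 := abs_eq_zero.1 (le_antisymm h3 (abs_nonneg _))
        apply hP0
        funext i
        fin_cases i
        · exact h7
        · exact h6
      · rw [hvec]
        exact h5
  have hcT : (T.card : ℝ) ≤ T0.card + T1.card + T2.card + T3.card := by
    have e1 := card_le_card hsub
    have e2 := card_union_le (T0 ∪ T1 ∪ T2) T3
    have e3 := card_union_le (T0 ∪ T1) T2
    have e4 := card_union_le T0 T1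
    have e5 : T.card ≤ T0.card + T1.card + T2.card + T3.card := by omega
    exact_mod_cast e5
  have hK3 : 2 * (H : ℝ) + 1 ≤ 3 * H := by linarith
  have hK9 : (2 * (H : ℝ) + 1) ^ 2 ≤ 9 * (H : ℝ) ^ 2 := by
    calc (2 * (H : ℝ) + 1) ^ 2 ≤ (3 * H) ^ 2 := pow_le_pow_left₀ (by positivity) hK3 2
      _ = _ := by ring
  have hc0 : (T0.card : ℝ) ≤ 9 * (H : ℝ) ^ 2 := by
    have e1 : T0.card ≤ 1 * (2 * H + 1) ^ (Fintype.card (Ix 1) - ({ix 0 0 (by omega)} : Finset (Ix 1)).card) := by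
      refine fib {ix 0 0 (by omega)} H 1 T0 (fun c hc => ?_) ?_
      · rw [hT0, mem_filter] at hc
        exact hbox c hc.1
      · intro c0 hc0 T' hT'
        rw [card_le_one]
        have hv : ∀ c ∈ T', c (ix 0 0 (by omega)) = - eval (0 : Fin 2 → ℤ) G := by
          intro c hc
          have h3 := (hT' c hc).1
          rw [hT0, mem_filter] at h3
          have h4 := hev1 c 0 h3.2
          rw [← h4]
          unfold ev
          simp only [sum_range_succ, range_zero, sum_empty, zero_add, Pi.zero_apply]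
          norm_num
          rw [co_of_le c (by omega : 0 + 0 ≤ 1)]
        intro c hc c' hc'
        funext p
        by_cases hp : p = ix 0 0 (by omega)
        · rw [hp, hv c hc, hv c' hc']
        · rw [(hT' c hc).2 p (by simpa using hp), (hT' c' hc').2 p (by simpa using hp)]
    rw [card_singleton, card_ix, one_mul] at e1
    norm_num at e1
    have e2 : (T0.card : ℝ) ≤ (2 * (H : ℝ) + 1) ^ 2 := by exact_mod_cast e1
    exact e2.trans hK9
  have hc1 : (T1.card : ℝ) ≤ C1 * (H : ℝ) ^ 2 * S := h1 H S hH hS1 hSH T1 (by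
    intro c hc
    rw [hT1, mem_filter] at hc
    refine ⟨hbox c hc.1, ?_⟩
    obtain ⟨x, y, h3, h4, h5, h6, h7⟩ := hc.2
    exact ⟨x, y, h3, h4, by rw [hU] at h5; exact h5, h6, h7⟩)
  have hinj : Function.Injective (fun (c : Ix 1 → ℤ) (p : Ix 1) => c (sp p)) := by
    intro c c' hcc
    funext p
    have := congrFun hcc (sp p)
    exact this
  have hc2 := h2 H S hH hS1 hSH (T2.image (fun c p => c (sp p))) (by
    intro c' hc'
    obtain ⟨c, hc, rfl⟩ := mem_image.1 hc'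
    rw [hT2, mem_filter] at hc
    refine ⟨fun p => hbox c hc.1 _, ?_⟩
    obtain ⟨x, y, h4, h5, h6, h7, h8⟩ := hc.2
    refine ⟨x, y, h4, h5, by rw [hU] at h6; exact h6, ?_, ?_⟩
    · rw [Fc_sp, ev_sw]
      exact h7
    · have h9 : co (fun p => c (sp p)) = sw (co c) := by
        funext a b
        rw [co_sp]
        rfl
      rw [h9, ev_sw]
      exact h8)
  rw [card_image_of_injective _ hinj] at hc2
  have hc3 : (T3.card : ℝ) ≤ C3 * (9 * (H : ℝ) ^ 2) := by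
    have e1 := hlrg B H hB hGB hH T3 (by
      intro c hc
      rw [hT3, mem_filter] at hc
      exact ⟨hbox c hc.1, hc.2⟩)
    rw [card_ix] at e1
    norm_num at e1
    exact e1.trans (mul_le_mul_of_nonneg_left hK9 hC3)
  rw [hcard, hpow]
  have hHS : (H : ℝ) ^ 2 ≤ (H : ℝ) ^ 2 * S := by
    have : 0 ≤ (H : ℝ) ^ 2 := by positivity
    nlinarith
  have hHS3 : C3 * (9 * (H : ℝ) ^ 2) ≤ C3 * (9 * ((H : ℝ) ^ 2 * S)) := by gcongr
  calc (T.card : ℝ) ≤ T0.card + T1.card + T2.card + T3.card := hcT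
    _ ≤ 9 * ((H : ℝ) ^ 2 * S) + C1 * (H : ℝ) ^ 2 * S + C2 * (H : ℝ) ^ 2 * S + C3 * (9 * ((H : ℝ) ^ 2 * S)) := by
        refine add_le_add (add_le_add (add_le_add (by linarith) hc1) hc2) (by linarith)
    _ = _ := by ring

end Pool.Agent.H82.TO
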