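import Pool.Agent.H82.TO.Uq1

/-! # [H82 TO UQ2] Number of vectors with given values at two points, summed over the pairs of points, `j = 2` -/

namespace Pool.Agent.H82.TO

open Finset Pool.Agent.H8.AA Pool.Agent.H88.TS

theorem ev_two (e : ℕ → ℕ → ℤ) (x y : ℤ) : ev 2 e x y =
    e 0 0 + e 1 0 * x + e 0 1 * y + e 2 0 * x ^ 2 + e 1 1 * (x * y) + e 0 2 * y ^ 2 := by
  unfold ev
  simp only [sum_range_succ, range_zero, sum_empty]
  norm_num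
  ring

theorem diam_card (V : Finset ℤ) (D : ℕ) (h : ∀ a ∈ V, ∀ b ∈ V, a - b ≤ (D : ℤ)) : V.card ≤ D + 1 := by
  rcases V.eq_empty_or_nonempty with rfl | hne
  · simp
  have hsub : V ⊆ Icc (V.min' hne) (V.min' hne + D) := by
    intro a ha
    rw [mem_Icc]
    exact ⟨V.min'_le a ha, by linarith [h a ha _ (V.min'_mem hne)]⟩
  have h1 := card_le_card hsub
  rw [Int.card_Icc] at h1
  omega

/-- quadratic polynomials in one variable with given values at two points -/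
theorem quad_card (H : ℕ) (x x' K K' : ℤ) (hx : x ≠ x') (h0 : x * x' ≠ 0) (T : Finset (ℤ × ℤ × ℤ))
    (hT : ∀ q ∈ T, |q.2.2| ≤ (H : ℤ) ∧ q.1 * x ^ 2 + q.2.1 * x + q.2.2 = K ∧ q.1 * x' ^ 2 + q.2.1 * x' + q.2.2 = K') :
    T.card ≤ 2 * H / (x * x').natAbs + 1 := by
  classical
  have hd : x - x' ≠ 0 := sub_ne_zero.2 hx
  have key : ∀ q ∈ T, ∀ q' ∈ T, q.2.1 - q'.2.1 = -(q.1 - q'.1) * (x + x') ∧ q.2.2 - q'.2.2 = (q.1 - q'.1) * (x * x') := by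
    intro q hq q' hq'
    obtain ⟨_, h1, h2⟩ := hT q hq
    obtain ⟨_, h3, h4⟩ := hT q' hq'
    have h5 : (x - x') * ((q.1 - q'.1) * (x + x') + (q.2.1 - q'.2.1)) = 0 := by linear_combination h1 - h2 - h3 + h4
    have h6 : (q.1 - q'.1) * (x + x') + (q.2.1 - q'.2.1) = 0 := by
      rcases mul_eq_zero.1 h5 with h | h
      · exact absurd h hd
      · exact h
    refine ⟨by linarith, ?_⟩
    linear_combination h1 - h3 - x * h6
  have hinj : Set.InjOn (fun q : ℤ × ℤ × ℤ => q.1) T := by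
    intro q hq q' hq' h
    simp only at h
    obtain ⟨h1, h2⟩ := key q hq q' hq'
    rw [h, sub_self] at h1 h2
    exact Prod.ext h (Prod.ext (by linarith) (by linarith))
  rw [← card_image_of_injOn hinj]
  have hX : 0 < (x * x').natAbs := Int.natAbs_pos.2 h0
  refine diam_card _ _ ?_
  intro a ha b hb
  obtain ⟨q, hq, rfl⟩ := mem_image.1 ha
  obtain ⟨q', hq', rfl⟩ := mem_image.1 hb
  obtain ⟨_, h2⟩ := key q hq q' hq'
  have h3 : |q.2.2 - q'.2.2| ≤ 2 * H := (abs_sub _ _).trans (by linarith [(hT q hq).1, (hT q' hq').1])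
  rw [h2, abs_mul, Int.abs_eq_natAbs (x * x')] at h3
  have h4 : |q.1 - q'.1| ≤ (2 * H : ℤ) / ((x * x').natAbs : ℤ) := by
    rw [Int.le_ediv_iff_mul_le (by exact_mod_cast hX)]
    exact h3
  push_cast
  refine (le_abs_self _).trans ?_
  rw [Int.natCast_natAbs] at h4
  exact h4

private theorem ij {a b c d : ℕ} (h : a + b ≤ 2) (h' : c + d ≤ 2) (hne : a ≠ c ∨ b ≠ d) : (ix a b h : Ix 2) ≠ ix c d h' := by
  intro he
  have h1 : a = c := congrArg (fun q : Ix 2 => q.1.1.val) he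
  have h2 : b = d := congrArg (fun q : Ix 2 => q.1.2.val) he
  rcases hne with h | h
  · exact h h1
  · exact h h2

theorem pair2x (H : ℕ) (x y x' y' N₁ N₂ : ℤ) (hx : x ≠ x') (h0 : x * x' ≠ 0) (T : Finset (Ix 2 → ℤ))
    (hT : ∀ c ∈ T, (∀ p, |c p| ≤ (H : ℤ)) ∧ ev 2 (co c) x y = N₁ ∧ ev 2 (co c) x' y' = N₂) :
    T.card ≤ (2 * H / (x * x').natAbs + 1) * (2 * H + 1) ^ 3 := by
  classical
  obtain ⟨J, hJ⟩ : ∃ J : Finset (Ix 2), J = {ix 2 0 (by omega), ix 1 0 (by omega), ix 0 0 (by omega)} := ⟨_, rfl⟩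
  have hJc : J.card = 3 := by
    rw [hJ, card_insert_of_notMem, card_insert_of_notMem, card_singleton]
    · rw [mem_singleton]
      exact ij _ _ (Or.inl (by norm_num))
    · rw [mem_insert, mem_singleton]
      intro h
      rcases h with h | h
      · exact ij _ _ (Or.inl (by norm_num)) h
      · exact ij _ _ (Or.inl (by norm_num)) h
  have h1 := fib J H (2 * H / (x * x').natAbs + 1) T (fun c hc => (hT c hc).1) (by
    intro c hc T' hT'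
    have e01 : ∀ c' ∈ T', co c' 0 1 = co c 0 1 ∧ co c' 1 1 = co c 1 1 ∧ co c' 0 2 = co c 0 2 := by
      intro c' hc'
      have h2 := (hT' c' hc').2
      rw [co_of_le c' (by omega : 0 + 1 ≤ 2), co_of_le c (by omega : 0 + 1 ≤ 2), co_of_le c' (by omega : 1 + 1 ≤ 2),
        co_of_le c (by omega : 1 + 1 ≤ 2), co_of_le c' (by omega : 0 + 2 ≤ 2), co_of_le c (by omega : 0 + 2 ≤ 2)]
      refine ⟨h2 _ ?_, h2 _ ?_, h2 _ ?_⟩
      all_goals
        rw [hJ, mem_insert, mem_insert, mem_singleton]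
        intro h
        rcases h with h | h | h
        · exact ij _ _ (Or.inr (by norm_num)) h
        · exact ij _ _ (Or.inr (by norm_num)) h
        · exact ij _ _ (Or.inr (by norm_num)) h
    have hinj : Set.InjOn (fun c' : Ix 2 → ℤ => (co c' 2 0, co c' 1 0, co c' 0 0)) T' := by
      intro a ha b hb hab
      simp only [Prod.mk.injEq] at hab
      obtain ⟨a1, a2, a3⟩ := e01 a ha
      obtain ⟨b1, b2, b3⟩ := e01 b hb
      refine ext_co fun i k hik => ?_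
      have : (i = 0 ∧ k = 0) ∨ (i = 1 ∧ k = 0) ∨ (i = 2 ∧ k = 0) ∨ (i = 0 ∧ k = 1) ∨ (i = 1 ∧ k = 1) ∨ (i = 0 ∧ k = 2) := by omega
      rcases this with ⟨h, h'⟩ | ⟨h, h'⟩ | ⟨h, h'⟩ | ⟨h, h'⟩ | ⟨h, h'⟩ | ⟨h, h'⟩
      · rw [h, h']; exact hab.2.2
      · rw [h, h']; exact hab.2.1
      · rw [h, h']; exact hab.1
      · rw [h, h', a1, b1]
      · rw [h, h', a2, b2]
      · rw [h, h', a3, b3]
    rw [← card_image_of_injOn hinj]
    refine quad_card H x x' (N₁ - (co c 0 1 * y + co c 1 1 * (x * y) + co c 0 2 * y ^ 2))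
      (N₂ - (co c 0 1 * y' + co c 1 1 * (x' * y') + co c 0 2 * y' ^ 2)) hx h0 _ ?_
    intro q hq
    obtain ⟨c', hc', rfl⟩ := mem_image.1 hq
    obtain ⟨a1, a2, a3⟩ := e01 c' hc'
    obtain ⟨b1, b2, b3⟩ := hT c' (hT' c' hc').1
    rw [ev_two, a1, a2, a3] at b2 b3
    simp only
    refine ⟨?_, by linarith, by linarith⟩
    rw [co_of_le c' (by omega : 0 + 0 ≤ 2)]
    exact b1 _)
  rw [hJc, card_ix] at h1
  exact h1

theorem pair2y (H : ℕ) (x y x' y' N₁ N₂ : ℤ) (hy : y ≠ y') (h0 : y * y' ≠ 0) (T : Finset (Ix 2 → ℤ))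
    (hT : ∀ c ∈ T, (∀ p, |c p| ≤ (H : ℤ)) ∧ ev 2 (co c) x y = N₁ ∧ ev 2 (co c) x' y' = N₂) :
    T.card ≤ (2 * H / (y * y').natAbs + 1) * (2 * H + 1) ^ 3 := by
  classical
  obtain ⟨J, hJ⟩ : ∃ J : Finset (Ix 2), J = {ix 0 2 (by omega), ix 0 1 (by omega), ix 0 0 (by omega)} := ⟨_, rfl⟩
  have hJc : J.card = 3 := by
    rw [hJ, card_insert_of_notMem, card_insert_of_notMem, card_singleton]
    · rw [mem_singleton]
      exact ij _ _ (Or.inr (by norm_num))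
    · rw [mem_insert, mem_singleton]
      intro h
      rcases h with h | h
      · exact ij _ _ (Or.inr (by norm_num)) h
      · exact ij _ _ (Or.inr (by norm_num)) h
  have h1 := fib J H (2 * H / (y * y').natAbs + 1) T (fun c hc => (hT c hc).1) (by
    intro c hc T' hT'
    have e01 : ∀ c' ∈ T', co c' 1 0 = co c 1 0 ∧ co c' 1 1 = co c 1 1 ∧ co c' 2 0 = co c 2 0 := by
      intro c' hc'
      have h2 := (hT' c' hc').2
      rw [co_of_le c' (by omega : 1 + 0 ≤ 2), co_of_le c (by omega : 1 + 0 ≤ 2), co_of_le c' (by omega : 1 + 1 ≤ 2),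
        co_of_le c (by omega : 1 + 1 ≤ 2), co_of_le c' (by omega : 2 + 0 ≤ 2), co_of_le c (by omega : 2 + 0 ≤ 2)]
      refine ⟨h2 _ ?_, h2 _ ?_, h2 _ ?_⟩
      all_goals
        rw [hJ, mem_insert, mem_insert, mem_singleton]
        intro h
        rcases h with h | h | h
        · exact ij _ _ (Or.inl (by norm_num)) h
        · exact ij _ _ (Or.inl (by norm_num)) h
        · exact ij _ _ (Or.inl (by norm_num)) h
    have hinj : Set.InjOn (fun c' : Ix 2 → ℤ => (co c' 0 2, co c' 0 1, co c' 0 0)) T' := by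
      intro a ha b hb hab
      simp only [Prod.mk.injEq] at hab
      obtain ⟨a1, a2, a3⟩ := e01 a ha
      obtain ⟨b1, b2, b3⟩ := e01 b hb
      refine ext_co fun i k hik => ?_
      have : (i = 0 ∧ k = 0) ∨ (i = 1 ∧ k = 0) ∨ (i = 2 ∧ k = 0) ∨ (i = 0 ∧ k = 1) ∨ (i = 1 ∧ k = 1) ∨ (i = 0 ∧ k = 2) := by omega
      rcases this with ⟨h, h'⟩ | ⟨h, h'⟩ | ⟨h, h'⟩ | ⟨h, h'⟩ | ⟨h, h'⟩ | ⟨h, h'⟩
      · rw [h, h']; exact hab.2.2
      · rw [h, h', a1, b1]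
      · rw [h, h', a3, b3]
      · rw [h, h']; exact hab.2.1
      · rw [h, h', a2, b2]
      · rw [h, h']; exact hab.1
    rw [← card_image_of_injOn hinj]
    refine quad_card H y y' (N₁ - (co c 1 0 * x + co c 1 1 * (x * y) + co c 2 0 * x ^ 2))
      (N₂ - (co c 1 0 * x' + co c 1 1 * (x' * y') + co c 2 0 * x' ^ 2)) hy h0 _ ?_
    intro q hq
    obtain ⟨c', hc', rfl⟩ := mem_image.1 hq
    obtain ⟨a1, a2, a3⟩ := e01 c' hc'
    obtain ⟨b1, b2, b3⟩ := hT c' (hT' c' hc').1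
    rw [ev_two, a1, a2, a3] at b2 b3
    simp only
    refine ⟨?_, by linarith, by linarith⟩
    rw [co_of_le c' (by omega : 0 + 0 ≤ 2)]
    exact b1 _)
  rw [hJc, card_ix] at h1
  exact h1

/-- weight of a pair of coordinates -/
noncomputable def wt (x x' : ℤ) : ℝ := if x ≠ x' ∧ x * x' ≠ 0 then 1 / √|((x * x' : ℤ) : ℝ)| else 1

theorem wt_pos (x x' : ℤ) : 0 < wt x x' := by
  unfold wt
  split_ifs with h
  · have : 0 < |((x * x' : ℤ) : ℝ)| := abs_pos.2 (by exact_mod_cast h.2)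
    positivity
  · exact one_pos

theorem wt_le (x x' : ℤ) : wt x x' ≤ 1 := by
  unfold wt
  split_ifs with h
  · have h1 : (1 : ℝ) ≤ |((x * x' : ℤ) : ℝ)| := by exact_mod_cast Int.one_le_abs h.2
    rw [div_le_one (by positivity)]
    rw [← Real.sqrt_one]
    exact Real.sqrt_le_sqrt h1
  · exact le_refl _

theorem wt_sq (x x' : ℤ) (h : x ≠ x' ∧ x * x' ≠ 0) : wt x x' ^ 2 = 1 / (((x * x').natAbs : ℕ) : ℝ) := by
  unfold wt
  rw [if_pos h, div_pow, Real.sq_sqrt (abs_nonneg _), one_pow, Nat.cast_natAbs, Int.cast_abs]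

theorem pair2 : ∃ C : ℝ, 0 ≤ C ∧ ∀ (H : ℕ), 1 ≤ H → ∀ (P Q : ℤ × ℤ) (N₁ N₂ : ℤ), P ≠ Q → ∀ T : Finset (Ix 2 → ℤ),
    (∀ c ∈ T, (∀ p, |c p| ≤ (H : ℤ)) ∧ ev 2 (co c) P.1 P.2 = N₁ ∧ ev 2 (co c) Q.1 Q.2 = N₂) →
    (T.card : ℝ) ≤ C * (2 * (H : ℝ) + 1) ^ 3 * (1 + 2 * H * (wt P.1 Q.1 * wt P.2 Q.2)) := by
  obtain ⟨Cp, hCp, hp⟩ := pairs 2 (by norm_num)
  refine ⟨1 + Cp, by positivity, ?_⟩
  intro H hH P Q N₁ N₂ hPQ T hT
  have hw1 := wt_pos P.1 Q.1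
  have hw2 := wt_pos P.2 Q.2
  have hl1 := wt_le P.1 Q.1
  have hl2 := wt_le P.2 Q.2
  have hV : (0 : ℝ) ≤ (2 * (H : ℝ) + 1) ^ 3 := by positivity
  have hcast : ∀ X : ℕ, T.card ≤ (2 * H / X + 1) * (2 * H + 1) ^ 3 → ∀ s : ℝ, 1 / (X : ℝ) ≤ s →
      (T.card : ℝ) ≤ (1 + Cp) * (2 * (H : ℝ) + 1) ^ 3 * (1 + 2 * H * s) := by
    intro X h1 s hs
    have h2 : (T.card : ℝ) ≤ (((2 * H / X : ℕ) : ℝ) + 1) * (2 * (H : ℝ) + 1) ^ 3 := by exact_mod_cast h1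
    have h3 : ((2 * H / X : ℕ) : ℝ) ≤ ((2 * H : ℕ) : ℝ) / ((X : ℕ) : ℝ) := Nat.cast_div_le
    have h4 : ((2 * H : ℕ) : ℝ) / ((X : ℕ) : ℝ) = 2 * H * (1 / (X : ℝ)) := by
      push_cast
      ring
    have hs0 : 0 ≤ s := le_trans (by positivity) hs
    have h5 : ((2 * H / X : ℕ) : ℝ) ≤ 2 * H * s := by
      rw [h4] at h3
      exact h3.trans (mul_le_mul_of_nonneg_left hs (by positivity))
    calc (T.card : ℝ) ≤ (((2 * H / X : ℕ) : ℝ) + 1) * (2 * (H : ℝ) + 1) ^ 3 := h2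
      _ ≤ (2 * H * s + 1) * (2 * (H : ℝ) + 1) ^ 3 := by gcongr
      _ = 1 * (2 * (H : ℝ) + 1) ^ 3 * (1 + 2 * H * s) := by ring
      _ ≤ (1 + Cp) * (2 * (H : ℝ) + 1) ^ 3 * (1 + 2 * H * s) := by
        have : (1 : ℝ) ≤ 1 + Cp := by linarith
        gcongr
  by_cases hx : P.1 ≠ Q.1 ∧ P.1 * Q.1 ≠ 0
  · have e1 := wt_sq P.1 Q.1 hx
    have b1 := pair2x H P.1 P.2 Q.1 Q.2 N₁ N₂ hx.1 hx.2 T hT
    by_cases hy : P.2 ≠ Q.2 ∧ P.2 * Q.2 ≠ 0
    · have e2 := wt_sq P.2 Q.2 hy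
      have b2 := pair2y H P.1 P.2 Q.1 Q.2 N₁ N₂ hy.1 hy.2 T hT
      rcases le_total (wt P.1 Q.1) (wt P.2 Q.2) with hle | hle
      · refine hcast _ b1 _ ?_
        rw [← e1, sq]
        gcongr
      · refine hcast _ b2 _ ?_
        rw [← e2, sq]
        gcongr
    · have e2 : wt P.2 Q.2 = 1 := by
        unfold wt
        rw [if_neg hy]
      refine hcast _ b1 _ ?_
      rw [← e1, e2, mul_one, sq]
      nlinarith
  · have e1 : wt P.1 Q.1 = 1 := by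
      unfold wt
      rw [if_neg hx]
    by_cases hy : P.2 ≠ Q.2 ∧ P.2 * Q.2 ≠ 0
    · have e2 := wt_sq P.2 Q.2 hy
      have b2 := pair2y H P.1 P.2 Q.1 Q.2 N₁ N₂ hy.1 hy.2 T hT
      refine hcast _ b2 _ ?_
      rw [← e2, e1, one_mul, sq]
      nlinarith
    · have e2 : wt P.2 Q.2 = 1 := by
        unfold wt
        rw [if_neg hy]
      have h1 := hp H hH P Q N₁ N₂ hPQ T hT
      rw [card_ix, show (2 + 1) * (2 + 2) / 2 - 2 = 4 from rfl] at h1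
      rw [e1, e2]
      calc (T.card : ℝ) ≤ Cp * (2 * (H : ℝ) + 1) ^ 4 := h1
        _ = Cp * (2 * (H : ℝ) + 1) ^ 3 * (1 + 2 * H * (1 * 1)) := by ring
        _ ≤ (1 + Cp) * (2 * (H : ℝ) + 1) ^ 3 * (1 + 2 * H * (1 * 1)) := by
          have : Cp ≤ 1 + Cp := by linarith
          gcongr

/-- `1/√|x|` -/
noncomputable def sr (x : ℤ) : ℝ := if x = 0 then 0 else 1 / √|(x : ℝ)|

theorem sr_nonneg (x : ℤ) : 0 ≤ sr x := by
  unfold sr
  split_ifs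
  · exact le_refl _
  · positivity

theorem sum_sr (R : ℕ) : ∑ x ∈ Icc (-(R : ℤ)) R, sr x ≤ 4 * √(R : ℝ) := by
  induction R with
  | zero =>
    have h : Icc (-((0 : ℕ) : ℤ)) ((0 : ℕ) : ℤ) = {0} := by
      ext x
      rw [mem_Icc, mem_singleton]
      push_cast
      omega
    rw [h, sum_singleton]
    unfold sr
    simp
  | succ R ih =>
    have h : Icc (-((R + 1 : ℕ) : ℤ)) ((R + 1 : ℕ) : ℤ) = insert (((R + 1 : ℕ) : ℤ)) (insert (-((R + 1 : ℕ) : ℤ)) (Icc (-(R : ℤ)) R)) := by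
      ext x
      rw [mem_insert, mem_insert, mem_Icc, mem_Icc]
      push_cast
      omega
    rw [h, sum_insert, sum_insert]
    · have hR1 : (0 : ℝ) < (R : ℝ) + 1 := by positivity
      have e1 : sr ((R + 1 : ℕ) : ℤ) = 1 / √((R : ℝ) + 1) := by
        unfold sr
        rw [if_neg (by push_cast; omega)]
        push_cast
        rw [abs_of_pos hR1]
      have e2 : sr (-((R + 1 : ℕ) : ℤ)) = 1 / √((R : ℝ) + 1) := by
        unfold sr
        rw [if_neg (by push_cast; omega)]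
        push_cast
        rw [abs_neg, abs_of_pos hR1]
      rw [e1, e2]
      push_cast
      have hs1 : 0 < √((R : ℝ) + 1) := Real.sqrt_pos.2 hR1
      have hs0 : 0 ≤ √(R : ℝ) := Real.sqrt_nonneg _
      have q1 : √((R : ℝ) + 1) ^ 2 = R + 1 := Real.sq_sqrt hR1.le
      have q0 : √(R : ℝ) ^ 2 = R := Real.sq_sqrt (Nat.cast_nonneg R)
      have h3 : 1 / √((R : ℝ) + 1) ≤ 2 * (√((R : ℝ) + 1) - √(R : ℝ)) := by
        rw [div_le_iff₀ hs1]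
        nlinarith [sq_nonneg (√((R : ℝ) + 1) - √(R : ℝ))]
      linarith
    · rw [mem_Icc]
      push_cast
      omega
    · rw [mem_insert, mem_Icc]
      push_cast
      omega

theorem wt_split (x x' : ℤ) : wt x x' ≤ sr x * sr x' + ((if x = x' then 1 else 0) + ((if x = 0 then 1 else 0) + (if x' = 0 then 1 else 0))) := by
  by_cases h : x ≠ x' ∧ x * x' ≠ 0
  · have hx : x ≠ 0 := fun h1 => h.2 (by rw [h1, zero_mul])
    have hx' : x' ≠ 0 := fun h1 => h.2 (by rw [h1, mul_zero])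
    have e : wt x x' = sr x * sr x' := by
      unfold wt sr
      rw [if_pos h, if_neg hx, if_neg hx']
      push_cast
      rw [abs_mul, Real.sqrt_mul (abs_nonneg _), one_div_mul_one_div]
    rw [e, if_neg h.1, if_neg hx, if_neg hx']
    simp
  · have h1 : wt x x' = 1 := by
      unfold wt
      rw [if_neg h]
    rw [h1]
    have h2 : x = x' ∨ x = 0 ∨ x' = 0 := by
      by_contra hcon
      push Not at hcon
      exact h ⟨hcon.1, mul_ne_zero hcon.2.1 hcon.2.2⟩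
    have h3 : 0 ≤ sr x * sr x' := mul_nonneg (sr_nonneg _) (sr_nonneg _)
    rcases h2 with h2 | h2 | h2
    · rw [if_pos h2]
      have : (0 : ℝ) ≤ (if x = 0 then 1 else 0) + (if x' = 0 then 1 else 0) := by positivity
      linarith
    · rw [if_pos h2]
      have h4 : (0 : ℝ) ≤ (if x' = 0 then 1 else 0) := by positivity
      have h5 : (0 : ℝ) ≤ (if x = x' then 1 else 0) := by positivity
      linarith
    · rw [if_pos h2]
      have h4 : (0 : ℝ) ≤ (if x = 0 then 1 else 0) := by positivity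
      have h5 : (0 : ℝ) ≤ (if x = x' then 1 else 0) := by positivity
      linarith

theorem sum_wt (R : ℕ) (hR : 1 ≤ R) : ∑ x ∈ Icc (-(R : ℤ)) R, ∑ x' ∈ Icc (-(R : ℤ)) R, wt x x' ≤ 25 * R := by
  classical
  obtain ⟨I, hI⟩ : ∃ I : Finset ℤ, I = Icc (-(R : ℤ)) R := ⟨_, rfl⟩
  have hIc : (I.card : ℝ) = 2 * R + 1 := by
    rw [hI, Int.card_Icc]
    have h : ((R : ℤ) + 1 - -(R : ℤ)).toNat = 2 * R + 1 := by omega
    rw [h]
    push_cast
    rfl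
  have hsr : ∑ x ∈ I, sr x ≤ 4 * √(R : ℝ) := by rw [hI]; exact sum_sr R
  have hsr0 : 0 ≤ ∑ x ∈ I, sr x := sum_nonneg fun x _ => sr_nonneg x
  have h0 : (0 : ℤ) ∈ I := by
    rw [hI, mem_Icc]
    omega
  rw [← hI]
  refine (sum_le_sum fun x _ => sum_le_sum fun x' _ => wt_split x x').trans ?_
  have e1 : ∑ x ∈ I, ∑ x' ∈ I, (sr x * sr x' + ((if x = x' then (1 : ℝ) else 0) + ((if x = 0 then 1 else 0) + (if x' = 0 then 1 else 0)))) =
      (∑ x ∈ I, sr x) * (∑ x' ∈ I, sr x') + 3 * I.card := by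
    rw [sum_mul_sum]
    have f1 : ∀ x ∈ I, ∑ x' ∈ I, (sr x * sr x' + ((if x = x' then (1 : ℝ) else 0) + ((if x = 0 then 1 else 0) + (if x' = 0 then 1 else 0)))) =
        ∑ x' ∈ I, sr x * sr x' + (1 + (I.card * (if x = 0 then 1 else 0) + 1)) := by
      intro x hx
      rw [sum_add_distrib, sum_add_distrib, sum_add_distrib, sum_ite_eq, if_pos hx, sum_const, nsmul_eq_mul, sum_ite_eq', if_pos h0]
    rw [sum_congr rfl f1, sum_add_distrib, sum_add_distrib, sum_add_distrib, ← mul_sum, sum_ite_eq', if_pos h0, sum_const, nsmul_eq_mul]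
    ring
  rw [e1, hIc]
  have hR' : (1 : ℝ) ≤ R := by exact_mod_cast hR
  have h3 : (∑ x ∈ I, sr x) * (∑ x' ∈ I, sr x') ≤ (4 * √(R : ℝ)) * (4 * √(R : ℝ)) := mul_le_mul hsr hsr hsr0 (by positivity)
  have h4 : (4 * √(R : ℝ)) * (4 * √(R : ℝ)) = 16 * R := by
    have := Real.mul_self_sqrt (Nat.cast_nonneg R : (0 : ℝ) ≤ R)
    nlinarith
  linarith

theorem pairs2 : ∃ C : ℝ, 0 ≤ C ∧ ∀ (H R : ℕ), 1 ≤ H → 1 ≤ R → ∀ (v : ℤ × ℤ → ℤ) (T : Finset (Ix 2 → ℤ)),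
    (∀ c ∈ T, (∀ p, |c p| ≤ (H : ℤ)) ∧ ∃ P Q : ℤ × ℤ, P ≠ Q ∧ P ∈ bp R ∧ Q ∈ bp R ∧
      ev 2 (co c) P.1 P.2 = v P ∧ ev 2 (co c) Q.1 Q.2 = v Q) →
    (T.card : ℝ) ≤ C * (H : ℝ) ^ 3 * ((R : ℝ) ^ 4 + H * (R : ℝ) ^ 2) := by
  classical
  obtain ⟨C, hC, hp⟩ := pair2
  refine ⟨C * 27 * 1250, by positivity, ?_⟩
  intro H R hH hR v T hT
  have hH' : (1 : ℝ) ≤ H := by exact_mod_cast hH
  have hR' : (1 : ℝ) ≤ R := by exact_mod_cast hR
  have h1 := dbl R (fun c P => ev 2 (co c) P.1 P.2 = v P) T (fun c hc => (hT c hc).2)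
    (fun P Q => C * (2 * (H : ℝ) + 1) ^ 3 * (1 + 2 * H * (wt P.1 Q.1 * wt P.2 Q.2))) (by
    intro P _ Q _ hPQ T' hT'
    refine hp H hH P Q (v P) (v Q) hPQ T' fun c hc => ?_
    obtain ⟨h1, h2, h3⟩ := hT' c hc
    exact ⟨(hT c h1).1, h2, h3⟩)
  refine h1.trans ?_
  have hnn : ∀ P Q : ℤ × ℤ, 0 ≤ C * (2 * (H : ℝ) + 1) ^ 3 * (1 + 2 * H * (wt P.1 Q.1 * wt P.2 Q.2)) := by
    intro P Q
    have hw1 := wt_pos P.1 Q.1
    have hw2 := wt_pos P.2 Q.2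
    positivity
  have h2 : ∑ P ∈ bp R, ∑ Q ∈ (bp R).erase P, C * (2 * (H : ℝ) + 1) ^ 3 * (1 + 2 * H * (wt P.1 Q.1 * wt P.2 Q.2)) ≤
      ∑ P ∈ bp R, ∑ Q ∈ bp R, C * (2 * (H : ℝ) + 1) ^ 3 * (1 + 2 * H * (wt P.1 Q.1 * wt P.2 Q.2)) :=
    sum_le_sum fun P _ => sum_le_sum_of_subset_of_nonneg (erase_subset _ _) fun Q _ _ => hnn P Q
  refine h2.trans ?_
  have h3 : ∑ P ∈ bp R, ∑ Q ∈ bp R, C * (2 * (H : ℝ) + 1) ^ 3 * (1 + 2 * H * (wt P.1 Q.1 * wt P.2 Q.2)) =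
      C * (2 * (H : ℝ) + 1) ^ 3 * (((bp R).card : ℝ) ^ 2 + 2 * H * ∑ P ∈ bp R, ∑ Q ∈ bp R, wt P.1 Q.1 * wt P.2 Q.2) := by
    simp only [← mul_sum, sum_add_distrib, sum_const, nsmul_eq_mul, mul_one]
    ring
  rw [h3]
  have h4 : ∑ P ∈ bp R, ∑ Q ∈ bp R, wt P.1 Q.1 * wt P.2 Q.2 =
      (∑ x ∈ Icc (-(R : ℤ)) R, ∑ x' ∈ Icc (-(R : ℤ)) R, wt x x') * (∑ x ∈ Icc (-(R : ℤ)) R, ∑ x' ∈ Icc (-(R : ℤ)) R, wt x x') := by
    unfold bp
    rw [sum_product, sum_mul_sum]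
    refine sum_congr rfl fun a _ => sum_congr rfl fun b _ => ?_
    rw [sum_product, sum_mul_sum]
  have h5 := sum_wt R hR
  have h50 : 0 ≤ ∑ x ∈ Icc (-(R : ℤ)) R, ∑ x' ∈ Icc (-(R : ℤ)) R, wt x x' :=
    sum_nonneg fun x _ => sum_nonneg fun x' _ => (wt_pos x x').le
  have h6 : ∑ P ∈ bp R, ∑ Q ∈ bp R, wt P.1 Q.1 * wt P.2 Q.2 ≤ 625 * (R : ℝ) ^ 2 := by
    rw [h4]
    calc _ ≤ (25 * (R : ℝ)) * (25 * R) := mul_le_mul h5 h5 h50 (by positivity)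
      _ = _ := by ring
  have h7 : ((bp R).card : ℝ) ^ 2 ≤ 81 * (R : ℝ) ^ 4 := by
    rw [card_bp]
    push_cast
    have h8 : 2 * (R : ℝ) + 1 ≤ 3 * R := by linarith
    calc ((2 * (R : ℝ) + 1) ^ 2) ^ 2 ≤ ((3 * (R : ℝ)) ^ 2) ^ 2 := by gcongr
      _ = _ := by ring
  have h8 : (2 * (H : ℝ) + 1) ^ 3 ≤ 27 * (H : ℝ) ^ 3 := by
    have h9 : 2 * (H : ℝ) + 1 ≤ 3 * H := by linarith
    calc (2 * (H : ℝ) + 1) ^ 3 ≤ (3 * (H : ℝ)) ^ 3 := by gcongr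
      _ = _ := by ring
  have h60 : 0 ≤ ∑ P ∈ bp R, ∑ Q ∈ bp R, wt P.1 Q.1 * wt P.2 Q.2 :=
    sum_nonneg fun P _ => sum_nonneg fun Q _ => (mul_pos (wt_pos _ _) (wt_pos _ _)).le
  calc C * (2 * (H : ℝ) + 1) ^ 3 * (((bp R).card : ℝ) ^ 2 + 2 * H * ∑ P ∈ bp R, ∑ Q ∈ bp R, wt P.1 Q.1 * wt P.2 Q.2)
      ≤ C * (27 * (H : ℝ) ^ 3) * (81 * (R : ℝ) ^ 4 + 2 * H * (625 * (R : ℝ) ^ 2)) := by gcongr
    _ ≤ C * (27 * (H : ℝ) ^ 3) * (1250 * ((R : ℝ) ^ 4 + H * (R : ℝ) ^ 2)) := by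
      have h9 : 0 ≤ (R : ℝ) ^ 4 := by positivity
      refine mul_le_mul_of_nonneg_left ?_ (by positivity)
      linarith
    _ = _ := by ring

end Pool.Agent.H82.TO
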