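import Pool.Agent.H82.TO.Up2

/-! # [H82 TO UQ3] points far out: one chart, `S ^ m = H`, `j + m = n`, `j ≤ 2` -/

namespace Pool.Agent.H82.TO

open Finset Pool.Agent.H8.AA Pool.Agent.H88.A2 Pool.Agent.H88.TS Pool.Agent.H82.A3

private theorem fm_cg {n : ℕ} {e e' : ℕ → ℕ → ℤ} (h : ∀ a b, a + b = n → e a b = e' a b) : fm e n = fm e' n := by
  unfold fm
  refine Finset.sum_congr rfl fun j hj => ?_
  have hj' : j ≤ n := by
    have := Finset.mem_range.1 hj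
    omega
  rw [h (n - j) j (by omega)]

/-- the points of one scale near the asymptotes -/
theorem scaleM (n m E B : ℕ) (hn : 4 ≤ n) (hm : 1 ≤ m) (hB : 2 ≤ B) (f : ℕ → ℕ → ℤ) (hnz : Nz n f) (c0 : ℝ) (hc0 : 0 < c0)
    (hgd : Gd n c0 f) : ∃ A C : ℝ, 1 ≤ A ∧ 0 ≤ C ∧ ∀ (H : ℕ) (S : ℝ), 1 ≤ H → 1 ≤ S → S ^ m = H →
      ∀ (g : ℕ → ℕ → ℤ) (k : ℕ) (T : Finset (ℤ × ℤ)),
      (∀ P ∈ T, ∃ e : ℕ → ℕ → ℤ, (∀ a b, a + b = n → f a b = e a b) ∧ (∀ a b, a + b = n - 1 → e a b = g a b) ∧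
        Bs n (2 * B) S e ∧ |P.2| ≤ |P.1| ∧ A * S ≤ |(P.1 : ℝ)| ∧ (2 : ℝ) ^ k ≤ |(P.1 : ℝ)| ∧ |(P.1 : ℝ)| ≤ 2 ^ (k + 1) ∧
        |(P.1 : ℝ)| ≤ ((B * H : ℕ) : ℝ) ^ E ∧ ev n e P.1 P.2 = 0) →
      (T.card : ℝ) ≤ C * S ^ 2 := by
  classical
  have hB1 : (1 : ℝ) ≤ 2 * B := by
    have : (2 : ℝ) ≤ B := by exact_mod_cast hB
    linarith
  have hBr : (1 : ℝ) ≤ B := by
    have : (2 : ℝ) ≤ B := by exact_mod_cast hB
    linarith
  obtain ⟨A, C₁, hA, hC₁, hnear⟩ := near n (by omega) (2 * B) c0 hB1 hc0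
  have hfm : fm f n ≠ 0 := by
    intro h0
    have h1 := hnz 1 0 (Or.inl one_ne_zero)
    apply h1
    refine Finset.sum_eq_zero fun j hj => ?_
    have h2 : (fm f n).coeff j = 0 := by rw [h0]; simp
    rw [fm_coeff, if_pos (by have := Finset.mem_range.1 hj; omega)] at h2
    rw [h2, zero_mul]
  have hirr : ∀ t : ℝ, Polynomial.aeval t (fm f n) = 0 → Irrational t := by
    intro t ht
    rw [irrational_iff_ne_rational]
    intro p q hq hpq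
    have hq' : (q : ℝ) ≠ 0 := by exact_mod_cast hq
    apply hnz q p (Or.inl hq)
    have h1 : ((∑ j ∈ Finset.range (n + 1), f (n - j) j * (q ^ (n - j) * p ^ j) : ℤ) : ℝ) =
        (q : ℝ) ^ n * Polynomial.aeval t (fm f n) := by
      rw [fm_aeval, Finset.mul_sum]
      push_cast
      refine Finset.sum_congr rfl fun j hj => ?_
      have hj' : j ≤ n := by
        have := Finset.mem_range.1 hj
        omega
      rw [hpq, div_pow, show (q : ℝ) ^ n = (q : ℝ) ^ (n - j) * (q : ℝ) ^ j by rw [← pow_add]; congr 1; omega]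
      field_simp
    rw [ht, mul_zero] at h1
    exact_mod_cast h1
  have hnr : (0 : ℝ) < (m : ℝ) := by exact_mod_cast (by omega : 0 < m)
  obtain ⟨ε, hε⟩ : ∃ ε : ℝ, ε = 1 / ((m : ℝ) * (E + 1)) := ⟨_, rfl⟩
  have hE : (0 : ℝ) ≤ E := by positivity
  have hε0 : 0 < ε := by rw [hε]; positivity
  have hn1 : (1 : ℝ) ≤ (m : ℝ) := by exact_mod_cast hm
  have hε1 : ε ≤ 1 := by
    rw [hε, div_le_one (by positivity)]
    nlinarith
  have hεE : E * ε ≤ 1 / (m : ℝ) := by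
    rw [hε, mul_one_div, div_le_div_iff₀ (by positivity) hnr]
    nlinarith
  have hst : ∀ t : ℝ, ∃ C : ℝ, 0 ≤ C ∧ (Polynomial.aeval t (fm f n) = 0 → ∀ s w X : ℝ, 1 ≤ X → 0 ≤ w →
      ∀ T : Finset (ℤ × ℤ), (∀ P ∈ T, |(P.1 : ℝ)| ≤ X ∧ |(P.2 : ℝ) - t * P.1 - s| ≤ w) →
        (T.card : ℝ) ≤ C * (X ^ ε + w * X)) := by
    intro t
    by_cases ht : Polynomial.aeval t (fm f n) = 0
    · obtain ⟨c, hc, hR⟩ := roth (fm f n) hfm t (hirr t ht) ht ε hε0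
      obtain ⟨C, hC, h⟩ := strip t ε c hc hε0 hR
      exact ⟨C, hC, fun _ => h⟩
    · exact ⟨0, le_refl _, fun h => absurd h ht⟩
  choose Cs hCs0 hCs using hst
  obtain ⟨Z, hZ⟩ : ∃ Z : Finset ℝ, Z = ((fm f n).aroots ℝ).toFinset := ⟨_, rfl⟩
  have hmem : ∀ t : ℝ, t ∈ Z ↔ Polynomial.aeval t (fm f n) = 0 := by
    intro t
    rw [hZ, Multiset.mem_toFinset, Polynomial.mem_aroots]
    exact ⟨fun h => h.2, fun h => ⟨hfm, h⟩⟩
  have hS0' : 0 ≤ ∑ t ∈ Z, Cs t := Finset.sum_nonneg fun t _ => hCs0 t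
  refine ⟨A, (∑ t ∈ Z, Cs t) * (2 * B + 2 * C₁), hA, by positivity, ?_⟩
  intro H S hH hS hSH g k T hT
  have hH1 : (1 : ℝ) ≤ H := by exact_mod_cast hH
  have hS0 : 0 < S := by linarith
  have hBH : 0 < B * H := Nat.mul_pos (by omega) hH
  have hBHr : (1 : ℝ) ≤ ((B * H : ℕ) : ℝ) := by exact_mod_cast hBH
  rcases T.eq_empty_or_nonempty with hTe | ⟨P0, hP0⟩
  · rw [hTe, card_empty, Nat.cast_zero]
    positivity
  -- the size of the scale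
  have hX : ((2 : ℝ) ^ (k + 1)) ^ ε ≤ 2 * (B * S) := by
    obtain ⟨e, _, _, _, _, _, h1, _, h2, _⟩ := hT P0 hP0
    have h6 : (2 : ℝ) ^ (k + 1) ≤ 2 * ((B * H : ℕ) : ℝ) ^ E := by
      rw [pow_succ]
      linarith
    have h7 : ((2 : ℝ) ^ (k + 1)) ^ ε ≤ (2 * ((B * H : ℕ) : ℝ) ^ E) ^ ε :=
      Real.rpow_le_rpow (by positivity) h6 hε0.le
    refine h7.trans ?_
    rw [Real.mul_rpow (by norm_num) (by positivity)]
    have h8 : (2 : ℝ) ^ ε ≤ 2 := by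
      have := Real.rpow_le_rpow_of_exponent_le (by norm_num : (1 : ℝ) ≤ 2) hε1
      rwa [Real.rpow_one] at this
    have h9 : (((B * H : ℕ) : ℝ) ^ E) ^ ε ≤ (B : ℝ) * S := by
      rw [← Real.rpow_natCast, ← Real.rpow_mul (by positivity)]
      refine (Real.rpow_le_rpow_of_exponent_le hBHr hεE).trans ?_
      have h10 : ((B * H : ℕ) : ℝ) = (B : ℝ) * H := by push_cast; ring
      rw [h10, Real.mul_rpow (by positivity) (by positivity)]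
      have h11 : (H : ℝ) ^ (1 / (m : ℝ)) = S := by
        rw [← hSH, ← Real.rpow_natCast S, ← Real.rpow_mul hS0.le, mul_one_div, div_self hnr.ne', Real.rpow_one]
      rw [h11]
      refine mul_le_mul_of_nonneg_right ?_ hS0.le
      have h12 := Real.rpow_le_rpow_of_exponent_le hBr (show 1 / (m : ℝ) ≤ 1 by
        rw [div_le_one hnr]
        exact hn1)
      rwa [Real.rpow_one] at h12
    exact mul_le_mul h8 h9 (by positivity) (by norm_num)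
  obtain ⟨s, hs⟩ : ∃ s : ℝ → ℝ, s = fun t => - (Polynomial.aeval t (fm g (n - 1)) /
    Polynomial.aeval t (Polynomial.derivative (fm f n))) := ⟨_, rfl⟩
  obtain ⟨Y, hY⟩ : ∃ Y : ℝ → Finset (ℤ × ℤ), Y = fun t => T.filter fun P => |(P.1 : ℝ)| ≤ (2 : ℝ) ^ (k + 1) ∧
    |(P.2 : ℝ) - t * P.1 - s t| ≤ C₁ * S ^ 2 / (2 : ℝ) ^ k := ⟨_, rfl⟩
  have hsub : T ⊆ Z.biUnion Y := by
    intro P hP
    obtain ⟨e, h1, h2, h3, h4, h5, h6, h7, h8, h9⟩ := hT P hP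
    obtain ⟨t, ht, h10⟩ := hnear e S hS h3 (gd_congr h1 hgd) P.1 P.2 h4 h5 h9
    have hfe : fm e n = fm f n := fm_cg fun a b h => (h1 a b h).symm
    have hfg : fm e (n - 1) = fm g (n - 1) := fm_cg h2
    rw [hfe] at ht h10
    rw [hfg] at h10
    rw [mem_biUnion]
    refine ⟨t, (hmem t).2 ht, ?_⟩
    rw [hY]
    simp only [mem_filter]
    refine ⟨hP, h7, ?_⟩
    rw [hs]
    simp only [sub_neg_eq_add]
    refine h10.trans ?_
    exact div_le_div_of_nonneg_left (by positivity) (by positivity) h6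
  have hcard : ∀ t ∈ Z, ((Y t).card : ℝ) ≤ Cs t * ((2 * B + 2 * C₁) * S ^ 2) := by
    intro t ht
    have h1 := hCs t ((hmem t).1 ht) (s t) (C₁ * S ^ 2 / (2 : ℝ) ^ k) ((2 : ℝ) ^ (k + 1)) (one_le_pow₀ (by norm_num))
      (by positivity) (Y t) (by
        intro P hP
        rw [hY] at hP
        simp only [Finset.mem_filter] at hP
        exact hP.2)
    refine h1.trans (mul_le_mul_of_nonneg_left ?_ (hCs0 t))
    have h2 : C₁ * S ^ 2 / (2 : ℝ) ^ k * (2 : ℝ) ^ (k + 1) = 2 * C₁ * S ^ 2 := by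
      have h2' : (2 : ℝ) ^ k ≠ 0 := by positivity
      rw [pow_succ, div_mul_eq_mul_div, div_eq_iff h2']
      ring
    rw [h2]
    have h3 : S ≤ S ^ 2 := by nlinarith
    nlinarith
  have h1 : (T.card : ℝ) ≤ ∑ t ∈ Z, ((Y t).card : ℝ) := by
    have h2 := (card_le_card hsub).trans card_biUnion_le
    exact_mod_cast h2
  calc (T.card : ℝ) ≤ ∑ t ∈ Z, ((Y t).card : ℝ) := h1
    _ ≤ ∑ t ∈ Z, Cs t * ((2 * B + 2 * C₁) * S ^ 2) := sum_le_sum hcard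
    _ = _ := by rw [← sum_mul]; ring


theorem bsj {n m j B H : ℕ} {S : ℝ} (hjm : j + m = n) (hB : 2 ≤ B) (hS : 1 ≤ S) (hSH : S ^ m = H) {g : ℕ → ℕ → ℤ}
    (hg : ∀ a b, |g a b| + 1 ≤ (B : ℤ)) {c : Ix j → ℤ} (hc : ∀ p, |c p| ≤ (H : ℤ)) : Bs n (2 * B) S (Fc g c) := by
  intro a b hab
  have hBr : (2 : ℝ) ≤ B := by exact_mod_cast hB
  have h1 : |(g a b : ℝ)| ≤ B := g_le hg a b
  have h2 : (1 : ℝ) ≤ S ^ (n - a - b) := one_le_pow₀ hS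
  have h3 : |(co c a b : ℝ)| ≤ S ^ (n - a - b) := by
    by_cases h : a + b ≤ j
    · rw [co_of_le c h]
      have h4 : |((c (ix a b h) : ℤ) : ℝ)| ≤ (H : ℝ) := by exact_mod_cast hc (ix a b h)
      refine h4.trans ?_
      rw [← hSH]
      exact pow_le_pow_right₀ hS (by omega)
    · unfold co
      rw [dif_neg h, Int.cast_zero, abs_zero]
      positivity
  unfold Fc
  push_cast
  refine (abs_add_le _ _).trans ?_
  nlinarith

theorem add_one_pow_le (a : ℝ) (ha : 0 ≤ a) (j : ℕ) : (a + 1) ^ j ≤ 2 ^ j * (a ^ j + 1) := by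
  rcases le_total a 1 with h | h
  · calc (a + 1) ^ j ≤ 2 ^ j := pow_le_pow_left₀ (by positivity) (by linarith) j
      _ = 2 ^ j * 1 := (mul_one _).symm
      _ ≤ 2 ^ j * (a ^ j + 1) := by
        have : 0 ≤ a ^ j := by positivity
        gcongr
        linarith
  · calc (a + 1) ^ j ≤ (2 * a) ^ j := pow_le_pow_left₀ (by positivity) (by linarith) j
      _ = 2 ^ j * a ^ j := mul_pow _ _ _
      _ ≤ 2 ^ j * (a ^ j + 1) := by gcongr; linarith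

theorem tailM (n j m E B : ℕ) (hn : 4 ≤ n) (hj : 1 ≤ j) (hj2 : j ≤ 2) (hjm : j + m = n) (hB : 2 ≤ B) (g : ℕ → ℕ → ℤ)
    (hg : ∀ a b, |g a b| + 1 ≤ (B : ℤ)) (hnz : Nz n g) (c0 : ℝ) (hc0 : 0 < c0) (hgd : Gd n c0 g) (v : ℤ → ℤ → ℤ) :
    ∃ A C : ℝ, 1 ≤ A ∧ 0 ≤ C ∧ ∀ (H : ℕ) (S T0 : ℝ), 1 ≤ H → 1 ≤ S → S ^ m = H → A ≤ T0 → ∀ T : Finset (Ix j → ℤ),
    (∀ c ∈ T, (∀ p, |c p| ≤ (H : ℤ)) ∧ ∃ x y : ℤ, |y| ≤ |x| ∧ T0 * S ≤ |(x : ℝ)| ∧ |(x : ℝ)| ≤ ((B * H : ℕ) : ℝ) ^ E ∧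
      ev n (Fc g c) x y = 0 ∧ ev j (co c) x y = v x y) →
    (T.card : ℝ) ≤ C * (2 * (H : ℝ) + 1) ^ (Fintype.card (Ix j) - (j + 1)) * (S ^ 2 * ((H : ℝ) / (T0 * S)) ^ j + S ^ 3) := by
  classical
  obtain ⟨A, C1, hA, hC1, hsc⟩ := scaleM n m E B hn (by omega) hB g hnz c0 hc0 hgd
  obtain ⟨Cd, hCd, hdig⟩ := dig j hj
  have hnr : (0 : ℝ) < (m : ℝ) := by exact_mod_cast (by omega : 0 < m)
  obtain ⟨CK, hCK, hK⟩ := scales E B (by omega) (1 / (m : ℝ)) (by positivity)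
  refine ⟨2 * A, C1 * Cd * 2 ^ j * (2 * 2 ^ j + CK), by linarith, by positivity, ?_⟩
  intro H S T0 hH hS hSH hT0 T hT
  have hH1 : (1 : ℝ) ≤ H := by exact_mod_cast hH
  have hS0 : 0 < S := by linarith
  have hT00 : 0 < T0 := by linarith
  have hTS : 1 ≤ T0 * S := by nlinarith
  have hHη : (H : ℝ) ^ (1 / (m : ℝ)) = S := by
    rw [← hSH, ← Real.rpow_natCast S, ← Real.rpow_mul hS0.le, mul_one_div, div_self hnr.ne', Real.rpow_one]
  obtain ⟨V, hV⟩ : ∃ V : ℝ, V = (2 * (H : ℝ) + 1) ^ (Fintype.card (Ix j) - (j + 1)) := ⟨_, rfl⟩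
  have hV0 : 0 ≤ V := by rw [hV]; positivity
  rw [← hV]
  -- points
  have hP : ∀ c : Ix j → ℤ, ∃ P : ℤ × ℤ, c ∈ T → |P.2| ≤ |P.1| ∧ T0 * S ≤ |(P.1 : ℝ)| ∧ |(P.1 : ℝ)| ≤ ((B * H : ℕ) : ℝ) ^ E ∧
      ev n (Fc g c) P.1 P.2 = 0 ∧ ev j (co c) P.1 P.2 = v P.1 P.2 := by
    intro c
    by_cases hc : c ∈ T
    · obtain ⟨x, y, h⟩ := (hT c hc).2
      exact ⟨(x, y), fun _ => h⟩
    · exact ⟨0, fun h => absurd h hc⟩
  choose P hP using hP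
  have hP0 : ∀ c ∈ T, (P c).1 ≠ 0 := by
    intro c hc h0
    have h1 := (hP c hc).2.1
    rw [h0, Int.cast_zero, abs_zero] at h1
    linarith
  obtain ⟨K1, hK1⟩ : ∃ K1 : ℕ, K1 = Nat.log 2 ((B * H) ^ E) + 1 := ⟨_, rfl⟩
  have hK1' : (K1 : ℝ) ≤ CK * S := by
    have := hK H hH
    rw [hHη] at this
    rw [hK1]
    exact this
  obtain ⟨W, hW⟩ : ∃ W : ℕ → Finset (ℤ × ℤ), W = fun k => (T.image P).filter fun Q =>
    (2 : ℝ) ^ k ≤ |(Q.1 : ℝ)| ∧ |(Q.1 : ℝ)| ≤ 2 ^ (k + 1) := ⟨_, rfl⟩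
  have hsub : T ⊆ (range K1).biUnion fun k => (W k).biUnion fun Q => T.filter fun c => P c = Q := by
    intro c hc
    obtain ⟨h1, h2, h3, h4, h5⟩ := hP c hc
    have hn0 : (P c).1.natAbs ≠ 0 := Int.natAbs_ne_zero.2 (hP0 c hc)
    have habs : |((P c).1 : ℝ)| = (((P c).1.natAbs : ℕ) : ℝ) := by
      rw [Nat.cast_natAbs, Int.cast_abs]
    have h6 : (P c).1.natAbs ≤ (B * H) ^ E := by
      rw [habs] at h3
      exact_mod_cast h3
    have h7 : 2 ^ Nat.log 2 (P c).1.natAbs ≤ (P c).1.natAbs := Nat.pow_log_le_self 2 hn0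
    have h8 : (P c).1.natAbs < 2 ^ (Nat.log 2 (P c).1.natAbs + 1) := Nat.lt_pow_succ_log_self (by norm_num) _
    have h9 : Nat.log 2 (P c).1.natAbs ≤ Nat.log 2 ((B * H) ^ E) := Nat.log_mono_right h6
    rw [mem_biUnion]
    refine ⟨Nat.log 2 (P c).1.natAbs, mem_range.2 (by omega), ?_⟩
    rw [mem_biUnion]
    refine ⟨P c, ?_, mem_filter.2 ⟨hc, rfl⟩⟩
    rw [hW]
    simp only [mem_filter]
    refine ⟨mem_image_of_mem _ hc, ?_, ?_⟩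
    · rw [habs]
      exact_mod_cast h7
    · rw [habs]
      exact_mod_cast h8.le
  obtain ⟨q, hq⟩ : ∃ q : ℕ → ℝ, q = fun k => Cd * ((H : ℝ) / 2 ^ k + 1) ^ j * V := ⟨_, rfl⟩
  have hq0 : ∀ k, 0 ≤ q k := by
    intro k
    rw [hq]
    positivity
  have hfib : ∀ k, ∀ Q ∈ W k, ((T.filter fun c => P c = Q).card : ℝ) ≤ q k := by
    intro k Q hQ
    rw [hW] at hQ
    simp only [mem_filter] at hQ
    obtain ⟨hQ1, hQ2, hQ3⟩ := hQ
    obtain ⟨c1, hc1, rfl⟩ := mem_image.1 hQ1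
    obtain ⟨h1, h2, h3, h4, h5⟩ := hP c1 hc1
    have h6 := hdig H hH (P c1).1 (P c1).2 (v (P c1).1 (P c1).2) (Or.inl (hP0 c1 hc1)) (T.filter fun c => P c = P c1) (by
      intro c hc
      rw [mem_filter] at hc
      refine ⟨(hT c hc.1).1, ?_⟩
      rw [← hc.2]
      exact (hP c hc.1).2.2.2.2)
    have h7 : |((P c1).2 : ℝ)| ≤ |((P c1).1 : ℝ)| := by exact_mod_cast h1
    rw [max_eq_left h7, ← hV] at h6
    refine h6.trans ?_
    rw [hq]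
    simp only
    have h8 : (H : ℝ) / |((P c1).1 : ℝ)| ≤ H / 2 ^ k := div_le_div_of_nonneg_left (by positivity) (by positivity) hQ2
    gcongr
  have hcardT : (T.card : ℝ) ≤ ∑ k ∈ range K1, ((W k).card : ℝ) * q k := by
    have h1 : T.card ≤ ∑ k ∈ range K1, ∑ Q ∈ W k, (T.filter fun c => P c = Q).card :=
      (card_le_card hsub).trans (card_biUnion_le.trans (sum_le_sum fun k _ => card_biUnion_le))
    have h2 : (T.card : ℝ) ≤ ∑ k ∈ range K1, ∑ Q ∈ W k, ((T.filter fun c => P c = Q).card : ℝ) := by exact_mod_cast h1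
    refine h2.trans (sum_le_sum fun k _ => ?_)
    refine (sum_le_sum (hfib k)).trans ?_
    rw [sum_const, nsmul_eq_mul]
  have hWm : ∀ k, ∀ Q ∈ W k, ∃ c ∈ T, P c = Q ∧ (2 : ℝ) ^ k ≤ |(Q.1 : ℝ)| ∧ |(Q.1 : ℝ)| ≤ 2 ^ (k + 1) := by
    intro k Q hQ
    rw [hW] at hQ
    simp only [mem_filter] at hQ
    obtain ⟨c, hc, hcQ⟩ := mem_image.1 hQ.1
    exact ⟨c, hc, hcQ, hQ.2⟩
  -- the first scale
  have hex : ∃ k : ℕ, T0 * S ≤ (2 : ℝ) ^ (k + 1) := by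
    obtain ⟨k, hk⟩ := pow_unbounded_of_one_lt (T0 * S) (by norm_num : (1 : ℝ) < 2)
    exact ⟨k, hk.le.trans (pow_le_pow_right₀ (by norm_num) (by omega))⟩
  obtain ⟨k0, hk0, hk0'⟩ : ∃ k0 : ℕ, T0 * S ≤ (2 : ℝ) ^ (k0 + 1) ∧ ∀ k : ℕ, T0 * S ≤ (2 : ℝ) ^ (k + 1) → k0 ≤ k := by
    classical
    exact ⟨Nat.find hex, Nat.find_spec hex, fun k hk => Nat.find_min' hex hk⟩
  have hempty : ∀ k, k < k0 → W k = ∅ := by
    intro k hk
    rw [eq_empty_iff_forall_notMem]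
    intro Q hQ
    obtain ⟨c, hc, hcQ, h1, h2⟩ := hWm k Q hQ
    have h3 := (hP c hc).2.1
    rw [hcQ] at h3
    have h4 := hk0' k (h3.trans h2)
    omega
  have hhigh : ∀ k, k0 ≤ k → ((W k).card : ℝ) ≤ C1 * S ^ 2 := by
    intro k hk
    refine hsc H S hH hS hSH g k (W k) fun Q hQ => ?_
    obtain ⟨c, hc, hcQ, h1, h2⟩ := hWm k Q hQ
    obtain ⟨p1, p2, p3, p4, p5⟩ := hP c hc
    rw [← hcQ] at h1 h2 ⊢
    refine ⟨Fc g c, ?_, ?_, bsj hjm hB hS hSH hg (hT c hc).1, p1, ?_, h1, h2, p3, p4⟩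
    · intro a b hab
      unfold Fc co
      rw [dif_neg (by omega), add_zero]
    · intro a b hab
      unfold Fc co
      rw [dif_neg (by omega), add_zero]
    · nlinarith
  have hs : ∑ k ∈ range K1, ((W k).card : ℝ) * q k ≤ ∑ k ∈ Ico k0 K1, C1 * S ^ 2 * Cd * 2 ^ j * V * ((H : ℝ) ^ j * (1 / 2 ^ j) ^ k + 1) := by
    have h1 : ∑ k ∈ range K1, ((W k).card : ℝ) * q k ≤ ∑ k ∈ Ico k0 K1, ((W k).card : ℝ) * q k := by
      refine le_of_eq (sum_subset ?_ ?_).symm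
      · intro k hk
        exact mem_range.2 (mem_Ico.1 hk).2
      · intro k hk hk'
        rw [mem_range] at hk
        rw [mem_Ico] at hk'
        rw [hempty k (by omega), card_empty, Nat.cast_zero, zero_mul]
    refine h1.trans (sum_le_sum fun k hk => ?_)
    refine (mul_le_mul_of_nonneg_right (hhigh k (mem_Ico.1 hk).1) (hq0 k)).trans ?_
    rw [hq]
    simp only
    have h2 := add_one_pow_le ((H : ℝ) / 2 ^ k) (by positivity) j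
    have h3 : ((H : ℝ) / 2 ^ k) ^ j = (H : ℝ) ^ j * (1 / 2 ^ j) ^ k := by
      rw [div_pow, one_div, inv_pow, ← pow_mul, ← pow_mul, mul_comm k j, div_eq_mul_inv]
    rw [h3] at h2
    calc C1 * S ^ 2 * (Cd * ((H : ℝ) / 2 ^ k + 1) ^ j * V) ≤ C1 * S ^ 2 * (Cd * (2 ^ j * ((H : ℝ) ^ j * (1 / 2 ^ j) ^ k + 1)) * V) := by gcongr
      _ = _ := by ring
  refine hcardT.trans (hs.trans ?_)
  rw [← mul_sum, sum_add_distrib, ← mul_sum, sum_const, nsmul_eq_mul, mul_one]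
  have hr0 : (0 : ℝ) ≤ 1 / 2 ^ j := by positivity
  have hr1 : (1 : ℝ) / 2 ^ j ≤ 1 / 2 := by
    refine one_div_le_one_div_of_le (by norm_num) ?_
    calc (2 : ℝ) = 2 ^ 1 := (pow_one _).symm
      _ ≤ 2 ^ j := pow_le_pow_right₀ (by norm_num) hj
  have h2 : ∑ k ∈ Ico k0 K1, (1 / 2 ^ j : ℝ) ^ k ≤ 2 * (2 / (T0 * S)) ^ j := by
    refine (geom_sum_Ico_le_of_lt_one hr0 (by linarith)).trans ?_
    have h3 : (1 / 2 ^ j : ℝ) ^ k0 ≤ (2 / (T0 * S)) ^ j := by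
      have h4 : (1 / 2 ^ j : ℝ) ^ k0 = (1 / 2 ^ k0) ^ j := by
        rw [one_div, one_div, inv_pow, inv_pow, ← pow_mul, ← pow_mul, mul_comm]
      rw [h4]
      refine pow_le_pow_left₀ (by positivity) ?_ j
      rw [div_le_div_iff₀ (by positivity) (by positivity), one_mul]
      rw [pow_succ] at hk0
      linarith
    rw [div_le_iff₀ (by linarith)]
    calc (1 / 2 ^ j : ℝ) ^ k0 ≤ (2 / (T0 * S)) ^ j := h3
      _ = 2 * (2 / (T0 * S)) ^ j * (1 / 2) := by ring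
      _ ≤ 2 * (2 / (T0 * S)) ^ j * (1 - 1 / 2 ^ j) := by
        refine mul_le_mul_of_nonneg_left (by linarith) (by positivity)
  have h3 : (((Ico k0 K1).card : ℕ) : ℝ) ≤ CK * S := by
    refine le_trans ?_ hK1'
    rw [Nat.card_Ico]
    exact_mod_cast Nat.sub_le _ _
  have h4 : (H : ℝ) ^ j * (2 * (2 / (T0 * S)) ^ j) = 2 * 2 ^ j * ((H : ℝ) / (T0 * S)) ^ j := by
    rw [div_pow, div_pow]
    ring
  calc C1 * S ^ 2 * Cd * 2 ^ j * V * ((H : ℝ) ^ j * ∑ k ∈ Ico k0 K1, (1 / 2 ^ j : ℝ) ^ k + (((Ico k0 K1).card : ℕ) : ℝ))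
      ≤ C1 * S ^ 2 * Cd * 2 ^ j * V * ((H : ℝ) ^ j * (2 * (2 / (T0 * S)) ^ j) + CK * S) := by gcongr
    _ = C1 * Cd * 2 ^ j * V * (2 * 2 ^ j * (S ^ 2 * ((H : ℝ) / (T0 * S)) ^ j) + CK * S ^ 3) := by rw [h4]; ring
    _ ≤ C1 * Cd * 2 ^ j * V * ((2 * 2 ^ j + CK) * (S ^ 2 * ((H : ℝ) / (T0 * S)) ^ j + S ^ 3)) := by
      refine mul_le_mul_of_nonneg_left ?_ (by positivity)
      have h5 : 0 ≤ S ^ 2 * ((H : ℝ) / (T0 * S)) ^ j := by positivity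
      have h6 : 0 ≤ S ^ 3 := by positivity
      have h7 : (0 : ℝ) ≤ 2 * 2 ^ j := by positivity
      nlinarith [mul_nonneg hCK h5, mul_nonneg h7 h6]
    _ = _ := by ring

end Pool.Agent.H82.TO
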